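import Pool.Agent.H695R3.SF.Defs

namespace Pool.Agent.H695R3.SF

open Finset

namespace A_ns

theorem good_inv {V : Type} [Fintype V] (m : ℕ) (G : SimpleGraph V) (F F' : SimpleGraph V)
    (v v' : V → Option (Bool ⊕ Fin m)) (π : Equiv.Perm V)
    (hF : ∀ i j, F.Adj i j ↔ F'.Adj (π i) (π j)) (hv : ∀ i, v' (π i) = v i)
    (h : GoodC m G F v) : GoodC m G F' v' := by
  obtain ⟨h1, σ, g, h2, h3, h4⟩ := h
  refine ⟨?_, π.symm.trans σ, fun b => (g (π.symm b)).map π, ?_, ?_, ?_⟩
  · intro i j hij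
    obtain ⟨i, rfl⟩ := π.surjective i
    obtain ⟨j, rfl⟩ := π.surjective j
    rcases h1 i j ((hF i j).2 hij) with h | ⟨k, hk1, hk2⟩
    · left; rw [hv]; exact h
    · right
      exact ⟨π k, fun h => hk1 (π.injective h), (hF i k).1 hk2⟩
  · intro i j hij
    obtain ⟨i, rfl⟩ := π.surjective i
    obtain ⟨j, rfl⟩ := π.surjective j
    simp only [Equiv.trans_apply, Equiv.symm_apply_apply]
    exact h2 i j ((hF i j).2 hij)
  · intro b i hb
    obtain ⟨b, rfl⟩ := π.surjective b
    obtain ⟨i, rfl⟩ := π.surjective i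
    simp only [Equiv.symm_apply_apply, Option.map_eq_some_iff] at hb
    obtain ⟨a, ha, hai⟩ := hb
    have hai' : a = i := π.injective hai
    subst hai'
    obtain ⟨h5, h6, h7⟩ := h3 b a ha
    refine ⟨?_, ?_, ?_⟩
    · intro j hj
      obtain ⟨j, rfl⟩ := π.surjective j
      exact h5 j ((hF b j).2 hj)
    · rw [hv]; exact h6
    · simp only [Equiv.trans_apply, Equiv.symm_apply_apply]
      exact h7
  · intro i t hit
    obtain ⟨i, rfl⟩ := π.surjective i
    rw [hv] at hit
    refine (h4 i t hit).trans (le_of_eq ?_)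
    apply Nat.card_congr
    refine Equiv.subtypeEquiv π ?_
    intro b
    simp only [Equiv.symm_apply_apply, Option.map_eq_some_iff]
    constructor
    · intro h
      exact ⟨i, h, rfl⟩
    · rintro ⟨a, ha, hai⟩
      rw [ha, π.injective hai]

theorem good_none {V : Type} [Fintype V] (m : ℕ) (G F : SimpleGraph V) :
    GoodC m G F (fun _ => none) ↔ Emb F G := by
  constructor
  · rintro ⟨_, σ, _, h2, _, _⟩
    exact ⟨σ, h2⟩
  · rintro ⟨σ, h2⟩
    refine ⟨fun i j _ => Or.inl (by simp), σ, fun _ => none, h2, ?_, ?_⟩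
    · intro b i h
      exact absurd h (by simp)
    · intro i t h
      exact absurd h (by simp)

end A_ns

open A_ns in
theorem A (h1 : S_A1) (h2 : S_A2) (h3 : S_P1) : S_A := by
  intro V _ G x hx
  obtain ⟨y, rfl⟩ : ∃ y, x = y + 1 := ⟨x - 1, by omega⟩
  have h4 := h3 V (Bool ⊕ Fin (Fintype.card V)) (fun F v => GoodC (Fintype.card V) G F v)
    (fun F F' v v' π hF hv h => good_inv (Fintype.card V) G F F' v v' π hF hv h) y
  have h5 : Nat.card {F : SimpleGraph V // GoodC (Fintype.card V) G F (fun _ => none)} = lam G := by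
    unfold lam
    apply Nat.card_congr
    exact Equiv.subtypeEquivRight fun F => good_none _ G F
  rw [← h5, ← h4]
  apply sum_congr rfl
  intro t _
  congr 2
  have h6 : y + 1 + (Fintype.card V - t) = (y + (Fintype.card V - t)) + 1 := by omega
  rw [h6, h1, h2]

end Pool.Agent.H695R3.SF
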