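import Pool.Agent.H695R3.SF.Defs

set_option autoImplicit false

namespace Pool.Agent.H695R3.SF

/-- A1: the number of classes of spanning subgraphs of `leafy G x` is the number of orbits of the
realised normal forms -/
theorem A1 (h0 : S_N0) (h1 : S_N1) (h2 : S_N2) (h3 : S_N3) : S_A1 := by
  intro V _ G x
  choose F a hN hR hI using
    fun H : {H : SimpleGraph (V ⊕ V × Fin x) // H ≤ leafy G x} => h2 V G x H.1 H.2
  have key : ∀ H H' : {H : SimpleGraph (V ⊕ V × Fin x) // H ≤ leafy G x},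
      Nonempty (H.1 ≃g H'.1) ↔ EqvC (F H, a H) (F H', a H') := by
    intro H H'
    rw [← h0, ← h1 V (F H) (F H') (a H) (a H') (hN H) (hN H')]
    obtain ⟨e⟩ := hI H
    obtain ⟨e'⟩ := hI H'
    constructor
    · rintro ⟨i⟩
      exact ⟨(e.symm.trans i).trans e'⟩
    · rintro ⟨i⟩
      exact ⟨(e.trans i).trans e'.symm⟩
  let P : SimpleGraph V × (V → ℕ) → Prop := fun c => Nrm c.1 c.2 ∧ RealC G x c.1 c.2
  let f : {H : SimpleGraph (V ⊕ V × Fin x) // H ≤ leafy G x} → Quotient (cSetoid P) :=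
    fun H => Quotient.mk (cSetoid P) ⟨(F H, a H), hN H, hR H⟩
  have hf : ∀ H H', (isoSetoid (leafy G x)).r H H' → f H = f H' := by
    intro H H' h
    exact Quotient.sound (s := cSetoid P) ((key H H').1 h)
  show Nat.card (Quotient (isoSetoid (leafy G x))) = Nat.card (Quotient (cSetoid P))
  refine Nat.card_congr (Equiv.ofBijective (Quotient.lift f hf) ⟨?_, ?_⟩)
  · intro q q' hq
    induction q using Quotient.inductionOn with
    | _ H =>
      induction q' using Quotient.inductionOn with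
      | _ H' =>
        have h4 : f H = f H' := hq
        have h5 : EqvC (F H, a H) (F H', a H') := Quotient.exact (s := cSetoid P) h4
        exact Quotient.sound ((key H H').2 h5)
  · intro q
    induction q using Quotient.inductionOn with
    | _ c =>
      obtain ⟨⟨F', a'⟩, hN', hR'⟩ := c
      obtain ⟨H, hH, ⟨e⟩⟩ := h3 V G x F' a' hR'
      refine ⟨Quotient.mk _ ⟨H, hH⟩, ?_⟩
      show f ⟨H, hH⟩ = _
      apply Quotient.sound (s := cSetoid P)
      show EqvC (F ⟨H, hH⟩, a ⟨H, hH⟩) (F', a')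
      rw [← h1 V _ _ _ _ (hN ⟨H, hH⟩) hN']
      obtain ⟨e'⟩ := hI ⟨H, hH⟩
      exact ⟨e'.symm.trans e⟩

end Pool.Agent.H695R3.SF
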