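import Pool.Agent.H695R3.SF.Defs

/-! Task A2 (helper51): values in classes. -/

namespace Pool.Agent.H695R3.SF

open Finset

namespace A2_ns

/-- the value of a colour -/
def phi (m y : ℕ) : (Bool ⊕ Fin m) ⊕ Fin y → ℕ
  | Sum.inl (Sum.inl b) => if b then 1 else 0
  | Sum.inl (Sum.inr t) => y + 2 + t.val
  | Sum.inr j => j.val + 2

theorem phi_inj (m y : ℕ) : Function.Injective (phi m y) := by
  rintro ((b | t) | j) ((b' | t') | j') h
  · cases b <;> cases b' <;> simp [phi] at h ⊢
  · cases b <;> simp [phi] at h <;> omega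
  · cases b <;> simp [phi] at h
  · cases b' <;> simp [phi] at h <;> omega
  · simp only [phi] at h
    have : t = t' := Fin.ext (by omega)
    rw [this]
  · simp only [phi] at h
    have := j'.isLt
    omega
  · cases b' <;> simp [phi] at h
  · simp only [phi] at h
    have := j.isLt
    omega
  · simp only [phi] at h
    have : j = j' := Fin.ext (by omega)
    rw [this]

theorem phi_surj (m y n : ℕ) (hn : n ≤ y + 1 + m) : ∃ c, phi m y c = n := by
  by_cases h0 : n = 0
  · exact ⟨Sum.inl (Sum.inl false), by simp [phi, h0]⟩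
  by_cases h1 : n = 1
  · exact ⟨Sum.inl (Sum.inl true), by simp [phi, h1]⟩
  by_cases h2 : n < y + 2
  · exact ⟨Sum.inr ⟨n - 2, by omega⟩, by simp only [phi]; omega⟩
  · exact ⟨Sum.inl (Sum.inr ⟨n - (y + 2), by omega⟩), by simp only [phi]; omega⟩

theorem phi_zero {m y : ℕ} (c : (Bool ⊕ Fin m) ⊕ Fin y) :
    phi m y c = 0 ↔ coll c = some (Sum.inl false) := by
  rcases c with (b | t) | j
  · cases b <;> simp [phi, coll]
  · simp [phi, coll]
  · simp [phi, coll]

theorem phi_le {m y : ℕ} (c : (Bool ⊕ Fin m) ⊕ Fin y) (N : ℕ) :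
    phi m y c ≤ y + 1 + N ↔ ∀ t : Fin m, coll c = some (Sum.inr t) → t.val + 1 ≤ N := by
  rcases c with (b | t) | j
  · constructor
    · intro _ t h
      simp [coll] at h
    · intro _
      cases b <;> simp [phi] <;> omega
  · simp only [phi, coll, Option.some.injEq, Sum.inr.injEq]
    constructor
    · rintro h t' rfl
      omega
    · intro h
      have := h t rfl
      omega
  · constructor
    · intro _ t h
      simp [coll] at h
    · intro _
      simp only [phi]
      have := j.isLt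
      omega

theorem key {V : Type} [Fintype V] (G F : SimpleGraph V) (y : ℕ)
    (v : V → (Bool ⊕ Fin (Fintype.card V)) ⊕ Fin y) :
    GoodC (Fintype.card V) G F (fun i => coll (v i)) ↔
      Nrm F (fun i => phi _ y (v i)) ∧ RealC G (y + 1) F (fun i => phi _ y (v i)) := by
  unfold GoodC Nrm RealC
  simp only [phi_zero, phi_le, Ne]

/-- the map on configurations -/
def mp {V : Type} [Fintype V] (G : SimpleGraph V) (y : ℕ)
    (c : {c : SimpleGraph V × (V → (Bool ⊕ Fin (Fintype.card V)) ⊕ Fin y) //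
      GoodC (Fintype.card V) G c.1 (fun v => coll (c.2 v))}) :
    {c : SimpleGraph V × (V → ℕ) // Nrm c.1 c.2 ∧ RealC G (y + 1) c.1 c.2} :=
  ⟨(c.1.1, fun i => phi _ y (c.1.2 i)), (key G c.1.1 y c.1.2).1 c.2⟩

theorem mp_bij {V : Type} [Fintype V] (G : SimpleGraph V) (y : ℕ) :
    Function.Bijective (mp G y) := by
  constructor
  · rintro ⟨⟨F, v⟩, hc⟩ ⟨⟨F', v'⟩, hc'⟩ h
    unfold mp at h
    simp only [Subtype.mk.injEq, Prod.mk.injEq] at h
    obtain ⟨h1, h2⟩ := h
    have h3 : v = v' := by
      funext i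
      exact phi_inj _ _ (congrFun h2 i)
    subst h1 h3
    rfl
  · rintro ⟨⟨F, a⟩, hN, hR⟩
    have hb : ∀ i, ∃ c, phi (Fintype.card V) y c = a i := by
      intro i
      apply phi_surj
      obtain ⟨π, h, -, -, h3⟩ := hR
      refine (h3 i).trans ?_
      have : Nat.card {b : V // h b = some i} ≤ Fintype.card V := by
        rw [← Nat.card_eq_fintype_card]
        exact Nat.card_le_card_of_injective _ Subtype.val_injective
      omega
    choose v hv using hb
    have hv' : (fun i => phi (Fintype.card V) y (v i)) = a := funext hv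
    refine ⟨⟨(F, v), ?_⟩, ?_⟩
    · rw [key]
      simp only [hv']
      exact ⟨hN, hR⟩
    · unfold mp
      simp only [hv']

end A2_ns

theorem A2 : S_A2 := by
  intro V _ G y
  unfold orb
  symm
  refine Nat.card_congr (Quotient.congr (Equiv.ofBijective _ (A2_ns.mp_bij G y)) ?_)
  rintro ⟨⟨F, v⟩, hc⟩ ⟨⟨F', v'⟩, hc'⟩
  constructor
  · rintro ⟨π, h1, h2⟩
    exact ⟨π, h1, fun u => congrArg (A2_ns.phi _ y) (h2 u)⟩
  · rintro ⟨π, h1, h2⟩
    exact ⟨π, h1, fun u => A2_ns.phi_inj _ _ (h2 u)⟩

end Pool.Agent.H695R3.SF
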