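import Pool.Agent.H695R3.SF.Defs

namespace Pool.Agent.H695R3.SF

open Finset

theorem B (h4 : S_B4) (h5 : S_B5) : S_B := by
  intro W _ _ C R₀ hR
  obtain ⟨A, B, hA, hAc, hB, hf⟩ := h4 W C
  have h := h5 (Fintype.card W + 1) (2 * Fintype.card W + 2) A B
    (fun R => (lam (res C R) : ℚ)) R₀ hA (by omega) (fun R hR' => hf R (le_trans hR hR'))
  have hfac : (((Fintype.card W + 1).factorial : ℕ) : ℚ) * A.coeff (Fintype.card W + 1) =
      ((Fintype.card W + 1 : ℕ) : ℚ) * (NN C : ℚ) := by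
    rw [Nat.factorial_succ, ← hAc]; push_cast; ring
  rw [mul_assoc, hfac, ← mul_assoc] at h
  have h' : (((∑ k ∈ range (Fintype.card W + 2), (-1 : ℤ) ^ k *
      ((Fintype.card W + 1).choose k) * 2 ^ k *
      ∑ j ∈ range (2 * Fintype.card W + 3), (-1 : ℤ) ^ j * ((2 * Fintype.card W + 2).choose j) *
      (lam (res C (R₀ + (Fintype.card W + 1 - k) + (2 * Fintype.card W + 2 - j))) : ℤ)) : ℤ) : ℚ) =
      ((2 ^ (R₀ + (Fintype.card W + 1)) * ((Fintype.card W + 1 : ℕ) : ℤ) * (NN C : ℤ) : ℤ) : ℚ) := by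
    push_cast at h ⊢
    exact h
  exact_mod_cast h'

end Pool.Agent.H695R3.SF
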