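import Pool.Agent.H695R3.SF.Defs

/-! Task B1 (helper267): separation of the graphs with a vertex of large degree. -/

namespace Pool.Agent.H695R3.SF

open Finset

namespace B1_ns

/-- the degree -/
noncomputable def dg {V : Type} (F : SimpleGraph V) (v : V) : ℕ := Nat.card {u : V // F.Adj v u}

theorem dg_le_of_emb {V : Type} [Finite V] {F G : SimpleGraph V} (π : Equiv.Perm V)
    (h : ∀ u v, F.Adj u v → G.Adj (π u) (π v)) (v : V) : dg F v ≤ dg G (π v) := by
  refine Nat.card_le_card_of_injective
    (fun u : {u : V // F.Adj v u} => (⟨π u.1, h v u.1 u.2⟩ : {u : V // G.Adj (π v) u})) ?_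
  intro a b hab
  exact Subtype.ext (π.injective (congrArg Subtype.val hab))

theorem dg_comap {V : Type} (F : SimpleGraph V) (σ : Equiv.Perm V) (v : V) :
    dg (F.comap σ) v = dg F (σ v) := by
  refine Nat.card_congr (σ.subtypeEquiv fun u => ?_)
  rw [SimpleGraph.comap_adj]

theorem emb_comap {V : Type} {F G : SimpleGraph V} (σ : Equiv.Perm V) (h : Emb F G) :
    Emb (F.comap σ) G := by
  obtain ⟨π, hπ⟩ := h
  exact ⟨σ.trans π, fun u v huv => hπ _ _ huv⟩

/-- in `res C R` only the root has large degree -/
theorem dg_res {W : Type} [Fintype W] [Nonempty W] (C : SimpleGraph (Option W)) (R : ℕ)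
    (y : W ⊕ Fin R) : dg (res C R) (some y) ≤ Fintype.card W := by
  classical
  rcases y with w | i
  · -- neighbours of `w`
    have h : dg (res C R) (some (Sum.inl w)) ≤ Nat.card (Option {w' : W // w' ≠ w}) := by
      refine Nat.card_le_card_of_injective
        (fun u : {u // (res C R).Adj (some (Sum.inl w)) u} =>
          match u with
          | ⟨none, _⟩ => (none : Option {w' : W // w' ≠ w})
          | ⟨some (Sum.inl w'), h⟩ => some ⟨w', fun e => by
              subst e; exact (res C R).loopless.irrefl _ h⟩
          | ⟨some (Sum.inr j), h⟩ => none) ?_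
      rintro ⟨_ | (u | u), hu⟩ ⟨_ | (v | v), hv⟩ huv
      · rfl
      · simp at huv
      · exact absurd hv (fun h => h)
      · simp at huv
      · simp only [Option.some.injEq, Subtype.mk.injEq] at huv
        subst huv; rfl
      · exact absurd hv (fun h => h)
      · exact absurd hu (fun h => h)
      · exact absurd hu (fun h => h)
      · exact absurd hu (fun h => h)
    refine h.trans ?_
    rw [Finite.card_option, Nat.card_eq_fintype_card, Fintype.card_subtype_compl,
      Fintype.card_subtype_eq]
    have : 0 < Fintype.card W := Fintype.card_pos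
    omega
  · have h : dg (res C R) (some (Sum.inr i)) ≤ Nat.card Unit := by
      refine Nat.card_le_card_of_injective (fun _ => ()) ?_
      rintro ⟨_ | u, hu⟩ ⟨_ | v, hv⟩ _
      · rfl
      · exact absurd hv (fun h => h)
      · exact absurd hu (fun h => h)
      · exact absurd hu (fun h => h)
    refine h.trans ?_
    rw [Nat.card_unique]
    exact Fintype.card_pos

theorem rdeg_eq {Y : Type} (F : SimpleGraph (Option Y)) : rdeg F = dg F none := by
  refine Nat.card_congr ⟨fun y => ⟨some y.1, y.2⟩, fun u => match u with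
    | ⟨none, h⟩ => (F.loopless.irrefl _ h).elim
    | ⟨some y, h⟩ => ⟨y, h⟩, fun y => rfl, ?_⟩
  rintro ⟨_ | y, h⟩
  · exact (F.loopless.irrefl _ h).elim
  · rfl

theorem emb_of_rEmb {Y : Type} {F G : SimpleGraph (Option Y)} (h : REmb F G) : Emb F G := by
  obtain ⟨π, hπ⟩ := h
  exact ⟨Equiv.optionCongr π, fun u v huv => hπ u v huv⟩

theorem rEmb_of {Y : Type} {F G : SimpleGraph (Option Y)} (π : Equiv.Perm (Option Y))
    (h : ∀ u v, F.Adj u v → G.Adj (π u) (π v)) (h0 : π none = none) : REmb F G := by
  have hmap : ∀ u : Option Y, u.map (Equiv.removeNone π) = π u := by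
    rintro (_ | y)
    · exact h0.symm
    · rw [Option.map_some]
      apply Equiv.removeNone_some
      rw [← Option.ne_none_iff_exists']
      intro h1
      rw [← h0] at h1
      exact Option.some_ne_none y (π.injective h1)
  exact ⟨Equiv.removeNone π, fun u v huv => by rw [hmap, hmap]; exact h u v huv⟩

end B1_ns

open B1_ns in
theorem B1 : S_B1 := by
  classical
  intro W _ _ C R
  let _ : Fintype (SimpleGraph (Option (W ⊕ Fin R))) := Fintype.ofFinite _
  obtain ⟨G, hG⟩ : ∃ G, G = res C R := ⟨_, rfl⟩
  obtain ⟨c, hc⟩ : ∃ c, c = Fintype.card W := ⟨_, rfl⟩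
  have hroot : ∀ (F : SimpleGraph (Option (W ⊕ Fin R))) (π : Equiv.Perm (Option (W ⊕ Fin R))),
      (∀ u v, F.Adj u v → G.Adj (π u) (π v)) → ∀ v, c + 1 ≤ dg F v → π v = none := by
    intro F π hπ v hv
    by_contra hne
    obtain ⟨y, hy⟩ := Option.ne_none_iff_exists'.1 hne
    have h1 := dg_le_of_emb π hπ v
    rw [hy, hG] at h1
    have h2 := dg_res C R y
    omega
  rw [← hG, ← hc]
  unfold lam
  rw [Nat.card_eq_fintype_card, Nat.card_eq_fintype_card, Nat.card_eq_fintype_card,
    Fintype.card_subtype, Fintype.card_subtype, Fintype.card_subtype]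
  rw [← Finset.card_filter_add_card_filter_not (s := univ.filter fun F => Emb F G)
    (fun F : SimpleGraph (Option (W ⊕ Fin R)) => DegLe F c), Finset.filter_filter,
    Finset.filter_filter]
  congr 1
  have hU : univ.filter (fun F : SimpleGraph (Option (W ⊕ Fin R)) => Emb F G ∧ ¬ DegLe F c) =
      univ.biUnion (fun v : Option (W ⊕ Fin R) =>
        univ.filter (fun F : SimpleGraph (Option (W ⊕ Fin R)) => Emb F G ∧ c + 1 ≤ dg F v)) := by
    ext F
    simp only [mem_filter, mem_univ, true_and, mem_biUnion]
    constructor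
    · rintro ⟨h1, h2⟩
      unfold DegLe at h2
      push Not at h2
      obtain ⟨v, hv⟩ := h2
      exact ⟨v, h1, hv⟩
    · rintro ⟨v, h1, h2⟩
      refine ⟨h1, fun h3 => ?_⟩
      have h4 := h3 v
      unfold dg at h2
      omega
  rw [hU, Finset.card_biUnion]
  · have hv : ∀ v : Option (W ⊕ Fin R),
        (univ.filter (fun F : SimpleGraph (Option (W ⊕ Fin R)) => Emb F G ∧ c + 1 ≤ dg F v)).card =
        (univ.filter (fun F : SimpleGraph (Option (W ⊕ Fin R)) => REmb F G ∧ c + 1 ≤ rdeg F)).card := by
      intro v
      have h1 : (univ.filter (fun F : SimpleGraph (Option (W ⊕ Fin R)) =>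
          REmb F G ∧ c + 1 ≤ rdeg F)) = (univ.filter (fun F : SimpleGraph (Option (W ⊕ Fin R)) =>
          Emb F G ∧ c + 1 ≤ dg F none)) := by
        ext F
        simp only [mem_filter, mem_univ, true_and, rdeg_eq]
        constructor
        · rintro ⟨h2, h3⟩
          exact ⟨emb_of_rEmb h2, h3⟩
        · rintro ⟨⟨π, hπ⟩, h3⟩
          exact ⟨rEmb_of π hπ (hroot F π hπ none h3), h3⟩
      rw [h1]
      refine Finset.card_bij (fun F _ => F.comap (Equiv.swap v none)) ?_ ?_ ?_
      · intro F hF
        simp only [mem_filter, mem_univ, true_and] at hF ⊢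
        refine ⟨emb_comap _ hF.1, ?_⟩
        rw [dg_comap, Equiv.swap_apply_right]
        exact hF.2
      · intro F _ F' _ h
        ext a b
        have h2 : (F.comap (Equiv.swap v none)).Adj (Equiv.swap v none a) (Equiv.swap v none b) ↔
            (F'.comap (Equiv.swap v none)).Adj (Equiv.swap v none a) (Equiv.swap v none b) := by
          rw [h]
        rw [SimpleGraph.comap_adj, SimpleGraph.comap_adj, Equiv.swap_apply_self,
          Equiv.swap_apply_self] at h2
        exact h2
      · intro F hF
        simp only [mem_filter, mem_univ, true_and] at hF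
        refine ⟨F.comap (Equiv.swap v none), ?_, ?_⟩
        · simp only [mem_filter, mem_univ, true_and]
          refine ⟨emb_comap _ hF.1, ?_⟩
          rw [dg_comap, Equiv.swap_apply_left]
          exact hF.2
        · ext a b
          rw [SimpleGraph.comap_adj, SimpleGraph.comap_adj, Equiv.swap_apply_self,
            Equiv.swap_apply_self]
    rw [Finset.sum_congr rfl fun v _ => hv v, Finset.sum_const, smul_eq_mul, Finset.card_univ,
      Fintype.card_option, Fintype.card_sum, Fintype.card_fin, hc]
  · intro v _ v' _ hne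
    rw [Function.onFun, Finset.disjoint_left]
    intro F hF hF'
    simp only [mem_filter, mem_univ, true_and] at hF hF'
    obtain ⟨⟨π, hπ⟩, h1⟩ := hF
    have h2 := hroot F π hπ v h1
    have h3 := hroot F π hπ v' hF'.2
    exact hne (π.injective (h2.trans h3.symm))

end Pool.Agent.H695R3.SF
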