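import Pool.Agent.H695R3.SF.Defs

/-! B2: the graphs with small degrees. -/

namespace Pool.Agent.H695R3.SF

open Finset

namespace B2_ns

theorem exists_perm {S Y : Type} [Finite Y] {f g : S → Y} (hf : Function.Injective f)
    (hg : Function.Injective g) : ∃ π : Equiv.Perm Y, ∀ s, π (f s) = g s := by
  classical
  have := Fintype.ofFinite Y
  let e : {y // y ∈ Set.range f} ≃ {y // y ∈ Set.range g} :=
    (Equiv.ofInjective f hf).symm.trans (Equiv.ofInjective g hg)
  refine ⟨e.extendSubtype, fun s => ?_⟩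
  rw [Equiv.extendSubtype_apply_of_mem e (f s) ⟨s, rfl⟩]
  have h1 : (Equiv.ofInjective f hf).symm ⟨f s, ⟨s, rfl⟩⟩ = s := by
    rw [Equiv.symm_apply_eq]
    rfl
  show ((Equiv.ofInjective g hg) ((Equiv.ofInjective f hf).symm ⟨f s, ⟨s, rfl⟩⟩) : Y) = g s
  rw [h1]
  rfl

/-- the property of the graph induced on the non-isolated vertices -/
def Phi {W : Type} [Fintype W] (C : SimpleGraph (Option W)) (s : ℕ) (F : SimpleGraph (Fin s)) :
    Prop :=
  DegLe F (Fintype.card W) ∧ ∃ j : Fin s → Option (W ⊕ Fin (Fintype.card W)),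
    Function.Injective j ∧ ∀ u v, F.Adj u v → (res C (Fintype.card W)).Adj (j u) (j v)

theorem Phi_inv {W : Type} [Fintype W] (C : SimpleGraph (Option W)) (s : ℕ)
    (F F' : SimpleGraph (Fin s)) (π : Equiv.Perm (Fin s))
    (h : ∀ u v, F.Adj u v ↔ F'.Adj (π u) (π v)) (hF : Phi C s F) : Phi C s F' := by
  obtain ⟨h1, j, h2, h3⟩ := hF
  refine ⟨fun v => ?_, fun a => j (π.symm a), h2.comp π.symm.injective, fun u v huv => ?_⟩
  · refine le_trans (le_of_eq ?_) (h1 (π.symm v))
    refine Nat.card_congr (π.symm.subtypeEquiv fun u => ?_)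
    rw [h]
    simp
  · apply h3
    rw [h]
    simpa using huv

/-- enlarging the reservoir -/
def up {W : Type} {c R : ℕ} (h : c ≤ R) : Option (W ⊕ Fin c) → Option (W ⊕ Fin R)
  | none => none
  | some (Sum.inl w) => some (Sum.inl w)
  | some (Sum.inr i) => some (Sum.inr (Fin.castLE h i))

theorem up_inj {W : Type} {c R : ℕ} (h : c ≤ R) : Function.Injective (up (W := W) h) := by
  rintro (_ | (w | i)) (_ | (w' | i')) hh
  all_goals simp only [up, Option.some.injEq, reduceCtorEq, Sum.inl.injEq, Sum.inr.injEq] at hh ⊢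
  · exact hh
  · exact Fin.castLE_injective h hh

theorem up_adj {W : Type} (C : SimpleGraph (Option W)) {c R : ℕ} (h : c ≤ R)
    (u v : Option (W ⊕ Fin c)) (huv : (res C c).Adj u v) : (res C R).Adj (up h u) (up h v) := by
  rcases u with _ | (w | i) <;> rcases v with _ | (w' | i') <;> exact huv

theorem up_surj {W : Type} {c R : ℕ} (h : c ≤ R) (x : Option (W ⊕ Fin R))
    (hx : ¬ ∃ i, x = some (Sum.inr i)) :
    ∃ y : Option (W ⊕ Fin c), x = up h y ∧ ∀ k, y ≠ some (Sum.inr k) := by
  rcases x with _ | (w | i)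
  · exact ⟨none, rfl, fun k hk => by cases hk⟩
  · exact ⟨some (Sum.inl w), rfl, fun k hk => by cases hk⟩
  · exact (hx ⟨i, rfl⟩).elim

theorem supp_mem {V : Type} {F : SimpleGraph V} {u v : V} (h : F.Adj u v) : u ∈ supp F ∧ v ∈ supp F :=
  ⟨⟨v, h⟩, ⟨u, F.adj_symm h⟩⟩

theorem degLe_comap {V : Type} [Finite V] {F : SimpleGraph V} {s : ℕ} (ι : Fin s ↪ V) {c : ℕ}
    (h : DegLe F c) : DegLe (F.comap ι) c := by
  intro a
  refine le_trans ?_ (h (ι a))
  refine Nat.card_le_card_of_injective
    (fun b : {b : Fin s // (F.comap ι).Adj a b} => (⟨ι b.1, b.2⟩ : {u : V // F.Adj (ι a) u})) ?_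
  intro b b' hb
  exact Subtype.ext (ι.injective (congrArg Subtype.val hb))

theorem degLe_of_comap {V : Type} {F : SimpleGraph V} {s : ℕ} (ι : Fin s ↪ V)
    (hι : Set.range ι = supp F) {c : ℕ} (h : DegLe (F.comap ι) c) : DegLe F c := by
  intro v
  by_cases hv : v ∈ supp F
  · obtain ⟨a, rfl⟩ := hι.symm.subset hv
    refine le_trans ?_ (h a)
    have hb : ∀ u : {u : V // F.Adj (ι a) u}, ∃ b, ι b = u.1 := fun u =>
      hι.symm.subset (supp_mem u.2).2
    choose b hb using hb
    refine Nat.card_le_card_of_injective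
      (fun u : {u : V // F.Adj (ι a) u} =>
        (⟨b u, by show F.Adj (ι a) (ι (b u)); rw [hb]; exact u.2⟩ :
          {b : Fin s // (F.comap ι).Adj a b})) ?_
    intro u u' huu
    have h1 : b u = b u' := congrArg Subtype.val huu
    apply Subtype.ext
    rw [← hb u, ← hb u', h1]
  · have : IsEmpty {u : V // F.Adj v u} := ⟨fun u => hv ⟨u.1, u.2⟩⟩
    rw [Nat.card_of_isEmpty]
    exact Nat.zero_le _

theorem key {W : Type} [Fintype W] (C : SimpleGraph (Option W)) (R : ℕ) (hR : Fintype.card W ≤ R)
    (F : SimpleGraph (Option (W ⊕ Fin R))) :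
    (Emb F (res C R) ∧ DegLe F (Fintype.card W)) ↔
      ∃ (s : ℕ) (ι : Fin s ↪ Option (W ⊕ Fin R)), Set.range ι = supp F ∧
        Phi C s (F.comap ι) := by
  classical
  constructor
  · rintro ⟨⟨π, hπ⟩, hdeg⟩
    have : Fintype (supp F) := Fintype.ofFinite _
    let e := Fintype.equivFin (supp F)
    let ι : Fin (Fintype.card (supp F)) ↪ Option (W ⊕ Fin R) :=
      e.symm.toEmbedding.trans (Function.Embedding.subtype _)
    have hι : Set.range ι = supp F := by
      ext y
      constructor
      · rintro ⟨a, rfl⟩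
        exact (e.symm a).2
      · intro hy
        refine ⟨e ⟨y, hy⟩, ?_⟩
        show ((e.symm (e ⟨y, hy⟩) : supp F) : Option (W ⊕ Fin R)) = y
        rw [Equiv.symm_apply_apply]
    refine ⟨_, ι, hι, degLe_comap ι hdeg, ?_⟩
    -- the vertices mapped to the reservoir
    have hA : ∀ a : {a : Fin (Fintype.card (supp F)) // ∃ i, π (ι a) = some (Sum.inr i)},
        F.Adj (π.symm none) (ι a.1) := by
      rintro ⟨a, i, hi⟩
      obtain ⟨u, hu⟩ := hι.subset ⟨a, rfl⟩
      have h1 := hπ _ _ hu
      rw [hi] at h1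
      have h2 : π u = none := by
        rcases hc : π u with _ | u'
        · rfl
        · rw [hc] at h1
          cases u' <;> exact h1.elim
      have h3 : π.symm none = u := by rw [← h2, Equiv.symm_apply_apply]
      rw [h3]
      exact F.adj_symm hu
    have hcard : Nat.card {a : Fin (Fintype.card (supp F)) // ∃ i, π (ι a) = some (Sum.inr i)} ≤
        Nat.card (Fin (Fintype.card W)) := by
      rw [Nat.card_eq_fintype_card (α := Fin (Fintype.card W)), Fintype.card_fin]
      refine le_trans ?_ (hdeg (π.symm none))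
      refine Nat.card_le_card_of_injective
        (fun a => (⟨ι a.1, hA a⟩ : {u // F.Adj (π.symm none) u})) ?_
      intro a b hab
      have h1 := Subtype.ext_iff.1 hab
      exact Subtype.ext (ι.injective h1)
    rw [Nat.card_eq_fintype_card, Nat.card_eq_fintype_card] at hcard
    obtain ⟨φ⟩ := Function.Embedding.nonempty_of_card_le hcard
    -- the embedding
    have hj : ∀ a, ∃ y : Option (W ⊕ Fin (Fintype.card W)),
        (∀ (h : ∃ i, π (ι a) = some (Sum.inr i)), y = some (Sum.inr (φ ⟨a, h⟩))) ∧
        ((¬ ∃ i, π (ι a) = some (Sum.inr i)) → π (ι a) = up hR y ∧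
          ∀ k, y ≠ some (Sum.inr k)) := by
      intro a
      by_cases h : ∃ i, π (ι a) = some (Sum.inr i)
      · exact ⟨some (Sum.inr (φ ⟨a, h⟩)), fun _ => rfl, fun h' => (h' h).elim⟩
      · obtain ⟨y, hy1, hy2⟩ := up_surj hR (π (ι a)) h
        exact ⟨y, fun h' => (h h').elim, fun _ => ⟨hy1, hy2⟩⟩
    choose j hj1 hj2 using hj
    refine ⟨j, ?_, ?_⟩
    · intro a b hab
      by_cases ha : ∃ i, π (ι a) = some (Sum.inr i)
      · by_cases hb : ∃ i, π (ι b) = some (Sum.inr i)
        · rw [hj1 a ha, hj1 b hb] at hab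
          simp only [Option.some.injEq, Sum.inr.injEq] at hab
          exact congrArg Subtype.val (φ.injective hab)
        · exact ((hj2 b hb).2 _ (by rw [← hab]; exact hj1 a ha)).elim
      · by_cases hb : ∃ i, π (ι b) = some (Sum.inr i)
        · exact ((hj2 a ha).2 _ (by rw [hab]; exact hj1 b hb)).elim
        · have h1 := (hj2 a ha).1
          have h2 := (hj2 b hb).1
          rw [hab, ← h2] at h1
          exact ι.injective (π.injective h1)
    · intro a b hab
      have h0 := hπ _ _ (show F.Adj (ι a) (ι b) from hab)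
      have aux : ∀ a b, (res C R).Adj (π (ι a)) (π (ι b)) → (∃ i, π (ι a) = some (Sum.inr i)) →
          (res C (Fintype.card W)).Adj (j a) (j b) := by
        intro a b h1 ha
        obtain ⟨i, hi⟩ := id ha
        have h2 : π (ι b) = none := by
          rw [hi] at h1
          rcases hc : π (ι b) with _ | u'
          · rfl
          · rw [hc] at h1
            cases u' <;> exact h1.elim
        have hb : ¬ ∃ i, π (ι b) = some (Sum.inr i) := by
          rintro ⟨i', hi'⟩
          rw [h2] at hi'
          cases hi'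
        have h3 := (hj2 b hb).1
        rw [h2] at h3
        have h4 : j b = none := by
          rcases hc : j b with _ | (w | k)
          · rfl
          · rw [hc] at h3; cases h3
          · rw [hc] at h3; cases h3
        rw [hj1 a ha, h4]
        exact trivial
      by_cases ha : ∃ i, π (ι a) = some (Sum.inr i)
      · exact aux a b h0 ha
      · by_cases hb : ∃ i, π (ι b) = some (Sum.inr i)
        · exact (res C (Fintype.card W)).adj_symm (aux b a ((res C R).adj_symm h0) hb)
        · rw [(hj2 a ha).1, (hj2 b hb).1] at h0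
          have na := (hj2 a ha).2
          have nb := (hj2 b hb).2
          rcases hca : j a with _ | (w | k)
          · rcases hcb : j b with _ | (w' | k')
            · rw [hca, hcb] at h0; exact h0
            · rw [hca, hcb] at h0; exact h0
            · exact (nb k' hcb).elim
          · rcases hcb : j b with _ | (w' | k')
            · rw [hca, hcb] at h0; exact h0
            · rw [hca, hcb] at h0; exact h0
            · exact (nb k' hcb).elim
          · exact (na k hca).elim
  · rintro ⟨s, ι, hι, hdeg, j, hj1, hj2⟩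
    refine ⟨?_, degLe_of_comap ι hι hdeg⟩
    obtain ⟨π, hπ⟩ := exists_perm (f := ι) (g := fun a => up hR (j a)) ι.injective
      ((up_inj hR).comp hj1)
    refine ⟨π, fun u v huv => ?_⟩
    obtain ⟨a, rfl⟩ := hι.symm.subset (supp_mem huv).1
    obtain ⟨b, rfl⟩ := hι.symm.subset (supp_mem huv).2
    rw [hπ, hπ]
    exact up_adj C hR _ _ (hj2 a b huv)

end B2_ns

open B2_ns in
theorem B2 (h : S_B2a) : S_B2 := by
  classical
  intro W _ C
  refine ⟨fun s => Nat.card {F : SimpleGraph (Fin s) // (∀ v, ∃ u, F.Adj v u) ∧ Phi C s F}, ?_⟩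
  intro R hR
  have e1 : Nat.card {F : SimpleGraph (Option (W ⊕ Fin R)) //
      Emb F (res C R) ∧ DegLe F (Fintype.card W)} =
      Nat.card {F : SimpleGraph (Option (W ⊕ Fin R)) //
        ∃ (s : ℕ) (ι : Fin s ↪ Option (W ⊕ Fin R)), Set.range ι = supp F ∧
          Phi C s (F.comap ι)} :=
    Nat.card_congr (Equiv.subtypeEquivRight fun F => key C R hR F)
  rw [e1, h (Option (W ⊕ Fin R)) (Phi C) (Phi_inv C)]
  have hc : Fintype.card (Option (W ⊕ Fin R)) = Fintype.card W + R + 1 := by
    rw [Fintype.card_option, Fintype.card_sum, Fintype.card_fin]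
  rw [hc]
  symm
  apply Finset.sum_subset
  · intro t ht
    rw [mem_range] at ht ⊢
    omega
  · intro t _ ht
    rw [mem_range] at ht
    have : IsEmpty {F : SimpleGraph (Fin t) // (∀ v, ∃ u, F.Adj v u) ∧ Phi C t F} := by
      constructor
      rintro ⟨F, -, -, j, hj, -⟩
      have h1 := Fintype.card_le_of_injective j hj
      rw [Fintype.card_fin, Fintype.card_option, Fintype.card_sum, Fintype.card_fin] at h1
      omega
    show (Fintype.card W + R + 1).choose t *
      Nat.card {F : SimpleGraph (Fin t) // (∀ v, ∃ u, F.Adj v u) ∧ Phi C t F} = 0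
    rw [Nat.card_of_isEmpty, mul_zero]

end Pool.Agent.H695R3.SF
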