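import Pool.Agent.H695R3.SF.Defs

/-!
# B2a: counting graphs by their non-isolated vertices
-/

set_option autoImplicit false

namespace Pool.Agent.H695R3.SF

open Finset

namespace B2a_ns

open scoped Classical

/-- an enumeration of `S` -/
noncomputable def em {V : Type} (S : Finset V) : Fin S.card ↪ V :=
  (S.equivFin.symm.toEmbedding).trans (Function.Embedding.subtype _)

theorem range_em {V : Type} (S : Finset V) : Set.range (em S) = (S : Set V) := by
  ext v
  constructor
  · rintro ⟨i, rfl⟩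
    exact (S.equivFin.symm i).2
  · intro hv
    refine ⟨S.equivFin ⟨v, hv⟩, ?_⟩
    show ((S.equivFin.symm (S.equivFin ⟨v, hv⟩)) : V) = v
    rw [Equiv.symm_apply_apply]

theorem exists_perm {V : Type} {s : ℕ} (ι e : Fin s ↪ V) (h : Set.range ι = Set.range e) :
    ∃ π : Equiv.Perm (Fin s), ∀ v, e (π v) = ι v := by
  refine ⟨(Equiv.ofInjective ι ι.injective).trans ((Equiv.setCongr h).trans
    (Equiv.ofInjective e e.injective).symm), fun v => ?_⟩
  have h1 := Equiv.apply_ofInjective_symm e.injective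
    ((Equiv.setCongr h) (Equiv.ofInjective ι ι.injective v))
  exact h1

theorem card_of_range {V : Type} {s : ℕ} (ι : Fin s ↪ V) (S : Finset V)
    (h : Set.range ι = (S : Set V)) : s = S.card := by
  have h1 : Finset.univ.map ι = S := by
    apply Finset.coe_injective
    rw [Finset.coe_map, Finset.coe_univ, Set.image_univ, h]
  rw [← h1, Finset.card_map, Finset.card_univ, Fintype.card_fin]

variable {V : Type} (Φ : ∀ s : ℕ, SimpleGraph (Fin s) → Prop)

/-- the counted property -/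
def PP (F : SimpleGraph V) : Prop :=
  ∃ (s : ℕ) (ι : Fin s ↪ V), Set.range ι = supp F ∧ Φ s (F.comap ι)

/-- the counted property on `Fin s` -/
def QQ (s : ℕ) (F : SimpleGraph (Fin s)) : Prop := (∀ v, ∃ u, F.Adj v u) ∧ Φ s F

theorem mem_supp {F : SimpleGraph V} {v : V} : v ∈ supp F ↔ ∃ u, F.Adj v u := Iff.rfl

theorem to_QQ (hΦ : ∀ (s : ℕ) (F F' : SimpleGraph (Fin s)) (π : Equiv.Perm (Fin s)),
    (∀ u v, F.Adj u v ↔ F'.Adj (π u) (π v)) → Φ s F → Φ s F')
    (S : Finset V) (F : SimpleGraph V) (h : PP Φ F) (hS : supp F = (S : Set V)) :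
    QQ Φ S.card (F.comap (em S)) := by
  obtain ⟨s, ι, h1, h2⟩ := h
  rw [hS] at h1
  obtain rfl := card_of_range ι S h1
  refine ⟨fun v => ?_, ?_⟩
  · have hv : em S v ∈ supp F := by
      rw [hS, ← range_em]
      exact ⟨v, rfl⟩
    obtain ⟨u, hu⟩ := hv
    have hu' : u ∈ supp F := ⟨_, hu.symm⟩
    rw [hS, ← range_em] at hu'
    obtain ⟨u', rfl⟩ := hu'
    exact ⟨u', hu⟩
  · obtain ⟨π, hπ⟩ := exists_perm ι (em S) (by rw [h1, range_em])
    refine hΦ _ _ _ π ?_ h2
    intro u v
    show F.Adj (ι u) (ι v) ↔ F.Adj (em S (π u)) (em S (π v))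
    rw [hπ, hπ]

theorem supp_map (S : Finset V) (F : SimpleGraph (Fin S.card)) (h : ∀ v, ∃ u, F.Adj v u) :
    supp (F.map (em S)) = (S : Set V) := by
  rw [← range_em]
  ext v
  constructor
  · rintro ⟨u, hu⟩
    rw [SimpleGraph.map_adj] at hu
    obtain ⟨a, b, _, h2, _⟩ := hu
    exact ⟨a, h2⟩
  · rintro ⟨a, rfl⟩
    obtain ⟨b, hb⟩ := h a
    exact ⟨em S b, (SimpleGraph.map_adj _ _ _ _).2 ⟨a, b, hb, rfl, rfl⟩⟩

theorem to_PP (S : Finset V) (F : SimpleGraph (Fin S.card)) (h : QQ Φ S.card F) :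
    PP Φ (F.map (em S)) ∧ supp (F.map (em S)) = (S : Set V) := by
  refine ⟨⟨S.card, em S, ?_, ?_⟩, supp_map S F h.1⟩
  · rw [supp_map S F h.1, range_em]
  · rw [SimpleGraph.comap_map_eq]
    exact h.2

theorem map_comap (S : Finset V) (F : SimpleGraph V) (hS : supp F = (S : Set V)) :
    (F.comap (em S)).map (em S) = F := by
  ext u v
  rw [SimpleGraph.map_adj]
  constructor
  · rintro ⟨a, b, h, rfl, rfl⟩
    exact h
  · intro h
    have hu : u ∈ supp F := ⟨v, h⟩
    have hv : v ∈ supp F := ⟨u, h.symm⟩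
    rw [hS, ← range_em] at hu hv
    obtain ⟨a, rfl⟩ := hu
    obtain ⟨b, rfl⟩ := hv
    exact ⟨a, b, h, rfl, rfl⟩

/-- for fixed support -/
noncomputable def eqv (hΦ : ∀ (s : ℕ) (F F' : SimpleGraph (Fin s)) (π : Equiv.Perm (Fin s)),
    (∀ u v, F.Adj u v ↔ F'.Adj (π u) (π v)) → Φ s F → Φ s F') (S : Finset V) :
    {F : SimpleGraph V // PP Φ F ∧ supp F = (S : Set V)} ≃
      {F : SimpleGraph (Fin S.card) // QQ Φ S.card F} where
  toFun F := ⟨F.1.comap (em S), to_QQ Φ hΦ S F.1 F.2.1 F.2.2⟩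
  invFun F := ⟨F.1.map (em S), to_PP Φ S F.1 F.2⟩
  left_inv F := Subtype.ext (map_comap S F.1 F.2.2)
  right_inv F := Subtype.ext (SimpleGraph.comap_map_eq _ _)

theorem main [Fintype V]
    (hΦ : ∀ (s : ℕ) (F F' : SimpleGraph (Fin s)) (π : Equiv.Perm (Fin s)),
      (∀ u v, F.Adj u v ↔ F'.Adj (π u) (π v)) → Φ s F → Φ s F') :
    Nat.card {F : SimpleGraph V // PP Φ F} =
      ∑ s ∈ range (Fintype.card V + 1), (Fintype.card V).choose s *
        Nat.card {F : SimpleGraph (Fin s) // QQ Φ s F} := by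
  have h1 : Nat.card {F : SimpleGraph V // PP Φ F} =
      ∑ S : Finset V, Nat.card {F : SimpleGraph V // PP Φ F ∧ supp F = (S : Set V)} := by
    have h2 : ∀ S : Finset V, Nat.card {F : SimpleGraph V // PP Φ F ∧ supp F = (S : Set V)} =
        ((univ.filter (fun F : SimpleGraph V => PP Φ F)).filter
          (fun F => univ.filter (fun v => v ∈ supp F) = S)).card := by
      intro S
      rw [Nat.card_eq_fintype_card, Fintype.card_subtype, Finset.filter_filter]
      congr 1
      ext F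
      simp only [mem_filter, mem_univ, true_and]
      refine and_congr_right (fun _ => ?_)
      rw [← Finset.coe_inj, Finset.coe_filter]
      simp
    rw [Finset.sum_congr rfl (fun S _ => h2 S), Nat.card_eq_fintype_card, Fintype.card_subtype]
    exact Finset.card_eq_sum_card_fiberwise (fun _ _ => Finset.mem_coe.2 (mem_univ _))
  rw [h1, Finset.sum_congr rfl (fun S _ => Nat.card_congr (eqv Φ hΦ S))]
  have h3 := Finset.sum_powerset_apply_card (x := (univ : Finset V))
    (fun s => Nat.card {F : SimpleGraph (Fin s) // QQ Φ s F})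
  rw [Finset.powerset_univ] at h3
  rw [h3, Finset.card_univ]
  simp only [smul_eq_mul]

end B2a_ns

/-- B2a: counting graphs by their non-isolated vertices -/
theorem B2a : S_B2a := by
  intro V _ Φ hΦ
  exact B2a_ns.main Φ hΦ

end Pool.Agent.H695R3.SF
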