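import Pool.Agent.H695R3.SF.Defs

/-! B3: the graphs with a root of large degree. -/

namespace Pool.Agent.H695R3.SF

open Finset

namespace B3_ns

variable {W : Type} {t : ℕ}

theorem okI_inv (C : SimpleGraph (Option W)) (F F' : SimpleGraph (Option (Fin t)))
    (π : Equiv.Perm (Fin t)) (i : ℕ)
    (h : ∀ u v : Option (Fin t), F.Adj u v ↔ F'.Adj (u.map π) (v.map π)) (hF : OkI C t F i) :
    OkI C t F' i := by
  obtain ⟨ι, h1, h2⟩ := hF
  refine ⟨π.symm.toEmbedding.trans ι, fun u v huv => ?_, ?_⟩
  · have h3 : F.Adj (u.map π.symm) (v.map π.symm) := by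
      rw [h]
      have e : ∀ w : Option (Fin t), (w.map π.symm).map π = w := by
        intro w; cases w <;> simp
      rw [e, e]
      exact huv
    have h4 := h1 _ _ h3
    rw [Option.map_map, Option.map_map] at h4
    exact h4
  · have e : Set.range (π.symm.toEmbedding.trans ι) = Set.range ι := by
      ext w
      simp only [Set.mem_range, Function.Embedding.trans_apply]
      constructor
      · rintro ⟨x, rfl⟩; exact ⟨_, rfl⟩
      · rintro ⟨x, rfl⟩; exact ⟨π x, by simp⟩
    rw [e]
    exact h2

theorem rdeg_inv (F F' : SimpleGraph (Option (Fin t))) (π : Equiv.Perm (Fin t))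
    (h : ∀ u v : Option (Fin t), F.Adj u v ↔ F'.Adj (u.map π) (v.map π)) : rdeg F = rdeg F' := by
  unfold rdeg
  exact Nat.card_congr (π.subtypeEquiv fun y => h none (some y))

end B3_ns

open B3_ns in
theorem B3 (h1 : S_B3a) (h2 : S_B3b) : S_B3 := by
  classical
  intro W _ C R
  have e1 : Nat.card {F : SimpleGraph (Option (W ⊕ Fin R)) //
      REmb F (res C R) ∧ Fintype.card W + 1 ≤ rdeg F} =
      Nat.card {F : SimpleGraph (Option (W ⊕ Fin R)) //
        ∃ (t : ℕ) (ι : Fin t ↪ (W ⊕ Fin R)), Set.range ι = ess F ∧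
      (OkI C t (F.comap (Option.map ι)) (Nat.card (isoV F)) ∧
        Fintype.card W + 1 ≤ rdeg (F.comap (Option.map ι)) +
          (Fintype.card W + R - t - Nat.card (isoV F)))} :=
    Nat.card_congr (Equiv.subtypeEquivRight fun F => h2 W C R F)
  have h3 := h1 (W ⊕ Fin R) (fun t F i => OkI C t F i ∧
    Fintype.card W + 1 ≤ rdeg F + (Fintype.card W + R - t - i)) (by
      intro t F F' π i hF ⟨ha, hb⟩
      refine ⟨okI_inv C F F' π i hF ha, ?_⟩
      rw [← rdeg_inv F F' π hF]
      exact hb)
  rw [e1, h3]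
  have hc : Fintype.card (W ⊕ Fin R) = Fintype.card W + R := by
    rw [Fintype.card_sum, Fintype.card_fin]
  rw [hc]
  symm
  apply Finset.sum_subset
  · intro t ht
    rw [mem_range] at ht ⊢
    omega
  · intro t _ ht
    rw [mem_range] at ht
    have hz : ∀ i, Nat.card {F : SimpleGraph (Option (Fin t)) // AllEss F ∧ OkI C t F i ∧
        Fintype.card W + 1 ≤ rdeg F + (Fintype.card W + R - t - i)} = 0 := by
      intro i
      have : IsEmpty {F : SimpleGraph (Option (Fin t)) // AllEss F ∧ OkI C t F i ∧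
        Fintype.card W + 1 ≤ rdeg F + (Fintype.card W + R - t - i)} := by
        constructor
        rintro ⟨F, -, ⟨ι, -, -⟩, -⟩
        have := Fintype.card_le_of_embedding ι
        rw [Fintype.card_fin] at this
        omega
      exact Nat.card_of_isEmpty
    rw [Finset.sum_eq_zero fun i _ => by rw [hz i, mul_zero], mul_zero]

end Pool.Agent.H695R3.SF
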