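import Pool.Agent.H695R3.SF.Defs

set_option autoImplicit false

/-! B3a: counting rooted graphs by essential, isolated, pendant vertices -/

open Finset

namespace Pool.Agent.H695R3.SF

namespace B3a_ns

variable {Y : Type}

/-- the graph built from the essential part -/
def ext {t : ℕ} (ι : Fin t ↪ Y) (I : Set Y) (F' : SimpleGraph (Option (Fin t))) :
    SimpleGraph (Option Y) where
  Adj u v := (∃ a b : Option (Fin t), u = a.map ι ∧ v = b.map ι ∧ F'.Adj a b) ∨
    (u = none ∧ ∃ y, v = some y ∧ y ∉ Set.range ι ∧ y ∉ I) ∨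
    (v = none ∧ ∃ y, u = some y ∧ y ∉ Set.range ι ∧ y ∉ I)
  symm := ⟨by
    rintro u v (⟨a, b, ha, hb, hab⟩ | h | h)
    · exact Or.inl ⟨b, a, hb, ha, hab.symm⟩
    · exact Or.inr (Or.inr h)
    · exact Or.inr (Or.inl h)⟩
  loopless := ⟨by
    rintro u (⟨a, b, ha, hb, hab⟩ | ⟨h, y, hy, -⟩ | ⟨h, y, hy, -⟩)
    · rw [ha] at hb
      have := Option.map_injective ι.injective hb
      subst this
      exact F'.loopless.irrefl _ hab
    · rw [h] at hy; cases hy
    · rw [h] at hy; cases hy⟩

theorem comap_ext {t : ℕ} (ι : Fin t ↪ Y) (I : Set Y) (F' : SimpleGraph (Option (Fin t))) :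
    (ext ι I F').comap (Option.map ι) = F' := by
  ext a b
  simp only [SimpleGraph.comap_adj]
  constructor
  · rintro (⟨a', b', ha, hb, hab⟩ | ⟨-, y, hy, hy', -⟩ | ⟨-, y, hy, hy', -⟩)
    · have h1 := Option.map_injective ι.injective ha
      have h2 := Option.map_injective ι.injective hb
      subst h1; subst h2; exact hab
    · exfalso
      cases b with
      | none => simp at hy
      | some b => simp only [Option.map_some, Option.some.injEq] at hy; exact hy' ⟨b, hy⟩
    · exfalso
      cases a with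
      | none => simp at hy
      | some a => simp only [Option.map_some, Option.some.injEq] at hy; exact hy' ⟨a, hy⟩
  · intro h
    exact Or.inl ⟨a, b, rfl, rfl, h⟩

theorem ess_ext {t : ℕ} (ι : Fin t ↪ Y) (I : Set Y) (F' : SimpleGraph (Option (Fin t)))
    (hF : AllEss F') : ess (ext ι I F') = Set.range ι := by
  ext y
  constructor
  · rintro ⟨y', ⟨a, b, ha, hb, hab⟩ | ⟨h, -⟩ | ⟨h, -⟩⟩
    · cases a with
      | none => simp at ha
      | some a => simp only [Option.map_some, Option.some.injEq] at ha; exact ⟨a, ha.symm⟩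
    · cases h
    · cases h
  · rintro ⟨a, rfl⟩
    obtain ⟨b, hb⟩ := hF a
    exact ⟨ι b, Or.inl ⟨some a, some b, rfl, rfl, hb⟩⟩

theorem iso_ext {t : ℕ} (ι : Fin t ↪ Y) (I : Set Y) (hI : ∀ y ∈ I, y ∉ Set.range ι)
    (F' : SimpleGraph (Option (Fin t))) (hF : AllEss F') : isoV (ext ι I F') = I := by
  ext y
  constructor
  · intro hy
    by_contra hyI
    by_cases hr : y ∈ Set.range ι
    · obtain ⟨a, rfl⟩ := hr
      obtain ⟨b, hb⟩ := hF a
      exact hy (some (ι b)) (Or.inl ⟨some a, some b, rfl, rfl, hb⟩)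
    · exact hy none (Or.inr (Or.inr ⟨rfl, y, rfl, hr, hyI⟩))
  · rintro hy u (⟨a, b, ha, hb, hab⟩ | ⟨h, -⟩ | ⟨h, y', hy', -, hn⟩)
    · cases a with
      | none => simp at ha
      | some a =>
        simp only [Option.map_some, Option.some.injEq] at ha
        exact hI y hy ⟨a, ha.symm⟩
    · cases h
    · simp only [Option.some.injEq] at hy'
      subst hy'
      exact hn hy

theorem ext_comap {t : ℕ} (ι : Fin t ↪ Y) (F : SimpleGraph (Option Y))
    (hι : Set.range ι = ess F) : ext ι (isoV F) (F.comap (Option.map ι)) = F := by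
  have hnone : ∀ y, y ∉ ess F → ∀ u, F.Adj (some y) u → u = none := by
    intro y hy u hu
    cases u with
    | none => rfl
    | some y' => exact absurd ⟨y', hu⟩ hy
  have hpend : ∀ y, y ∉ Set.range ι → y ∉ isoV F → F.Adj (some y) none := by
    intro y hy hyI
    rw [hι] at hy
    have : ∃ u, F.Adj (some y) u := by
      by_contra hc
      push Not at hc
      exact hyI hc
    obtain ⟨u, hu⟩ := this
    have := hnone y hy u hu
    rw [this] at hu
    exact hu
  ext u v
  constructor
  · rintro (⟨a, b, ha, hb, hab⟩ | ⟨h, y, hy, h1, h2⟩ | ⟨h, y, hy, h1, h2⟩)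
    · rw [ha, hb]; exact hab
    · rw [h, hy]; exact (hpend y h1 h2).symm
    · rw [h, hy]; exact hpend y h1 h2
  · intro huv
    have hmem : ∀ y u, F.Adj (some y) u → y ∉ isoV F := fun y u h h' => h' u h
    by_cases hu : u ∈ Set.range (Option.map ι)
    · obtain ⟨a, rfl⟩ := hu
      by_cases hv : v ∈ Set.range (Option.map ι)
      · obtain ⟨b, rfl⟩ := hv
        exact Or.inl ⟨a, b, rfl, rfl, huv⟩
      · cases v with
        | none => exact absurd ⟨none, rfl⟩ hv
        | some y =>
          have hy : y ∉ Set.range ι := by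
            rintro ⟨b, rfl⟩
            exact hv ⟨some b, rfl⟩
          have := hnone y (hι ▸ hy) _ huv.symm
          exact Or.inr (Or.inl ⟨this, y, rfl, hy, hmem y _ huv.symm⟩)
    · cases u with
      | none => exact absurd ⟨none, rfl⟩ hu
      | some y =>
        have hy : y ∉ Set.range ι := by
          rintro ⟨b, rfl⟩
          exact hu ⟨some b, rfl⟩
        have := hnone y (hι ▸ hy) _ huv
        exact Or.inr (Or.inr ⟨this, y, rfl, hy, hmem y _ huv⟩)

theorem allEss_comap {t : ℕ} (ι : Fin t ↪ Y) (F : SimpleGraph (Option Y))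
    (hι : Set.range ι = ess F) : AllEss (F.comap (Option.map ι)) := by
  intro a
  have h1 : ι a ∈ ess F := hι ▸ ⟨a, rfl⟩
  obtain ⟨y', hy'⟩ := h1
  have h2 : y' ∈ ess F := ⟨ι a, hy'.symm⟩
  rw [← hι] at h2
  obtain ⟨b, rfl⟩ := h2
  exact ⟨b, hy'⟩

/-- the condition for one embedding is the condition for all embeddings -/
theorem cond_iff (Φ : ∀ t : ℕ, SimpleGraph (Option (Fin t)) → ℕ → Prop)
    (hΦ : ∀ (t : ℕ) (F F' : SimpleGraph (Option (Fin t))) (π : Equiv.Perm (Fin t)) (i : ℕ),
      (∀ u v : Option (Fin t), F.Adj u v ↔ F'.Adj (u.map π) (v.map π)) → Φ t F i → Φ t F' i)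
    {t : ℕ} (ι : Fin t ↪ Y) (F : SimpleGraph (Option Y)) (i : ℕ) (hι : Set.range ι = ess F) :
    (∃ (t : ℕ) (ι : Fin t ↪ Y), Set.range ι = ess F ∧ Φ t (F.comap (Option.map ι)) i) ↔
      Φ t (F.comap (Option.map ι)) i := by
  constructor
  · rintro ⟨t', ι', hι', h⟩
    have htt : t' = t := by
      have h1 : Nat.card (Set.range ι') = Nat.card (Set.range ι) := by rw [hι, hι']
      rw [Nat.card_range_of_injective ι'.injective, Nat.card_range_of_injective ι.injective] at h1
      simpa using h1
    subst htt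
    have hr : Set.range ι' = Set.range ι := hι'.trans hι.symm
    let e : Equiv.Perm (Fin t') := (Equiv.ofInjective ι' ι'.injective).trans
      ((Equiv.setCongr hr).trans (Equiv.ofInjective ι ι.injective).symm)
    have he : ∀ a, ι (e a) = ι' a := by
      intro a
      have := Equiv.apply_ofInjective_symm ι.injective (Equiv.setCongr hr (Equiv.ofInjective ι' ι'.injective a))
      exact this
    refine hΦ t' _ _ e i ?_ h
    intro u v
    simp only [SimpleGraph.comap_adj]
    have hm : ∀ u : Option (Fin t'), Option.map ι (Option.map e u) = Option.map ι' u := by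
      intro u
      cases u with
      | none => rfl
      | some a => simp [he]
    rw [hm, hm]
  · intro h
    exact ⟨t, ι, hι, h⟩

/-- the bijection for given essential and isolated vertices -/
theorem card_fixed [Fintype Y] (Φ : ∀ t : ℕ, SimpleGraph (Option (Fin t)) → ℕ → Prop)
    (hΦ : ∀ (t : ℕ) (F F' : SimpleGraph (Option (Fin t))) (π : Equiv.Perm (Fin t)) (i : ℕ),
      (∀ u v : Option (Fin t), F.Adj u v ↔ F'.Adj (u.map π) (v.map π)) → Φ t F i → Φ t F' i)
    (E I : Set Y) (hEI : ∀ y ∈ I, y ∉ E) :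
    Nat.card {F : SimpleGraph (Option Y) // (∃ (t : ℕ) (ι : Fin t ↪ Y), Set.range ι = ess F ∧
        Φ t (F.comap (Option.map ι)) (Nat.card (isoV F))) ∧ ess F = E ∧ isoV F = I} =
      Nat.card {F : SimpleGraph (Option (Fin (Nat.card E))) // AllEss F ∧
        Φ (Nat.card E) F (Nat.card I)} := by
  obtain ⟨ι, hι⟩ : ∃ ι : Fin (Nat.card E) ↪ Y, Set.range ι = E := by
    have e : Fin (Nat.card E) ≃ E := (Finite.equivFin E).symm
    refine ⟨e.toEmbedding.trans (Function.Embedding.subtype _), ?_⟩
    ext y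
    constructor
    · rintro ⟨a, rfl⟩; exact (e a).2
    · intro hy
      refine ⟨e.symm ⟨y, hy⟩, ?_⟩
      change ((e (e.symm ⟨y, hy⟩) : E) : Y) = y
      rw [Equiv.apply_symm_apply]
  refine Nat.card_congr
    { toFun := fun F => ⟨F.1.comap (Option.map ι), ?_, ?_⟩
      invFun := fun F' => ⟨ext ι I F'.1, ?_, ?_, ?_⟩
      left_inv := ?_
      right_inv := ?_ }
  · exact allEss_comap ι F.1 (hι.trans F.2.2.1.symm)
  · have h := (cond_iff Φ hΦ ι F.1 (Nat.card (isoV F.1)) (hι.trans F.2.2.1.symm)).1 F.2.1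
    rw [F.2.2.2] at h
    exact h
  · have h1 := ess_ext ι I F'.1 F'.2.1
    have h2 := iso_ext ι I (fun y hy => by rw [hι]; exact hEI y hy) F'.1 F'.2.1
    rw [cond_iff Φ hΦ ι (ext ι I F'.1) _ h1.symm, comap_ext, h2]
    exact F'.2.2
  · exact (ess_ext ι I F'.1 F'.2.1).trans hι
  · exact iso_ext ι I (fun y hy => by rw [hι]; exact hEI y hy) F'.1 F'.2.1
  · intro F
    apply Subtype.ext
    have h := ext_comap ι F.1 (hι.trans F.2.2.1.symm)
    rw [F.2.2.2] at h
    exact h
  · intro F'
    apply Subtype.ext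
    exact comap_ext ι I F'.1

end B3a_ns

open B3a_ns in
open Classical in
theorem B3a : S_B3a := by
  intro Y _ Φ hΦ
  set P : SimpleGraph (Option Y) → Prop := fun F => ∃ (t : ℕ) (ι : Fin t ↪ Y),
    Set.range ι = ess F ∧ Φ t (F.comap (Option.map ι)) (Nat.card (isoV F)) with hP
  set N : ℕ → ℕ → ℕ := fun t i => Nat.card {F : SimpleGraph (Option (Fin t)) //
    AllEss F ∧ Φ t F i} with hN
  have h1 : Nat.card {F : SimpleGraph (Option Y) // P F} =
      (univ.filter P : Finset (SimpleGraph (Option Y))).card := by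
    rw [Nat.card_eq_fintype_card, Fintype.card_subtype]
  have h2 : (univ.filter P : Finset (SimpleGraph (Option Y))).card =
      ∑ E ∈ (univ : Finset Y).powerset, ∑ I ∈ (univ \ E).powerset,
        (univ.filter (fun F : SimpleGraph (Option Y) => P F ∧ ess F = (E : Set Y) ∧
          isoV F = (I : Set Y))).card := by
    rw [Finset.card_eq_sum_card_fiberwise (f := fun F => (ess F).toFinset)
      (t := (univ : Finset Y).powerset) (fun F _ => by simp)]
    refine Finset.sum_congr rfl fun E _ => ?_
    rw [Finset.card_eq_sum_card_fiberwise (f := fun F => (isoV F).toFinset)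
      (t := (univ \ E).powerset)]
    · refine Finset.sum_congr rfl fun I _ => ?_
      congr 1
      ext F
      simp only [Finset.mem_filter, Finset.mem_univ, true_and]
      constructor
      · rintro ⟨⟨a, b⟩, c⟩
        refine ⟨a, ?_, ?_⟩
        · rw [← b]; simp
        · rw [← c]; simp
      · rintro ⟨a, b, c⟩
        refine ⟨⟨a, ?_⟩, ?_⟩
        · ext y; simp [b]
        · ext y; simp [c]
    · intro F hF
      simp only [Finset.coe_filter, Finset.mem_filter, Finset.mem_univ, true_and,
        Set.mem_ofPred_eq] at hF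
      simp only [Finset.coe_powerset, Set.mem_preimage, Set.mem_powerset_iff, Finset.coe_subset]
      intro y hy
      rw [Finset.mem_sdiff]
      refine ⟨Finset.mem_univ _, ?_⟩
      rw [← hF.2]
      rw [Set.mem_toFinset] at hy ⊢
      rintro ⟨y', hy'⟩
      exact hy _ hy'
  have h3 : ∀ E ∈ (univ : Finset Y).powerset, ∀ I ∈ (univ \ E).powerset,
      (univ.filter (fun F : SimpleGraph (Option Y) => P F ∧ ess F = (E : Set Y) ∧
          isoV F = (I : Set Y))).card = N E.card I.card := by
    intro E _ I hI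
    have h := card_fixed Φ hΦ (E : Set Y) (I : Set Y) (fun y hy hE => by
      have := Finset.mem_powerset.1 hI (Finset.mem_coe.1 hy)
      exact (Finset.mem_sdiff.1 this).2 (Finset.mem_coe.1 hE))
    rw [Nat.card_eq_fintype_card, Fintype.card_subtype] at h
    have e1 : Nat.card (E : Set Y) = E.card := by simp
    have e2 : Nat.card (I : Set Y) = I.card := by simp
    rw [e1, e2] at h
    exact h
  have h4 : ∑ E ∈ (univ : Finset Y).powerset, ∑ I ∈ (univ \ E).powerset, N E.card I.card =
      ∑ E ∈ (univ : Finset Y).powerset, ∑ i ∈ range (Fintype.card Y - E.card + 1),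
        (Fintype.card Y - E.card).choose i * N E.card i := by
    refine Finset.sum_congr rfl fun E _ => ?_
    have := Finset.sum_powerset_apply_card (fun i => N E.card i) (x := univ \ E)
    rw [this, Finset.card_univ_sdiff]
    simp
  rw [h1, h2, Finset.sum_congr rfl fun E hE => Finset.sum_congr rfl fun I hI => h3 E hE I hI, h4]
  have := Finset.sum_powerset_apply_card (fun t => ∑ i ∈ range (Fintype.card Y - t + 1),
        (Fintype.card Y - t).choose i * N t i) (x := (univ : Finset Y))
  rw [this, Finset.card_univ]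
  simp only [smul_eq_mul, hN]

end Pool.Agent.H695R3.SF
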