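import Pool.Agent.H695R3.SF.Defs

/-! B3b: which rooted graphs are realised. -/

namespace Pool.Agent.H695R3.SF

open Finset

namespace B3b_ns

theorem exists_perm {S Y : Type} [Finite Y] {f g : S → Y} (hf : Function.Injective f)
    (hg : Function.Injective g) : ∃ π : Equiv.Perm Y, ∀ s, π (f s) = g s := by
  classical
  have := Fintype.ofFinite Y
  let e : {y // y ∈ Set.range f} ≃ {y // y ∈ Set.range g} :=
    (Equiv.ofInjective f hf).symm.trans (Equiv.ofInjective g hg)
  refine ⟨e.extendSubtype, fun s => ?_⟩
  rw [Equiv.extendSubtype_apply_of_mem e (f s) ⟨s, rfl⟩]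
  have h1 : (Equiv.ofInjective f hf).symm ⟨f s, ⟨s, rfl⟩⟩ = s := by
    rw [Equiv.symm_apply_eq]
    rfl
  show ((Equiv.ofInjective g hg) ((Equiv.ofInjective f hf).symm ⟨f s, ⟨s, rfl⟩⟩) : Y) = g s
  rw [h1]
  rfl

theorem rdeg_eq {Y : Type} [Fintype Y] (F : SimpleGraph (Option Y)) {t : ℕ} (ι : Fin t ↪ Y)
    (hι : Set.range ι = ess F) :
    rdeg F = rdeg (F.comap (Option.map ι)) + (Fintype.card Y - t - Nat.card (isoV F)) := by
  classical
  have h1 : rdeg F = {y : Y | F.Adj none (some y)}.ncard := by
    unfold rdeg
    exact Nat.card_coe_set_eq _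
  have h2 : rdeg (F.comap (Option.map ι)) = ({y : Y | F.Adj none (some y)} ∩ ess F).ncard := by
    have e : {y : Y | F.Adj none (some y)} ∩ ess F = ι '' {a : Fin t | F.Adj none (some (ι a))} := by
      ext y
      rw [← hι]
      constructor
      · rintro ⟨hy, a, rfl⟩
        exact ⟨a, hy, rfl⟩
      · rintro ⟨a, ha, rfl⟩
        exact ⟨ha, a, rfl⟩
    rw [e, Set.ncard_image_of_injective _ ι.injective]
    unfold rdeg
    exact Nat.card_coe_set_eq _
  have h3 : {y : Y | F.Adj none (some y)} \ ess F = (ess F ∪ isoV F)ᶜ := by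
    ext y
    simp only [Set.mem_sdiff, Set.mem_compl_iff, Set.mem_union, not_or]
    constructor
    · rintro ⟨hy, hy2⟩
      exact ⟨hy2, fun h => h none (F.adj_symm hy)⟩
    · rintro ⟨hy1, hy2⟩
      refine ⟨?_, hy1⟩
      by_contra hc
      apply hy2
      intro u hu
      cases u with
      | none => exact hc (F.adj_symm hu)
      | some y' => exact hy1 ⟨y', hu⟩
  have h4 : (ess F).ncard = t := by
    rw [← hι, ← Set.image_univ, Set.ncard_image_of_injective _ ι.injective, Set.ncard_univ,
      Nat.card_eq_fintype_card, Fintype.card_fin]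
  have h5 : Disjoint (ess F) (isoV F) := by
    rw [Set.disjoint_left]
    rintro y ⟨y', hy⟩ hy2
    exact hy2 _ hy
  have h6 : (ess F ∪ isoV F).ncard = t + Nat.card (isoV F) := by
    rw [Set.ncard_union_eq h5, h4, Nat.card_coe_set_eq]
  have h7 := Set.ncard_add_ncard_compl (ess F ∪ isoV F)
  have h9 : Nat.card Y = Fintype.card Y := Nat.card_eq_fintype_card
  rw [h6, h9] at h7
  have h8 := Set.ncard_inter_add_ncard_sdiff_eq_ncard {y : Y | F.Adj none (some y)} (ess F)
  rw [h3] at h8
  omega

variable {W : Type} (C : SimpleGraph (Option W)) (R : ℕ)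

theorem res_inr {i : Fin R} {u : W ⊕ Fin R} : ¬ (res C R).Adj (some (Sum.inr i)) (some u) := by
  intro h
  cases u <;> exact h

theorem res_inl {u v : Option W} : (res C R).Adj (u.map Sum.inl) (v.map Sum.inl) ↔ C.Adj u v := by
  cases u <;> cases v
  · constructor
    · intro h; exact h.elim
    · intro h; exact (C.loopless.irrefl _ h).elim
  · rfl
  · rfl
  · rfl

end B3b_ns

open B3b_ns in
theorem B3b : S_B3b := by
  classical
  intro W _ C R F
  have hcY : Fintype.card (W ⊕ Fin R) = Fintype.card W + R := by
    rw [Fintype.card_sum, Fintype.card_fin]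
  constructor
  · rintro ⟨⟨π, hπ⟩, hdeg⟩
    -- enumeration of the essential vertices
    have : Fintype (ess F) := Fintype.ofFinite _
    let e := Fintype.equivFin (ess F)
    let ι : Fin (Fintype.card (ess F)) ↪ (W ⊕ Fin R) :=
      e.symm.toEmbedding.trans (Function.Embedding.subtype _)
    have hι : Set.range ι = ess F := by
      ext y
      constructor
      · rintro ⟨a, rfl⟩
        exact (e.symm a).2
      · intro hy
        refine ⟨e ⟨y, hy⟩, ?_⟩
        show ((e.symm (e ⟨y, hy⟩) : ess F) : W ⊕ Fin R) = y
        rw [Equiv.symm_apply_apply]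
    refine ⟨_, ι, hι, ?_, ?_⟩
    · have hk : ∀ a, ∃ w : W, π (ι a) = Sum.inl w := by
        intro a
        have h1 : ι a ∈ ess F := hι.subset ⟨a, rfl⟩
        obtain ⟨y', hy'⟩ := h1
        have h2 := hπ _ _ hy'
        rcases hc : π (ι a) with w | i
        · exact ⟨w, rfl⟩
        · exfalso
          rw [Option.map_some, Option.map_some, hc] at h2
          exact res_inr C R h2
      choose κ hκ using hk
      have hκi : Function.Injective κ := by
        intro a b hab
        have h1 : π (ι a) = π (ι b) := by rw [hκ, hκ, hab]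
        exact ι.injective (π.injective h1)
      refine ⟨⟨κ, hκi⟩, ?_, ?_⟩
      · intro u v huv
        have h1 := hπ _ _ huv
        have h2 : ∀ u : Option (Fin (Fintype.card (ess F))),
            (u.map ι).map π = (u.map κ).map Sum.inl := by
          intro u
          cases u with
          | none => rfl
          | some a => simp [hκ]
        rw [h2, h2, res_inl] at h1
        exact h1
      · have hm : ∀ w : {w : W // w ∉ Set.range (⟨κ, hκi⟩ : Fin (Fintype.card (ess F)) ↪ W) ∧
            ¬ C.Adj none (some w)}, π.symm (Sum.inl w.1) ∈ isoV F := by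
          rintro ⟨w, hw1, hw2⟩ u hu
          have hess : π.symm (Sum.inl w) ∉ ess F := by
            intro hmem
            obtain ⟨a, ha⟩ := hι.symm.subset hmem
            apply hw1
            refine ⟨a, ?_⟩
            have h1 := hκ a
            rw [ha, Equiv.apply_symm_apply] at h1
            exact (Sum.inl_injective h1).symm
          cases u with
          | none =>
            have h1 := hπ _ _ (F.adj_symm hu)
            rw [Option.map_none, Option.map_some, Equiv.apply_symm_apply] at h1
            exact hw2 h1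
          | some y' => exact hess ⟨y', hu⟩
        refine Nat.card_le_card_of_injective (fun w => (⟨π.symm (Sum.inl w.1), hm w⟩ : isoV F)) ?_
        intro w w' hww
        have h1 : π.symm (Sum.inl w.1) = π.symm (Sum.inl w'.1) := congrArg Subtype.val hww
        exact Subtype.ext (Sum.inl_injective (π.symm.injective h1))
    · have h1 := rdeg_eq F ι hι
      rw [hcY] at h1
      rw [← h1]
      exact hdeg
  · rintro ⟨t, ι, hι, ⟨κ, hκ1, hκ2⟩, hdeg⟩
    have h1 := rdeg_eq F ι hι
    rw [hcY] at h1
    rw [← h1] at hdeg
    refine ⟨?_, hdeg⟩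
    -- isolated vertices for the unused non-neighbours of the root
    have : Fintype {w : W // w ∉ Set.range κ ∧ ¬ C.Adj none (some w)} := Fintype.ofFinite _
    have : Fintype (isoV F) := Fintype.ofFinite _
    rw [Nat.card_eq_fintype_card, Nat.card_eq_fintype_card] at hκ2
    obtain ⟨j⟩ := Function.Embedding.nonempty_of_card_le hκ2
    let f : Fin t ⊕ {w : W // w ∉ Set.range κ ∧ ¬ C.Adj none (some w)} → W ⊕ Fin R :=
      Sum.elim ι (fun w => (j w : W ⊕ Fin R))
    let g : Fin t ⊕ {w : W // w ∉ Set.range κ ∧ ¬ C.Adj none (some w)} → W ⊕ Fin R :=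
      Sum.elim (fun a => Sum.inl (κ a)) (fun w => Sum.inl w.1)
    have hne : ∀ a w, ι a ≠ (j w : W ⊕ Fin R) := by
      intro a w h
      have h2 : ι a ∈ ess F := hι.subset ⟨a, rfl⟩
      obtain ⟨y', hy'⟩ := h2
      rw [h] at hy'
      exact (j w).2 _ hy'
    have hf : Function.Injective f := by
      rintro (a | w) (b | w') h
      · exact congrArg Sum.inl (ι.injective h)
      · exact (hne a w' h).elim
      · exact (hne b w h.symm).elim
      · exact congrArg Sum.inr (j.injective (Subtype.ext h))
    have hg : Function.Injective g := by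
      rintro (a | w) (b | w') h
      · exact congrArg Sum.inl (κ.injective (Sum.inl_injective h))
      · exact (w'.2.1 ⟨a, Sum.inl_injective h⟩).elim
      · exact (w.2.1 ⟨b, (Sum.inl_injective h).symm⟩).elim
      · exact congrArg Sum.inr (Subtype.ext (Sum.inl_injective h))
    obtain ⟨π, hπ⟩ := exists_perm hf hg
    have hπ1 : ∀ a, π (ι a) = Sum.inl (κ a) := fun a => hπ (Sum.inl a)
    have hπ2 : ∀ w, π (j w : W ⊕ Fin R) = Sum.inl w.1 := fun w => hπ (Sum.inr w)
    have hnone : ∀ y, F.Adj none (some y) → (res C R).Adj none (some (π y)) := by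
      intro y hy
      by_cases hess : y ∈ ess F
      · rw [← hι] at hess
        obtain ⟨a, rfl⟩ := hess
        rw [hπ1]
        exact hκ1 none (some a) hy
      · rcases hc : π y with w | i
        · show C.Adj none (some w)
          by_contra hcon
          have hw : w ∉ Set.range κ := by
            rintro ⟨a, ha⟩
            apply hess
            rw [← hι]
            refine ⟨a, π.injective ?_⟩
            rw [hπ1, hc, ha]
          have h2 : y = (j ⟨w, hw, hcon⟩ : W ⊕ Fin R) := by
            apply π.injective
            rw [hπ2, hc]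
          have h3 := (j ⟨w, hw, hcon⟩).2
          rw [← h2] at h3
          exact h3 none (F.adj_symm hy)
        · exact trivial
    refine ⟨π, fun u v huv => ?_⟩
    cases u with
    | none =>
      cases v with
      | none => exact (F.loopless.irrefl _ huv).elim
      | some y => exact hnone y huv
    | some y =>
      cases v with
      | none => exact (res C R).adj_symm (hnone y (F.adj_symm huv))
      | some y' =>
        have h2 : y ∈ ess F := ⟨y', huv⟩
        have h3 : y' ∈ ess F := ⟨y, F.adj_symm huv⟩
        rw [← hι] at h2 h3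
        obtain ⟨a, rfl⟩ := h2
        obtain ⟨b, rfl⟩ := h3
        rw [Option.map_some, Option.map_some, hπ1, hπ1]
        exact hκ1 (some a) (some b) huv

end Pool.Agent.H695R3.SF
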