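import Pool.Agent.H695R3.SF.Defs

/-! B4: decomposition into `2 ^ R` times a polynomial and a polynomial. -/

namespace Pool.Agent.H695R3.SF

open Finset

namespace B4_ns

/-! ### binomial polynomials -/

/-- the polynomial `R ↦ (R + c).choose t` -/
noncomputable def bp (c t : ℕ) : Polynomial ℚ :=
  Polynomial.C ((t.factorial : ℚ)⁻¹) * Polynomial.taylor (c : ℚ) (descPochhammer ℚ t)

theorem bp_eval (c t R : ℕ) : (bp c t).eval (R : ℚ) = ((R + c).choose t : ℚ) := by
  unfold bp
  rw [Polynomial.eval_mul, Polynomial.eval_C, Polynomial.taylor_eval,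
    show (R : ℚ) + (c : ℚ) = ((R + c : ℕ) : ℚ) by push_cast; ring,
    descPochhammer_eval_eq_descFactorial, Nat.descFactorial_eq_factorial_mul_choose]
  have : (t.factorial : ℚ) ≠ 0 := by exact_mod_cast t.factorial_ne_zero
  push_cast
  field_simp

theorem bp_deg (c t : ℕ) : (bp c t).natDegree ≤ t := by
  unfold bp
  refine (Polynomial.natDegree_C_mul_le _ _).trans ?_
  rw [Polynomial.natDegree_taylor, descPochhammer_natDegree]

theorem bp_coeff (c t : ℕ) : (bp c t).coeff t = (t.factorial : ℚ)⁻¹ := by
  unfold bp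
  rw [Polynomial.coeff_C_mul]
  have h1 : (descPochhammer ℚ t).natDegree = t := descPochhammer_natDegree ℚ t
  have h2 := Polynomial.coeff_taylor_natDegree (c : ℚ) (descPochhammer ℚ t)
  rw [h1, (monic_descPochhammer ℚ t).leadingCoeff] at h2
  rw [h2, mul_one]

/-! ### counting -/

section cnt

variable {W : Type} [Fintype W] (C : SimpleGraph (Option W))

/-- the number of graphs -/
noncomputable def cnt (t i m : ℕ) : ℕ :=
  Nat.card {F : SimpleGraph (Option (Fin t)) // AllEss F ∧ OkI C t F i ∧
    Fintype.card W + 1 ≤ rdeg F + m}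

theorem cnt_large (t i m : ℕ) (hm : Fintype.card W + 1 ≤ m) :
    cnt C t i m = cnt C t i (Fintype.card W + 1) := by
  unfold cnt
  refine Nat.card_congr (Equiv.subtypeEquivRight fun F => ?_)
  constructor
  · rintro ⟨h1, h2, -⟩; exact ⟨h1, h2, by omega⟩
  · rintro ⟨h1, h2, -⟩; exact ⟨h1, h2, by omega⟩

theorem okI_large (t i i' : ℕ) (hi : Fintype.card W - t ≤ i') (F : SimpleGraph (Option (Fin t)))
    (h : OkI C t F i) : OkI C t F i' := by
  classical
  obtain ⟨ι, h1, -⟩ := h
  refine ⟨ι, h1, ?_⟩
  have h2 : (Set.range ι).ncard = t := by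
    rw [← Set.image_univ, Set.ncard_image_of_injective _ ι.injective, Set.ncard_univ,
      Nat.card_eq_fintype_card, Fintype.card_fin]
  have h3 := Set.ncard_add_ncard_compl (Set.range ι)
  rw [h2, Nat.card_eq_fintype_card] at h3
  have h4 : Nat.card {w : W // w ∉ Set.range ι ∧ ¬ C.Adj none (some w)} ≤ (Set.range ι)ᶜ.ncard := by
    rw [← Nat.card_coe_set_eq]
    refine Nat.card_le_card_of_injective
      (fun w : {w : W // w ∉ Set.range ι ∧ ¬ C.Adj none (some w)} =>
        (⟨w.1, w.2.1⟩ : ((Set.range ι)ᶜ : Set W))) ?_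
    intro a b hab
    have h5 := Subtype.ext_iff.1 hab
    exact Subtype.ext h5
  omega

theorem cnt_emb (t i m : ℕ) (hi : Fintype.card W - t ≤ i) :
    cnt C t i m = cnt C t (Fintype.card W) m := by
  unfold cnt
  refine Nat.card_congr (Equiv.subtypeEquivRight fun F => ?_)
  constructor
  · rintro ⟨h1, h2, h3⟩; exact ⟨h1, okI_large C t _ _ (by omega) F h2, h3⟩
  · rintro ⟨h1, h2, h3⟩; exact ⟨h1, okI_large C t _ _ hi F h2, h3⟩

/-- the number of embeddable graphs -/
noncomputable def EE (t : ℕ) : ℚ := cnt C t (Fintype.card W) (Fintype.card W + 1)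

theorem inner_sum (t R : ℕ) (ht : t ≤ Fintype.card W) (hR : Fintype.card W ≤ R) :
    ∑ i ∈ range (Fintype.card W + R - t + 1), ((Fintype.card W + R - t).choose i : ℚ) *
      (cnt C t i (Fintype.card W + R - t - i) : ℚ) =
    EE C t * 2 ^ (Fintype.card W + R - t) -
      (∑ i ∈ range (Fintype.card W - t), ((Fintype.card W + R - t).choose i : ℚ) *
        (EE C t - cnt C t i (Fintype.card W + 1)) +
      ∑ j ∈ range (Fintype.card W + 1), ((Fintype.card W + R - t).choose j : ℚ) *
        (EE C t - cnt C t (Fintype.card W) j)) := by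
  set c := Fintype.card W with hc
  set n := c + R - t with hn
  have hsum : (2 : ℚ) ^ n = ∑ i ∈ range (n + 1), (n.choose i : ℚ) := by
    have := Nat.sum_range_choose n
    exact_mod_cast this.symm
  rw [hsum, Finset.mul_sum]
  have hsplit : n + 1 = (c - t) + ((R - c) + (c + 1)) := by omega
  have hdiff : ∑ i ∈ range (n + 1), (n.choose i : ℚ) * (cnt C t i (n - i) : ℚ) -
      ∑ i ∈ range (n + 1), EE C t * (n.choose i : ℚ) =
      ∑ i ∈ range (n + 1), (n.choose i : ℚ) * ((cnt C t i (n - i) : ℚ) - EE C t) := by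
    rw [← Finset.sum_sub_distrib]
    refine Finset.sum_congr rfl fun i _ => ?_
    ring
  have h1 : ∑ i ∈ range (n + 1), (n.choose i : ℚ) * ((cnt C t i (n - i) : ℚ) - EE C t) =
      -(∑ i ∈ range (c - t), (n.choose i : ℚ) * (EE C t - cnt C t i (c + 1)) +
      ∑ j ∈ range (c + 1), (n.choose j : ℚ) * (EE C t - cnt C t c j)) := by
    rw [hsplit, Finset.sum_range_add, Finset.sum_range_add]
    have p1 : ∑ i ∈ range (c - t), (n.choose i : ℚ) * ((cnt C t i (n - i) : ℚ) - EE C t) =
        -∑ i ∈ range (c - t), (n.choose i : ℚ) * (EE C t - cnt C t i (c + 1)) := by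
      rw [← Finset.sum_neg_distrib]
      refine Finset.sum_congr rfl fun i hi => ?_
      rw [mem_range] at hi
      rw [cnt_large C t i (n - i) (by omega)]
      ring
    have p2 : ∑ x ∈ range (R - c), (n.choose (c - t + x) : ℚ) *
        ((cnt C t (c - t + x) (n - (c - t + x)) : ℚ) - EE C t) = 0 := by
      apply Finset.sum_eq_zero
      intro x hx
      rw [mem_range] at hx
      rw [cnt_large C t _ (n - (c - t + x)) (by omega), cnt_emb C t _ _ (by omega)]
      unfold EE
      ring
    have p3 : ∑ x ∈ range (c + 1), (n.choose (c - t + (R - c + x)) : ℚ) *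
        ((cnt C t (c - t + (R - c + x)) (n - (c - t + (R - c + x))) : ℚ) - EE C t) =
        -∑ j ∈ range (c + 1), (n.choose j : ℚ) * (EE C t - cnt C t c j) := by
      rw [← Finset.sum_neg_distrib, ← Finset.sum_range_reflect
        (fun j => -((n.choose j : ℚ) * (EE C t - cnt C t c j)))]
      refine Finset.sum_congr rfl fun x hx => ?_
      rw [mem_range] at hx
      have e1 : c + 1 - 1 - x = n - (c - t + (R - c + x)) := by omega
      rw [e1, Nat.choose_symm (by omega), cnt_emb C t _ _ (by omega)]
      ring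
    rw [p1, p2, p3]
    ring
  linarith

end cnt

/-! ### the number `NN` -/

theorem NN_eq {W : Type} [Fintype W] (C : SimpleGraph (Option W)) :
    (NN C : ℚ) = EE C (Fintype.card W) := by
  classical
  unfold NN EE cnt
  congr 1
  set c := Fintype.card W with hc
  let e : W ≃ Fin c := Fintype.equivFin W
  have hmm : ∀ u : Option (Fin c), (u.map e.symm).map e = u := by
    intro u; cases u <;> simp
  have hmm' : ∀ u : Option W, (u.map e).map e.symm = u := by
    intro u; cases u <;> simp
  let Φ : SimpleGraph (Option W) ≃ SimpleGraph (Option (Fin c)) :=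
    { toFun := fun F => F.comap (Option.map e.symm)
      invFun := fun F => F.comap (Option.map e)
      left_inv := fun F => by
        ext u v
        show F.Adj ((u.map e).map e.symm) ((v.map e).map e.symm) ↔ _
        rw [hmm', hmm']
      right_inv := fun F => by
        ext u v
        show F.Adj ((u.map e.symm).map e) ((v.map e.symm).map e) ↔ _
        rw [hmm, hmm] }
  refine Nat.card_congr (Φ.subtypeEquiv fun F => ?_)
  have hadj : ∀ u v, (Φ F).Adj u v ↔ F.Adj (u.map e.symm) (v.map e.symm) := fun u v => Iff.rfl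
  constructor
  · rintro ⟨h1, π, hπ⟩
    refine ⟨fun a => ?_, ⟨e.symm.toEmbedding.trans π.toEmbedding, fun u v huv => ?_, ?_⟩, by omega⟩
    · obtain ⟨w', hw'⟩ := h1 (e.symm a)
      refine ⟨e w', ?_⟩
      rw [hadj]
      simpa using hw'
    · have h2 := hπ _ _ ((hadj u v).1 huv)
      rw [Option.map_map, Option.map_map] at h2
      exact h2
    · have h3 := Finite.card_subtype_le (fun w : W =>
        w ∉ Set.range (e.symm.toEmbedding.trans π.toEmbedding) ∧ ¬ C.Adj none (some w))
      rw [Nat.card_eq_fintype_card (α := W)] at h3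
      exact h3
  · rintro ⟨h1, ⟨ι, hι, -⟩, -⟩
    have hbij : Function.Bijective (fun w : W => ι (e w)) := by
      rw [Fintype.bijective_iff_injective_and_card]
      exact ⟨ι.injective.comp e.injective, rfl⟩
    refine ⟨fun w => ?_, Equiv.ofBijective _ hbij, fun u v huv => ?_⟩
    · obtain ⟨a, ha⟩ := h1 (e w)
      rw [hadj] at ha
      exact ⟨e.symm a, by simpa using ha⟩
    · have h2 : (Φ F).Adj (u.map e) (v.map e) := by
        rw [hadj, hmm', hmm']
        exact huv
      have h3 := hι _ _ h2
      rw [Option.map_map, Option.map_map] at h3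
      exact h3

end B4_ns

open B4_ns in
theorem B4 (h1 : S_B1) (h2 : S_B2) (h3 : S_B3) : S_B4 := by
  classical
  intro W _ _ C
  obtain ⟨N, hN⟩ := h2 W C
  set c := Fintype.card W with hc
  -- the correction terms
  let G : ℕ → Polynomial ℚ := fun t =>
    ∑ i ∈ range (c - t), bp (c - t) i * Polynomial.C (EE C t - cnt C t i (c + 1)) +
    ∑ j ∈ range (c + 1), bp (c - t) j * Polynomial.C (EE C t - cnt C t c j)
  let A : Polynomial ℚ := ∑ t ∈ range (c + 1),
    (Polynomial.X + Polynomial.C ((c : ℚ) + 1)) * bp c t * Polynomial.C (EE C t * 2 ^ (c - t))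
  let B : Polynomial ℚ := ∑ s ∈ range (2 * c + 2), bp (c + 1) s * Polynomial.C (N s : ℚ) -
    ∑ t ∈ range (c + 1), (Polynomial.X + Polynomial.C ((c : ℚ) + 1)) * bp c t * G t
  have hX : (Polynomial.X + Polynomial.C ((c : ℚ) + 1)).natDegree ≤ 1 := by
    rw [Polynomial.natDegree_X_add_C]
  have hXb : ∀ t, ((Polynomial.X + Polynomial.C ((c : ℚ) + 1)) * bp c t).natDegree ≤ t + 1 := by
    intro t
    refine Polynomial.natDegree_mul_le.trans ?_
    have := bp_deg c t
    omega
  have hA : ∀ t, ((Polynomial.X + Polynomial.C ((c : ℚ) + 1)) * bp c t *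
      Polynomial.C (EE C t * 2 ^ (c - t))).natDegree ≤ t + 1 := by
    intro t
    refine Polynomial.natDegree_mul_le.trans ?_
    rw [Polynomial.natDegree_C]
    exact hXb t
  have hG : ∀ t, (G t).natDegree ≤ c := by
    intro t
    refine (Polynomial.natDegree_add_le _ _).trans (max_le ?_ ?_)
    · apply Polynomial.natDegree_sum_le_of_forall_le
      intro i hi
      rw [mem_range] at hi
      refine Polynomial.natDegree_mul_le.trans ?_
      rw [Polynomial.natDegree_C]
      have := bp_deg (c - t) i
      omega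
    · apply Polynomial.natDegree_sum_le_of_forall_le
      intro i hi
      rw [mem_range] at hi
      refine Polynomial.natDegree_mul_le.trans ?_
      rw [Polynomial.natDegree_C]
      have := bp_deg (c - t) i
      omega
  refine ⟨A, B, ?_, ?_, ?_, ?_⟩
  · apply Polynomial.natDegree_sum_le_of_forall_le
    intro t ht
    rw [mem_range] at ht
    exact (hA t).trans (by omega)
  · have e1 : A.coeff (c + 1) = EE C c * (c.factorial : ℚ)⁻¹ := by
      show (∑ t ∈ range (c + 1), (Polynomial.X + Polynomial.C ((c : ℚ) + 1)) * bp c t *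
        Polynomial.C (EE C t * 2 ^ (c - t))).coeff (c + 1) = _
      rw [Polynomial.finsetSum_coeff, Finset.sum_range_succ, Finset.sum_eq_zero, zero_add]
      · rw [Polynomial.coeff_mul_C, add_mul, Polynomial.coeff_add, Polynomial.coeff_X_mul,
          Polynomial.coeff_C_mul, bp_coeff,
          Polynomial.coeff_eq_zero_of_natDegree_lt (lt_of_le_of_lt (bp_deg c c) (Nat.lt_succ_self c)),
          Nat.sub_self]
        ring
      · intro t ht
        rw [mem_range] at ht
        apply Polynomial.coeff_eq_zero_of_natDegree_lt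
        exact lt_of_le_of_lt (hA t) (by omega)
    have hf : (c.factorial : ℚ) ≠ 0 := by exact_mod_cast c.factorial_ne_zero
    rw [e1, NN_eq, mul_assoc, inv_mul_cancel₀ hf, mul_one]
  · refine (Polynomial.natDegree_sub_le _ _).trans (max_le ?_ ?_)
    · apply Polynomial.natDegree_sum_le_of_forall_le
      intro s hs
      rw [mem_range] at hs
      refine Polynomial.natDegree_mul_le.trans ?_
      rw [Polynomial.natDegree_C]
      have := bp_deg (c + 1) s
      omega
    · apply Polynomial.natDegree_sum_le_of_forall_le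
      intro t ht
      rw [mem_range] at ht
      refine Polynomial.natDegree_mul_le.trans ?_
      have g1 := hXb t
      have g2 := hG t
      omega
  · intro R hR
    have l1 := h1 W C R
    have l2 := hN R hR
    have l3 := h3 W C R
    rw [l2, l3] at l1
    rw [l1]
    push_cast
    have hAe : A.eval (R : ℚ) = ∑ t ∈ range (c + 1),
        ((R : ℚ) + (c + 1)) * ((R + c).choose t : ℚ) * (EE C t * 2 ^ (c - t)) := by
      show (∑ t ∈ range (c + 1), (Polynomial.X + Polynomial.C ((c : ℚ) + 1)) * bp c t *
        Polynomial.C (EE C t * 2 ^ (c - t))).eval (R : ℚ) = _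
      rw [Polynomial.eval_finsetSum]
      refine Finset.sum_congr rfl fun t _ => ?_
      simp only [Polynomial.eval_mul, Polynomial.eval_add, Polynomial.eval_X, Polynomial.eval_C,
        bp_eval]
    have hGe : ∀ t, (G t).eval (R : ℚ) =
        ∑ i ∈ range (c - t), ((R + (c - t)).choose i : ℚ) * (EE C t - cnt C t i (c + 1)) +
        ∑ j ∈ range (c + 1), ((R + (c - t)).choose j : ℚ) * (EE C t - cnt C t c j) := by
      intro t
      show (∑ i ∈ range (c - t), bp (c - t) i * Polynomial.C (EE C t - cnt C t i (c + 1)) +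
        ∑ j ∈ range (c + 1), bp (c - t) j * Polynomial.C (EE C t - cnt C t c j)).eval (R : ℚ) = _
      rw [Polynomial.eval_add, Polynomial.eval_finsetSum, Polynomial.eval_finsetSum]
      simp only [Polynomial.eval_mul, Polynomial.eval_C, bp_eval]
    have hBe : B.eval (R : ℚ) = ∑ s ∈ range (2 * c + 2), ((R + (c + 1)).choose s : ℚ) * (N s : ℚ) -
        ∑ t ∈ range (c + 1), ((R : ℚ) + (c + 1)) * ((R + c).choose t : ℚ) * (G t).eval (R : ℚ) := by
      show (∑ s ∈ range (2 * c + 2), bp (c + 1) s * Polynomial.C (N s : ℚ) -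
        ∑ t ∈ range (c + 1), (Polynomial.X + Polynomial.C ((c : ℚ) + 1)) * bp c t *
          G t).eval (R : ℚ) = _
      rw [Polynomial.eval_sub, Polynomial.eval_finsetSum, Polynomial.eval_finsetSum]
      simp only [Polynomial.eval_mul, Polynomial.eval_add, Polynomial.eval_X, Polynomial.eval_C,
        bp_eval]
    rw [hAe, hBe, Finset.mul_sum, Finset.mul_sum]
    have e0 : ∀ s, ((c + R + 1).choose s : ℚ) = ((R + (c + 1)).choose s : ℚ) := by
      intro s
      rw [show c + R + 1 = R + (c + 1) by ring]
    simp only [e0]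
    have hmain : ∀ t ∈ range (c + 1), ((c : ℚ) + R + 1) * (((c + R).choose t : ℚ) *
        ∑ i ∈ range (c + R - t + 1), ((c + R - t).choose i : ℚ) *
          (Nat.card {F : SimpleGraph (Option (Fin t)) // AllEss F ∧ OkI C t F i ∧
            c + 1 ≤ rdeg F + (c + R - t - i)} : ℚ)) =
        2 ^ R * (((R : ℚ) + (c + 1)) * ((R + c).choose t : ℚ) * (EE C t * 2 ^ (c - t))) -
        ((R : ℚ) + (c + 1)) * ((R + c).choose t : ℚ) * (G t).eval (R : ℚ) := by
      intro t ht
      rw [mem_range] at ht
      have hi := inner_sum C t R (by omega) hR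
      rw [← hc] at hi
      have hcn : ∀ i, (Nat.card {F : SimpleGraph (Option (Fin t)) // AllEss F ∧ OkI C t F i ∧
            c + 1 ≤ rdeg F + (c + R - t - i)} : ℚ) = (cnt C t i (c + R - t - i) : ℚ) :=
        fun i => rfl
      simp only [hcn]
      rw [hi, hGe, show c + R = R + c by ring, show R + c - t = R + (c - t) by omega, pow_add]
      ring
    rw [Finset.sum_congr rfl hmain, Finset.sum_sub_distrib]
    ring

end Pool.Agent.H695R3.SF
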