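import Pool.Agent.H695R3.SF.Defs

/-! B5: the extraction. -/

namespace Pool.Agent.H695R3.SF

open Finset

namespace B5_ns



/-- the alternating sum is an iterated difference -/
theorem sum_eq (d : ℕ) (g : ℕ → ℚ) (x : ℕ) :
    ∑ j ∈ range (d + 1), (-1 : ℚ) ^ j * (d.choose j) * g (x + (d - j)) = (fwdDiff 1)^[d] g x := by
  rw [fwdDiff_iter_eq_sum_shift, ← Finset.sum_range_reflect]
  refine Finset.sum_congr rfl fun k hk => ?_
  rw [mem_range] at hk
  have e1 : d + 1 - 1 - k = d - k := by omega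
  have e2 : d - (d - k) = k := by omega
  rw [e1, e2, Nat.choose_symm (by omega), zsmul_eq_mul]
  push_cast
  rw [smul_eq_mul, mul_one]

theorem cast_iter (f : ℚ → ℚ) (n y : ℕ) :
    (fwdDiff 1)^[n] (fun R : ℕ => f (R : ℚ)) y = (fwdDiff 1)^[n] f (y : ℚ) := by
  rw [fwdDiff_iter_eq_sum_shift, fwdDiff_iter_eq_sum_shift]
  refine Finset.sum_congr rfl fun k _ => ?_
  congr 2
  push_cast
  simp

/-- a polynomial of small degree is killed -/
theorem kill {B : Polynomial ℚ} {d : ℕ} (h : B.natDegree < d) (y : ℕ) :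
    (fwdDiff 1)^[d] (fun R : ℕ => B.eval (R : ℚ)) y = 0 := by
  rw [cast_iter (fun x => B.eval x), Polynomial.fwdDiff_iter_eq_zero_of_degree_lt h]
  rfl

theorem top {A : Polynomial ℚ} {a : ℕ} (h : A.natDegree ≤ a) (y : ℕ) :
    (fwdDiff 1)^[a] (fun R : ℕ => A.eval (R : ℚ)) y = (a.factorial : ℚ) * A.coeff a := by
  rcases h.lt_or_eq with h1 | h1
  · rw [kill h1, Polynomial.coeff_eq_zero_of_natDegree_lt h1, mul_zero]
  · rw [cast_iter (fun x => A.eval x), ← h1, Polynomial.fwdDiff_iter_degree_eq_factorial]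
    show A.leadingCoeff * ((A.natDegree.factorial : ℚ)) = _
    rw [Polynomial.leadingCoeff, mul_comm]

/-- the operator on the coefficients of `2 ^ R` -/
noncomputable def T (A : Polynomial ℚ) : Polynomial ℚ :=
  Polynomial.C 2 * Polynomial.taylor 1 A - A

theorem T_deg {A : Polynomial ℚ} {a : ℕ} (h : A.natDegree ≤ a) : (T A).natDegree ≤ a := by
  unfold T
  refine (Polynomial.natDegree_sub_le _ _).trans (max_le ?_ h)
  refine (Polynomial.natDegree_C_mul_le _ _).trans ?_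
  rw [Polynomial.natDegree_taylor]
  exact h

theorem T_coeff {A : Polynomial ℚ} {a : ℕ} (h : A.natDegree ≤ a) : (T A).coeff a = A.coeff a := by
  unfold T
  rw [Polynomial.coeff_sub, Polynomial.coeff_C_mul]
  have h2 : (Polynomial.taylor 1 A).coeff a = A.coeff a := by
    rcases h.lt_or_eq with h1 | h1
    · rw [Polynomial.coeff_eq_zero_of_natDegree_lt h1,
        Polynomial.coeff_eq_zero_of_natDegree_lt (by rw [Polynomial.natDegree_taylor]; exact h1)]
    · rw [← h1, Polynomial.coeff_taylor_natDegree]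
      rfl
  rw [h2]
  ring

theorem T_step (A : Polynomial ℚ) :
    fwdDiff 1 (fun R : ℕ => (2 : ℚ) ^ R * A.eval (R : ℚ)) = fun R : ℕ => (2 : ℚ) ^ R * (T A).eval (R : ℚ) := by
  funext R
  show (2 : ℚ) ^ (R + 1) * A.eval (((R + 1 : ℕ)) : ℚ) - 2 ^ R * A.eval (R : ℚ) = _
  unfold T
  rw [Polynomial.eval_sub, Polynomial.eval_mul, Polynomial.eval_C, Polynomial.taylor_eval, pow_succ]
  push_cast
  ring

theorem T_iter (A : Polynomial ℚ) (d : ℕ) :
    (fwdDiff 1)^[d] (fun R : ℕ => (2 : ℚ) ^ R * A.eval (R : ℚ)) =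
      fun R : ℕ => (2 : ℚ) ^ R * (T^[d] A).eval (R : ℚ) := by
  induction d generalizing A with
  | zero => rfl
  | succ d ih => rw [Function.iterate_succ_apply, T_step, ih, Function.iterate_succ_apply]

theorem T_iter_deg {A : Polynomial ℚ} {a : ℕ} (h : A.natDegree ≤ a) (d : ℕ) :
    (T^[d] A).natDegree ≤ a := by
  induction d generalizing A with
  | zero => exact h
  | succ d ih => rw [Function.iterate_succ_apply]; exact ih (T_deg h)

theorem T_iter_coeff {A : Polynomial ℚ} {a : ℕ} (h : A.natDegree ≤ a) (d : ℕ) :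
    (T^[d] A).coeff a = A.coeff a := by
  induction d generalizing A with
  | zero => rfl
  | succ d ih => rw [Function.iterate_succ_apply, ih (T_deg h), T_coeff h]

end B5_ns

open B5_ns in
theorem B5 : S_B5 := by
  intro a d A B f R₀ hA hB hf
  have inner : ∀ x, R₀ ≤ x → ∑ j ∈ range (d + 1), (-1 : ℚ) ^ j * (d.choose j) * f (x + (d - j)) =
      2 ^ x * (T^[d] A).eval (x : ℚ) := by
    intro x hx
    have h1 : ∑ j ∈ range (d + 1), (-1 : ℚ) ^ j * (d.choose j) * f (x + (d - j)) =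
        ∑ j ∈ range (d + 1), (-1 : ℚ) ^ j * (d.choose j) *
          (fun R : ℕ => (2 : ℚ) ^ R * A.eval (R : ℚ)) (x + (d - j)) +
        ∑ j ∈ range (d + 1), (-1 : ℚ) ^ j * (d.choose j) *
          (fun R : ℕ => B.eval (R : ℚ)) (x + (d - j)) := by
      rw [← Finset.sum_add_distrib]
      refine Finset.sum_congr rfl fun j _ => ?_
      rw [hf _ (by omega), ← mul_add]
    rw [h1, sum_eq d (fun R : ℕ => (2 : ℚ) ^ R * A.eval (R : ℚ)) x,
      sum_eq d (fun R : ℕ => B.eval (R : ℚ)) x, kill hB, T_iter, add_zero]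
  have h2 : ∀ k ∈ range (a + 1), (-1 : ℚ) ^ k * (a.choose k) * 2 ^ k *
      ∑ j ∈ range (d + 1), (-1 : ℚ) ^ j * (d.choose j) * f (R₀ + (a - k) + (d - j)) =
      2 ^ (R₀ + a) * ((-1 : ℚ) ^ k * (a.choose k) *
        (fun R : ℕ => (T^[d] A).eval (R : ℚ)) (R₀ + (a - k))) := by
    intro k hk
    rw [mem_range] at hk
    rw [inner (R₀ + (a - k)) (by omega)]
    have h3 : (2 : ℚ) ^ (R₀ + a) = 2 ^ k * 2 ^ (R₀ + (a - k)) := by
      rw [← pow_add]; congr 1; omega
    rw [h3]
    ring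
  rw [Finset.sum_congr rfl h2, ← Finset.mul_sum,
    sum_eq a (fun R : ℕ => (T^[d] A).eval (R : ℚ)) R₀, top (T_iter_deg hA d), T_iter_coeff hA]
  ring

end Pool.Agent.H695R3.SF
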