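import Pool.Agent.H695R3.SF.Defs

namespace Pool.Agent.H695R3.SF

namespace C1_ns

open Finset

/-- the image of a rooted graph under a permutation -/
def act {W : Type} (π : Equiv.Perm W) (G : SimpleGraph (Option W)) : SimpleGraph (Option W) :=
  G.comap (Option.map π.symm)

lemma act_map {W : Type} (π : Equiv.Perm W) (G : SimpleGraph (Option W)) (u v : Option W) :
    (act π G).Adj (u.map π) (v.map π) ↔ G.Adj u v := by
  simp only [act, SimpleGraph.comap_adj, Option.map_map, Equiv.symm_comp_self, Option.map_id, id]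

lemma act_act {W : Type} (π ρ : Equiv.Perm W) (G : SimpleGraph (Option W)) :
    act π (act ρ G) = act (ρ.trans π) G := by
  ext u v
  simp only [act, SimpleGraph.comap_adj, Option.map_map]
  rfl

lemma act_symm {W : Type} (π : Equiv.Perm W) (G : SimpleGraph (Option W)) :
    act π.symm (act π G) = G := by
  rw [act_act, Equiv.self_trans_symm]
  ext u v
  simp [act]

lemma act_symm' {W : Type} (π : Equiv.Perm W) (G : SimpleGraph (Option W)) :
    act π (act π.symm G) = G := by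
  rw [act_act, Equiv.symm_trans_self]
  ext u v
  simp [act]

lemma star_inj {Q : Type} {ls : Q → ℕ} {F F' : SimpleGraph (Option Q)}
    (h : star F ls = star F' ls) : F = F' := by
  ext u v
  have h1 : (star F ls).Adj (u.map Sum.inl) (v.map Sum.inl) ↔
    (star F' ls).Adj (u.map Sum.inl) (v.map Sum.inl) := by rw [h]
  rcases u with _ | u <;> rcases v with _ | v
  · simp
  · exact h1
  · exact h1
  · exact h1

lemma star_allEss {Q : Type} {ls : Q → ℕ} (hls : ∀ q, 2 ≤ ls q) (F : SimpleGraph (Option Q)) :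
    AllEss (star F ls) := by
  rintro (q | p)
  · exact ⟨Sum.inr ⟨q, ⟨0, by have := hls q; omega⟩⟩, rfl⟩
  · exact ⟨Sum.inl p.1, rfl⟩

lemma act_allEss {W : Type} (π : Equiv.Perm W) {G : SimpleGraph (Option W)} (h : AllEss G) :
    AllEss (act π G) := by
  intro w
  obtain ⟨w', hw'⟩ := h (π.symm w)
  refine ⟨π w', ?_⟩
  have := (act_map π G (some (π.symm w)) (some w')).mpr hw'
  simpa using this

/-- the extension of a label preserving permutation -/
def ext {Q : Type} {ls : Q → ℕ} (τ : Equiv.Perm Q) (hτ : ∀ q, ls (τ q) = ls q) :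
    Equiv.Perm (Q ⊕ (Σ q : Q, Fin (ls q))) :=
  Equiv.sumCongr τ (Equiv.sigmaCongr τ (fun q => finCongr (hτ q).symm))

lemma ext_inl {Q : Type} {ls : Q → ℕ} (τ : Equiv.Perm Q) (hτ : ∀ q, ls (τ q) = ls q) (q : Q) :
    ext τ hτ (Sum.inl q) = Sum.inl (τ q) := rfl

lemma ext_inr {Q : Type} {ls : Q → ℕ} (τ : Equiv.Perm Q) (hτ : ∀ q, ls (τ q) = ls q)
    (p : Σ q : Q, Fin (ls q)) :
    ext τ hτ (Sum.inr p) = Sum.inr ⟨τ p.1, finCongr (hτ p.1).symm p.2⟩ := rfl

/-- case analysis for embeddings of stars -/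
lemma star_emb {Q : Type} {ls : Q → ℕ} {F D : SimpleGraph (Option Q)} (σ : Equiv.Perm Q)
    (γ : Equiv.Perm (Q ⊕ (Σ q : Q, Fin (ls q)))) (h1 : ∀ q, γ (Sum.inl q) = Sum.inl (σ q))
    (h2 : ∀ p : Σ q : Q, Fin (ls q), ∃ k', γ (Sum.inr p) = Sum.inr ⟨σ p.1, k'⟩)
    (h : ∀ u v : Option Q, F.Adj u v → D.Adj (u.map σ) (v.map σ)) (u v) :
    (star F ls).Adj u v → (star D ls).Adj (u.map γ) (v.map γ) := by
  intro huv
  rcases u with _ | (u | u) <;> rcases v with _ | (v | v)
  · exact huv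
  · rw [Option.map_some, h1]; exact h _ _ huv
  · exact absurd huv id
  · rw [Option.map_some, h1]; exact h _ _ huv
  · rw [Option.map_some, Option.map_some, h1, h1]; exact h _ _ huv
  · obtain ⟨k', hk'⟩ := h2 v
    rw [Option.map_some, Option.map_some, h1, hk']
    have huv' : v.1 = u := huv
    show σ v.1 = σ u
    rw [huv']
  · exact absurd huv id
  · obtain ⟨k', hk'⟩ := h2 u
    rw [Option.map_some, Option.map_some, h1, hk']
    have huv' : u.1 = v := huv
    show σ u.1 = σ v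
    rw [huv']
  · exact absurd huv id

lemma star_iff {Q : Type} {ls : Q → ℕ} {F D : SimpleGraph (Option Q)} (σ : Equiv.Perm Q)
    (γ : Equiv.Perm (Q ⊕ (Σ q : Q, Fin (ls q)))) (h1 : ∀ q, γ (Sum.inl q) = Sum.inl (σ q))
    (h2 : ∀ p : Σ q : Q, Fin (ls q), ∃ k', γ (Sum.inr p) = Sum.inr ⟨σ p.1, k'⟩)
    (h : ∀ u v : Option Q, F.Adj u v ↔ D.Adj (u.map σ) (v.map σ)) (u v) :
    (star F ls).Adj u v ↔ (star D ls).Adj (u.map γ) (v.map γ) := by
  refine ⟨star_emb σ γ h1 h2 (fun u v => (h u v).1) u v, ?_⟩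
  intro huv
  rcases u with _ | (u | u) <;> rcases v with _ | (v | v)
  · exact huv
  · rw [Option.map_some, h1] at huv; exact (h none (some v)).2 huv
  · obtain ⟨k', hk'⟩ := h2 v
    rw [Option.map_some, hk'] at huv
    exact huv
  · rw [Option.map_some, h1] at huv; exact (h (some u) none).2 huv
  · rw [Option.map_some, Option.map_some, h1, h1] at huv; exact (h (some u) (some v)).2 huv
  · obtain ⟨k', hk'⟩ := h2 v
    rw [Option.map_some, Option.map_some, h1, hk'] at huv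
    have huv' : σ v.1 = σ u := huv
    exact σ.injective huv'
  · obtain ⟨k', hk'⟩ := h2 u
    rw [Option.map_some, hk'] at huv
    exact huv
  · obtain ⟨k', hk'⟩ := h2 u
    rw [Option.map_some, Option.map_some, h1, hk'] at huv
    have huv' : σ u.1 = σ v := huv
    exact σ.injective huv'
  · obtain ⟨k', hk'⟩ := h2 u
    obtain ⟨l', hl'⟩ := h2 v
    rw [Option.map_some, Option.map_some, hk', hl'] at huv
    exact huv

/-- leaves are mapped to leaves -/
lemma leaf_leaf {Q : Type} {ls : Q → ℕ} (hls : ∀ q, 2 ≤ ls q) {F F' : SimpleGraph (Option Q)}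
    (γ : Equiv.Perm (Q ⊕ (Σ q : Q, Fin (ls q))))
    (h : ∀ u v, (star F ls).Adj u v ↔ (star F' ls).Adj (u.map γ) (v.map γ))
    (p : Σ q : Q, Fin (ls q)) : ∃ p', γ (Sum.inr p) = Sum.inr p' := by
  rcases hγ : γ (Sum.inr p) with q | p'
  · exfalso
    have h2 := hls q
    have key : ∀ k : Fin (ls q), γ (Sum.inl p.1) = Sum.inr ⟨q, k⟩ := by
      intro k
      have h3 : (star F ls).Adj (some (Sum.inr p)) (some (γ.symm (Sum.inr ⟨q, k⟩))) := by
        rw [h, Option.map_some, Option.map_some, hγ, Equiv.apply_symm_apply]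
        rfl
      rcases h4 : γ.symm (Sum.inr ⟨q, k⟩) with q' | p'
      · rw [h4] at h3
        have h5 : p.1 = q' := h3
        rw [h5, ← h4, Equiv.apply_symm_apply]
      · rw [h4] at h3
        exact absurd h3 id
    have h6 := (key ⟨0, by omega⟩).symm.trans (key ⟨1, by omega⟩)
    simp at h6
  · exact ⟨p', rfl⟩

lemma symm_h {Q : Type} {ls : Q → ℕ} {F F' : SimpleGraph (Option Q)}
    {γ : Equiv.Perm (Q ⊕ (Σ q : Q, Fin (ls q)))}
    (h : ∀ u v, (star F ls).Adj u v ↔ (star F' ls).Adj (u.map γ) (v.map γ)) :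
    ∀ u v, (star F' ls).Adj u v ↔ (star F ls).Adj (u.map γ.symm) (v.map γ.symm) := by
  intro u v
  rw [h, Option.map_map, Option.map_map, Equiv.self_comp_symm, Option.map_id, id, id]

lemma ctr_ctr {Q : Type} {ls : Q → ℕ} (hls : ∀ q, 2 ≤ ls q) {F F' : SimpleGraph (Option Q)}
    (γ : Equiv.Perm (Q ⊕ (Σ q : Q, Fin (ls q))))
    (h : ∀ u v, (star F ls).Adj u v ↔ (star F' ls).Adj (u.map γ) (v.map γ))
    (q : Q) : ∃ q', γ (Sum.inl q) = Sum.inl q' := by
  rcases hγ : γ (Sum.inl q) with q' | p'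
  · exact ⟨q', rfl⟩
  · exfalso
    obtain ⟨p'', hp''⟩ := leaf_leaf hls γ.symm (symm_h h) p'
    rw [← hγ, Equiv.symm_apply_apply] at hp''
    simp at hp''

lemma star_star {Q : Type} {ls : Q → ℕ} {F F' : SimpleGraph (Option Q)}
    (γ : Equiv.Perm (Q ⊕ (Σ q : Q, Fin (ls q))))
    (h : ∀ u v, (star F ls).Adj u v ↔ (star F' ls).Adj (u.map γ) (v.map γ))
    (q q' : Q) (p p' : Σ q : Q, Fin (ls q)) (h1 : γ (Sum.inl q) = Sum.inl q')
    (h2 : γ (Sum.inr p) = Sum.inr p') : p.1 = q ↔ p'.1 = q' := by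
  have h3 := h (some (Sum.inl q)) (some (Sum.inr p))
  rw [Option.map_some, Option.map_some, h1, h2] at h3
  exact h3

lemma ls_le {Q : Type} {ls : Q → ℕ} (hls : ∀ q, 2 ≤ ls q) {F F' : SimpleGraph (Option Q)}
    (γ : Equiv.Perm (Q ⊕ (Σ q : Q, Fin (ls q))))
    (h : ∀ u v, (star F ls).Adj u v ↔ (star F' ls).Adj (u.map γ) (v.map γ))
    (q q' : Q) (h1 : γ (Sum.inl q) = Sum.inl q') : ls q ≤ ls q' := by
  have h2 : ∀ k : Fin (ls q), ∃ k' : Fin (ls q'), γ (Sum.inr ⟨q, k⟩) = Sum.inr ⟨q', k'⟩ := by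
    intro k
    obtain ⟨⟨q'', k''⟩, hp⟩ := leaf_leaf hls γ h ⟨q, k⟩
    have h3 := (star_star γ h q q' ⟨q, k⟩ ⟨q'', k''⟩ h1 hp).1 rfl
    simp only at h3
    subst h3
    exact ⟨k'', hp⟩
  choose f hf using h2
  have hinj : Function.Injective f := by
    intro k k' hkk
    have h3 : γ (Sum.inr ⟨q, k⟩) = γ (Sum.inr ⟨q, k'⟩) := by rw [hf, hf, hkk]
    have h4 := γ.injective h3
    simpa using h4
  simpa using Fintype.card_le_of_injective f hinj

lemma gam_of_iso {Q : Type} {ls : Q → ℕ} (hls : ∀ q, 2 ≤ ls q) {F F' : SimpleGraph (Option Q)}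
    (γ : Equiv.Perm (Q ⊕ (Σ q : Q, Fin (ls q))))
    (h : ∀ u v, (star F ls).Adj u v ↔ (star F' ls).Adj (u.map γ) (v.map γ)) : Gam ls γ := by
  choose f hf using ctr_ctr hls γ h
  choose g hg using ctr_ctr hls γ.symm (symm_h h)
  have hfg : ∀ q, f (g q) = q := by
    intro q
    have h1 : γ (Sum.inl (g q)) = Sum.inl q := by rw [← hg, Equiv.apply_symm_apply]
    rw [hf] at h1
    exact Sum.inl_injective h1
  have hgf : ∀ q, g (f q) = q := by
    intro q
    have h1 : γ.symm (Sum.inl (f q)) = Sum.inl q := by rw [← hf, Equiv.symm_apply_apply]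
    rw [hg] at h1
    exact Sum.inl_injective h1
  refine ⟨⟨f, g, hgf, hfg⟩, ?_, hf, ?_⟩
  · intro q
    show ls (f q) = ls q
    apply le_antisymm
    · have h1 := ls_le hls γ.symm (symm_h h) (f q) (g (f q)) (hg _)
      rwa [hgf] at h1
    · exact ls_le hls γ h q (f q) (hf q)
  · intro q k
    obtain ⟨⟨q'', k''⟩, hp⟩ := leaf_leaf hls γ h ⟨q, k⟩
    have h3 := (star_star γ h q (f q) ⟨q, k⟩ ⟨q'', k''⟩ (hf q) hp).1 rfl
    simp only at h3
    subst h3
    exact ⟨k'', hp⟩

/-- the label preserving realised graphs -/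
abbrev II {Q : Type} (D : SimpleGraph (Option Q)) (ls : Q → ℕ) : Type :=
  {F : SimpleGraph (Option Q) // ∃ π : Equiv.Perm Q, (∀ q, ls (π q) = ls q) ∧
    ∀ u v : Option Q, F.Adj u v → D.Adj (u.map π) (v.map π)}

/-- the graphs counted by `NN` -/
abbrev XX {Q : Type} (D : SimpleGraph (Option Q)) (ls : Q → ℕ) : Type :=
  {F : SimpleGraph (Option (Q ⊕ (Σ q : Q, Fin (ls q)))) // AllEss F ∧ REmb F (star D ls)}

/-- the map -/
def Phi {Q : Type} (D : SimpleGraph (Option Q)) (ls : Q → ℕ) (hls : ∀ q, 2 ≤ ls q)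
    (x : Equiv.Perm (Q ⊕ (Σ q : Q, Fin (ls q))) × II D ls) : XX D ls := by
  refine ⟨act x.1 (star x.2.1 ls), act_allEss _ (star_allEss hls _), ?_⟩
  obtain ⟨π, F, τ, hτ, h⟩ := x
  refine ⟨π.symm.trans (ext τ hτ), ?_⟩
  intro u v huv
  have h1 := star_emb (D := D) τ (ext τ hτ) (ext_inl τ hτ) (fun p => ⟨_, ext_inr τ hτ p⟩) h _ _ huv
  simpa [Option.map_map] using h1

lemma surj {Q : Type} (D : SimpleGraph (Option Q)) (ls : Q → ℕ) (hls : ∀ q, 2 ≤ ls q)
    (F : XX D ls) : ∃ x, Phi D ls hls x = F := by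
  obtain ⟨F, hE, ρ, hρ⟩ := F
  set F' := act ρ F with hF'
  have hE' : AllEss F' := act_allEss ρ hE
  have hle : ∀ u v, F'.Adj u v → (star D ls).Adj u v := by
    intro u v huv
    have h1 := hρ _ _ huv
    simpa [Option.map_map] using h1
  let F0 : SimpleGraph (Option Q) := F'.comap (Option.map Sum.inl)
  have hF0 : star F0 ls = F' := by
    have hleaf : ∀ p : Σ q : Q, Fin (ls q),
        F'.Adj (some (Sum.inr p)) (some (Sum.inl p.1)) := by
      intro p
      obtain ⟨w', hw'⟩ := hE' (Sum.inr p)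
      have h1 := hle _ _ hw'
      rcases w' with w' | w'
      · have h2 : p.1 = w' := h1
        rw [h2]; exact hw'
      · exact absurd h1 id
    ext u v
    rcases u with _ | (u | u) <;> rcases v with _ | (v | v)
    · simp
    · exact Iff.rfl
    · exact ⟨fun h => absurd h id, fun h => absurd (hle _ _ h) id⟩
    · exact Iff.rfl
    · exact Iff.rfl
    · refine ⟨fun h => ?_, fun h => hle _ _ h⟩
      have h' : v.1 = u := h
      rw [← h']
      exact (hleaf v).symm
    · exact ⟨fun h => absurd h id, fun h => absurd (hle _ _ h) id⟩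
    · refine ⟨fun h => ?_, fun h => hle _ _ h⟩
      have h' : u.1 = v := h
      rw [← h']
      exact hleaf u
    · exact ⟨fun h => absurd h id, fun h => absurd (hle _ _ h) id⟩
  refine ⟨(ρ.symm, ⟨F0, 1, fun _ => rfl, ?_⟩), ?_⟩
  · intro u v huv
    have h1 : F'.Adj (u.map Sum.inl) (v.map Sum.inl) := huv
    have h2 := hle _ _ h1
    rcases u with _ | u <;> rcases v with _ | v
    · exact absurd h2 id
    · exact h2
    · exact h2
    · exact h2
  · apply Subtype.ext
    show act ρ.symm (star F0 ls) = F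
    rw [hF0, hF', act_symm]

lemma fibre {Q : Type} (D : SimpleGraph (Option Q)) (ls : Q → ℕ) (hls : ∀ q, 2 ≤ ls q)
    (F : XX D ls) : Nonempty ({x // Phi D ls hls x = F} ≃
      {γ : Equiv.Perm (Q ⊕ (Σ q : Q, Fin (ls q))) // Gam ls γ}) := by
  obtain ⟨⟨π₁, F₁⟩, h₁⟩ := surj D ls hls F
  have h₁' : act π₁ (star F₁.1 ls) = F.1 := congrArg Subtype.val h₁
  have hiso : ∀ x : {x // Phi D ls hls x = F}, ∀ u v, (star F₁.1 ls).Adj u v ↔
      (star x.1.2.1 ls).Adj (u.map (π₁.trans x.1.1.symm)) (v.map (π₁.trans x.1.1.symm)) := by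
    rintro ⟨⟨π, F₀⟩, hx⟩ u v
    have hx' : act π (star F₀.1 ls) = F.1 := congrArg Subtype.val hx
    have h2 : star F₀.1 ls = act (π₁.trans π.symm) (star F₁.1 ls) := by
      rw [← act_act, h₁', ← hx', act_symm]
    show _ ↔ (star F₀.1 ls).Adj _ _
    rw [h2]
    exact (act_map _ _ _ _).symm
  refine ⟨Equiv.ofBijective
    (fun x => ⟨π₁.trans x.1.1.symm, gam_of_iso hls _ (hiso x)⟩) ⟨?_, ?_⟩⟩
  · rintro ⟨⟨π, F₀⟩, hx⟩ ⟨⟨π', F₀'⟩, hx'⟩ h
    have h2 : π₁.trans π.symm = π₁.trans π'.symm := congrArg Subtype.val h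
    have h3 : π = π' := by
      have h4 : ∀ w, π.symm w = π'.symm w := by
        intro w
        have := congrArg (fun e => e (π₁.symm w)) h2
        simpa using this
      have h5 : π.symm = π'.symm := Equiv.ext h4
      rw [← Equiv.symm_symm π, h5, Equiv.symm_symm]
    subst h3
    have hx1 : act π (star F₀.1 ls) = F.1 := congrArg Subtype.val hx
    have hx2 : act π (star F₀'.1 ls) = F.1 := congrArg Subtype.val hx'
    have h4 : star F₀.1 ls = star F₀'.1 ls := by
      rw [← act_symm π (star F₀.1 ls), hx1, ← hx2, act_symm]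
    have h5 : F₀ = F₀' := Subtype.ext (star_inj h4)
    subst h5
    rfl
  · rintro ⟨γ, σ, hσ, h2, h3⟩
    obtain ⟨F₁, τ, hτ, hF₁⟩ := F₁
    let F₀ : SimpleGraph (Option Q) := F₁.comap (Option.map σ.symm)
    have hF₀ : ∃ π : Equiv.Perm Q, (∀ q, ls (π q) = ls q) ∧
        ∀ u v : Option Q, F₀.Adj u v → D.Adj (u.map π) (v.map π) := by
      refine ⟨σ.symm.trans τ, ?_, ?_⟩
      · intro q
        rw [Equiv.trans_apply, hτ]
        have := hσ (σ.symm q)
        rw [Equiv.apply_symm_apply] at this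
        exact this.symm
      · intro u v huv
        have h4 := hF₁ _ _ huv
        simpa [Option.map_map] using h4
    have hst : ∀ u v, (star F₁ ls).Adj u v ↔ (star F₀ ls).Adj (u.map γ) (v.map γ) := by
      apply star_iff σ γ h2 (fun p => h3 p.1 p.2)
      intro u v
      show _ ↔ F₁.Adj _ _
      rw [Option.map_map, Option.map_map, Equiv.symm_comp_self, Option.map_id, id, id]
    have hst' : act γ (star F₁ ls) = star F₀ ls := by
      ext u v
      show (star F₁ ls).Adj _ _ ↔ _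
      rw [hst, Option.map_map, Option.map_map, Equiv.self_comp_symm, Option.map_id, id, id]
    refine ⟨⟨(γ.symm.trans π₁, ⟨F₀, hF₀⟩), ?_⟩, ?_⟩
    · apply Subtype.ext
      show act (γ.symm.trans π₁) (star F₀ ls) = F.1
      rw [← act_act, ← hst', act_symm, h₁']
    · apply Subtype.ext
      show π₁.trans (γ.symm.trans π₁).symm = γ
      ext w
      simp

end C1_ns

open C1_ns in
theorem C1 : S_C1 := by
  intro Q _ D ls hls
  have e1 : (Σ F : XX D ls, {x // Phi D ls hls x = F}) ≃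
      Equiv.Perm (Q ⊕ (Σ q : Q, Fin (ls q))) × II D ls := Equiv.sigmaFiberEquiv _
  have e2 : (Σ F : XX D ls, {x // Phi D ls hls x = F}) ≃
      XX D ls × {γ : Equiv.Perm (Q ⊕ (Σ q : Q, Fin (ls q))) // Gam ls γ} :=
    Equiv.sigmaEquivProdOfEquiv (fun F => (fibre D ls hls F).some)
  have h1 := Nat.card_congr (e2.symm.trans e1)
  rw [Nat.card_prod, Nat.card_prod, Nat.card_perm] at h1
  have h2 : Nat.card (Q ⊕ (Σ q : Q, Fin (ls q))) = Fintype.card Q + ∑ q, ls q := by
    rw [Nat.card_eq_fintype_card, Fintype.card_sum, Fintype.card_sigma]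
    simp
  rw [h2] at h1
  exact h1

end Pool.Agent.H695R3.SF
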