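import Pool.Agent.H695R3.SF.Defs

/-! Task C2 (helper51): number of star permutations. -/

namespace Pool.Agent.H695R3.SF

open Finset

namespace C2_ns

variable {Q : Type} (ls : Q → ℕ)

/-- the permutation given by a permutation of the centres and permutations of the leaves -/
def mk (x : {σ : Equiv.Perm Q // ls ∘ σ = ls} × (∀ q, Equiv.Perm (Fin (ls q)))) :
    Equiv.Perm (Q ⊕ (Σ q : Q, Fin (ls q))) :=
  Equiv.sumCongr x.1.1 (Equiv.sigmaCongr x.1.1
    (fun q => (x.2 q).trans (finCongr (congrFun x.1.2 q).symm)))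

theorem mk_inl (x : {σ : Equiv.Perm Q // ls ∘ σ = ls} × (∀ q, Equiv.Perm (Fin (ls q)))) (q : Q) :
    mk ls x (Sum.inl q) = Sum.inl (x.1.1 q) := rfl

theorem mk_inr (x : {σ : Equiv.Perm Q // ls ∘ σ = ls} × (∀ q, Equiv.Perm (Fin (ls q)))) (q : Q)
    (k : Fin (ls q)) :
    mk ls x (Sum.inr ⟨q, k⟩) =
      Sum.inr ⟨x.1.1 q, finCongr (congrFun x.1.2 q).symm (x.2 q k)⟩ := rfl

/-- the same map into the star permutations -/
def mk' (x : {σ : Equiv.Perm Q // ls ∘ σ = ls} × (∀ q, Equiv.Perm (Fin (ls q)))) :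
    {γ : Equiv.Perm (Q ⊕ (Σ q : Q, Fin (ls q))) // Gam ls γ} :=
  ⟨mk ls x, x.1.1, fun q => congrFun x.1.2 q, fun _ => rfl, fun q k => ⟨_, mk_inr ls x q k⟩⟩

theorem mk'_bij [Finite Q] : Function.Bijective (mk' ls) := by
  constructor
  · rintro ⟨⟨σ, hσ⟩, p⟩ ⟨⟨σ', hσ'⟩, p'⟩ h
    have h0 : mk ls ⟨⟨σ, hσ⟩, p⟩ = mk ls ⟨⟨σ', hσ'⟩, p'⟩ := congrArg Subtype.val h
    have h1 : σ = σ' := by
      ext q
      have := congrArg (fun γ => γ (Sum.inl q)) h0
      simp only [mk_inl, Sum.inl.injEq] at this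
      exact this
    subst h1
    have h2 : p = p' := by
      funext q
      ext k
      have := congrArg (fun γ => γ (Sum.inr ⟨q, k⟩)) h0
      simp only [mk_inr, Sum.inr.injEq, Sigma.mk.injEq, heq_eq_eq, true_and] at this
      have h3 := congrArg Fin.val this
      simpa using h3
    rw [h2]
  · rintro ⟨γ, hγ⟩
    obtain ⟨σ, h1, h2, h3⟩ := id hγ
    choose f hf using h3
    have hinj : ∀ q, Function.Injective (fun k => finCongr (h1 q) (f q k)) := by
      intro q k k' h
      have h4 : f q k = f q k' := (finCongr (h1 q)).injective h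
      have h5 : γ (Sum.inr ⟨q, k⟩) = γ (Sum.inr ⟨q, k'⟩) := by rw [hf, hf, h4]
      have h6 := γ.injective h5
      simp only [Sum.inr.injEq, Sigma.mk.injEq, heq_eq_eq, true_and] at h6
      exact h6
    refine ⟨⟨⟨σ, funext h1⟩, fun q => Equiv.ofBijective _
      (Finite.injective_iff_bijective.1 (hinj q))⟩, ?_⟩
    apply Subtype.ext
    show mk ls _ = γ
    ext v
    rcases v with q | ⟨q, k⟩
    · rw [mk_inl, h2]
    · rw [mk_inr, hf]
      simp

end C2_ns

theorem C2 : S_C2 := by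
  classical
  intro Q _ ls
  rw [← Nat.card_congr (Equiv.ofBijective _ (C2_ns.mk'_bij ls)), Nat.card_eq_fintype_card,
    Fintype.card_prod, Fintype.card_pi, mul_comm]
  congr 1
  · refine prod_congr rfl fun q _ => ?_
    rw [Fintype.card_perm, Fintype.card_fin]
  · rw [DomMulAct.stabilizer_card']
    refine prod_congr rfl fun s _ => ?_
    rw [Nat.card_eq_fintype_card]

end Pool.Agent.H695R3.SF
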