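import Pool.Agent.H695R3.SF.Defs

namespace Pool.Agent.H695R3.SF

theorem C3 (h1 : S_C3a) (h2 : S_C3b) : S_C3 := by
  intro Z L _ _ A lab hlab
  rw [h1 Z L A lab hlab, h2 Z L A]

end Pool.Agent.H695R3.SF
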