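import Pool.Agent.H695R3.SF.Defs

/-!
# The graphs realised in `DD`
-/

namespace Pool.Agent.H695R3.SF

open Finset

namespace C3a_ns

variable {Z L : Type} {A : Z → Finset L}

/-- the pairs -/
abbrev PP (A : Z → Finset L) : Type := Σ z : Z, {e : L // e ∈ A z}

/-- the conditions on the parents -/
def Ok (par : PP A → Option Z) : Prop :=
  (∀ p p' z, par p = some z → par p' = some z → p.2.1 = p'.2.1 → p = p') ∧
      ∃ β : Equiv.Perm Z, ∀ z p, par p = some z → p.2.1 ∈ A (β z)

/-- adjacency of the graph given by the children of the root and the parents -/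
def grAdj (T : Set Z) (par : PP A → Option Z) : Option (QQ A) → Option (QQ A) → Prop
  | none, some (Sum.inl z) => z ∈ T
  | some (Sum.inl z), none => z ∈ T
  | some (Sum.inl z), some (Sum.inr p) => par p = some z
  | some (Sum.inr p), some (Sum.inl z) => par p = some z
  | _, _ => False

/-- the graph given by the children of the root and the parents -/
def gr (T : Set Z) (par : PP A → Option Z) : SimpleGraph (Option (QQ A)) where
  Adj := grAdj T par
  symm := ⟨by
    rintro (_ | (u | u)) (_ | (v | v)) h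
    all_goals exact h⟩
  loopless := ⟨by
    rintro (_ | (u | u)) h
    all_goals exact h⟩

theorem gr_root (T : Set Z) (par : PP A → Option Z) (z : Z) :
    (gr T par).Adj none (some (Sum.inl z)) ↔ z ∈ T := Iff.rfl

theorem gr_par (T : Set Z) (par : PP A → Option Z) (z : Z) (p : PP A) :
    (gr T par).Adj (some (Sum.inl z)) (some (Sum.inr p)) ↔ par p = some z := Iff.rfl

/-- the condition in the definition of `MM` -/
def Real (lab : L → ℕ) (F : SimpleGraph (Option (QQ A))) : Prop :=
  ∃ π : Equiv.Perm (QQ A), (∀ q, lsD A lab (π q) = lsD A lab q) ∧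
    ∀ u v : Option (QQ A), F.Adj u v → (DD A).Adj (u.map π) (v.map π)

/-- label preserving permutations split -/
theorem split (lab : L → ℕ) (hlab : Function.Injective lab) [Finite Z]
    (π : Equiv.Perm (QQ A)) (h : ∀ q, lsD A lab (π q) = lsD A lab q) :
    ∃ (β : Equiv.Perm Z) (γ : PP A → PP A), Function.Injective γ ∧
      (∀ z, π (Sum.inl z) = Sum.inl (β z)) ∧ (∀ p, π (Sum.inr p) = Sum.inr (γ p)) ∧
      ∀ p, (γ p).2.1 = p.2.1 := by
  have h1 : ∀ z, ∃ z', π (Sum.inl z) = Sum.inl z' := by
    intro z
    have h2 := h (Sum.inl z)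
    rcases h3 : π (Sum.inl z) with z' | p
    · exact ⟨z', rfl⟩
    · rw [h3] at h2
      change 3 + lab p.2.1 = 2 at h2
      omega
  have h2 : ∀ p, ∃ p', π (Sum.inr p) = Sum.inr p' ∧ p'.2.1 = p.2.1 := by
    intro p
    have h2 := h (Sum.inr p)
    rcases h3 : π (Sum.inr p) with z' | p'
    · rw [h3] at h2
      change 2 = 3 + lab p.2.1 at h2
      omega
    · refine ⟨p', rfl, ?_⟩
      rw [h3] at h2
      change 3 + lab p'.2.1 = 3 + lab p.2.1 at h2
      exact hlab (by omega)
  choose b hb using h1
  choose γ hγ hl using h2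
  have hbi : Function.Injective b := by
    intro z z' hz
    have h3 : π (Sum.inl z) = π (Sum.inl z') := by rw [hb, hb, hz]
    exact Sum.inl_injective (π.injective h3)
  have hγi : Function.Injective γ := by
    intro z z' hz
    have h3 : π (Sum.inr z) = π (Sum.inr z') := by rw [hγ, hγ, hz]
    exact Sum.inr_injective (π.injective h3)
  refine ⟨Equiv.ofBijective b (Finite.injective_iff_bijective.mp hbi), γ, hγi, ?_, hγ, hl⟩
  intro z
  rw [hb]
  rfl

/-- an injection on a part of a finite set extends to a permutation -/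
theorem exists_perm {α : Type} [Fintype α] (P : α → Prop) (f : α → α)
    (hf : ∀ x y, P x → P y → f x = f y → x = y) :
    ∃ g : Equiv.Perm α, ∀ x, P x → g x = f x := by
  classical
  obtain ⟨g, hg⟩ := Finset.exists_equiv_extend_of_card_eq (α := α) (t := (univ : Finset α))
    (by simp) (s := univ.filter P) (f := f) (Finset.subset_univ _)
    (by
      intro x hx y hy hxy
      simp only [Finset.coe_filter, Finset.mem_univ, true_and, Set.mem_setOf_eq] at hx hy
      exact hf x y hx hy hxy)
  refine ⟨g.trans (Equiv.subtypeUnivEquiv (fun x => Finset.mem_univ x)), fun x hx => ?_⟩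
  exact hg x (by simpa using hx)

/-- a label preserving permutation which moves the children of `z` below `β z` -/
theorem exists_gamma [Finite Z] [Finite L] (par : PP A → Option Z) (hp : ∀ p p' z, par p = some z →
    par p' = some z → p.2.1 = p'.2.1 → p = p') (β : Equiv.Perm Z)
    (hβ : ∀ z p, par p = some z → p.2.1 ∈ A (β z)) :
    ∃ γ : Equiv.Perm (PP A), (∀ p, (γ p).2.1 = p.2.1) ∧
      ∀ p z, par p = some z → (γ p).1 = β z := by
  classical
  haveI := Fintype.ofFinite Z
  haveI := Fintype.ofFinite L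
  have h1 : ∀ e : L, ∃ g : Equiv.Perm {z : Z // e ∈ A z},
      ∀ (x : {z : Z // e ∈ A z}) (z : Z), par ⟨x.1, ⟨e, x.2⟩⟩ = some z → (g x).1 = β z := by
    intro e
    let f : {z : Z // e ∈ A z} → {z : Z // e ∈ A z} := fun x =>
      if h : ∃ z, par ⟨x.1, ⟨e, x.2⟩⟩ = some z then ⟨β h.choose, hβ _ _ h.choose_spec⟩ else x
    have hfv : ∀ (x : {z : Z // e ∈ A z}) (z : Z), par ⟨x.1, ⟨e, x.2⟩⟩ = some z →
        (f x).1 = β z := by
      intro x z hx
      have h : ∃ z, par ⟨x.1, ⟨e, x.2⟩⟩ = some z := ⟨z, hx⟩
      have h2 : h.choose = z := Option.some_injective _ (h.choose_spec.symm.trans hx)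
      have h3 : f x = ⟨β h.choose, hβ _ _ h.choose_spec⟩ := dif_pos h
      rw [h3]
      change β h.choose = β z
      rw [h2]
    obtain ⟨g, hg⟩ := exists_perm (fun x : {z : Z // e ∈ A z} =>
      ∃ z, par ⟨x.1, ⟨e, x.2⟩⟩ = some z) f (by
        rintro x y ⟨z, hx⟩ ⟨z', hy⟩ hxy
        have h2 : β z = β z' := by
          rw [← hfv x z hx, ← hfv y z' hy, hxy]
        obtain rfl := β.injective h2
        have h3 := hp _ _ _ hx hy rfl
        exact Subtype.ext (congrArg Sigma.fst h3))
    refine ⟨g, fun x z hx => ?_⟩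
    rw [hg x ⟨z, hx⟩]
    exact hfv x z hx
  choose g hg using h1
  let G : PP A → PP A := fun p => ⟨(g p.2.1 ⟨p.1, p.2.2⟩).1, ⟨p.2.1, (g p.2.1 ⟨p.1, p.2.2⟩).2⟩⟩
  have hG : Function.Injective G := by
    rintro ⟨z1, e1, h1⟩ ⟨z2, e2, h2⟩ h12
    have h3 : e1 = e2 := congrArg (fun p : PP A => p.2.1) h12
    subst h3
    have h4 : (g e1 ⟨z1, h1⟩).1 = (g e1 ⟨z2, h2⟩).1 := congrArg Sigma.fst h12
    have h5 := (g e1).injective (Subtype.ext h4)
    obtain rfl : z1 = z2 := congrArg Subtype.val h5
    rfl
  refine ⟨Equiv.ofBijective G (Finite.injective_iff_bijective.mp hG), fun p => rfl, ?_⟩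
  rintro ⟨z', e, he⟩ z hpz
  exact hg e ⟨z', he⟩ z hpz

theorem real_gr [Finite Z] [Finite L] (lab : L → ℕ) (T : Set Z) (par : PP A → Option Z)
    (h : Ok par) : Real lab (gr T par) := by
  obtain ⟨h1, β, hβ⟩ := h
  obtain ⟨γ, hγ1, hγ2⟩ := exists_gamma par h1 β hβ
  refine ⟨Equiv.sumCongr β γ, ?_, ?_⟩
  · rintro (z | p)
    · rfl
    · change 3 + lab (γ p).2.1 = 3 + lab p.2.1
      rw [hγ1]
  · rintro (_ | (z | p)) (_ | (z' | p')) hadj
    · exact hadj
    · trivial
    · exact hadj
    · trivial
    · exact hadj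
    · exact hγ2 p' z hadj
    · exact hadj
    · exact hγ2 p z' hadj
    · exact hadj

theorem exists_gr [Finite Z] [Finite L] (lab : L → ℕ) (hlab : Function.Injective lab)
    (F : SimpleGraph (Option (QQ A))) (hF : Real lab F) :
    ∃ (T : Set Z) (par : PP A → Option Z), Ok par ∧ F = gr T par := by
  classical
  obtain ⟨π, hπ, hadj⟩ := hF
  obtain ⟨β, γ, hγi, hb, hγ, hl⟩ := split lab hlab π hπ
  have hzp : ∀ z p, F.Adj (some (Sum.inl z)) (some (Sum.inr p)) → (γ p).1 = β z := by
    intro z p h
    have h1 := hadj _ _ h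
    rw [Option.map_some, Option.map_some, hb, hγ] at h1
    exact h1
  let par : PP A → Option Z := fun p =>
    if h : ∃ z, F.Adj (some (Sum.inl z)) (some (Sum.inr p)) then some h.choose else none
  have hpar : ∀ p z, par p = some z ↔ F.Adj (some (Sum.inl z)) (some (Sum.inr p)) := by
    intro p z
    constructor
    · intro h
      by_cases h1 : ∃ z, F.Adj (some (Sum.inl z)) (some (Sum.inr p))
      · have h2 : par p = some h1.choose := dif_pos h1
        rw [h2] at h
        have h3 := h1.choose_spec
        rw [Option.some_injective _ h] at h3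
        exact h3
      · have h2 : par p = none := dif_neg h1
        rw [h2] at h
        exact absurd h (by simp)
    · intro h
      have h1 : ∃ z, F.Adj (some (Sum.inl z)) (some (Sum.inr p)) := ⟨z, h⟩
      have h2 : par p = some h1.choose := dif_pos h1
      rw [h2]
      have h3 := hzp _ _ h1.choose_spec
      have h4 := hzp _ _ h
      rw [β.injective (h3.symm.trans h4)]
  refine ⟨{z | F.Adj none (some (Sum.inl z))}, par, ⟨?_, β, ?_⟩, ?_⟩
  · intro p p' z h h' hlp
    rw [hpar] at h h'
    have h1 := hzp _ _ h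
    have h2 := hzp _ _ h'
    apply hγi
    have h3 : (γ p).1 = (γ p').1 := h1.trans h2.symm
    have h4 : (γ p).2.1 = (γ p').2.1 := by rw [hl, hl, hlp]
    rcases h5 : γ p with ⟨a, b, hab⟩
    rcases h6 : γ p' with ⟨a', b', hab'⟩
    rw [h5, h6] at h3 h4
    obtain rfl : a = a' := h3
    obtain rfl : b = b' := h4
    rfl
  · intro z p h
    rw [hpar] at h
    rw [← hzp _ _ h, ← hl p]
    exact (γ p).2.2
  · apply SimpleGraph.ext
    funext u v
    apply propext
    rcases u with _ | (z | p) <;> rcases v with _ | (z' | p')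
    · exact ⟨fun h => (F.irrefl h).elim, fun h => h.elim⟩
    · exact Iff.rfl
    · refine ⟨fun h => ?_, fun h => h.elim⟩
      have h1 := hadj _ _ h
      rw [Option.map_none, Option.map_some, hγ] at h1
      exact h1
    · exact ⟨fun h => h.symm, fun h => F.adj_symm h⟩
    · refine ⟨fun h => ?_, fun h => h.elim⟩
      have h1 := hadj _ _ h
      rw [Option.map_some, Option.map_some, hb, hb] at h1
      exact h1
    · exact (hpar p' z).symm
    · refine ⟨fun h => ?_, fun h => h.elim⟩
      have h1 := hadj _ _ h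
      rw [Option.map_none, Option.map_some, hγ] at h1
      exact h1
    · exact ⟨fun h => (hpar p z').mpr h.symm, fun h => ((hpar p z').mp h).symm⟩
    · refine ⟨fun h => ?_, fun h => h.elim⟩
      have h1 := hadj _ _ h
      rw [Option.map_some, Option.map_some, hγ, hγ] at h1
      exact h1

theorem gr_inj {T T' : Set Z} {par par' : PP A → Option Z} (h : gr T par = gr T' par') :
    T = T' ∧ par = par' := by
  constructor
  · ext z
    rw [← gr_root T par z, h, gr_root]
  · funext p
    apply Option.ext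
    intro z
    change par p = some z ↔ par' p = some z
    rw [← gr_par T par z p, h, gr_par]

end C3a_ns

open C3a_ns in
theorem C3a : S_C3a := by
  classical
  intro Z L _ _ A lab hlab
  have hbij : Function.Bijective
      (fun x : Set Z × {par : PP A → Option Z // Ok par} =>
        (⟨gr x.1 x.2.1, real_gr lab x.1 x.2.1 x.2.2⟩ :
          {F : SimpleGraph (Option (QQ A)) // Real lab F})) := by
    constructor
    · rintro ⟨T, par, h⟩ ⟨T', par', h'⟩ heq
      obtain ⟨h1, h2⟩ := gr_inj (congrArg Subtype.val heq)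
      obtain rfl : T = T' := h1
      obtain rfl : par = par' := h2
      rfl
    · rintro ⟨F, hF⟩
      obtain ⟨T, par, h, rfl⟩ := exists_gr lab hlab F hF
      exact ⟨⟨T, par, h⟩, rfl⟩
  have h1 : MM (DD A) (lsD A lab) = Nat.card {F : SimpleGraph (Option (QQ A)) // Real lab F} := rfl
  rw [h1, ← Nat.card_congr (Equiv.ofBijective _ hbij), Nat.card_prod]
  congr 1
  rw [Nat.card_eq_fintype_card, Fintype.card_set]

end Pool.Agent.H695R3.SF
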