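import Pool.Agent.H695R3.SF.Defs

/-!
# Counting parents
-/

namespace Pool.Agent.H695R3.SF

open Finset

namespace C3b_ns

variable {Z L : Type} {A : Z → Finset L}

/-- children of the same parent have different labels -/
def InjP (par : (Σ z : Z, {e : L // e ∈ A z}) → Option Z) : Prop :=
  ∀ p p' z, par p = some z → par p' = some z → p.2.1 = p'.2.1 → p = p'

open Classical in
/-- the labels of the children of `z` -/
noncomputable def Sp [Fintype L] (par : (Σ z : Z, {e : L // e ∈ A z}) → Option Z) (z : Z) :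
    Finset L :=
  univ.filter (fun e => ∃ p, par p = some z ∧ p.2.1 = e)

theorem mem_Sp [Fintype L] (par : (Σ z : Z, {e : L // e ∈ A z}) → Option Z) (z : Z) (e : L) :
    e ∈ Sp par z ↔ ∃ p, par p = some z ∧ p.2.1 = e := by
  simp [Sp]

open Classical in
/-- the parent map given by families of injections -/
noncomputable def toPar {S : Z → Finset L}
    (f : ∀ e : L, {z // e ∈ S z} ↪ {z // e ∈ A z}) :
    (Σ z : Z, {e : L // e ∈ A z}) → Option Z :=
  fun p => if h : ∃ z : {z // p.2.1 ∈ S z}, f p.2.1 z = ⟨p.1, p.2.2⟩ then some h.choose.1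
    else none

theorem toPar_iff {S : Z → Finset L}
    (f : ∀ e : L, {z // e ∈ S z} ↪ {z // e ∈ A z}) (p : Σ z : Z, {e : L // e ∈ A z}) (z : Z) :
    toPar f p = some z ↔ ∃ hz : p.2.1 ∈ S z, f p.2.1 ⟨z, hz⟩ = ⟨p.1, p.2.2⟩ := by
  classical
  unfold toPar
  split_ifs with h
  · constructor
    · intro h1
      have h2 : h.choose.1 = z := Option.some_injective _ h1
      have h3 := h.choose_spec
      subst h2
      exact ⟨h.choose.2, h3⟩
    · rintro ⟨hz, h1⟩
      have h3 := h.choose_spec
      have h4 : h.choose = ⟨z, hz⟩ := (f p.2.1).injective (h3.trans h1.symm)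
      rw [h4]
  · constructor
    · intro h1
      exact absurd h1 (by simp)
    · rintro ⟨hz, h1⟩
      exact absurd ⟨_, h1⟩ h

theorem toPar_inj {S : Z → Finset L} (f : ∀ e : L, {z // e ∈ S z} ↪ {z // e ∈ A z}) :
    InjP (toPar f) := by
  rintro ⟨z1, e1, h1⟩ ⟨z2, e2, h2⟩ z hp hp' he
  obtain rfl : e1 = e2 := he
  rw [toPar_iff] at hp hp'
  obtain ⟨hz, hp⟩ := hp
  obtain ⟨hz', hp'⟩ := hp'
  have h3 : (⟨z1, h1⟩ : {z // e1 ∈ A z}) = ⟨z2, h2⟩ := hp.symm.trans hp'
  obtain rfl : z1 = z2 := congrArg Subtype.val h3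
  rfl

theorem toPar_Sp [Fintype L] {S : Z → Finset L}
    (f : ∀ e : L, {z // e ∈ S z} ↪ {z // e ∈ A z}) :
    Sp (toPar f) = S := by
  funext z
  ext e
  rw [mem_Sp]
  constructor
  · rintro ⟨p, hp, rfl⟩
    rw [toPar_iff] at hp
    exact hp.1
  · intro he
    refine ⟨⟨(f e ⟨z, he⟩).1, ⟨e, (f e ⟨z, he⟩).2⟩⟩, ?_, rfl⟩
    rw [toPar_iff]
    exact ⟨he, rfl⟩

theorem card_par [Fintype Z] [Fintype L] [DecidableEq L] (S : Z → Finset L) :
    Nat.card {par : (Σ z : Z, {e : L // e ∈ A z}) → Option Z // InjP par ∧ Sp par = S} =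
      wt A S := by
  classical
  have hbij : Function.Bijective
      (fun f : (∀ e : L, {z // e ∈ S z} ↪ {z // e ∈ A z}) =>
        (⟨toPar f, toPar_inj f, toPar_Sp f⟩ :
          {par : (Σ z : Z, {e : L // e ∈ A z}) → Option Z // InjP par ∧ Sp par = S})) := by
    constructor
    · intro f g hfg
      have h1 : toPar f = toPar g := congrArg Subtype.val hfg
      funext e
      ext ⟨z, hz⟩
      have h2 : toPar f ⟨(f e ⟨z, hz⟩).1, ⟨e, (f e ⟨z, hz⟩).2⟩⟩ = some z := by
        rw [toPar_iff]
        exact ⟨hz, rfl⟩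
      rw [h1, toPar_iff] at h2
      obtain ⟨hz', h2⟩ := h2
      exact (congrArg Subtype.val h2).symm
    · rintro ⟨par, hinj, rfl⟩
      have hex : ∀ (e : L) (z : {z // e ∈ Sp par z}),
          ∃ z' : {z // e ∈ A z}, par ⟨z'.1, ⟨e, z'.2⟩⟩ = some z.1 := by
        rintro e ⟨z, hz⟩
        rw [mem_Sp] at hz
        obtain ⟨⟨z', e', he'⟩, hp, rfl⟩ := hz
        exact ⟨⟨z', he'⟩, hp⟩
      choose F hF using hex
      have hFi : ∀ e, Function.Injective (F e) := by
        intro e z1 z2 h12
        have h1 := hF e z1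
        rw [h12, hF e z2] at h1
        exact Subtype.ext (Option.some_injective _ h1).symm
      have key : ∀ (p : Σ z : Z, {e : L // e ∈ A z}) (z : Z),
          toPar (S := Sp par) (fun e => ⟨F e, hFi e⟩) p = some z ↔ par p = some z := by
        rintro ⟨z', e, he⟩ z
        rw [toPar_iff]
        constructor
        · rintro ⟨hz, h1⟩
          have h2 := hF e ⟨z, hz⟩
          change F e ⟨z, hz⟩ = _ at h1
          rw [h1] at h2
          exact h2
        · intro h1
          have hz : e ∈ Sp par z := (mem_Sp _ _ _).mpr ⟨_, h1, rfl⟩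
          refine ⟨hz, ?_⟩
          have h2 := hF e ⟨z, hz⟩
          have h3 := hinj _ _ _ h2 h1 rfl
          apply Subtype.ext
          exact congrArg Sigma.fst h3
      refine ⟨fun e => ⟨F e, hFi e⟩, ?_⟩
      apply Subtype.ext
      funext p
      exact Option.ext (key p)
  rw [← Nat.card_congr (Equiv.ofBijective _ hbij), Nat.card_eq_fintype_card, Fintype.card_pi]
  unfold wt
  refine Finset.prod_congr rfl fun e _ => ?_
  rw [Fintype.card_embedding_eq, Fintype.card_subtype, Fintype.card_subtype]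

end C3b_ns

open C3b_ns in
theorem C3b : S_C3b := by
  classical
  intro Z L _ _ A
  have hiff : ∀ par : (Σ z : Z, {e : L // e ∈ A z}) → Option Z,
      (∃ β : Equiv.Perm Z, ∀ z p, par p = some z → p.2.1 ∈ A (β z)) ↔ Rlz A (Sp par) := by
    intro par
    unfold Rlz
    refine exists_congr fun β => forall_congr' fun z => ?_
    constructor
    · intro h e he
      rw [mem_Sp] at he
      obtain ⟨p, hp, rfl⟩ := he
      exact h p hp
    · intro h p hp
      exact h ((mem_Sp _ _ _).mpr ⟨p, hp, rfl⟩)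
  have h1 : Nat.card {par : (Σ z : Z, {e : L // e ∈ A z}) → Option Z //
      (∀ p p' z, par p = some z → par p' = some z → p.2.1 = p'.2.1 → p = p') ∧
      ∃ β : Equiv.Perm Z, ∀ z p, par p = some z → p.2.1 ∈ A (β z)} =
      (univ.filter (fun par : (Σ z : Z, {e : L // e ∈ A z}) → Option Z =>
        InjP par ∧ Rlz A (Sp par))).card := by
    rw [Nat.card_congr (Equiv.subtypeEquivRight
      (q := fun par => InjP par ∧ Rlz A (Sp par)) (fun par => by rw [hiff]; rfl)),
      Nat.card_eq_fintype_card, Fintype.card_subtype]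
  rw [h1, Finset.card_eq_sum_card_fiberwise (f := fun par => Sp par) (t := univ)
    (fun _ _ => Finset.mem_coe.mpr (Finset.mem_univ _))]
  unfold JJ
  refine Finset.sum_congr rfl fun S _ => ?_
  rw [Finset.filter_filter]
  split_ifs with hR
  · have h2 := card_par (A := A) S
    rw [Nat.card_eq_fintype_card, Fintype.card_subtype] at h2
    have h3 : (univ.filter (fun par : (Σ z : Z, {e : L // e ∈ A z}) → Option Z =>
        (InjP par ∧ Rlz A (Sp par)) ∧ Sp par = S)) =
        univ.filter (fun par : (Σ z : Z, {e : L // e ∈ A z}) → Option Z =>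
        InjP par ∧ Sp par = S) := by
      refine Finset.filter_congr fun par _ => ?_
      constructor
      · rintro ⟨⟨h4, _⟩, h5⟩
        exact ⟨h4, h5⟩
      · rintro ⟨h4, h5⟩
        refine ⟨⟨h4, ?_⟩, h5⟩
        rw [h5]
        exact hR
    rw [h3]
    convert h2
  · apply Finset.card_eq_zero.mpr
    rw [Finset.filter_eq_empty_iff]
    rintro par _ ⟨⟨_, h4⟩, h5⟩
    apply hR
    rw [← h5]
    exact h4

end Pool.Agent.H695R3.SF
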