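import Pool.Agent.H695R3.SF.Defs

/-!
# Counting unlabelled subforests: task C4
-/

set_option autoImplicit false

namespace Pool.Agent.H695R3.SF

open Finset

namespace C4_ns

/-- the vertices `(z, e)` with the label `e` -/
theorem card_lab {Z L : Type} [Fintype Z] [Fintype L] (A : Z → Finset L) (n : ℕ)
    (hn : ∀ e, Nat.card {z : Z // e ∈ A z} = n) (e : L) :
    Nat.card {p : (Σ z : Z, {e : L // e ∈ A z}) // p.2.1 = e} = n := by
  rw [← hn e]
  refine Nat.card_congr ⟨fun p => ⟨p.1.1, by have := p.1.2.2; rw [p.2] at this; exact this⟩, fun z => ⟨⟨z.1, ⟨e, z.2⟩⟩, rfl⟩, ?_, ?_⟩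
  · rintro ⟨⟨z, ⟨e', he'⟩⟩, h⟩
    simp only at h
    subst h
    rfl
  · rintro ⟨z, hz⟩
    rfl

theorem prod_lab {Z L : Type} [Fintype Z] [Fintype L] (A : Z → Finset L) (n : ℕ)
    (hn : ∀ e, Nat.card {z : Z // e ∈ A z} = n) {M : Type} [CommMonoid M] (f : L → M) :
    ∏ p : (Σ z : Z, {e : L // e ∈ A z}), f p.2.1 = (∏ e, f e) ^ n := by
  classical
  rw [← Finset.prod_fiberwise (s := univ) (g := fun p : (Σ z : Z, {e : L // e ∈ A z}) => p.2.1),
    ← Finset.prod_pow]
  refine Finset.prod_congr rfl fun e _ => ?_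
  have h1 : ∀ p ∈ univ.filter (fun p : (Σ z : Z, {e : L // e ∈ A z}) => p.2.1 = e),
      f p.2.1 = f e := fun p hp => by rw [(mem_filter.1 hp).2]
  rw [Finset.prod_congr rfl h1, Finset.prod_const]
  congr 1
  rw [← card_lab A n hn e, Nat.card_eq_fintype_card, Fintype.card_subtype]

theorem sum_lab {Z L : Type} [Fintype Z] [Fintype L] (A : Z → Finset L) (n : ℕ)
    (hn : ∀ e, Nat.card {z : Z // e ∈ A z} = n) (f : L → ℕ) :
    ∑ p : (Σ z : Z, {e : L // e ∈ A z}), f p.2.1 = n * ∑ e, f e := by
  have := prod_lab A n hn (fun e => Multiplicative.ofAdd (f e))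
  have h2 := congrArg Multiplicative.toAdd this
  simpa using h2

end C4_ns

open C4_ns

theorem C4 (h1 : S_C1) (h2 : S_C2) (h3 : S_C3) : S_C4 := by
  classical
  intro Z L _ _ A lab n hlab hn
  have e1 := h1 (QQ A) (DD A) (lsD A lab) (by rintro (z | p) <;> simp [lsD]; omega)
  have e2 := h2 (QQ A) (lsD A lab)
  have e3 := h3 Z L A lab hlab
  rw [e2, e3] at e1
  -- the product of the factorials
  have f1 : ∏ q : QQ A, (lsD A lab q).factorial =
      2 ^ Fintype.card Z * (∏ e, (3 + lab e).factorial) ^ n := by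
    rw [Fintype.prod_sum_type]
    simp only [lsD]
    rw [prod_lab A n hn (fun e => (3 + lab e).factorial), Finset.prod_const]
    simp
  -- the sum of the sizes
  have f2 : ∑ q : QQ A, lsD A lab q = 2 * Fintype.card Z + n * ∑ e, (3 + lab e) := by
    rw [Fintype.sum_sum_type]
    simp only [lsD]
    rw [sum_lab A n hn (fun e => 3 + lab e)]
    simp [mul_comm]
  have f3 : Fintype.card (QQ A) = Fintype.card Z + n * Fintype.card L := by
    rw [Fintype.card_sum]
    congr 1
    have := sum_lab A n hn (fun _ => 1)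
    simpa using this
  -- the fibres
  have f4 : Nat.card {q : QQ A // lsD A lab q = 2} = Fintype.card Z := by
    rw [← Nat.card_eq_fintype_card]
    refine Nat.card_congr ⟨fun q => match q with
      | ⟨Sum.inl z, _⟩ => z
      | ⟨Sum.inr p, h⟩ => absurd h (by simp only [lsD]; omega),
      fun z => ⟨Sum.inl z, rfl⟩, ?_, ?_⟩
    · rintro ⟨z | p, h⟩
      · rfl
      · exact absurd h (by simp only [lsD]; omega)
    · intro z; rfl
  have f5 : ∀ e, Nat.card {q : QQ A // lsD A lab q = 3 + lab e} = n := by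
    intro e
    rw [← card_lab A n hn e]
    refine Nat.card_congr ⟨fun q => match q with
      | ⟨Sum.inl z, h⟩ => absurd h (by simp only [lsD]; omega)
      | ⟨Sum.inr p, h⟩ => ⟨p, hlab (by simp only [lsD] at h; omega)⟩,
      fun p => ⟨Sum.inr p.1, by simp only [lsD]; rw [p.2]⟩, ?_, ?_⟩
    · rintro ⟨z | p, h⟩
      · exact absurd h (by simp only [lsD]; omega)
      · rfl
    · intro z; rfl
  have f6 : ∏ s ∈ univ.image (lsD A lab), (Nat.card {q : QQ A // lsD A lab q = s}).factorial =
      (Fintype.card Z).factorial * n.factorial ^ Fintype.card L := by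
    have hsub : univ.image (lsD A lab) ⊆ insert 2 (univ.image (fun e => 3 + lab e)) := by
      intro s hs
      rw [mem_image] at hs
      obtain ⟨q, -, rfl⟩ := hs
      rcases q with z | p
      · exact mem_insert_self _ _
      · exact mem_insert_of_mem (mem_image_of_mem _ (mem_univ p.2.1))
    rw [Finset.prod_subset hsub]
    · rw [Finset.prod_insert, f4, Finset.prod_image]
      · simp only [f5]
        rw [Finset.prod_const, card_univ]
      · intro a _ b _ hab
        exact hlab (by simpa using hab)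
      · rw [mem_image]
        rintro ⟨e, -, he⟩
        omega
    · intro s _ hs
      have : IsEmpty {q : QQ A // lsD A lab q = s} := by
        refine ⟨fun q => hs ?_⟩
        rw [mem_image]
        exact ⟨q.1, mem_univ _, q.2⟩
      rw [Nat.card_of_isEmpty]
      rfl
  rw [f1, f2, f3, f6] at e1
  have e4 : 3 * Fintype.card Z + Fintype.card L * n + n * ∑ e, (3 + lab e) =
      Fintype.card Z + n * Fintype.card L + (2 * Fintype.card Z + n * ∑ e, (3 + lab e)) := by ring
  rw [e4]
  calc _ = NN (star (DD A) (lsD A lab)) * (2 ^ Fintype.card Z *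
        (∏ e, (3 + lab e).factorial) ^ n *
          ((Fintype.card Z).factorial * n.factorial ^ Fintype.card L)) := by ring
    _ = _ := by rw [e1]; ring

end Pool.Agent.H695R3.SF
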