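import Pool.Agent.H695R3.SF.Defs2

set_option autoImplicit false

namespace Pool.Agent.H695R3.SF

open Finset
open Pool.Agent.H549R2.Convex (F ent)

namespace CARD_ns

theorem sum_map_range (n : ℕ) (f : ℕ → ℕ) :
    ((List.range n).map f).sum = ∑ i ∈ range n, f i := by
  induction n with
  | zero => simp
  | succ n ih => rw [List.range_succ, List.map_append, List.sum_append, ih, sum_range_succ]; simp

theorem sum_filter_range (n : ℕ) (q : ℕ → Bool) (f : ℕ → ℕ) :
    (((List.range n).filter q).map f).sum = ∑ i ∈ range n, if q i = true then f i else 0 := by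
  induction n with
  | zero => simp
  | succ n ih =>
    rw [List.range_succ, List.filter_append, List.map_append, List.sum_append, ih, sum_range_succ]
    congr 1
    by_cases h : q n = true
    · simp [h]
    · simp [h]

theorem sum_ones (n : ℕ) (e : ℕ → ℕ → Bool) (g : ℕ → ℕ → ℕ) :
    ∑ x : {p : Fin n × Fin n // e p.1 p.2 = true}, g x.1.1 x.1.2 =
      ((List.range n).flatMap (fun i => ((List.range n).filter (fun j => e i j)).map (g i))).sum := by
  have h1 : ∑ x : {p : Fin n × Fin n // e p.1 p.2 = true}, g x.1.1 x.1.2 =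
      ∑ p ∈ (univ : Finset (Fin n × Fin n)).filter (fun p => e p.1 p.2 = true), g p.1 p.2 := by
    symm
    apply Finset.sum_subtype
    intro x
    simp
  rw [h1, sum_filter, Fintype.sum_prod_type]
  have h2 : ∀ l : List ℕ, (l.flatMap (fun i => ((List.range n).filter (fun j => e i j)).map
      (g i))).sum = (l.map (fun i => (((List.range n).filter (fun j => e i j)).map (g i)).sum)).sum := by
    intro l
    induction l with
    | nil => simp
    | cons a l ih => rw [List.flatMap_cons, List.sum_append, ih, List.map_cons, List.sum_cons]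
  rw [h2, sum_map_range, sum_range]
  apply sum_congr rfl
  intro i _
  rw [sum_filter_range, sum_range]

theorem c1 (A : LL) : Fintype.card (Lb A) = onesN A := by
  have h := sum_ones A.length (fun i j => ent A i j) (fun _ _ => 1)
  rw [Finset.sum_const, smul_eq_mul, mul_one, card_univ] at h
  rw [show Fintype.card (Lb A) = _ from h]
  unfold onesN
  have h2 : ∀ l : List ℕ, (l.flatMap (fun i => ((List.range A.length).filter
      (fun j => ent A i j)).map (fun _ => 1))).sum =
      (l.flatMap (fun i => (List.range A.length).filter (fun j => ent A i j))).length := by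
    intro l
    induction l with
    | nil => simp
    | cons a l ih =>
      rw [List.flatMap_cons, List.sum_append, ih, List.flatMap_cons, List.length_append]
      congr 1
      simp
  exact h2 _

theorem c2 (A : LL) : ∑ e : Lb A, (3 + labA A e) = sumLab A :=
  sum_ones A.length (fun i j => ent A i j) (fun i j => 3 + (i * A.length + j))

theorem c3 (A : LL) : Function.Injective (labA A) := by
  intro e e' h
  unfold labA at h
  have h1 := e.1.2.isLt
  have h2 := e'.1.2.isLt
  have hpos : 0 < A.length := by omega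
  have e1 : (e.1.1.val * A.length + e.1.2.val) / A.length = e.1.1.val := by
    rw [mul_comm, Nat.mul_add_div hpos, Nat.div_eq_of_lt h1, add_zero]
  have e2 : (e'.1.1.val * A.length + e'.1.2.val) / A.length = e'.1.1.val := by
    rw [mul_comm, Nat.mul_add_div hpos, Nat.div_eq_of_lt h2, add_zero]
  have e3 : e.1.1.val = e'.1.1.val := by rw [← e1, ← e2, h]
  have e4 : e.1.2.val = e'.1.2.val := by
    rw [e3] at h
    omega
  apply Subtype.ext
  exact Prod.ext (Fin.ext e3) (Fin.ext e4)

theorem c4 (a : (LL × Un) × Un) : Fintype.card (ZA a) = zN a := by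
  rw [Fintype.card_sum, Fintype.card_sum, Fintype.card_sum, Fintype.card_prod, Fintype.card_fin,
    Fintype.card_fin, Fintype.card_fin, c1]
  unfold zN
  ring

theorem mem_inl (A : LL) (e : Lb A) (i : Fin A.length) :
    e ∈ blk A (Sum.inl i) ↔ e.1.1 = i := by
  simp [blk]

theorem mem_inr (A : LL) (e : Lb A) (j : Fin A.length) :
    e ∈ blk A (Sum.inr j) ↔ e.1.2 = j := by
  simp [blk]

theorem c6 (A : LL) (e : Lb A) : (univ.filter (fun v => e ∈ blk A v)).card = 2 := by
  have h : univ.filter (fun v => e ∈ blk A v) = {Sum.inl e.1.1, Sum.inr e.1.2} := by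
    ext v
    rcases v with i | j
    · rw [mem_filter, mem_inl]
      simp [eq_comm]
    · rw [mem_filter, mem_inr]
      simp [eq_comm]
  rw [h, card_pair (by simp)]

theorem c7 (A : LL) (v v' : Fin A.length ⊕ Fin A.length) (hne : v ≠ v') :
    (blk A v ∩ blk A v').card ≤ 1 := by
  rw [card_le_one]
  intro e he e' he'
  rw [mem_inter] at he he'
  rcases v with i | j <;> rcases v' with i' | j'
  · rw [mem_inl, mem_inl] at he
    exact absurd (by rw [← he.1, ← he.2]) hne
  · rw [mem_inl, mem_inr] at he he'
    apply Subtype.ext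
    exact Prod.ext (he.1.trans he'.1.symm) (he.2.trans he'.2.symm)
  · rw [mem_inl, mem_inr] at he he'
    apply Subtype.ext
    exact Prod.ext (he.2.trans he'.2.symm) (he.1.trans he'.1.symm)
  · rw [mem_inr, mem_inr] at he
    exact absurd (by rw [← he.1, ← he.2]) hne

theorem c8 (a : (LL × Un) × Un) (e : Lb a.1.1) :
    Nat.card {z : ZA a // e ∈ famA a z} = a.1.2.length + 2 := by
  rw [Nat.card_congr (Equiv.subtypeSum (α := (Fin a.1.1.length ⊕ Fin a.1.1.length) ⊕
    (Lb a.1.1 × Fin a.1.2.length)) (β := Fin (a.2.length + 1)) (p := fun z => e ∈ famA a z)),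
    Nat.card_sum, Nat.card_congr (Equiv.subtypeSum (p := fun z => e ∈ famA a (Sum.inl z))),
    Nat.card_sum]
  have h1 : Nat.card {v // e ∈ famA a (Sum.inl (Sum.inl v))} = 2 := by
    rw [Nat.card_eq_fintype_card, Fintype.card_subtype]
    exact c6 a.1.1 e
  have h2 : Nat.card {v // e ∈ famA a (Sum.inl (Sum.inr v))} = a.1.2.length := by
    have : {v : Lb a.1.1 × Fin a.1.2.length // e ∈ famA a (Sum.inl (Sum.inr v))} ≃
        Fin a.1.2.length :=
      { toFun := fun v => v.1.2
        invFun := fun t => ⟨(e, t), by simp [famA, extA, dumA]⟩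
        left_inv := by
          rintro ⟨⟨e', t⟩, h⟩
          have h' : e = e' := by simpa [famA, extA, dumA] using h
          subst h'
          rfl
        right_inv := fun t => rfl }
    rw [Nat.card_congr this, Nat.card_fin]
  have h3 : Nat.card {v // e ∈ famA a (Sum.inr v)} = 0 := by
    rw [Nat.card_eq_zero]
    left
    constructor
    rintro ⟨v, h⟩
    simp [famA, extA] at h
  rw [h1, h2, h3]
  omega

theorem dbl (a : (LL × Un) × Un) (f : Lb a.1.1 → ℕ) :
    ∑ p : (Σ z : ZA a, {e : Lb a.1.1 // e ∈ famA a z}), f p.2.1 =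
      (a.1.2.length + 2) * ∑ e, f e := by
  classical
  have h1 : ∑ p : (Σ z : ZA a, {e : Lb a.1.1 // e ∈ famA a z}), f p.2.1 =
      ∑ z : ZA a, ∑ e : {e : Lb a.1.1 // e ∈ famA a z}, f e.1 := by
    rw [Fintype.sum_sigma]
  have h2 : ∀ z : ZA a, ∑ e : {e : Lb a.1.1 // e ∈ famA a z}, f e.1 =
      ∑ e : Lb a.1.1, if e ∈ famA a z then f e else 0 := by
    intro z
    rw [← Finset.sum_filter]
    symm
    apply Finset.sum_subtype
    intro x
    simp
  rw [h1, sum_congr rfl (fun z _ => h2 z), sum_comm, mul_sum]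
  apply sum_congr rfl
  intro e _
  rw [← Finset.sum_filter, sum_const, smul_eq_mul]
  congr 1
  rw [← c8 a e, Nat.card_eq_fintype_card, Fintype.card_subtype]

theorem c5 (a : (LL × Un) × Un) : Fintype.card (WA a) = wN a := by
  have h1 : Fintype.card (Σ z : ZA a, {e : Lb a.1.1 // e ∈ famA a z}) =
      onesN a.1.1 * (a.1.2.length + 2) := by
    have := dbl a (fun _ => 1)
    rw [sum_const, sum_const, smul_eq_mul, smul_eq_mul, mul_one, mul_one, card_univ, card_univ,
      c1] at this
    rw [this, mul_comm]
  have h2 : ∑ q : QA a, lsD (famA a) (labA a.1.1) q =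
      2 * zN a + (a.1.2.length + 2) * sumLab a.1.1 := by
    have e1 : ∑ q : QA a, lsD (famA a) (labA a.1.1) q =
        (∑ z : ZA a, 2) + ∑ p : (Σ z : ZA a, {e : Lb a.1.1 // e ∈ famA a z}),
          (3 + labA a.1.1 p.2.1) := by
      rw [Fintype.sum_sum_type]
      rfl
    rw [e1, dbl a (fun e => 3 + labA a.1.1 e), c2, sum_const, card_univ, c4, smul_eq_mul]
    ring
  have h3 : Fintype.card (WA a) = Fintype.card (QA a) +
      ∑ q : QA a, lsD (famA a) (labA a.1.1) q := by
    rw [Fintype.card_sum, Fintype.card_sigma]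
    simp
  have h4 : Fintype.card (QA a) = zN a + onesN a.1.1 * (a.1.2.length + 2) := by
    rw [Fintype.card_sum, c4, h1]
  rw [h3, h2, h4]
  unfold wN
  ring

end CARD_ns

theorem CARD : S_CARD :=
  ⟨CARD_ns.c1, CARD_ns.c2, CARD_ns.c3, CARD_ns.c4, CARD_ns.c5, CARD_ns.c6, CARD_ns.c7, CARD_ns.c8⟩

end Pool.Agent.H695R3.SF
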