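import Pool.Agent.H695R3.SF.Defs

/-!
# Theorem D: removing the empty blocks
-/

namespace Pool.Agent.H695R3.SF

open Finset

namespace D_ns

open Classical in
/-- weighted number of families of nonempty sets indexed by `Y` which are injectively dominated -/
noncomputable def Kc {Z L : Type} [Fintype Z] [Fintype L] (A : Z → Finset L) (Y : Type)
    [Fintype Y] : ℕ :=
  ∑ S : Y → Finset L, if (∀ y, (S y).Nonempty) ∧ ∃ j : Y ↪ Z, ∀ y, S y ⊆ A (j y) then
    ∏ e : L, (univ.filter (fun z => e ∈ A z)).card.descFactorial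
      (univ.filter (fun y => e ∈ S y)).card else 0

open Classical in
theorem Kc_congr {Z L : Type} [Fintype Z] [Fintype L] (A : Z → Finset L) {Y Y' : Type}
    [Fintype Y] [Fintype Y'] (f : Y ≃ Y') : Kc A Y = Kc A Y' := by
  unfold Kc
  refine Fintype.sum_equiv (Equiv.arrowCongr f (Equiv.refl _)) _ _ fun S => ?_
  have h1 : (∀ y, (S y).Nonempty) ↔
      ∀ y, ((Equiv.arrowCongr f (Equiv.refl (Finset L))) S y).Nonempty := by
    constructor
    · intro h y
      simpa using h (f.symm y)
    · intro h y
      simpa using h (f y)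
  have h2 : (∃ j : Y ↪ Z, ∀ y, S y ⊆ A (j y)) ↔
      ∃ j : Y' ↪ Z, ∀ y, ((Equiv.arrowCongr f (Equiv.refl (Finset L))) S y) ⊆ A (j y) := by
    constructor
    · rintro ⟨j, hj⟩
      refine ⟨f.symm.toEmbedding.trans j, fun y => ?_⟩
      simpa using hj (f.symm y)
    · rintro ⟨j, hj⟩
      refine ⟨f.toEmbedding.trans j, fun y => ?_⟩
      simpa using hj (f y)
  have h3 : ∀ e : L, (univ.filter (fun y => e ∈ S y)).card =
      (univ.filter (fun y => e ∈ ((Equiv.arrowCongr f (Equiv.refl (Finset L))) S y))).card := by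
    intro e
    refine Finset.card_bij (fun y _ => f y) ?_ ?_ ?_
    · intro y hy
      simpa using hy
    · intro a _ b _ h
      exact f.injective h
    · intro b hb
      refine ⟨f.symm b, ?_, by simp⟩
      simpa using hb
  simp only [h1, h2, h3]

open Classical in
theorem Kc_self {Z L : Type} [Fintype Z] [Fintype L] (A : Z → Finset L) :
    Kc A Z = KK A := by
  unfold Kc KK
  refine Finset.sum_congr rfl fun S _ => ?_
  have h2 : (∃ j : Z ↪ Z, ∀ y, S y ⊆ A (j y)) ↔ Rlz A S := by
    constructor
    · rintro ⟨j, hj⟩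
      exact ⟨Equiv.ofBijective j (Finite.injective_iff_bijective.mp j.injective), fun z => hj z⟩
    · rintro ⟨β, hβ⟩
      exact ⟨β.toEmbedding, fun z => hβ z⟩
  simp only [h2, wt]

theorem Kc_zero {Z L : Type} [Fintype Z] [Fintype L] (A : Z → Finset L) (Y : Type)
    [Fintype Y] (h : Fintype.card Z < Fintype.card Y) : Kc A Y = 0 := by
  unfold Kc
  refine Finset.sum_eq_zero fun S _ => ?_
  rw [if_neg]
  rintro ⟨_, j, _⟩
  exact absurd (Fintype.card_le_of_embedding j) (by omega)

open Classical in
/-- realised families in terms of the support -/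
theorem rlz_iff {Z L : Type} [Fintype Z] [Fintype L] (A : Z → Finset L) (r : ℕ)
    (S : Z ⊕ Fin r → Finset L) (T : Finset (Z ⊕ Fin r)) (hT : ∀ x, x ∈ T ↔ (S x).Nonempty) :
    Rlz (extA A r) S ↔ ∃ j : T ↪ Z, ∀ y : T, S y ⊆ A (j y) := by
  constructor
  · rintro ⟨β, hβ⟩
    have key : ∀ y : T, ∃ z : Z, β y = Sum.inl z := by
      intro y
      rcases h : β y with z | k
      · exact ⟨z, rfl⟩
      · exfalso
        have h1 := hβ y
        rw [h] at h1
        have h2 := (hT y).mp y.2
        simp only [extA, Sum.elim_inr, Finset.subset_empty] at h1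
        rw [h1] at h2
        exact absurd h2 Finset.not_nonempty_empty
    choose j hj using key
    refine ⟨⟨j, fun a b hab => ?_⟩, fun y => ?_⟩
    · have : β a = β b := by rw [hj a, hj b, hab]
      exact Subtype.ext (β.injective this)
    · have h1 := hβ y
      rw [hj y] at h1
      exact h1
  · rintro ⟨j, hj⟩
    let f : Z ⊕ Fin r → Z ⊕ Fin r := fun x => if h : x ∈ T then Sum.inl (j ⟨x, h⟩) else x
    have hfs : Set.InjOn f T := by
      intro a ha b hb hab
      have ha' : a ∈ T := ha
      have hb' : b ∈ T := hb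
      simp only [f, ha', hb', dif_pos, Sum.inl.injEq] at hab
      have := j.injective hab
      simpa using this
    obtain ⟨g, hg⟩ := Finset.exists_equiv_extend_of_card_eq
      (t := (univ : Finset (Z ⊕ Fin r))) (s := T) (f := f) (by simp) (by simp) hfs
    refine ⟨g.trans (Equiv.subtypeUnivEquiv (by simp)), fun x => ?_⟩
    by_cases hx : x ∈ T
    · have h1 := hg x hx
      simp only [Equiv.trans_apply, Equiv.subtypeUnivEquiv_apply]
      rw [h1]
      simp only [f, hx, dif_pos, extA, Sum.elim_inl]
      exact hj ⟨x, hx⟩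
    · have : S x = ∅ := by
        rw [← Finset.not_nonempty_iff_eq_empty]
        exact fun h => hx ((hT x).mpr h)
      rw [this]
      exact Finset.empty_subset _

open Classical in
theorem JJ_eq {Z L : Type} [Fintype Z] [Fintype L] (A : Z → Finset L) (r : ℕ) :
    JJ (extA A r) = ∑ T : Finset (Z ⊕ Fin r), Kc A T := by
  have h0 : JJ (extA A r) = ∑ S : Z ⊕ Fin r → Finset L,
      if Rlz (extA A r) S then wt (extA A r) S else 0 := by
    unfold JJ
    congr!
  rw [h0]
  rw [← Finset.sum_fiberwise (univ : Finset (Z ⊕ Fin r → Finset L))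
    (fun S => univ.filter (fun x => (S x).Nonempty))
    (fun S => if Rlz (extA A r) S then wt (extA A r) S else 0)]
  refine Finset.sum_congr rfl fun T _ => ?_
  unfold Kc
  rw [← Finset.sum_filter, ← Finset.sum_filter]
  refine Finset.sum_bij' (i := fun S _ => fun y : T => S y)
    (j := fun S' _ => fun x => if h : x ∈ T then S' ⟨x, h⟩ else ∅) ?_ ?_ ?_ ?_ ?_
  · intro S hS
    simp only [Finset.mem_filter, Finset.mem_univ, true_and] at hS ⊢
    obtain ⟨h1, h2⟩ := hS
    have hT : ∀ x, x ∈ T ↔ (S x).Nonempty := by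
      intro x
      rw [← h1]
      simp
    exact ⟨fun y => (hT y).mp y.2, (rlz_iff A r S T hT).mp h2⟩
  · intro S' hS'
    simp only [Finset.mem_filter, Finset.mem_univ, true_and] at hS' ⊢
    obtain ⟨h1, h2⟩ := hS'
    have hT : ∀ x, x ∈ T ↔
        ((fun x => if h : x ∈ T then S' ⟨x, h⟩ else ∅ : Z ⊕ Fin r → Finset L) x).Nonempty := by
      intro x
      by_cases hx : x ∈ T
      · simp [hx, h1]
      · simp [hx]
    refine ⟨?_, ?_⟩
    · ext x
      rw [Finset.mem_filter]
      simp only [Finset.mem_univ, true_and]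
      exact (hT x).symm
    · rw [rlz_iff A r _ T hT]
      obtain ⟨j, hj⟩ := h2
      refine ⟨j, fun y => ?_⟩
      simp only [y.2, dif_pos, Subtype.coe_eta]
      exact hj y
  · intro S hS
    simp only [Finset.mem_filter, Finset.mem_univ, true_and] at hS
    obtain ⟨h1, h2⟩ := hS
    funext x
    by_cases hx : x ∈ T
    · simp [hx]
    · simp only [hx, dif_neg, not_false_eq_true]
      have : ¬ (S x).Nonempty := by
        intro h
        apply hx
        rw [← h1]
        simp [h]
      rw [Finset.not_nonempty_iff_eq_empty] at this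
      exact this.symm
  · intro S' hS'
    funext y
    simp
  · intro S hS
    simp only [Finset.mem_filter, Finset.mem_univ, true_and] at hS
    obtain ⟨h1, h2⟩ := hS
    unfold wt
    refine Finset.prod_congr rfl fun e _ => ?_
    congr 1
    · symm
      refine Finset.card_bij (fun z _ => Sum.inl z) ?_ ?_ ?_
      · intro z hz
        have h3 : e ∈ A z := (Finset.mem_filter.mp hz).2
        exact Finset.mem_filter.mpr ⟨Finset.mem_univ _, h3⟩
      · intro a _ b _ h
        exact Sum.inl_injective h
      · rintro (z | k) hz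
        · have h3 : e ∈ A z := (Finset.mem_filter.mp hz).2
          exact ⟨z, Finset.mem_filter.mpr ⟨Finset.mem_univ _, h3⟩, rfl⟩
        · exfalso
          have h3 : e ∈ (∅ : Finset L) := (Finset.mem_filter.mp hz).2
          exact absurd h3 (Finset.notMem_empty e)
    · symm
      refine Finset.card_bij (fun (y : T) _ => (y : Z ⊕ Fin r)) ?_ ?_ ?_
      · intro y hy
        simpa using hy
      · intro a _ b _ h
        exact Subtype.ext h
      · intro x hx
        have hx' : e ∈ S x := by simpa using hx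
        have : x ∈ T := by
          rw [← h1]
          simp only [Finset.mem_filter, Finset.mem_univ, true_and]
          exact ⟨e, hx'⟩
        exact ⟨⟨x, this⟩, by simpa using hx, rfl⟩

theorem JJ_poly {Z L : Type} [Fintype Z] [Fintype L] (A : Z → Finset L) (r : ℕ) :
    JJ (extA A r) = ∑ y ∈ range (Fintype.card Z + 1),
      (Fintype.card Z + r).choose y * Kc A (Fin y) := by
  rw [JJ_eq]
  have h1 : ∀ T : Finset (Z ⊕ Fin r), Kc A T = Kc A (Fin T.card) := by
    intro T
    exact Kc_congr A T.equivFin
  simp only [h1]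
  have h2 := Finset.sum_powerset_apply_card (fun y => Kc A (Fin y))
    (x := (univ : Finset (Z ⊕ Fin r)))
  rw [Finset.powerset_univ] at h2
  rw [h2]
  simp only [Finset.card_univ, Fintype.card_sum, Fintype.card_fin, smul_eq_mul]
  symm
  refine Finset.sum_subset ?_ ?_
  · intro y hy
    simp only [Finset.mem_range] at hy ⊢
    omega
  · intro y _ hy
    simp only [Finset.mem_range, not_lt] at hy
    rw [Kc_zero A (Fin y) (by rw [Fintype.card_fin]; omega), mul_zero]

/-- top difference of a binomial coefficient -/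
theorem fwd_choose (n y : ℕ) (h : y ≤ n) (m : ℕ) :
    (fwdDiff (1 : ℕ))^[n] (fun x ↦ x.choose y : ℕ → ℤ) m = if y = n then 1 else 0 := by
  obtain ⟨k, rfl⟩ := Nat.exists_eq_add_of_le' h
  have h1 := fwdDiff_iter_choose 0 y
  rw [add_zero] at h1
  rw [Function.iterate_add_apply, h1]
  rcases k with _ | k
  · simp
  · rw [if_neg (by omega), Function.iterate_succ_apply]
    simp [fwdDiff_iter_eq_sum_shift]

theorem diff_choose (n y : ℕ) (h : y ≤ n) (m : ℕ) :
    ∑ t ∈ range (n + 1), (-1 : ℤ) ^ t * (n.choose t) * (((m + (n - t)).choose y : ℕ) : ℤ) =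
      if y = n then 1 else 0 := by
  rw [← fwd_choose n y h m, fwdDiff_iter_eq_sum_shift]
  rw [← Finset.sum_range_reflect]
  refine Finset.sum_congr rfl fun t ht => ?_
  have ht' : t ≤ n := by
    rw [Finset.mem_range] at ht
    omega
  have h1 : n + 1 - 1 - t = n - t := by omega
  rw [h1, Nat.choose_symm ht', Nat.sub_sub_self ht']
  simp

end D_ns

open D_ns in
theorem D : S_D := by
  intro Z L _ _ A r
  have h1 : ∀ t, (JJ (extA A (r + (Fintype.card Z - t))) : ℤ) =
      ∑ y ∈ range (Fintype.card Z + 1),
        (((Fintype.card Z + r + (Fintype.card Z - t)).choose y : ℕ) : ℤ) *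
          (Kc A (Fin y) : ℤ) := by
    intro t
    rw [JJ_poly, add_assoc (Fintype.card Z) r]
    push_cast
    rfl
  simp only [h1, Finset.mul_sum]
  rw [Finset.sum_comm]
  have h2 : ∀ y ∈ range (Fintype.card Z + 1),
      ∑ t ∈ range (Fintype.card Z + 1), (-1 : ℤ) ^ t * ((Fintype.card Z).choose t) *
        ((((Fintype.card Z + r + (Fintype.card Z - t)).choose y : ℕ) : ℤ) *
          (Kc A (Fin y) : ℤ)) = if y = Fintype.card Z then (Kc A (Fin y) : ℤ) else 0 := by
    intro y hy
    have h3 := diff_choose (Fintype.card Z) y (by rw [Finset.mem_range] at hy; omega)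
      (Fintype.card Z + r)
    have h4 : ∑ t ∈ range (Fintype.card Z + 1), (-1 : ℤ) ^ t * ((Fintype.card Z).choose t) *
        ((((Fintype.card Z + r + (Fintype.card Z - t)).choose y : ℕ) : ℤ) *
          (Kc A (Fin y) : ℤ)) = (∑ t ∈ range (Fintype.card Z + 1),
            (-1 : ℤ) ^ t * ((Fintype.card Z).choose t) *
            (((Fintype.card Z + r + (Fintype.card Z - t)).choose y : ℕ) : ℤ)) *
          (Kc A (Fin y) : ℤ) := by
      rw [Finset.sum_mul]
      exact Finset.sum_congr rfl fun t _ => by ring
    rw [h4, h3]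
    split_ifs <;> simp
  rw [Finset.sum_congr rfl h2, Finset.sum_ite_eq']
  rw [if_pos (by simp)]
  have h5 : Kc A (Fin (Fintype.card Z)) = KK A := by
    classical
    rw [← Kc_self A]
    exact Kc_congr A (Fintype.equivFin Z).symm
  rw [h5]

end Pool.Agent.H695R3.SF
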