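import Mathlib

/-!
# Counting unlabelled subforests of a tree: definitions and statements of the combinatorial part
-/

namespace Pool.Agent.H695R3.SF

open Finset

/-! ### isomorphism classes of spanning subgraphs -/

/-- isomorphism of spanning subgraphs of `G` -/
def isoSetoid {V : Type} (G : SimpleGraph V) : Setoid {H : SimpleGraph V // H ≤ G} where
  r H H' := Nonempty (H.1 ≃g H'.1)
  iseqv := ⟨fun _ => ⟨SimpleGraph.Iso.refl⟩, fun ⟨e⟩ => ⟨e.symm⟩, fun ⟨e⟩ ⟨f⟩ => ⟨e.trans f⟩⟩

/-- the number of isomorphism classes of the spanning subgraphs of `G` -/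
noncomputable def cls {V : Type} (G : SimpleGraph V) : ℕ := Nat.card (Quotient (isoSetoid G))

/-- `F` is isomorphic to a spanning subgraph of `G` -/
def Emb {V : Type} (F G : SimpleGraph V) : Prop :=
  ∃ π : Equiv.Perm V, ∀ u v, F.Adj u v → G.Adj (π u) (π v)

/-- the number of graphs on the vertex set of `G` which are isomorphic to a spanning subgraph of `G` -/
noncomputable def lam {V : Type} (G : SimpleGraph V) : ℕ :=
  Nat.card {F : SimpleGraph V // Emb F G}

/-! ### Part A: leaf interpolation -/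

/-- adjacency of `leafy` -/
def leafyAdj {V : Type} (G : SimpleGraph V) (x : ℕ) : V ⊕ V × Fin x → V ⊕ V × Fin x → Prop
  | Sum.inl u, Sum.inl v => G.Adj u v
  | Sum.inl u, Sum.inr p => p.1 = u
  | Sum.inr p, Sum.inl u => p.1 = u
  | Sum.inr _, Sum.inr _ => False

/-- the graph `G` with `x` additional pendant vertices at every vertex -/
def leafy {V : Type} (G : SimpleGraph V) (x : ℕ) : SimpleGraph (V ⊕ V × Fin x) where
  Adj := leafyAdj G x
  symm := ⟨by
    rintro (u | p) (v | q) h
    · exact G.adj_symm h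
    · exact h
    · exact h
    · exact h⟩
  loopless := ⟨by
    rintro (u | p) h
    · exact G.loopless.irrefl u h
    · exact h⟩

/-- adjacency of `tg` -/
def tgAdj {V : Type} (F : SimpleGraph V) (a : V → ℕ) : V ⊕ V × ℕ → V ⊕ V × ℕ → Prop
  | Sum.inl u, Sum.inl v => F.Adj u v
  | Sum.inl u, Sum.inr p => p.1 = u ∧ p.2 < a u
  | Sum.inr p, Sum.inl u => p.1 = u ∧ p.2 < a u
  | Sum.inr _, Sum.inr _ => False

/-- the graph `F` with `a v` pendant vertices at `v` (and infinitely many isolated vertices) -/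
def tg {V : Type} (F : SimpleGraph V) (a : V → ℕ) : SimpleGraph (V ⊕ V × ℕ) where
  Adj := tgAdj F a
  symm := ⟨by
    rintro (u | p) (v | q) h
    · exact F.adj_symm h
    · exact h
    · exact h
    · exact h⟩
  loopless := ⟨by
    rintro (u | p) h
    · exact F.loopless.irrefl u h
    · exact h⟩

/-- the vertices which are not isolated -/
def supp {V : Type} (H : SimpleGraph V) : Set V := {v | ∃ u, H.Adj v u}

/-- the graph without its isolated vertices -/
def core {V : Type} (H : SimpleGraph V) : SimpleGraph (supp H) := H.induce (supp H)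

/-- normal form: every non-isolated vertex of `F` has degree at least two in `tg F a` -/
def Nrm {V : Type} (F : SimpleGraph V) (a : V → ℕ) : Prop :=
  ∀ i j, F.Adj i j → a i ≠ 0 ∨ ∃ k, k ≠ j ∧ F.Adj i k

/-- the configuration `(F, a)` is realised in `leafy G x`: `F` is mapped into `G`, and the vertices
`b` with `h b = some i` are used as additional pendant vertices at `i` -/
def RealC {V : Type} (G : SimpleGraph V) (x : ℕ) (F : SimpleGraph V) (a : V → ℕ) : Prop :=
  ∃ (π : Equiv.Perm V) (h : V → Option V), (∀ i j, F.Adj i j → G.Adj (π i) (π j)) ∧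
    (∀ b i, h b = some i → (∀ j, ¬ F.Adj b j) ∧ a b = 0 ∧ G.Adj (π b) (π i)) ∧
    ∀ i, a i ≤ x + Nat.card {b : V // h b = some i}

/-- the permutation `π` maps `(F, a)` to `(F', a')` -/
def EqvC {V : Type} {γ : Type} (c c' : SimpleGraph V × (V → γ)) : Prop :=
  ∃ π : Equiv.Perm V, (∀ u v, c.1.Adj u v ↔ c'.1.Adj (π u) (π v)) ∧ ∀ u, c'.2 (π u) = c.2 u

theorem eqvC_equivalence {V : Type} {γ : Type} : Equivalence (@EqvC V γ) := by
  refine ⟨fun c => ⟨1, by simp⟩, ?_, ?_⟩
  · rintro c c' ⟨π, h1, h2⟩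
    refine ⟨π.symm, fun u v => ?_, fun u => ?_⟩
    · rw [h1]; simp
    · rw [← h2]; simp
  · rintro c c' c'' ⟨π, h1, h2⟩ ⟨σ, h3, h4⟩
    exact ⟨π.trans σ, fun u v => by rw [h1, h3]; simp, fun u => by simp [h4, h2]⟩

/-- orbits on a set of configurations -/
def cSetoid {V : Type} {γ : Type} (P : SimpleGraph V × (V → γ) → Prop) : Setoid {c // P c} where
  r c c' := EqvC c.1 c'.1
  iseqv := ⟨fun c => eqvC_equivalence.refl c.1, fun h => eqvC_equivalence.symm h,
    fun h h' => eqvC_equivalence.trans h h'⟩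

/-- the number of orbits on a set of configurations -/
noncomputable def orb {V : Type} {γ : Type} (P : SimpleGraph V × (V → γ) → Prop) : ℕ :=
  Nat.card (Quotient (cSetoid P))

/-- N0: isolated vertices do not matter -/
def S_N0 : Prop := ∀ (V : Type) [Fintype V] (H H' : SimpleGraph V),
  Nonempty (core H ≃g core H') ↔ Nonempty (H ≃g H')

/-- N1: isomorphism of normal forms -/
def S_N1 : Prop := ∀ (V : Type) [Fintype V] (F F' : SimpleGraph V) (a a' : V → ℕ),
  Nrm F a → Nrm F' a' →
  (Nonempty (core (tg F a) ≃g core (tg F' a')) ↔ EqvC (F, a) (F', a'))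

/-- N2: every spanning subgraph has a normal form -/
def S_N2 : Prop := ∀ (V : Type) [Fintype V] (G : SimpleGraph V) (x : ℕ)
  (H : SimpleGraph (V ⊕ V × Fin x)), H ≤ leafy G x →
  ∃ (F : SimpleGraph V) (a : V → ℕ), Nrm F a ∧ RealC G x F a ∧
    Nonempty (core H ≃g core (tg F a))

/-- N3: every realised configuration is a spanning subgraph -/
def S_N3 : Prop := ∀ (V : Type) [Fintype V] (G : SimpleGraph V) (x : ℕ)
  (F : SimpleGraph V) (a : V → ℕ), RealC G x F a →
  ∃ H : SimpleGraph (V ⊕ V × Fin x), H ≤ leafy G x ∧ Nonempty (core H ≃g core (tg F a))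

/-- A1 -/
def S_A1 : Prop := ∀ (V : Type) [Fintype V] (G : SimpleGraph V) (x : ℕ),
  cls (leafy G x) = orb (fun c : SimpleGraph V × (V → ℕ) => Nrm c.1 c.2 ∧ RealC G x c.1 c.2)

/-- forget the names of the colours `Fin y` -/
def coll {Cc : Type} {y : ℕ} : Cc ⊕ Fin y → Option Cc
  | Sum.inl c => some c
  | Sum.inr _ => none

/-- the condition of `A2` : colour `some (inl false) = 0`, `some (inl true) = 1`, `none` = a value
between `2` and `x`, `some (inr t) = x + 1 + t` -/
def GoodC {V : Type} (m : ℕ) (G : SimpleGraph V) (F : SimpleGraph V)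
    (v : V → Option (Bool ⊕ Fin m)) : Prop :=
  (∀ i j, F.Adj i j → v i ≠ some (Sum.inl false) ∨ ∃ k, k ≠ j ∧ F.Adj i k) ∧
  ∃ (π : Equiv.Perm V) (h : V → Option V), (∀ i j, F.Adj i j → G.Adj (π i) (π j)) ∧
    (∀ b i, h b = some i → (∀ j, ¬ F.Adj b j) ∧ v b = some (Sum.inl false) ∧
      G.Adj (π b) (π i)) ∧
    ∀ i (t : Fin m), v i = some (Sum.inr t) → t.val + 1 ≤ Nat.card {b : V // h b = some i}

/-- A2 -/
def S_A2 : Prop := ∀ (V : Type) [Fintype V] (G : SimpleGraph V) (y : ℕ),
  orb (fun c : SimpleGraph V × (V → ℕ) => Nrm c.1 c.2 ∧ RealC G (y + 1) c.1 c.2) =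
  orb (fun c : SimpleGraph V × (V → (Bool ⊕ Fin (Fintype.card V)) ⊕ Fin y) =>
    GoodC (Fintype.card V) G c.1 (fun v => coll (c.2 v)))

/-- P1a: the number of orbits in terms of the set of free colours which occur -/
def S_P1a : Prop := ∀ (V : Type) [Fintype V] (Cc : Type) [Fintype Cc]
  (Good : SimpleGraph V → (V → Option Cc) → Prop),
  (∀ (F F' : SimpleGraph V) (v v' : V → Option Cc) (π : Equiv.Perm V),
    (∀ i j, F.Adj i j ↔ F'.Adj (π i) (π j)) → (∀ i, v' (π i) = v i) → Good F v → Good F' v') →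
  ∃ O : ℕ → ℕ, O (Fintype.card V) = Nat.card {F : SimpleGraph V // Good F (fun _ => none)} ∧
    ∀ y : ℕ, orb (fun c : SimpleGraph V × (V → Cc ⊕ Fin y) => Good c.1 (fun v => coll (c.2 v))) =
      ∑ k ∈ range (Fintype.card V + 1), y.choose k * O k

/-- P1: the number of orbits is a polynomial in the number of free colours; its top difference -/
def S_P1 : Prop := ∀ (V : Type) [Fintype V] (Cc : Type) [Fintype Cc]
  (Good : SimpleGraph V → (V → Option Cc) → Prop),
  (∀ (F F' : SimpleGraph V) (v v' : V → Option Cc) (π : Equiv.Perm V),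
    (∀ i j, F.Adj i j ↔ F'.Adj (π i) (π j)) → (∀ i, v' (π i) = v i) → Good F v → Good F' v') →
  ∀ y : ℕ, ∑ t ∈ range (Fintype.card V + 1), (-1 : ℤ) ^ t * ((Fintype.card V).choose t) *
    (orb (fun c : SimpleGraph V × (V → Cc ⊕ Fin (y + (Fintype.card V - t))) =>
      Good c.1 (fun v => coll (c.2 v))) : ℤ) =
    (Nat.card {F : SimpleGraph V // Good F (fun _ => none)} : ℤ)

/-- Theorem A -/
def S_A : Prop := ∀ (V : Type) [Fintype V] (G : SimpleGraph V) (x : ℕ), 1 ≤ x →
  ∑ t ∈ range (Fintype.card V + 1), (-1 : ℤ) ^ t * ((Fintype.card V).choose t) *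
    (cls (leafy G (x + (Fintype.card V - t))) : ℤ) = (lam G : ℤ)

/-! ### Part B: the reservoir -/

/-- adjacency of `res` -/
def resAdj {W : Type} (C : SimpleGraph (Option W)) (R : ℕ) :
    Option (W ⊕ Fin R) → Option (W ⊕ Fin R) → Prop
  | none, none => False
  | none, some (Sum.inl w) => C.Adj none (some w)
  | some (Sum.inl w), none => C.Adj (some w) none
  | some (Sum.inl w), some (Sum.inl w') => C.Adj (some w) (some w')
  | none, some (Sum.inr _) => True
  | some (Sum.inr _), none => True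
  | some (Sum.inr _), some _ => False
  | some (Sum.inl _), some (Sum.inr _) => False

/-- the graph `C` with `R` additional pendant vertices at the root `none` -/
def res {W : Type} (C : SimpleGraph (Option W)) (R : ℕ) : SimpleGraph (Option (W ⊕ Fin R)) where
  Adj := resAdj C R
  symm := ⟨by
    rintro (_ | (u | u)) (_ | (v | v)) h
    all_goals first
      | exact h
      | exact C.adj_symm h⟩
  loopless := ⟨by
    rintro (_ | (u | u)) h
    all_goals first
      | exact h
      | exact C.loopless.irrefl _ h⟩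

/-- rooted embedding -/
def REmb {W : Type} (F C : SimpleGraph (Option W)) : Prop :=
  ∃ π : Equiv.Perm W, ∀ u v : Option W, F.Adj u v → C.Adj (u.map π) (v.map π)

/-- every vertex different from the root has a neighbour different from the root -/
def AllEss {W : Type} (F : SimpleGraph (Option W)) : Prop :=
  ∀ w : W, ∃ w' : W, F.Adj (some w) (some w')

/-- the number of realised graphs in which all vertices are essential -/
noncomputable def NN {W : Type} (C : SimpleGraph (Option W)) : ℕ :=
  Nat.card {F : SimpleGraph (Option W) // AllEss F ∧ REmb F C}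

/-- the degree of the root -/
noncomputable def rdeg {Y : Type} (F : SimpleGraph (Option Y)) : ℕ :=
  Nat.card {y : Y // F.Adj none (some y)}

/-- all degrees are at most `c` -/
def DegLe {V : Type} (F : SimpleGraph V) (c : ℕ) : Prop :=
  ∀ v, Nat.card {u : V // F.Adj v u} ≤ c

/-- B1: separation of the graphs with a vertex of large degree -/
def S_B1 : Prop := ∀ (W : Type) [Fintype W] [Nonempty W] (C : SimpleGraph (Option W)) (R : ℕ),
  lam (res C R) = Nat.card {F : SimpleGraph (Option (W ⊕ Fin R)) //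
      Emb F (res C R) ∧ DegLe F (Fintype.card W)} +
    (Fintype.card W + R + 1) * Nat.card {F : SimpleGraph (Option (W ⊕ Fin R)) //
      REmb F (res C R) ∧ Fintype.card W + 1 ≤ rdeg F}

/-- B2a: counting graphs by their non-isolated vertices -/
def S_B2a : Prop := ∀ (V : Type) [Fintype V] (Φ : ∀ s : ℕ, SimpleGraph (Fin s) → Prop),
  (∀ (s : ℕ) (F F' : SimpleGraph (Fin s)) (π : Equiv.Perm (Fin s)),
    (∀ u v, F.Adj u v ↔ F'.Adj (π u) (π v)) → Φ s F → Φ s F') →
  Nat.card {F : SimpleGraph V // ∃ (s : ℕ) (ι : Fin s ↪ V), Set.range ι = supp F ∧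
      Φ s (F.comap ι)} =
    ∑ s ∈ range (Fintype.card V + 1), (Fintype.card V).choose s *
      Nat.card {F : SimpleGraph (Fin s) // (∀ v, ∃ u, F.Adj v u) ∧ Φ s F}

/-- B2: the graphs with small degrees give a polynomial -/
def S_B2 : Prop := ∀ (W : Type) [Fintype W] (C : SimpleGraph (Option W)),
  ∃ N : ℕ → ℕ, ∀ R, Fintype.card W ≤ R →
    Nat.card {F : SimpleGraph (Option (W ⊕ Fin R)) //
      Emb F (res C R) ∧ DegLe F (Fintype.card W)} =
    ∑ s ∈ range (2 * Fintype.card W + 2), (Fintype.card W + R + 1).choose s * N s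

/-- the graph `F` on the root and `t` vertices embeds into `C` so that at most `i` of the unused
vertices of `C` are not neighbours of the root -/
def OkI {W : Type} (C : SimpleGraph (Option W)) (t : ℕ) (F : SimpleGraph (Option (Fin t)))
    (i : ℕ) : Prop :=
  ∃ ι : Fin t ↪ W, (∀ u v : Option (Fin t), F.Adj u v → C.Adj (u.map ι) (v.map ι)) ∧
    Nat.card {w : W // w ∉ Set.range ι ∧ ¬ C.Adj none (some w)} ≤ i

/-- the essential vertices -/
def ess {Y : Type} (F : SimpleGraph (Option Y)) : Set Y := {y | ∃ y', F.Adj (some y) (some y')}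

/-- the isolated vertices -/
def isoV {Y : Type} (F : SimpleGraph (Option Y)) : Set Y := {y | ∀ u, ¬ F.Adj (some y) u}

/-- B3a: counting rooted graphs by essential, isolated, pendant vertices -/
def S_B3a : Prop := ∀ (Y : Type) [Fintype Y]
  (Φ : ∀ t : ℕ, SimpleGraph (Option (Fin t)) → ℕ → Prop),
  (∀ (t : ℕ) (F F' : SimpleGraph (Option (Fin t))) (π : Equiv.Perm (Fin t)) (i : ℕ),
    (∀ u v : Option (Fin t), F.Adj u v ↔ F'.Adj (u.map π) (v.map π)) → Φ t F i → Φ t F' i) →
  Nat.card {F : SimpleGraph (Option Y) // ∃ (t : ℕ) (ι : Fin t ↪ Y), Set.range ι = ess F ∧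
      Φ t (F.comap (Option.map ι)) (Nat.card (isoV F))} =
    ∑ t ∈ range (Fintype.card Y + 1), (Fintype.card Y).choose t *
      ∑ i ∈ range (Fintype.card Y - t + 1), (Fintype.card Y - t).choose i *
        Nat.card {F : SimpleGraph (Option (Fin t)) // AllEss F ∧ Φ t F i}

/-- B3b: which rooted graphs are realised -/
def S_B3b : Prop := ∀ (W : Type) [Fintype W] (C : SimpleGraph (Option W)) (R : ℕ)
  (F : SimpleGraph (Option (W ⊕ Fin R))),
  (REmb F (res C R) ∧ Fintype.card W + 1 ≤ rdeg F) ↔
    ∃ (t : ℕ) (ι : Fin t ↪ (W ⊕ Fin R)), Set.range ι = ess F ∧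
      (OkI C t (F.comap (Option.map ι)) (Nat.card (isoV F)) ∧
        Fintype.card W + 1 ≤ rdeg (F.comap (Option.map ι)) +
          (Fintype.card W + R - t - Nat.card (isoV F)))

/-- B3: the graphs with a root of large degree.  `t` essential vertices, `i` isolated vertices,
the other vertices are pendant vertices at the root. -/
def S_B3 : Prop := ∀ (W : Type) [Fintype W] (C : SimpleGraph (Option W)) (R : ℕ),
  Nat.card {F : SimpleGraph (Option (W ⊕ Fin R)) //
      REmb F (res C R) ∧ Fintype.card W + 1 ≤ rdeg F} =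
    ∑ t ∈ range (Fintype.card W + 1), (Fintype.card W + R).choose t *
      ∑ i ∈ range (Fintype.card W + R - t + 1), (Fintype.card W + R - t).choose i *
        Nat.card {F : SimpleGraph (Option (Fin t)) // AllEss F ∧ OkI C t F i ∧
          Fintype.card W + 1 ≤ rdeg F + (Fintype.card W + R - t - i)}

/-- B4: decomposition into `2 ^ R` times a polynomial and a polynomial -/
def S_B4 : Prop := ∀ (W : Type) [Fintype W] [Nonempty W] (C : SimpleGraph (Option W)),
  ∃ A B : Polynomial ℚ, A.natDegree ≤ Fintype.card W + 1 ∧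
    A.coeff (Fintype.card W + 1) * ((Fintype.card W).factorial : ℚ) = (NN C : ℚ) ∧
    B.natDegree ≤ 2 * Fintype.card W + 1 ∧
    ∀ R, Fintype.card W ≤ R → (lam (res C R) : ℚ) = 2 ^ R * A.eval (R : ℚ) + B.eval (R : ℚ)

/-- B5: the extraction -/
def S_B5 : Prop := ∀ (a d : ℕ) (A B : Polynomial ℚ) (f : ℕ → ℚ) (R₀ : ℕ),
  A.natDegree ≤ a → B.natDegree < d →
  (∀ R, R₀ ≤ R → f R = 2 ^ R * A.eval (R : ℚ) + B.eval (R : ℚ)) →
  ∑ k ∈ range (a + 1), (-1 : ℚ) ^ k * (a.choose k) * 2 ^ k *
    ∑ j ∈ range (d + 1), (-1 : ℚ) ^ j * (d.choose j) * f (R₀ + (a - k) + (d - j)) =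
    2 ^ (R₀ + a) * (a.factorial : ℚ) * A.coeff a

/-- Theorem B -/
def S_B : Prop := ∀ (W : Type) [Fintype W] [Nonempty W] (C : SimpleGraph (Option W)) (R₀ : ℕ),
  Fintype.card W ≤ R₀ →
  ∑ k ∈ range (Fintype.card W + 2), (-1 : ℤ) ^ k * ((Fintype.card W + 1).choose k) * 2 ^ k *
    ∑ j ∈ range (2 * Fintype.card W + 3), (-1 : ℤ) ^ j * ((2 * Fintype.card W + 2).choose j) *
      (lam (res C (R₀ + (Fintype.card W + 1 - k) + (2 * Fintype.card W + 2 - j))) : ℤ) =
    2 ^ (R₀ + (Fintype.card W + 1)) * ((Fintype.card W + 1 : ℕ) : ℤ) * (NN C : ℤ)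

/-! ### Part C: the stars force the labels -/

/-- adjacency of `star` -/
def starAdj {Q : Type} (D : SimpleGraph (Option Q)) (ls : Q → ℕ) :
    Option (Q ⊕ (Σ q : Q, Fin (ls q))) → Option (Q ⊕ (Σ q : Q, Fin (ls q))) → Prop
  | none, none => False
  | none, some (Sum.inl w) => D.Adj none (some w)
  | some (Sum.inl w), none => D.Adj (some w) none
  | some (Sum.inl w), some (Sum.inl w') => D.Adj (some w) (some w')
  | some (Sum.inl w), some (Sum.inr p) => p.1 = w
  | some (Sum.inr p), some (Sum.inl w) => p.1 = w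
  | none, some (Sum.inr _) => False
  | some (Sum.inr _), none => False
  | some (Sum.inr _), some (Sum.inr _) => False

/-- the graph `D` with `ls q` additional pendant vertices at every vertex `q` but the root -/
def star {Q : Type} (D : SimpleGraph (Option Q)) (ls : Q → ℕ) :
    SimpleGraph (Option (Q ⊕ (Σ q : Q, Fin (ls q)))) where
  Adj := starAdj D ls
  symm := ⟨by
    rintro (_ | (u | u)) (_ | (v | v)) h
    all_goals first
      | exact h
      | exact D.adj_symm h⟩
  loopless := ⟨by
    rintro (_ | (u | u)) h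
    all_goals first
      | exact h
      | exact D.loopless.irrefl _ h⟩

/-- the number of graphs realised by label preserving permutations -/
noncomputable def MM {Q : Type} (D : SimpleGraph (Option Q)) (ls : Q → ℕ) : ℕ :=
  Nat.card {F : SimpleGraph (Option Q) // ∃ π : Equiv.Perm Q, (∀ q, ls (π q) = ls q) ∧
    ∀ u v : Option Q, F.Adj u v → D.Adj (u.map π) (v.map π)}

/-- the permutations of the vertices of the stars which respect the stars -/
def Gam {Q : Type} (ls : Q → ℕ) (γ : Equiv.Perm (Q ⊕ (Σ q : Q, Fin (ls q)))) : Prop :=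
  ∃ σ : Equiv.Perm Q, (∀ q, ls (σ q) = ls q) ∧ (∀ q, γ (Sum.inl q) = Sum.inl (σ q)) ∧
    ∀ (q : Q) (k : Fin (ls q)), ∃ k', γ (Sum.inr ⟨q, k⟩) = Sum.inr ⟨σ q, k'⟩

/-- C1 -/
def S_C1 : Prop := ∀ (Q : Type) [Fintype Q] (D : SimpleGraph (Option Q)) (ls : Q → ℕ),
  (∀ q, 2 ≤ ls q) →
  NN (star D ls) * Nat.card {γ : Equiv.Perm (Q ⊕ (Σ q : Q, Fin (ls q))) // Gam ls γ} =
    (Fintype.card Q + ∑ q, ls q).factorial * MM D ls

/-- C2 -/
def S_C2 : Prop := ∀ (Q : Type) [Fintype Q] (ls : Q → ℕ),
  Nat.card {γ : Equiv.Perm (Q ⊕ (Σ q : Q, Fin (ls q))) // Gam ls γ} =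
    (∏ q, (ls q).factorial) *
      ∏ s ∈ univ.image ls, (Nat.card {q : Q // ls q = s}).factorial

/-- the children `p` of the vertices `z` -/
abbrev QQ {Z L : Type} (A : Z → Finset L) : Type := Z ⊕ (Σ z : Z, {e : L // e ∈ A z})

/-- adjacency of `DD` -/
def DDAdj {Z L : Type} (A : Z → Finset L) : Option (QQ A) → Option (QQ A) → Prop
  | none, some (Sum.inl _) => True
  | some (Sum.inl _), none => True
  | some (Sum.inl z), some (Sum.inr p) => p.1 = z
  | some (Sum.inr p), some (Sum.inl z) => p.1 = z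
  | _, _ => False

/-- the tree with root, children `z` of the root, and children `(z, e)`, `e ∈ A z`, of `z` -/
def DD {Z L : Type} (A : Z → Finset L) : SimpleGraph (Option (QQ A)) where
  Adj := DDAdj A
  symm := ⟨by
    rintro (_ | (u | u)) (_ | (v | v)) h
    all_goals first
      | exact h
      | exact Eq.symm h⟩
  loopless := ⟨by
    rintro (_ | (u | u)) h
    all_goals exact h⟩

/-- the numbers of pendant vertices: `2` at every `z`, and `3 + lab e` at `(z, e)` -/
def lsD {Z L : Type} (A : Z → Finset L) (lab : L → ℕ) : QQ A → ℕ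
  | Sum.inl _ => 2
  | Sum.inr p => 3 + lab p.2.1

/-- the family `S` is dominated by the family `A` up to a permutation -/
def Rlz {Z L : Type} (A S : Z → Finset L) : Prop :=
  ∃ β : Equiv.Perm Z, ∀ z, S z ⊆ A (β z)

/-- the weight of a family -/
def wt {Z L : Type} [Fintype Z] [Fintype L] [DecidableEq L] (A S : Z → Finset L) : ℕ :=
  ∏ e : L, (univ.filter (fun z => e ∈ A z)).card.descFactorial
    (univ.filter (fun z => e ∈ S z)).card

open Classical in
/-- the weighted number of realised families -/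
noncomputable def JJ {Z L : Type} [Fintype Z] [Fintype L] (A : Z → Finset L) : ℕ :=
  ∑ S : Z → Finset L, if Rlz A S then wt A S else 0

/-- C3a: edges to the root, and parents of the vertices `(z, e)` -/
def S_C3a : Prop := ∀ (Z L : Type) [Fintype Z] [Fintype L] (A : Z → Finset L) (lab : L → ℕ),
  Function.Injective lab → MM (DD A) (lsD A lab) = 2 ^ Fintype.card Z *
    Nat.card {par : (Σ z : Z, {e : L // e ∈ A z}) → Option Z //
      (∀ p p' z, par p = some z → par p' = some z → p.2.1 = p'.2.1 → p = p') ∧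
      ∃ β : Equiv.Perm Z, ∀ z p, par p = some z → p.2.1 ∈ A (β z)}

/-- C3b -/
def S_C3b : Prop := ∀ (Z L : Type) [Fintype Z] [Fintype L] (A : Z → Finset L),
  Nat.card {par : (Σ z : Z, {e : L // e ∈ A z}) → Option Z //
      (∀ p p' z, par p = some z → par p' = some z → p.2.1 = p'.2.1 → p = p') ∧
      ∃ β : Equiv.Perm Z, ∀ z p, par p = some z → p.2.1 ∈ A (β z)} = JJ A

/-- C3 -/
def S_C3 : Prop := ∀ (Z L : Type) [Fintype Z] [Fintype L] (A : Z → Finset L) (lab : L → ℕ),
  Function.Injective lab → MM (DD A) (lsD A lab) = 2 ^ Fintype.card Z * JJ A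

/-! ### Part D: removing the empty blocks -/

/-- `r` additional empty blocks -/
def extA {Z L : Type} (A : Z → Finset L) (r : ℕ) : Z ⊕ Fin r → Finset L :=
  Sum.elim A (fun _ => ∅)

open Classical in
/-- the weighted number of realised families of nonempty sets -/
noncomputable def KK {Z L : Type} [Fintype Z] [Fintype L] (A : Z → Finset L) : ℕ :=
  ∑ S : Z → Finset L, if (∀ z, (S z).Nonempty) ∧ Rlz A S then wt A S else 0

/-- C4 -/
def S_C4 : Prop := ∀ (Z L : Type) [Fintype Z] [Fintype L] (A : Z → Finset L) (lab : L → ℕ)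
  (n : ℕ), Function.Injective lab → (∀ e, Nat.card {z : Z // e ∈ A z} = n) →
  NN (star (DD A) (lsD A lab)) * (2 ^ Fintype.card Z * (∏ e, (3 + lab e).factorial) ^ n *
      (Fintype.card Z).factorial * n.factorial ^ Fintype.card L) =
    (3 * Fintype.card Z + Fintype.card L * n + n * ∑ e, (3 + lab e)).factorial *
      2 ^ Fintype.card Z * JJ A

/-- Theorem D -/
def S_D : Prop := ∀ (Z L : Type) [Fintype Z] [Fintype L] (A : Z → Finset L) (r : ℕ),
  ∑ t ∈ range (Fintype.card Z + 1), (-1 : ℤ) ^ t * ((Fintype.card Z).choose t) *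
    (JJ (extA A (r + (Fintype.card Z - t))) : ℤ) = (KK A : ℤ)

/-! ### Part E: perfect matchings -/

/-- `g` additional blocks `{e}` for every label `e` -/
def dumA {B L : Type} [DecidableEq L] (δ : B → Finset L) (g : ℕ) : B ⊕ (L × Fin g) → Finset L :=
  Sum.elim δ (fun p => {p.1})

/-- the types: multiplicities of the sets chosen by the blocks -/
noncomputable def types {B L : Type} [Fintype B] [Fintype L] [DecidableEq L]
    (δ : B → Finset L) : Finset (Finset L → ℕ) := by
  classical
  exact ((univ : Finset (B → Finset L)).filter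
    (fun σ => ∀ v, (σ v).Nonempty ∧ σ v ⊆ δ v)).image
      (fun σ X => (univ.filter (fun v => σ v = X)).card)

/-- the number of sets of the type which contain `e` -/
def kap {L : Type} [Fintype L] [DecidableEq L] (τ : Finset L → ℕ) (e : L) : ℕ :=
  ∑ X ∈ (univ : Finset (Finset L)).filter (fun X => e ∈ X), τ X

/-- MN: the number of functions with given sizes of the fibres -/
def S_MN : Prop := ∀ (Z X : Type) [Fintype Z] [Fintype X] (c : X → ℕ),
  ∑ x, c x = Fintype.card Z →
  Nat.card {f : Z → X // ∀ x, Nat.card {z : Z // f z = x} = c x} * ∏ x, (c x).factorial =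
    (Fintype.card Z).factorial

/-- E1 -/
def S_E1 : Prop := ∀ (B L : Type) [Fintype B] [Fintype L] [DecidableEq L] (δ : B → Finset L)
  (g : ℕ), (∀ e, (univ.filter (fun v => e ∈ δ v)).card = 2) →
  (KK (dumA δ g) : ℚ) = ((Fintype.card B + Fintype.card L * g).factorial : ℚ) *
    ∑ τ ∈ types δ, (∏ e : L, ((g + 2).factorial : ℚ) /
      (((g + τ {e}).factorial : ℚ) * ((2 - kap τ e).factorial : ℚ))) /
      ∏ X ∈ (univ : Finset (Finset L)).filter (fun X => 2 ≤ X.card), ((τ X).factorial : ℚ)

/-- E2: integral form -/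
def S_E2 : Prop := ∀ (B L : Type) [Fintype B] [Fintype L] [DecidableEq L] (δ : B → Finset L)
  (g : ℕ), (∀ e, (univ.filter (fun v => e ∈ δ v)).card = 2) →
  (∀ v v', v ≠ v' → (δ v ∩ δ v').card ≤ 1) →
  2 ^ Fintype.card L * KK (dumA δ g) = (Fintype.card B + Fintype.card L * g).factorial *
    ∑ τ ∈ types δ, (∏ e : L, if kap τ e = 0 then 1 else 2) *
      (g + 2) ^ ((univ : Finset L).filter (fun e => τ {e} ≤ 1)).card *
      (g + 1) ^ ((univ : Finset L).filter (fun e => τ {e} = 0)).card

/-- the number of perfect matchings: sets of labels which contain exactly one label of every block -/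
def PMs {B L : Type} [Fintype B] [Fintype L] [DecidableEq L] (δ : B → Finset L) : ℕ :=
  ((univ : Finset (Finset L)).filter (fun M => ∀ v, (M ∩ δ v).card = 1)).card

/-- E4: the types with the maximal number of labels of multiplicity two -/
def S_E4 : Prop := ∀ (B L : Type) [Fintype B] [Fintype L] [DecidableEq L] (δ : B → Finset L)
  (k : ℕ), Fintype.card B = 2 * k → (∀ e, (univ.filter (fun v => e ∈ δ v)).card = 2) →
  (∀ τ ∈ types δ, Fintype.card L ≤ ((univ : Finset L).filter (fun e => τ {e} ≤ 1)).card + k ∧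
    k ≤ Fintype.card L) ∧
  (∀ τ ∈ types δ, Fintype.card L = ((univ : Finset L).filter (fun e => τ {e} ≤ 1)).card + k →
    ((univ : Finset L).filter (fun e => kap τ e = 0)).card = Fintype.card L - k ∧
    ((univ : Finset L).filter (fun e => τ {e} = 0)).card = Fintype.card L - k) ∧
  ((types δ).filter (fun τ => Fintype.card L =
    ((univ : Finset L).filter (fun e => τ {e} ≤ 1)).card + k)).card = PMs δ

/-- Theorem E (all divisions are exact) -/
def S_E : Prop := ∀ (B L : Type) [Fintype B] [Fintype L] [DecidableEq L] (δ : B → Finset L)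
  (k : ℕ), Fintype.card B = 2 * k → (∀ e, (univ.filter (fun v => e ∈ δ v)).card = 2) →
  (∀ v v', v ≠ v' → (δ v ∩ δ v').card ≤ 1) →
  (2 : ℤ) ^ k * (PMs δ : ℤ) =
    ∑ s ∈ range (2 * Fintype.card L + k + 2 + 1),
      (-1 : ℤ) ^ s * ((2 * Fintype.card L + k + 2).choose s) *
      ((if s < 2 then 0 else (s - 1) ^ (Fintype.card L - k + 1) *
        (2 ^ Fintype.card L * KK (dumA δ (s - 2)) /
          ((2 * k + Fintype.card L * (s - 2)).factorial * s ^ (Fintype.card L - k))) : ℕ) : ℤ)

end Pool.Agent.H695R3.SF
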