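import Pool.Agent.H695R3.SF.Defs
import Pool.Agent.H549R2.NRed

/-!
# Counting unlabelled subforests of a tree: the problem, the reductions, membership
-/

namespace Pool.Agent.H695R3.SF

open Finset
open Pool.Agent.H549R2.Convex (F ent)
open Pool.Agent.NPC Pool.Agent.NPC.Cnt Pool.Agent.NPC.H549NRed

/-! ### The problem -/

/-- the inputs: a list of vertices and a list of edges -/
abbrev Inp : Type := List ℕ × List (ℕ × ℕ)

/-- the graph with the listed vertices and edges -/
def grI (T : Inp) : SimpleGraph {v : ℕ // v ∈ T.1} where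
  Adj u v := u ≠ v ∧ ((u.1, v.1) ∈ T.2 ∨ (v.1, u.1) ∈ T.2)
  symm := ⟨fun _ _ h => ⟨h.1.symm, h.2.symm⟩⟩
  loopless := ⟨fun _ h => h.1 rfl⟩

/-- the input describes a tree -/
def TreeI (T : Inp) : Prop :=
  T.1.Nodup ∧ (∀ p ∈ T.2, p.1 ∈ T.1 ∧ p.2 ∈ T.1 ∧ p.1 ≠ p.2) ∧ (grI T).IsTree

open Classical in
/-- **#SUBFORESTS**: the number of isomorphism classes of subforests of a tree, `0` for inputs which
are not trees -/
noncomputable def numSub (T : Inp) : ℕ := if TreeI T then cls (grI T) else 0

/-! ### The instances of the reduction -/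

/-- 0-1 matrices -/
abbrev LL : Type := List (List Bool)

/-- numbers in unary -/
abbrev Un : Type := List Unit

/-- the ones of the matrix -/
abbrev Lb (A : LL) : Type := {p : Fin A.length × Fin A.length // ent A p.1 p.2 = true}

/-- the blocks: rows and columns, with the ones they contain -/
def blk (A : LL) : Fin A.length ⊕ Fin A.length → Finset (Lb A) :=
  Sum.elim (fun i => univ.filter (fun e => e.1.1 = i)) (fun j => univ.filter (fun e => e.1.2 = j))

/-- the number of a one -/
def labA (A : LL) (e : Lb A) : ℕ := e.1.1.val * A.length + e.1.2.val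

/-- blocks of the instance `(A, g, r)` -/
abbrev ZA (a : (LL × Un) × Un) : Type :=
  ((Fin a.1.1.length ⊕ Fin a.1.1.length) ⊕ (Lb a.1.1 × Fin a.1.2.length)) ⊕ Fin (a.2.length + 1)

/-- the family of the instance `(A, g, r)` -/
def famA (a : (LL × Un) × Un) : ZA a → Finset (Lb a.1.1) :=
  extA (dumA (blk a.1.1) a.1.2.length) (a.2.length + 1)

/-- internal vertices of the core -/
abbrev QA (a : (LL × Un) × Un) : Type := QQ (famA a)

/-- the vertices of the core different from the root -/
abbrev WA (a : (LL × Un) × Un) : Type :=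
  QA a ⊕ (Σ q : QA a, Fin (lsD (famA a) (labA a.1.1) q))

/-- the core -/
def coreA (a : (LL × Un) × Un) : SimpleGraph (Option (WA a)) :=
  star (DD (famA a)) (lsD (famA a) (labA a.1.1))

/-- `(A, g)` -/
noncomputable def fK (a : LL × Un) : ℕ := KK (dumA (blk a.1) a.2.length)

/-- `(A, g, r)` -/
noncomputable def fJ (a : (LL × Un) × Un) : ℕ := JJ (famA a)

/-- `(A, g, r)` -/
noncomputable def fN (a : (LL × Un) × Un) : ℕ := NN (coreA a)

/-- `(A, g, r, R)` -/
noncomputable def fL (a : ((LL × Un) × Un) × Un) : ℕ := lam (res (coreA a.1) a.2.length)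

/-- the graph of the instance `(A, g, r, R, x)` -/
def grT (a : (((LL × Un) × Un) × Un) × Un) :
    SimpleGraph (Option (WA a.1.1 ⊕ Fin a.1.2.length) ⊕
      Option (WA a.1.1 ⊕ Fin a.1.2.length) × Fin a.2.length) :=
  leafy (res (coreA a.1.1) a.1.2.length) a.2.length

/-- `(A, g, r, R, x)` -/
noncomputable def fU (a : (((LL × Un) × Un) × Un) × Un) : ℕ := cls (grT a)

/-- the number of ones of the square matrix -/
def onesN (A : LL) : ℕ :=
  ((List.range A.length).flatMap (fun i => (List.range A.length).filter (fun j => ent A i j))).length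

/-- the sum of the numbers of pendant vertices `3 + lab e` over the ones -/
def sumLab (A : LL) : ℕ :=
  ((List.range A.length).flatMap (fun i => ((List.range A.length).filter (fun j => ent A i j)).map
    (fun j => 3 + (i * A.length + j)))).sum

/-- the number of blocks -/
def zN (a : (LL × Un) × Un) : ℕ :=
  2 * a.1.1.length + onesN a.1.1 * a.1.2.length + (a.2.length + 1)

/-- the number of vertices of the core different from the root -/
def wN (a : (LL × Un) × Un) : ℕ :=
  3 * zN a + onesN a.1.1 * (a.1.2.length + 2) + (a.1.2.length + 2) * sumLab a.1.1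

/-- cardinalities -/
def S_CARD : Prop :=
  (∀ A : LL, Fintype.card (Lb A) = onesN A) ∧
  (∀ A : LL, ∑ e : Lb A, (3 + labA A e) = sumLab A) ∧
  (∀ A : LL, Function.Injective (labA A)) ∧
  (∀ a : (LL × Un) × Un, Fintype.card (ZA a) = zN a) ∧
  (∀ a : (LL × Un) × Un, Fintype.card (WA a) = wN a) ∧
  (∀ A : LL, ∀ e : Lb A, (univ.filter (fun v => e ∈ blk A v)).card = 2) ∧
  (∀ A : LL, ∀ v v', v ≠ v' → (blk A v ∩ blk A v').card ≤ 1) ∧
  (∀ a : (LL × Un) × Un, ∀ e : Lb a.1.1,
    Nat.card {z : ZA a // e ∈ famA a z} = a.1.2.length + 2)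

/-- E3: the permanent counts the perfect matchings -/
def S_E3 : Prop := ∀ A : LL, (∀ r ∈ A, r.length = A.length) → F A = PMs (blk A)

/-- the sum of the positive terms minus the sum of the negative terms; a term is
`(sign, (multiplier, premultiplier, divisor), query)` and has the value
`± multiplier * ((premultiplier * f query) / divisor)` -/
def tval {β : Type} (f : β → ℕ) (t : (Bool × ℕ × ℕ × ℕ) × β) : ℤ :=
  (if t.1.1 then 1 else -1) *
    ((t.1.2.1 * ((t.1.2.2.1 * f t.2) / t.1.2.2.2) : ℕ) : ℤ)

/-- TOOL: a reduction by a signed sum -/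
def S_TOOL : Prop := ∀ (α β : Type) [TEnc α] [TEnc β] (D : α → Prop) (h : α → ℕ) (S : β → Prop)
  (f : β → ℕ) (tm : α → List ((Bool × ℕ × ℕ × ℕ) × β)) (den : α → ℕ), Poly tm → Poly den →
  (∀ a, D a → ∀ t ∈ tm a, S t.2) → (∀ a, D a → 0 < den a) →
  (∀ a, D a → (den a : ℤ) * (h a : ℤ) = ((tm a).map (tval f)).sum) → NRed D h S f

/-- SE -/
def S_SE : Prop := NRed (fun _ : LL => True) F (fun _ : LL × Un => True) fK

/-- SD -/
def S_SD : Prop := NRed (fun _ : LL × Un => True) fK (fun _ : (LL × Un) × Un => True) fJ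

/-- SC -/
def S_SC : Prop := NRed (fun _ : (LL × Un) × Un => True) fJ (fun _ : (LL × Un) × Un => True) fN

/-- SB -/
def S_SB : Prop :=
  NRed (fun _ : (LL × Un) × Un => True) fN (fun _ : ((LL × Un) × Un) × Un => True) fL

/-- SA -/
def S_SA : Prop :=
  NRed (fun _ : ((LL × Un) × Un) × Un => True) fL
    (fun _ : (((LL × Un) × Un) × Un) × Un => True) fU

/-- S0 -/
def S_S0 : Prop :=
  NRed (fun _ : (((LL × Un) × Un) × Un) × Un => True) fU (fun _ : Inp => True) numSub

/-- the size of the value -/
def S_SZ : Prop := ∃ r : Polynomial ℕ, ∀ T : Inp, (numSub T).size ≤ r.eval (sz T)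

/-! ### The concrete tree -/

/-- the ones, as a list of pairs (row, column) -/
def onesL (A : LL) : List (ℕ × ℕ) :=
  (List.range A.length).flatMap (fun i =>
    ((List.range A.length).filter (fun j => ent A i j)).map (fun j => (i, j)))

/-- the blocks: name and list of labels -/
def zL (a : (LL × Un) × Un) : List (ℕ × List ℕ) :=
  (List.range a.1.1.length).map (fun i => (Nat.pair 0 (Nat.pair 0 i),
    ((onesL a.1.1).filter (fun e => decide (e.1 = i))).map
      (fun e => e.1 * a.1.1.length + e.2))) ++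
  (List.range a.1.1.length).map (fun j => (Nat.pair 0 (Nat.pair 1 j),
    ((onesL a.1.1).filter (fun e => decide (e.2 = j))).map
      (fun e => e.1 * a.1.1.length + e.2))) ++
  (onesL a.1.1).flatMap (fun e => (List.range a.1.2.length).map (fun t =>
    (Nat.pair 1 (Nat.pair (e.1 * a.1.1.length + e.2) t), [e.1 * a.1.1.length + e.2]))) ++
  (List.range (a.2.length + 1)).map (fun s => (Nat.pair 2 s, []))

/-- the internal vertices: name, name of the parent in `Option Q`, number of pendant vertices -/
def qL (a : (LL × Un) × Un) : List (ℕ × ℕ × ℕ) :=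
  (zL a).map (fun z => (Nat.pair 0 z.1, 0, 2)) ++
  (zL a).flatMap (fun z => z.2.map (fun l =>
    (Nat.pair 1 (Nat.pair z.1 l), Nat.pair 1 (Nat.pair 0 (Nat.pair 0 (Nat.pair 0 z.1))), 3 + l)))

/-- the vertices of the core different from the root: name and name of the parent in `Option W`
(the name of `some w` is `pair 1 (pair 0 (name w))`, the name of the root is `0`) -/
def wL (a : (LL × Un) × Un) : List (ℕ × ℕ) :=
  (qL a).map (fun q => (Nat.pair 1 (Nat.pair 0 (Nat.pair 0 q.1)), q.2.1)) ++
  (qL a).flatMap (fun q => (List.range q.2.2).map (fun i =>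
    (Nat.pair 1 (Nat.pair 0 (Nat.pair 1 (Nat.pair q.1 i))),
      Nat.pair 1 (Nat.pair 0 (Nat.pair 0 q.1)))))

/-- the vertices of the graph with the reservoir different from the root: name, name of the parent -/
def rL (a : ((LL × Un) × Un) × Un) : List (ℕ × ℕ) :=
  wL a.1 ++ (List.range a.2.length).map (fun i => (Nat.pair 1 (Nat.pair 1 i), 0))

/-- names of the vertices of the graph with the reservoir -/
def vL (a : ((LL × Un) × Un) × Un) : List ℕ := 0 :: (rL a).map Prod.fst

/-- the tree of the instance `(A, g, r, R, x)` -/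
def treeL (a : (((LL × Un) × Un) × Un) × Un) : Inp :=
  ((vL a.1).map (fun v => Nat.pair 0 v) ++
    (vL a.1).flatMap (fun v => (List.range a.2.length).map (fun i => Nat.pair 1 (Nat.pair v i))),
   (rL a.1).map (fun p => (Nat.pair 0 p.1, Nat.pair 0 p.2)) ++
    (vL a.1).flatMap (fun v => (List.range a.2.length).map (fun i =>
      (Nat.pair 1 (Nat.pair v i), Nat.pair 0 v))))

/-- names of the blocks -/
def cZ (a : (LL × Un) × Un) : ZA a → ℕ
  | Sum.inl (Sum.inl (Sum.inl i)) => Nat.pair 0 (Nat.pair 0 i.val)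
  | Sum.inl (Sum.inl (Sum.inr j)) => Nat.pair 0 (Nat.pair 1 j.val)
  | Sum.inl (Sum.inr (e, t)) => Nat.pair 1 (Nat.pair (labA a.1.1 e) t.val)
  | Sum.inr s => Nat.pair 2 s.val

/-- names of the internal vertices -/
def cQ (a : (LL × Un) × Un) : QA a → ℕ
  | Sum.inl z => Nat.pair 0 (cZ a z)
  | Sum.inr p => Nat.pair 1 (Nat.pair (cZ a p.1) (labA a.1.1 p.2.1))

/-- names of the vertices of the core -/
def cW (a : (LL × Un) × Un) : WA a → ℕ
  | Sum.inl q => Nat.pair 0 (cQ a q)
  | Sum.inr p => Nat.pair 1 (Nat.pair (cQ a p.1) p.2.val)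

/-- names of the vertices of the graph with the reservoir -/
def cO (a : ((LL × Un) × Un) × Un) : Option (WA a.1 ⊕ Fin a.2.length) → ℕ
  | none => 0
  | some (Sum.inl w) => Nat.pair 1 (Nat.pair 0 (cW a.1 w))
  | some (Sum.inr i) => Nat.pair 1 (Nat.pair 1 i.val)

/-- the vertices of the tree -/
abbrev VT (a : (((LL × Un) × Un) × Un) × Un) : Type :=
  Option (WA a.1.1 ⊕ Fin a.1.2.length) ⊕ Option (WA a.1.1 ⊕ Fin a.1.2.length) × Fin a.2.length

/-- names of the vertices of the tree -/
def cT (a : (((LL × Un) × Un) × Un) × Un) : VT a → ℕ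
  | Sum.inl v => Nat.pair 0 (cO a.1 v)
  | Sum.inr p => Nat.pair 1 (Nat.pair (cO a.1 p.1) p.2.val)

/-- the parent in the graph with the reservoir -/
def parO (a : ((LL × Un) × Un) × Un) : Option (WA a.1 ⊕ Fin a.2.length) →
    Option (Option (WA a.1 ⊕ Fin a.2.length))
  | none => none
  | some (Sum.inr _) => some none
  | some (Sum.inl (Sum.inl (Sum.inl _))) => some none
  | some (Sum.inl (Sum.inl (Sum.inr p))) => some (some (Sum.inl (Sum.inl (Sum.inl p.1))))
  | some (Sum.inl (Sum.inr p)) => some (some (Sum.inl (Sum.inl p.1)))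

/-- the parent in the tree -/
def parT (a : (((LL × Un) × Un) × Un) × Un) : VT a → Option (VT a)
  | Sum.inl v => (parO a.1 v).map Sum.inl
  | Sum.inr p => some (Sum.inl p.1)

/-- T1 -/
def S_T1 : Prop := Poly treeL

/-- T2: names -/
def S_T2 : Prop := ∀ a, Function.Injective (cT a) ∧ (treeL a).1.Nodup ∧
  ∀ n, n ∈ (treeL a).1 ↔ ∃ v, cT a v = n

/-- T3: edges -/
def S_T3 : Prop := ∀ a, ∀ p, p ∈ (treeL a).2 ↔
  ∃ u v, parT a u = some v ∧ p = (cT a u, cT a v)

/-- T4: adjacency -/
def S_T4 : Prop := ∀ a u v, (grT a).Adj u v ↔ parT a u = some v ∨ parT a v = some u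

/-- T5: graphs given by parents are trees -/
def S_T5 : Prop := ∀ (V : Type) [Fintype V] (G : SimpleGraph V) (par : V → Option V) (rk : V → ℕ)
  (r : V), par r = none → (∀ v, v ≠ r → ∃ u, par v = some u ∧ rk u < rk v) →
  (∀ u v, G.Adj u v ↔ par u = some v ∨ par v = some u) → G.IsTree

/-- T6: isomorphic graphs -/
def S_T6 : Prop := ∀ (V V' : Type) (G : SimpleGraph V) (G' : SimpleGraph V'),
  Nonempty (G ≃g G') → cls G = cls G'

/-! ### Membership: `#·NP` is contained in `FP^#P` -/

/-- M1: the isolation lemma, parity version -/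
def S_M1 : Prop := ∀ (p s : ℕ) (X : Finset (Fin p → Bool)), X.Nonempty → 2 * p ≤ 2 ^ s →
  2 * Nat.card {W : Fin p → Fin (2 ^ s) // ∀ t ≤ p * 2 ^ s,
    Even (X.filter (fun w => ∑ i, (if w i = true then (W i).val else 0) = t)).card} ≤
    (2 ^ s) ^ p

/-- M2 -/
def S_M2 : Prop := ∀ m c : ℕ, 1 ≤ m →
  (1 + (2 ^ m - 1) * c ^ m) ^ m ≡ (if Even c then 1 else 0) [MOD 2 ^ m]

/-- the weight of a string -/
def wsum (ρ : List ℕ) (w : List Bool) : ℕ :=
  ((ρ.zip w).map (fun x => if x.2 then x.1 else 0)).sum

/-- the number of witnesses of weight `t` -/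
noncomputable def cnt (p : ℕ) (P : List Bool → Bool) (ρ : List ℕ) (t : ℕ) : ℕ :=
  Nat.card {w : List Bool // w.length = p ∧ P w = true ∧ wsum ρ w = t}

/-- the lists of weights -/
def IsW (p s : ℕ) (ρ : List ℕ) : Prop := ρ.length = p ∧ ∀ x ∈ ρ, x < 2 ^ s

/-- the random strings: `T` lists of weights -/
def IsR (p s T : ℕ) (r : List (List ℕ)) : Prop := r.length = T ∧ ∀ ρ ∈ r, IsW p s ρ

/-- the value of the counting function -/
noncomputable def GG (q p s T m : ℕ) (P : List Bool → List Bool → Bool) : ℕ :=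
  ∑ᶠ x ∈ {x : List Bool × List (List ℕ) | x.1.length = q ∧ IsR p s T x.2},
    (x.2.map (fun ρ => ((List.range (p * 2 ^ s + 1)).map (fun t =>
      (1 + (2 ^ m - 1) * cnt p (P x.1) ρ t ^ m) ^ m)).prod)).prod

/-- M3 -/
def S_M3 : Prop := ∀ (q p s : ℕ) (P : List Bool → List Bool → Bool), 2 * p ≤ 2 ^ s →
  GG q p s (q + 2) (q + (q + 2) * p * s + 1) P % 2 ^ (q + (q + 2) * p * s + 1) /
      2 ^ ((q + 2) * p * s) +
    Nat.card {y : List Bool // y.length = q ∧ ∃ w : List Bool, w.length = p ∧ P y w = true} =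
  2 ^ q

/-- a certificate: `y`, the random weights, and for every list of weights `ρ` and every `t` a list
of `m` pairs of a number `u < 2 ^ m` and a list of `m` witnesses (of weight `t`), where the
witnesses are strings of zeros if `u = 0` -/
abbrev Cert : Type := (List Bool × List (List ℕ)) × List (List (List (ℕ × List (List Bool))))

/-- the certificate is correct -/
def okC (q p s T m : ℕ) (P : List Bool → List Bool → Bool) (c : Cert) : Bool :=
  decide (c.1.1.length = q) && decide (c.1.2.length = T) &&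
  c.1.2.all (fun ρ => decide (ρ.length = p) && ρ.all (fun x => decide (x < 2 ^ s))) &&
  decide (c.2.length = T) &&
  (c.1.2.zip c.2).all (fun z => decide (z.2.length = p * 2 ^ s + 1) &&
    ((List.range (p * 2 ^ s + 1)).zip z.2).all (fun tz => decide (tz.2.length = m) &&
      tz.2.all (fun uw => decide (uw.1 < 2 ^ m) && decide (uw.2.length = m) &&
        uw.2.all (fun w => decide (w.length = p) &&
          (if uw.1 = 0 then w.all (fun b => !b)
            else P c.1.1 w && decide (wsum z.1 w = tz.1))))))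

/-- M4 -/
def S_M4 : Prop := ∀ (q p s T m : ℕ) (P : List Bool → List Bool → Bool), 1 ≤ m →
  Nat.card {c : Cert // okC q p s T m P c = true} = GG q p s T m P

/-- M5: the generic theorem -/
def S_M5 : Prop := ∀ (α : Type) [TEnc α] [TDec α] (R : α × List Bool × List Bool → Bool)
  (q p : α → ℕ) (post : α × ℕ → ℕ) (f : α → ℕ), Poly R → UPoly q → UPoly p → Poly post →
  (∀ a, f a = post (a, Nat.card {y : List Bool // y.length = q a ∧
    ∃ w : List Bool, w.length = p a ∧ R (a, y, w) = true})) → InFPSharpP (strFn f)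

/-! ### Membership of `#SUBFORESTS` -/

/-- M6: orbit counting -/
def S_M6 : Prop := ∀ (n : ℕ) (G : SimpleGraph (Fin n)), cls G * n.factorial =
  Nat.card {p : SimpleGraph (Fin n) × Equiv.Perm (Fin n) // Emb p.1 G ∧
    ∀ u v, p.1.Adj u v ↔ p.1.Adj (p.2 u) (p.2 v)}

/-- entry `(i, j)` of the matrix which is stored in `l` starting from position `o * n * n` -/
def bt (n : ℕ) (l : List Bool) (o i j : ℕ) : Bool := l.getD (o * n * n + i * n + j) false

/-- the matrix is a permutation matrix -/
def isPM (n : ℕ) (l : List Bool) (o : ℕ) : Bool :=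
  (List.range n).all (fun i =>
    decide (((List.range n).filter (fun j => bt n l o i j)).length = 1) &&
    decide (((List.range n).filter (fun j => bt n l o j i)).length = 1))

/-- the matrix is the adjacency matrix of a graph -/
def isGr (n : ℕ) (l : List Bool) (o : ℕ) : Bool :=
  (List.range n).all (fun i => !bt n l o i i &&
    (List.range n).all (fun j => bt n l o i j == bt n l o j i))

/-- adjacency of the positions `i`, `j` -/
def adI (T : Inp) (i j : ℕ) : Bool :=
  !decide (i = j) && (decide ((T.1.getD i 0, T.1.getD j 0) ∈ T.2) ||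
    decide ((T.1.getD j 0, T.1.getD i 0) ∈ T.2))

/-- the permutation `1` of `y` is an automorphism of the graph `0` of `y` -/
def autI (n : ℕ) (y : List Bool) : Bool :=
  (List.range n).all (fun i => (List.range n).all (fun j => (List.range n).all (fun i' =>
    (List.range n).all (fun j' =>
      !(bt n y 1 i i' && bt n y 1 j j') || (bt n y 0 i j == bt n y 0 i' j')))))

/-- the permutation `0` of `w` maps the graph `0` of `y` into `T` -/
def embI (T : Inp) (n : ℕ) (y w : List Bool) : Bool :=
  (List.range n).all (fun i => (List.range n).all (fun j => (List.range n).all (fun i' =>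
    (List.range n).all (fun j' =>
      !(bt n w 0 i i' && bt n w 0 j j' && bt n y 0 i j) || adI T i' j'))))

/-- the first part of the test that `T` is a tree -/
def tr1I (T : Inp) : Bool :=
  decide (1 ≤ T.1.length) &&
  (List.range T.1.length).all (fun i => (List.range T.1.length).all (fun j =>
    decide (i = j) || !decide (T.1.getD i 0 = T.1.getD j 0))) &&
  T.2.all (fun p => decide (p.1 ∈ T.1) && decide (p.2 ∈ T.1) && !decide (p.1 = p.2)) &&
  decide (((List.range T.1.length).flatMap (fun i => (List.range i).filter (fun j =>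
    adI T i j))).length + 1 = T.1.length)

/-- the second part: the matrix `1` of `w` contains ranks which certify that `T` is connected -/
def tr2I (T : Inp) (n : ℕ) (w : List Bool) : Bool :=
  (List.range n).all (fun i => decide (i = 0) || (List.range n).any (fun j => adI T i j &&
    (List.range n).any (fun a => (List.range a).any (fun b => bt n w 1 i a && bt n w 1 j b)))) &&
  (List.range n).all (fun i =>
    decide (((List.range n).filter (fun a => bt n w 1 i a)).length = 1))

/-- the relation -/
def RelI (x : Inp × List Bool × List Bool) : Bool :=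
  tr1I x.1 && tr2I x.1 x.1.1.length x.2.2 && isGr x.1.1.length x.2.1 0 &&
  isPM x.1.1.length x.2.1 1 && autI x.1.1.length x.2.1 && isPM x.1.1.length x.2.2 0 &&
  embI x.1 x.1.1.length x.2.1 x.2.2

/-- M7 -/
def S_M7 : Prop := Poly RelI

/-- M8: the tree test -/
def S_M8 : Prop := ∀ T : Inp, TreeI T ↔ tr1I T = true ∧
  ∃ w : List Bool, w.length = 2 * T.1.length * T.1.length ∧ tr2I T T.1.length w = true

/-- the graph on the positions -/
def grP (T : Inp) : SimpleGraph (Fin T.1.length) where
  Adj i j := adI T i j = true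
  symm := ⟨fun i j h => by
    simp only [adI, Bool.and_eq_true, Bool.or_eq_true, Bool.not_eq_true', decide_eq_false_iff_not,
      decide_eq_true_eq] at h ⊢
    exact ⟨fun h' => h.1 h'.symm, h.2.symm⟩⟩
  loopless := ⟨fun i h => by simp [adI] at h⟩

/-- M9: the graph on the positions -/
def S_M9 : Prop := ∀ T : Inp, T.1.Nodup → Nonempty (grI T ≃g grP T)

/-- M10: the number of `y` -/
def S_M10 : Prop := ∀ T : Inp, TreeI T →
  Nat.card {y : List Bool // y.length = 2 * T.1.length * T.1.length ∧
    ∃ w : List Bool, w.length = 2 * T.1.length * T.1.length ∧ RelI (T, y, w) = true} =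
  Nat.card {p : SimpleGraph (Fin T.1.length) × Equiv.Perm (Fin T.1.length) //
    Emb p.1 (grP T) ∧ ∀ u v, p.1.Adj u v ↔ p.1.Adj (p.2 u) (p.2 v)}

end Pool.Agent.H695R3.SF
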