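import Mathlib
import Pool.Agent.H695R3.SF.Defs

namespace Pool.Agent.H695R3.SF

open Finset Polynomial

namespace E_ns

/-- alternating sum of a polynomial of small degree -/
theorem alt_sum (P : ℤ[X]) (N : ℕ) (hP : P.natDegree < N) :
    ∑ s ∈ range (N + 1), (-1 : ℤ) ^ s * (N.choose s) * P.eval (s : ℤ) = 0 := by
  have h1 := Polynomial.fwdDiff_iter_eq_zero_of_degree_lt hP
  have h2 := congrFun h1 0
  rw [fwdDiff_iter_eq_sum_shift] at h2
  simp only [Pi.zero_apply, smul_eq_mul, zero_add, nsmul_eq_mul, mul_one] at h2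
  have h3 : ∑ s ∈ range (N + 1), (-1 : ℤ) ^ s * (N.choose s) * P.eval (s : ℤ)
      = (-1 : ℤ) ^ N * ∑ s ∈ range (N + 1), ((-1 : ℤ) ^ (N - s) * (N.choose s)) * P.eval (s : ℤ) := by
    rw [Finset.mul_sum]
    refine Finset.sum_congr rfl fun s hs => ?_
    have hs' : s ≤ N := Nat.lt_succ_iff.1 (Finset.mem_range.1 hs)
    have h4 : (-1 : ℤ) ^ N * (-1 : ℤ) ^ (N - s) = (-1) ^ s := by
      have h5 : N = s + (N - s) := by omega
      conv_lhs => rw [h5]
      rw [pow_add, Nat.add_sub_cancel_left, mul_assoc, ← pow_add, ← two_mul, pow_mul]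
      simp
    rw [← h4]
    ring
  rw [h3, h2, mul_zero]

end E_ns

theorem E (h2 : S_E2) (h4 : S_E4) : S_E := by
  intro B L _ _ _ δ k hB hδ hδ'
  obtain ⟨h4a, h4b, h4c⟩ := h4 B L δ k hB hδ
  have h2' := fun g => h2 B L δ g hδ hδ'
  set Lc := Fintype.card L with hLc
  -- notation
  let u : (Finset L → ℕ) → ℕ := fun τ => ((univ : Finset L).filter (fun e => τ {e} ≤ 1)).card
  let v : (Finset L → ℕ) → ℕ := fun τ => ((univ : Finset L).filter (fun e => τ {e} = 0)).card
  let c : (Finset L → ℕ) → ℕ := fun τ => ∏ e : L, if kap τ e = 0 then 1 else 2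
  set q := Lc - k with hq
  have hu : ∀ τ ∈ types δ, q ≤ u τ := fun τ hτ => by
    have := (h4a τ hτ).1
    change Lc ≤ u τ + k at this
    omega
  let P : ℤ[X] := (X - 1) ^ (q + 1) *
    ∑ τ ∈ types δ, C ((c τ : ℤ)) * (X ^ (u τ - q) * (X - 1) ^ (v τ))
  have hPdeg : P.natDegree < 2 * Lc + k + 2 := by
    have h1 : ((X - 1 : ℤ[X]) ^ (q + 1)).natDegree ≤ q + 1 := by
      refine (Polynomial.natDegree_pow_le).trans ?_
      have : (X - 1 : ℤ[X]).natDegree ≤ 1 := by
        rw [← C_1]; exact (natDegree_X_sub_C (1 : ℤ)).le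
      nlinarith
    have h2 : (∑ τ ∈ types δ, C ((c τ : ℤ)) * (X ^ (u τ - q) * (X - 1) ^ (v τ))).natDegree
        ≤ (Lc - q) + Lc := by
      refine Polynomial.natDegree_sum_le_of_forall_le _ _ fun τ hτ => ?_
      refine (Polynomial.natDegree_C_mul_le _ _).trans ?_
      refine (Polynomial.natDegree_mul_le).trans ?_
      have hu' : u τ ≤ Lc := by
        change Finset.card _ ≤ _
        rw [hLc, ← Finset.card_univ]
        exact Finset.card_le_card (Finset.filter_subset _ _)
      have hv' : v τ ≤ Lc := by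
        change Finset.card _ ≤ _
        rw [hLc, ← Finset.card_univ]
        exact Finset.card_le_card (Finset.filter_subset _ _)
      have h3 : ((X : ℤ[X]) ^ (u τ - q)).natDegree ≤ Lc - q := by
        rw [natDegree_X_pow]; omega
      have h5 : ((X - 1 : ℤ[X]) ^ (v τ)).natDegree ≤ Lc := by
        refine (Polynomial.natDegree_pow_le).trans ?_
        have : (X - 1 : ℤ[X]).natDegree ≤ 1 := by
          rw [← C_1]; exact (natDegree_X_sub_C (1 : ℤ)).le
        nlinarith
      omega
    have h3 := Polynomial.natDegree_mul_le (p := (X - 1 : ℤ[X]) ^ (q + 1))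
      (q := ∑ τ ∈ types δ, C ((c τ : ℤ)) * (X ^ (u τ - q) * (X - 1) ^ (v τ)))
    have h6 : P.natDegree ≤ (q + 1) + ((Lc - q) + Lc) := h3.trans (add_le_add h1 h2)
    omega
  have halt := E_ns.alt_sum P (2 * Lc + k + 2) hPdeg
  -- the value of the terms
  have hval : ∀ s : ℕ, 2 ≤ s →
      (((s - 1) ^ (q + 1) * (2 ^ Lc * KK (dumA δ (s - 2)) /
          ((2 * k + Lc * (s - 2)).factorial * s ^ q)) : ℕ) : ℤ) = P.eval (s : ℤ) := by
    intro s hs
    have h5 := h2' (s - 2)
    have hs2 : s - 2 + 2 = s := by omega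
    have hs1 : s - 2 + 1 = s - 1 := by omega
    rw [hB, hs2, hs1] at h5
    have h6 : ∑ τ ∈ types δ, (∏ e : L, if kap τ e = 0 then 1 else 2) *
        s ^ ((univ : Finset L).filter (fun e => τ {e} ≤ 1)).card *
        (s - 1) ^ ((univ : Finset L).filter (fun e => τ {e} = 0)).card
        = s ^ q * ∑ τ ∈ types δ, c τ * (s ^ (u τ - q) * (s - 1) ^ (v τ)) := by
      rw [Finset.mul_sum]
      refine Finset.sum_congr rfl fun τ hτ => ?_
      have h7 : s ^ (u τ) = s ^ q * s ^ (u τ - q) := by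
        rw [← pow_add]; congr 1; have := hu τ hτ; omega
      change c τ * s ^ (u τ) * (s - 1) ^ (v τ) = _
      rw [h7]; ring
    rw [h6] at h5
    have h7 : 2 ^ Lc * KK (dumA δ (s - 2)) / ((2 * k + Lc * (s - 2)).factorial * s ^ q)
        = ∑ τ ∈ types δ, c τ * (s ^ (u τ - q) * (s - 1) ^ (v τ)) := by
      rw [h5, ← mul_assoc]
      apply Nat.mul_div_cancel_left
      exact Nat.mul_pos (Nat.factorial_pos _) (Nat.pow_pos (by omega))
    rw [h7]
    simp only [P, eval_mul, eval_pow, eval_sub, eval_X, eval_one, eval_finsetSum, eval_C]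
    push_cast [Nat.cast_sub (show 1 ≤ s by omega)]
    ring
  have hP1 : P.eval 1 = 0 := by
    simp [P]
  have hP0 : P.eval 0 = -(2 : ℤ) ^ k * (PMs δ : ℤ) := by
    have hterm : ∀ τ ∈ types δ, (c τ : ℤ) * ((0 : ℤ) ^ (u τ - q) * (-1) ^ (v τ))
        = if Lc = u τ + k then (2 : ℤ) ^ k * (-1) ^ q else 0 := by
      intro τ hτ
      have hk : k ≤ Lc := (h4a τ hτ).2
      have hu' := hu τ hτ
      by_cases h : Lc = u τ + k
      · rw [if_pos h]
        obtain ⟨ha, hb⟩ := h4b τ hτ h
        have hv : v τ = q := hb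
        have huq : u τ - q = 0 := by omega
        have hc : c τ = 2 ^ k := by
          change (∏ e : L, if kap τ e = 0 then 1 else 2) = 2 ^ k
          rw [Finset.prod_ite, Finset.prod_const_one, one_mul, Finset.prod_const]
          congr 1
          have h8 := Finset.card_filter_add_card_filter_not (s := (univ : Finset L))
            (fun e => kap τ e = 0)
          rw [ha, Finset.card_univ, ← hLc] at h8
          omega
        rw [hv, huq, hc]
        push_cast
        ring
      · rw [if_neg h]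
        have huq : u τ - q ≠ 0 := by omega
        rw [zero_pow huq]
        ring
    have hev : P.eval 0 = (0 - 1) ^ (q + 1) *
        ∑ τ ∈ types δ, (c τ : ℤ) * ((0 : ℤ) ^ (u τ - q) * (-1) ^ (v τ)) := by
      simp only [P, eval_mul, eval_pow, eval_sub, eval_X, eval_one, eval_finsetSum, eval_C,
        zero_sub]
    rw [hev, Finset.sum_congr rfl hterm, ← Finset.sum_filter, Finset.sum_const, ← h4c,
      nsmul_eq_mul, zero_sub, pow_succ]
    have h9 : ((-1 : ℤ) ^ q) * (-1) ^ q = 1 := by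
      rw [← pow_add, ← two_mul, pow_mul]; simp
    linear_combination (-(2 : ℤ) ^ k * (((types δ).filter (fun τ => Lc = u τ + k)).card : ℤ)) * h9
  have hsum : ∑ s ∈ range (2 * Lc + k + 2 + 1),
      (-1 : ℤ) ^ s * ((2 * Lc + k + 2).choose s) *
      ((if s < 2 then 0 else (s - 1) ^ (q + 1) *
        (2 ^ Lc * KK (dumA δ (s - 2)) /
          ((2 * k + Lc * (s - 2)).factorial * s ^ q)) : ℕ) : ℤ)
      = ∑ s ∈ range (2 * Lc + k + 2 + 1), ((-1 : ℤ) ^ s * ((2 * Lc + k + 2).choose s) *
        P.eval (s : ℤ)) - P.eval 0 := by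
    rw [Finset.sum_range_succ' (fun s => (-1 : ℤ) ^ s * ((2 * Lc + k + 2).choose s) *
      ((if s < 2 then 0 else (s - 1) ^ (q + 1) *
        (2 ^ Lc * KK (dumA δ (s - 2)) /
          ((2 * k + Lc * (s - 2)).factorial * s ^ q)) : ℕ) : ℤ)),
      Finset.sum_range_succ' (fun s => (-1 : ℤ) ^ s * ((2 * Lc + k + 2).choose s) *
        P.eval (s : ℤ))]
    have h0 : (-1 : ℤ) ^ 0 * ((2 * Lc + k + 2).choose 0) * P.eval ((0 : ℕ) : ℤ) = P.eval 0 := by
      simp
    rw [h0]
    simp only [pow_zero, one_mul, Nat.choose_zero_right, Nat.cast_one, Nat.ofNat_pos, if_true,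
      Nat.cast_zero, add_zero, add_sub_cancel_right]
    refine Finset.sum_congr rfl fun s _ => ?_
    congr 1
    rcases Nat.lt_or_ge (s + 1) 2 with h | h
    · have : s = 0 := by omega
      subst this
      simp only [zero_add, Nat.cast_one, Nat.one_lt_ofNat, if_true, Nat.cast_zero]
      exact hP1.symm
    · rw [if_neg (by omega)]
      exact hval (s + 1) h
  rw [hsum, halt, hP0]
  ring

end Pool.Agent.H695R3.SF
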