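import Pool.Agent.H695R3.SF.Defs

/-!
# E1: the weighted number of realised families with dummy blocks (helper204)
-/

set_option autoImplicit false

namespace Pool.Agent.H695R3.SF

open Finset

namespace E1_ns

/-- multiplicities -/
noncomputable def mult {Z X : Type} (S : Z → X) (x : X) : ℕ := Nat.card {z : Z // S z = x}

theorem mult_comp {Z Z' X : Type} (S : Z → X) (β : Z' ≃ Z) (x : X) :
    mult (fun z => S (β z)) x = mult S x :=
  Nat.card_congr (β.subtypeEquiv (fun _ => Iff.rfl))

theorem exists_perm {Z X : Type} [Fintype Z] (S S' : Z → X) (h : ∀ x, mult S x = mult S' x) :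
    ∃ β : Equiv.Perm Z, ∀ z, S' (β z) = S z := by
  classical
  have h1 : ∀ x, Nonempty ({z // S z = x} ≃ {z // S' z = x}) :=
    fun x => Finite.card_eq.1 (h x)
  let e := fun x => Classical.choice (h1 x)
  refine ⟨(Equiv.sigmaFiberEquiv S).symm.trans ((Equiv.sigmaCongrRight e).trans
    (Equiv.sigmaFiberEquiv S')), fun z => ?_⟩
  exact (e (S z) ⟨z, rfl⟩).2

theorem mult_sum {A B X : Type} [Finite A] [Finite B] (S : A ⊕ B → X) (x : X) :
    mult S x = mult (fun a => S (Sum.inl a)) x + mult (fun b => S (Sum.inr b)) x := by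
  unfold mult
  rw [← Nat.card_sum]
  exact Nat.card_congr (Equiv.subtypeSum)

theorem mult_eq {Z X : Type} [Fintype Z] [DecidableEq X] (S : Z → X) (x : X) :
    mult S x = (univ.filter (fun z => S z = x)).card := by
  unfold mult
  rw [Nat.card_eq_fintype_card, Fintype.card_subtype]

theorem sum_mult {Z X : Type} [Fintype Z] [Fintype X] [DecidableEq X] (S : Z → X) (P : X → Prop)
    [DecidablePred P] :
    ∑ x ∈ univ.filter P, mult S x = (univ.filter (fun z => P (S z))).card := by
  rw [Finset.card_eq_sum_card_fiberwise (f := S) (t := univ.filter P)]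
  · refine Finset.sum_congr rfl fun x hx => ?_
    rw [mult_eq]
    congr 1
    ext z
    simp only [mem_filter, mem_univ, true_and] at hx ⊢
    constructor
    · intro h
      exact ⟨h ▸ hx, h⟩
    · exact fun h => h.2
  · intro z hz
    simpa using hz

variable {B L : Type} [Fintype B] [Fintype L] [DecidableEq L]

/-- the dummy blocks -/
def rho (L : Type) (g : ℕ) (p : L × Fin g) : Finset L := {p.1}

theorem mem_types (δ : B → Finset L) (τ : Finset L → ℕ) :
    τ ∈ types δ ↔ ∃ σ : B → Finset L, (∀ v, (σ v).Nonempty ∧ σ v ⊆ δ v) ∧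
      ∀ X, τ X = mult σ X := by
  unfold types
  simp only [mem_image, mem_filter, mem_univ, true_and]
  constructor
  · rintro ⟨σ, h1, h2⟩
    refine ⟨σ, h1, fun X => ?_⟩
    rw [← h2, mult_eq]
  · rintro ⟨σ, h1, h2⟩
    refine ⟨σ, h1, ?_⟩
    funext X
    rw [h2, mult_eq]

theorem cardA (σ : B → Finset L) (g : ℕ) (e : L) :
    (univ.filter (fun z => e ∈ dumA σ g z)).card = (univ.filter (fun v => e ∈ σ v)).card + g := by
  rw [Finset.card_filter, Fintype.sum_sum_type, Finset.card_filter]
  congr 1
  rw [Fintype.sum_prod_type]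
  simp [dumA]

theorem cond_iff (δ : B → Finset L) (g : ℕ) (S : B ⊕ (L × Fin g) → Finset L) :
    ((∀ z, (S z).Nonempty) ∧ Rlz (dumA δ g) S) ↔
      ∃ τ ∈ types δ, ∀ X, mult S X = τ X + mult (rho L g) X := by
  constructor
  · rintro ⟨h1, β, hβ⟩
    have h2 : ∀ z, S (β.symm z) ⊆ dumA δ g z := by
      intro z
      have h := hβ (β.symm z)
      rwa [Equiv.apply_symm_apply] at h
    refine ⟨mult (fun v => S (β.symm (Sum.inl v))), ?_, fun X => ?_⟩
    · rw [mem_types]
      exact ⟨fun v => S (β.symm (Sum.inl v)), fun v => ⟨h1 _, h2 _⟩, fun X => rfl⟩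
    · rw [← mult_comp S β.symm X, mult_sum]
      congr 1
      have h3 : (fun b : L × Fin g => S (β.symm (Sum.inr b))) = rho L g := by
        funext b
        have h4 := h2 (Sum.inr b)
        have h5 : dumA δ g (Sum.inr b) = {b.1} := rfl
        rw [h5] at h4
        rcases Finset.subset_singleton_iff.1 h4 with h6 | h6
        · exact absurd h6 (h1 _).ne_empty
        · exact h6
      rw [h3]
  · rintro ⟨τ, hτ, hS⟩
    rw [mem_types] at hτ
    obtain ⟨σ, h1, h2⟩ := hτ
    obtain ⟨β, hβ⟩ := exists_perm S (dumA σ g) (fun X => by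
      rw [hS, h2, mult_sum]
      rfl)
    constructor
    · intro z
      rw [← hβ]
      rcases β z with v | p
      · exact (h1 v).1
      · exact Finset.singleton_nonempty _
    · refine ⟨β, fun z => ?_⟩
      rw [← hβ]
      rcases β z with v | p
      · exact (h1 v).2
      · exact subset_rfl

open Classical in
theorem KK_eq (δ : B → Finset L) (g : ℕ) :
    KK (dumA δ g) = ∑ τ ∈ types δ, ∑ S : (B ⊕ (L × Fin g)) → Finset L,
      if (∀ X, mult S X = τ X + mult (rho L g) X) then wt (dumA δ g) S else 0 := by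
  classical
  rw [Finset.sum_comm]
  unfold KK
  refine Finset.sum_congr (by ext; simp) fun S _ => ?_
  by_cases h : (∀ z, (S z).Nonempty) ∧ Rlz (dumA δ g) S
  · rw [if_pos h]
    obtain ⟨τ, hτ, hS⟩ := (cond_iff δ g S).1 h
    rw [Finset.sum_eq_single τ]
    · rw [if_pos hS]
      congr!
    · intro τ' _ hne
      rw [if_neg]
      intro hS'
      apply hne
      funext X
      have := hS X
      have := hS' X
      omega
    · intro h
      exact absurd hτ h
  · rw [if_neg h]
    symm
    refine Finset.sum_eq_zero fun τ hτ => ?_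
    rw [if_neg]
    intro hS
    exact h ((cond_iff δ g S).2 ⟨τ, hτ, hS⟩)

theorem wt_eq (δ : B → Finset L) (g : ℕ) (hδ : ∀ e, (univ.filter (fun v => e ∈ δ v)).card = 2)
    (τ : Finset L → ℕ) (S : (B ⊕ (L × Fin g)) → Finset L)
    (hS : ∀ X, mult S X = τ X + mult (rho L g) X) :
    wt (dumA δ g) S = ∏ e : L, (g + 2).descFactorial (g + kap τ e) := by
  unfold wt
  refine Finset.prod_congr rfl fun e _ => ?_
  rw [cardA, hδ, ← sum_mult S (fun X => e ∈ X)]
  have h1 : ∑ X ∈ univ.filter (fun X : Finset L => e ∈ X), mult S X = g + kap τ e := by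
    rw [Finset.sum_congr rfl (fun X _ => hS X), Finset.sum_add_distrib, add_comm]
    congr 1
    rw [sum_mult (rho L g) (fun X => e ∈ X), Finset.card_filter, Fintype.sum_prod_type]
    simp [rho]
  rw [h1, add_comm 2 g]

theorem kap_le (δ : B → Finset L) (hδ : ∀ e, (univ.filter (fun v => e ∈ δ v)).card = 2)
    (τ : Finset L → ℕ) (hτ : τ ∈ types δ) (e : L) : kap τ e ≤ 2 := by
  rw [mem_types] at hτ
  obtain ⟨σ, h1, h2⟩ := hτ
  unfold kap
  rw [Finset.sum_congr rfl (fun X _ => h2 X), sum_mult σ (fun X => e ∈ X), ← hδ e]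
  refine Finset.card_le_card fun v hv => ?_
  simp only [mem_filter, mem_univ, true_and] at hv ⊢
  exact (h1 v).2 hv

theorem mult_rho (g : ℕ) (X : Finset L) : mult (rho L g) X = if X.card = 1 then g else 0 := by
  rw [mult_eq, Finset.card_filter, Fintype.sum_prod_type]
  by_cases h : X.card = 1
  · rw [if_pos h]
    obtain ⟨e, rfl⟩ := Finset.card_eq_one.1 h
    rw [Finset.sum_eq_single e]
    · simp [rho]
    · intro e' _ he
      simp [rho, he]
    · simp
  · rw [if_neg h]
    refine Finset.sum_eq_zero fun e _ => Finset.sum_eq_zero fun t _ => ?_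
    rw [if_neg]
    intro h2
    apply h
    rw [← h2]
    rfl

theorem prod_fact (δ : B → Finset L) (g : ℕ) (τ : Finset L → ℕ) (hτ : τ ∈ types δ) :
    ∏ X, (τ X + mult (rho L g) X).factorial = (∏ e : L, (g + τ {e}).factorial) *
      ∏ X ∈ (univ : Finset (Finset L)).filter (fun X => 2 ≤ X.card), (τ X).factorial := by
  classical
  have h0 : τ ∅ = 0 := by
    rw [mem_types] at hτ
    obtain ⟨σ, h1, h2⟩ := hτ
    rw [h2, mult_eq, Finset.card_eq_zero, Finset.filter_eq_empty_iff]
    intro v _ h
    exact (h1 v).1.ne_empty h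
  rw [← Finset.prod_filter_mul_prod_filter_not univ (fun X : Finset L => 2 ≤ X.card), mul_comm]
  congr 1
  · have h1 : ∏ X ∈ univ.filter (fun X : Finset L => ¬ 2 ≤ X.card),
        (τ X + mult (rho L g) X).factorial =
        ∏ X ∈ univ.filter (fun X : Finset L => X.card = 1),
        (τ X + mult (rho L g) X).factorial := by
      symm
      apply Finset.prod_subset
      · intro X hX
        simp only [mem_filter, mem_univ, true_and] at hX ⊢
        omega
      · intro X hX hX'
        simp only [mem_filter, mem_univ, true_and] at hX hX'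
        have h2 : X = ∅ := by
          rw [← Finset.card_eq_zero]
          omega
        rw [mult_rho, if_neg hX', h2, h0]
        rfl
    rw [h1]
    symm
    refine Finset.prod_bij (fun e _ => ({e} : Finset L)) ?_ ?_ ?_ ?_
    · intro e _
      simp
    · intro e _ e' _ h
      simpa using h
    · intro X hX
      simp only [mem_filter, mem_univ, true_and] at hX
      obtain ⟨e, rfl⟩ := Finset.card_eq_one.1 hX
      exact ⟨e, mem_univ _, rfl⟩
    · intro e _
      rw [mult_rho, if_pos (Finset.card_singleton e), add_comm]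
  · refine Finset.prod_congr rfl fun X hX => ?_
    simp only [mem_filter, mem_univ, true_and] at hX
    rw [mult_rho, if_neg (by omega), add_zero]

end E1_ns

open E1_ns in
/-- E1 -/
theorem E1 (h : S_MN) : S_E1 := by
  intro B L _ _ _ δ g hδ
  classical
  rw [KK_eq, Nat.cast_sum, Finset.mul_sum]
  refine Finset.sum_congr rfl fun τ hτ => ?_
  have h1 : ∑ S : (B ⊕ (L × Fin g)) → Finset L,
      (if (∀ X, mult S X = τ X + mult (rho L g) X) then wt (dumA δ g) S else 0) =
      Nat.card {S : (B ⊕ (L × Fin g)) → Finset L // ∀ X, Nat.card {z // S z = X} =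
        τ X + mult (rho L g) X} * ∏ e : L, (g + 2).descFactorial (g + kap τ e) := by
    rw [← Finset.sum_filter, Finset.sum_congr rfl (fun S hS =>
      wt_eq δ g hδ τ S (by simpa using hS)), Finset.sum_const, smul_eq_mul,
      Nat.card_eq_fintype_card, Fintype.card_subtype]
    rfl
  have h2 := h (B ⊕ (L × Fin g)) (Finset L) (fun X => τ X + mult (rho L g) X) (by
    have h3 := hτ
    rw [mem_types] at h3
    obtain ⟨σ, h4, h5⟩ := h3
    have h6 : ∀ X, τ X + mult (rho L g) X = mult (dumA σ g) X := by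
      intro X
      rw [h5, mult_sum]
      rfl
    rw [Finset.sum_congr rfl (fun X _ => h6 X)]
    have h7 := sum_mult (dumA σ g) (fun _ => True)
    simpa using h7)
  rw [prod_fact δ g τ hτ] at h2
  rw [h1]
  have hcard : Fintype.card (B ⊕ (L × Fin g)) = Fintype.card B + Fintype.card L * g := by simp
  rw [hcard] at h2
  rw [← h2]
  have h8 : (∏ e : L, (((g + 2).factorial : ℕ) : ℚ) /
      ((((g + τ {e}).factorial : ℕ) : ℚ) * (((2 - kap τ e).factorial : ℕ) : ℚ))) =
      (∏ e : L, (((g + 2).descFactorial (g + kap τ e) : ℕ) : ℚ)) /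
        ∏ e : L, (((g + τ {e}).factorial : ℕ) : ℚ) := by
    rw [← Finset.prod_div_distrib]
    refine Finset.prod_congr rfl fun e _ => ?_
    have hk := kap_le δ hδ τ hτ e
    have h9 := Nat.factorial_mul_descFactorial (n := g + 2) (k := g + kap τ e) (by omega)
    have h10 : g + 2 - (g + kap τ e) = 2 - kap τ e := by omega
    rw [h10] at h9
    rw [← h9]
    have h11 : (((2 - kap τ e).factorial : ℕ) : ℚ) ≠ 0 :=
      Nat.cast_ne_zero.2 (Nat.factorial_ne_zero _)
    have h12 : (((g + τ {e}).factorial : ℕ) : ℚ) ≠ 0 :=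
      Nat.cast_ne_zero.2 (Nat.factorial_ne_zero _)
    push_cast
    field_simp
  rw [h8]
  have h13 : (∏ e : L, (((g + τ {e}).factorial : ℕ) : ℚ)) ≠ 0 :=
    Finset.prod_ne_zero_iff.2 fun e _ => Nat.cast_ne_zero.2 (Nat.factorial_ne_zero _)
  have h14 : (∏ X ∈ (univ : Finset (Finset L)).filter (fun X => 2 ≤ X.card),
      (((τ X).factorial : ℕ) : ℚ)) ≠ 0 :=
    Finset.prod_ne_zero_iff.2 fun e _ => Nat.cast_ne_zero.2 (Nat.factorial_ne_zero _)
  push_cast
  field_simp

end Pool.Agent.H695R3.SF
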