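import Pool.Agent.H695R3.SF.Defs

/-!
# Counting unlabelled subforests of a tree: E2 (integral form of E1)
-/

namespace Pool.Agent.H695R3.SF

open Finset

namespace E2_ns

variable {B L : Type} [Fintype B] [Fintype L] [DecidableEq L]

theorem types_spec (δ : B → Finset L) {τ : Finset L → ℕ} (hτ : τ ∈ types δ) :
    ∃ σ : B → Finset L, (∀ v, (σ v).Nonempty ∧ σ v ⊆ δ v) ∧
      ∀ X, τ X = (univ.filter (fun v => σ v = X)).card := by
  classical
  unfold types at hτ
  rw [mem_image] at hτ
  obtain ⟨σ, hσ, rfl⟩ := hτ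
  rw [mem_filter] at hσ
  refine ⟨σ, hσ.2, fun X => ?_⟩
  congr

theorem kap_eq (τ : Finset L → ℕ) (σ : B → Finset L)
    (h : ∀ X, τ X = (univ.filter (fun v => σ v = X)).card) (e : L) :
    kap τ e = (univ.filter (fun v => e ∈ σ v)).card := by
  classical
  unfold kap
  have h1 : (univ.filter (fun v => e ∈ σ v)).card =
      ∑ X ∈ (univ : Finset (Finset L)).filter (fun X => e ∈ X),
        ((univ.filter (fun v => e ∈ σ v)).filter (fun v => σ v = X)).card := by
    apply Finset.card_eq_sum_card_fiberwise
    intro v hv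
    have hv' : e ∈ σ v := by simpa using hv
    simp [hv']
  rw [h1]
  apply Finset.sum_congr rfl
  intro X hX
  rw [h X]
  congr 1
  ext v
  simp only [mem_filter, mem_univ, true_and] at hX ⊢
  constructor
  · intro hv
    exact ⟨by rw [hv]; exact hX, hv⟩
  · exact fun hv => hv.2

theorem sing_le_kap (τ : Finset L → ℕ) (e : L) : τ {e} ≤ kap τ e := by
  unfold kap
  exact Finset.single_le_sum (f := τ) (fun _ _ => Nat.zero_le _) (by simp)

theorem local_id (g t k : ℕ) (htk : t ≤ k) (hk : k ≤ 2) :
    (2 : ℚ) * (((g + 2).factorial : ℚ) / (((g + t).factorial : ℚ) * ((2 - k).factorial : ℚ))) =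
      (if k = 0 then 1 else 2) * ((g + 2 : ℚ) ^ (if t ≤ 1 then 1 else 0)) *
        ((g + 1 : ℚ) ^ (if t = 0 then 1 else 0)) := by
  have h0 : ((g.factorial : ℕ) : ℚ) ≠ 0 := by exact_mod_cast g.factorial_ne_zero
  have h1 : ((g + 1 : ℕ).factorial : ℚ) = (g + 1 : ℚ) * (g.factorial : ℚ) := by
    rw [Nat.factorial_succ]; push_cast; ring
  have h2 : ((g + 2 : ℕ).factorial : ℚ) = (g + 2 : ℚ) * ((g + 1 : ℚ) * (g.factorial : ℚ)) := by
    rw [show g + 2 = (g + 1) + 1 by ring, Nat.factorial_succ, Nat.factorial_succ]; push_cast; ring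
  have p1 : (g + 1 : ℚ) ≠ 0 := by positivity
  have p2 : (g + 2 : ℚ) ≠ 0 := by positivity
  rw [h2]
  interval_cases k
  · obtain rfl : t = 0 := by omega
    simp
    field_simp
  · interval_cases t
    · simp
      field_simp
    · simp [h1]
      field_simp
  · interval_cases t
    · simp
      field_simp
    · simp [h1]
      field_simp
    · simp [h2]
      exact ⟨p2, p1, g.factorial_ne_zero⟩

end E2_ns

open E2_ns

theorem E2 (h : S_E1) : S_E2 := by
  intro B L _ _ _ δ g h2 h1
  have key := h B L δ g h2
  have main : ((2 ^ Fintype.card L * KK (dumA δ g) : ℕ) : ℚ) =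
      (((Fintype.card B + Fintype.card L * g).factorial *
        ∑ τ ∈ types δ, (∏ e : L, if kap τ e = 0 then 1 else 2) *
          (g + 2) ^ ((univ : Finset L).filter (fun e => τ {e} ≤ 1)).card *
          (g + 1) ^ ((univ : Finset L).filter (fun e => τ {e} = 0)).card : ℕ) : ℚ) := by
    push_cast
    rw [key, mul_left_comm, Finset.mul_sum]
    congr 1
    apply Finset.sum_congr rfl
    intro τ hτ
    obtain ⟨σ, hσ, hs⟩ := types_spec δ hτ
    have hprod : ∏ X ∈ (univ : Finset (Finset L)).filter (fun X => 2 ≤ X.card),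
        ((τ X).factorial : ℚ) = 1 := by
      apply Finset.prod_eq_one
      intro X hX
      have hX2 : 2 ≤ X.card := by simpa using hX
      have hle : τ X ≤ 1 := by
        rw [hs X, Finset.card_le_one]
        intro v hv v' hv'
        simp only [mem_filter, mem_univ, true_and] at hv hv'
        by_contra hne
        have := h1 v v' hne
        have hsub : X ⊆ δ v ∩ δ v' := by
          intro x hx
          rw [mem_inter]
          exact ⟨(hσ v).2 (by rw [hv]; exact hx), (hσ v').2 (by rw [hv']; exact hx)⟩
        have := Finset.card_le_card hsub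
        omega
      have : (τ X).factorial = 1 := by
        interval_cases (τ X) <;> rfl
      rw [this]; norm_num
    rw [hprod, div_one]
    have hk2 : ∀ e, kap τ e ≤ 2 := by
      intro e
      rw [kap_eq τ σ hs e, ← h2 e]
      apply Finset.card_le_card
      intro v hv
      simp only [mem_filter, mem_univ, true_and] at hv ⊢
      exact (hσ v).2 hv
    have hcard : (2 : ℚ) ^ Fintype.card L = ∏ _e : L, (2 : ℚ) := by
      rw [Finset.prod_const, Finset.card_univ]
    rw [hcard, ← Finset.prod_mul_distrib]
    rw [Finset.card_filter, Finset.card_filter, ← Finset.prod_pow_eq_pow_sum,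
      ← Finset.prod_pow_eq_pow_sum, ← Finset.prod_mul_distrib, ← Finset.prod_mul_distrib]
    apply Finset.prod_congr rfl
    intro e _
    exact local_id g (τ {e}) (kap τ e) (sing_le_kap τ e) (hk2 e)
  exact_mod_cast main

end Pool.Agent.H695R3.SF
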