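import Pool.Agent.H695R3.SF.Defs2

/-!
# Counting subforests: the permanent counts the perfect matchings
-/

namespace Pool.Agent.H695R3.SF

open Finset
open Pool.Agent.H549R2.Convex (F ent)

namespace E3_ns

variable (A : LL)

/-- the matching of a permutation -/
def mt (σ : Equiv.Perm (Fin A.length)) : Finset (Lb A) := univ.filter (fun e => e.1.2 = σ e.1.1)

theorem mt_mem (σ : Equiv.Perm (Fin A.length)) (hσ : ∀ i, ent A i.val (σ i).val = true)
    (v : Fin A.length ⊕ Fin A.length) : (mt A σ ∩ blk A v).card = 1 := by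
  rw [card_eq_one]
  rcases v with i | j
  · refine ⟨⟨(i, σ i), hσ i⟩, ?_⟩
    ext e
    simp only [mt, blk, Sum.elim_inl, mem_inter, mem_filter, mem_univ, true_and, mem_singleton]
    constructor
    · rintro ⟨h1, h2⟩
      apply Subtype.ext
      apply Prod.ext
      · exact h2
      · simp only; rw [h1, h2]
    · rintro rfl
      exact ⟨rfl, rfl⟩
  · refine ⟨⟨(σ.symm j, j), by simpa using hσ (σ.symm j)⟩, ?_⟩
    ext e
    simp only [mt, blk, Sum.elim_inr, mem_inter, mem_filter, mem_univ, true_and, mem_singleton]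
    constructor
    · rintro ⟨h1, h2⟩
      apply Subtype.ext
      apply Prod.ext
      · simp only; rw [← h2, h1, Equiv.symm_apply_apply]
      · exact h2
    · rintro rfl
      exact ⟨by simp, rfl⟩

theorem mt_inj (σ τ : Equiv.Perm (Fin A.length)) (hσ : ∀ i, ent A i.val (σ i).val = true)
    (h : mt A σ = mt A τ) : σ = τ := by
  ext i
  have h1 : (⟨(i, σ i), hσ i⟩ : Lb A) ∈ mt A σ := by simp [mt]
  rw [h] at h1
  simp only [mt, mem_filter, mem_univ, true_and] at h1
  rw [h1]

theorem mt_surj (M : Finset (Lb A)) (hM : ∀ v, (M ∩ blk A v).card = 1) :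
    ∃ σ : Equiv.Perm (Fin A.length), (∀ i, ent A i.val (σ i).val = true) ∧ mt A σ = M := by
  have hr : ∀ i : Fin A.length, ∃ e : Lb A, e ∈ M ∧ e.1.1 = i ∧ ∀ e' ∈ M, e'.1.1 = i → e' = e := by
    intro i
    obtain ⟨e, he⟩ := card_eq_one.1 (hM (Sum.inl i))
    have h1 : e ∈ M ∩ blk A (Sum.inl i) := by rw [he]; exact mem_singleton_self _
    simp only [blk, Sum.elim_inl, mem_inter, mem_filter, mem_univ, true_and] at h1
    refine ⟨e, h1.1, h1.2, fun e' h2 h3 => ?_⟩
    have h4 : e' ∈ M ∩ blk A (Sum.inl i) := by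
      simp only [blk, Sum.elim_inl, mem_inter, mem_filter, mem_univ, true_and]
      exact ⟨h2, h3⟩
    rw [he] at h4
    exact mem_singleton.1 h4
  have hc : ∀ j : Fin A.length, ∃ e : Lb A, ∀ e' ∈ M, e'.1.2 = j → e' = e := by
    intro j
    obtain ⟨e, he⟩ := card_eq_one.1 (hM (Sum.inr j))
    refine ⟨e, fun e' h2 h3 => ?_⟩
    have h4 : e' ∈ M ∩ blk A (Sum.inr j) := by
      simp only [blk, Sum.elim_inr, mem_inter, mem_filter, mem_univ, true_and]
      exact ⟨h2, h3⟩
    rw [he] at h4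
    exact mem_singleton.1 h4
  choose f hf1 hf2 hf3 using hr
  have hinj : Function.Injective (fun i => (f i).1.2) := by
    intro i i' h
    simp only at h
    obtain ⟨e, he⟩ := hc (f i).1.2
    have h1 := he (f i) (hf1 i) rfl
    have h2 := he (f i') (hf1 i') h.symm
    rw [← hf2 i, ← hf2 i', h1, h2]
  have hbij := Finite.injective_iff_bijective.1 hinj
  refine ⟨Equiv.ofBijective _ hbij, fun i => ?_, ?_⟩
  · have h1 := (f i).2
    rw [hf2 i] at h1
    exact h1
  · ext e
    simp only [mt, mem_filter, mem_univ, true_and, Equiv.ofBijective_apply]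
    constructor
    · intro h
      have h1 : e = f e.1.1 := Subtype.ext (Prod.ext (hf2 e.1.1).symm h)
      rw [h1]
      exact hf1 _
    · intro h
      have h1 := hf3 e.1.1 e h rfl
      rw [← h1]

end E3_ns

/-- E3: the permanent counts the perfect matchings -/
theorem E3 : S_E3 := by
  intro A hA
  rw [Pool.Agent.H549R2.Convex.F_eq_card' A hA A.length rfl, PMs]
  refine card_bij (fun σ _ => E3_ns.mt A σ) ?_ ?_ ?_
  · intro σ hσ
    rw [mem_filter] at hσ ⊢
    exact ⟨mem_univ _, E3_ns.mt_mem A σ hσ.2⟩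
  · intro σ hσ τ _ h
    rw [mem_filter] at hσ
    exact E3_ns.mt_inj A σ τ hσ.2 h
  · intro M hM
    rw [mem_filter] at hM
    obtain ⟨σ, h1, h2⟩ := E3_ns.mt_surj A M hM.2
    exact ⟨σ, mem_filter.2 ⟨mem_univ _, h1⟩, h2⟩

end Pool.Agent.H695R3.SF
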