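import Mathlib
import Pool.Agent.H695R3.SF.Defs

set_option autoImplicit false

open Finset

namespace Pool.Agent.H695R3.SF

namespace E4_ns

variable {B L : Type} [Fintype B] [Fintype L] [DecidableEq L]

open Classical in
/-- type of a choice -/
noncomputable def tp (σ : B → Finset L) : Finset L → ℕ :=
  fun X => (univ.filter (fun v => σ v = X)).card

theorem mem_types {δ : B → Finset L} {τ : Finset L → ℕ} :
    τ ∈ types δ ↔ ∃ σ : B → Finset L, (∀ v, (σ v).Nonempty ∧ σ v ⊆ δ v) ∧ tp σ = τ := by
  unfold types tp
  simp only [mem_image, mem_filter, mem_univ, true_and]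

theorem kap_tp (σ : B → Finset L) (e : L) :
    kap (tp σ) e = (univ.filter (fun v => e ∈ σ v)).card := by
  classical
  unfold kap tp
  rw [Finset.card_eq_sum_card_fiberwise (f := σ) (s := univ.filter (fun v => e ∈ σ v))
    (t := (univ : Finset (Finset L)).filter (fun X => e ∈ X))]
  · refine Finset.sum_congr rfl ?_
    intro X hX
    congr 1
    ext v
    simp only [mem_filter, mem_univ, true_and] at hX ⊢
    constructor
    · intro h; exact ⟨by rw [h]; exact hX, h⟩
    · intro h; exact h.2
  · intro v hv
    simpa using hv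

theorem sum_tp_le (σ : B → Finset L) : ∑ e : L, tp σ {e} ≤ Fintype.card B := by
  classical
  have h : ∑ e : L, tp σ {e} = ((univ : Finset L).biUnion
      (fun e => (univ : Finset B).filter (fun v => σ v = {e}))).card := by
    rw [Finset.card_biUnion]
    · refine Finset.sum_congr rfl ?_
      intro e _
      unfold tp
      congr
    · intro a _ b _ hab
      rw [Function.onFun, Finset.disjoint_left]
      intro v hv hv'
      simp only [mem_filter, mem_univ, true_and] at hv hv'
      apply hab
      have := hv.symm.trans hv'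
      exact Finset.singleton_injective this
  rw [h]
  exact Finset.card_le_univ _

theorem sum_tp_eq (σ : B → Finset L) (h : ∑ e : L, tp σ {e} = Fintype.card B) (v : B) :
    ∃ e, σ v = {e} := by
  classical
  have h' : ∑ e : L, tp σ {e} = ((univ : Finset L).biUnion
      (fun e => (univ : Finset B).filter (fun v => σ v = {e}))).card := by
    rw [Finset.card_biUnion]
    · refine Finset.sum_congr rfl ?_
      intro e _
      unfold tp
      congr
    · intro a _ b _ hab
      rw [Function.onFun, Finset.disjoint_left]
      intro v hv hv'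
      simp only [mem_filter, mem_univ, true_and] at hv hv'
      apply hab
      have := hv.symm.trans hv'
      exact Finset.singleton_injective this
  have h2 : ((univ : Finset L).biUnion
      (fun e => (univ : Finset B).filter (fun v => σ v = {e}))) = univ := by
    rw [← Finset.card_eq_iff_eq_univ, ← h', h]
  have h3 := Finset.mem_univ v
  rw [← h2] at h3
  simp only [mem_biUnion, mem_filter, mem_univ, true_and] at h3
  exact h3

/-- structure in the equality case -/
theorem eq_case {k : ℕ} (hB : Fintype.card B = 2 * k)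
    (σ : B → Finset L)
    (heq : Fintype.card L = ((univ : Finset L).filter (fun e => tp σ {e} ≤ 1)).card + k) :
    (∀ v, ∃ e, σ v = {e}) ∧ (∀ e, tp σ {e} = 2 ∨ tp σ {e} = 0) ∧
      ((univ : Finset L).filter (fun e => ¬ tp σ {e} ≤ 1)).card = k := by
  classical
  have h1 : ((univ : Finset L).filter (fun e => tp σ {e} ≤ 1)).card +
      ((univ : Finset L).filter (fun e => ¬ tp σ {e} ≤ 1)).card = Fintype.card L := by
    rw [Finset.card_filter_add_card_filter_not]
    rfl
  have h2 : ((univ : Finset L).filter (fun e => ¬ tp σ {e} ≤ 1)).card = k := by omega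
  have h3 := sum_tp_le σ
  have h4 : ∑ e : L, tp σ {e} = ∑ e ∈ (univ : Finset L).filter (fun e => ¬ tp σ {e} ≤ 1), tp σ {e} +
      ∑ e ∈ (univ : Finset L).filter (fun e => tp σ {e} ≤ 1), tp σ {e} := by
    rw [add_comm, Finset.sum_filter_add_sum_filter_not]
  have h5 : ∑ e ∈ (univ : Finset L).filter (fun e => ¬ tp σ {e} ≤ 1), 2 ≤
      ∑ e ∈ (univ : Finset L).filter (fun e => ¬ tp σ {e} ≤ 1), tp σ {e} := by
    refine Finset.sum_le_sum ?_
    intro e he
    simp only [mem_filter, mem_univ, true_and] at he
    omega
  rw [Finset.sum_const, h2, smul_eq_mul] at h5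
  have h6 : ∑ e : L, tp σ {e} = Fintype.card B := by omega
  have h7 : ∑ e ∈ (univ : Finset L).filter (fun e => tp σ {e} ≤ 1), tp σ {e} = 0 := by omega
  have h8 : ∑ e ∈ (univ : Finset L).filter (fun e => ¬ tp σ {e} ≤ 1), tp σ {e} =
      ∑ e ∈ (univ : Finset L).filter (fun e => ¬ tp σ {e} ≤ 1), 2 := by
    rw [Finset.sum_const, h2, smul_eq_mul]; omega
  refine ⟨sum_tp_eq σ h6, ?_, h2⟩
  intro e
  by_cases he : tp σ {e} ≤ 1
  · right
    rw [Finset.sum_eq_zero_iff] at h7
    exact h7 e (by simp [he])
  · left
    have h9 := (Finset.sum_eq_sum_iff_of_le (s := (univ : Finset L).filter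
      (fun e => ¬ tp σ {e} ≤ 1)) (f := fun _ => 2) (g := fun e => tp σ {e}) (by
        intro e he
        simp only [mem_filter, mem_univ, true_and] at he
        show 2 ≤ tp σ {e}
        omega)).1 h8.symm
    exact (h9 e (by simp; omega)).symm

theorem inter_eq {δ : B → Finset L} {k : ℕ} (hB : Fintype.card B = 2 * k)
    (hδ : ∀ e, (univ.filter (fun v => e ∈ δ v)).card = 2)
    (σ : B → Finset L) (hσ : ∀ v, (σ v).Nonempty ∧ σ v ⊆ δ v)
    (heq : Fintype.card L = ((univ : Finset L).filter (fun e => tp σ {e} ≤ 1)).card + k) (v : B) :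
    (univ.filter (fun e => tp σ {e} = 2)) ∩ δ v = σ v := by
  classical
  obtain ⟨h1, h2, -⟩ := eq_case hB σ heq
  obtain ⟨s, hs⟩ := h1 v
  have hsd : s ∈ δ v := by
    have := (hσ v).2
    rw [hs] at this
    exact this (mem_singleton_self s)
  have hv : v ∈ univ.filter (fun v => σ v = ({s} : Finset L)) := by simp [hs]
  have hpos : tp σ {s} ≠ 0 := by
    unfold tp
    intro h
    rw [Finset.card_eq_zero] at h
    have h0 : v ∈ univ.filter (fun v => σ v = ({s} : Finset L)) := by simp [hs]
    have h' : v ∈ (∅ : Finset B) := by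
      rw [← h]; simp [hs]
    simp at h'
  have hs2 : tp σ {s} = 2 := (h2 s).resolve_right hpos
  rw [hs]
  ext e
  simp only [mem_inter, mem_filter, mem_univ, true_and, mem_singleton]
  constructor
  · rintro ⟨he, hed⟩
    have hsub : univ.filter (fun w => σ w = ({e} : Finset L)) ⊆ univ.filter (fun w => e ∈ δ w) := by
      intro w hw
      simp only [mem_filter, mem_univ, true_and] at hw ⊢
      have := (hσ w).2
      rw [hw] at this
      exact this (mem_singleton_self e)
    have hcard : (univ.filter (fun w => σ w = ({e} : Finset L))).card = 2 := by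
      rw [← he]; unfold tp; congr
    have heq' := Finset.eq_of_subset_of_card_le hsub (by rw [hcard, hδ e])
    have hw : v ∈ univ.filter (fun w => e ∈ δ w) := by simp [hed]
    rw [← heq'] at hw
    simp only [mem_filter, mem_univ, true_and] at hw
    rw [hs] at hw
    exact (Finset.singleton_injective hw).symm
  · rintro rfl
    exact ⟨hs2, hsd⟩

theorem card_M {δ : B → Finset L} {k : ℕ} (hB : Fintype.card B = 2 * k)
    (hδ : ∀ e, (univ.filter (fun v => e ∈ δ v)).card = 2) (M : Finset L)
    (hM : ∀ v, (M ∩ δ v).card = 1) : M.card = k := by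
  classical
  have h1 : ∑ v : B, (M ∩ δ v).card = 2 * k := by
    simp [hM, hB]
  have h2 : ∑ v : B, (M ∩ δ v).card = ∑ e ∈ M, (univ.filter (fun v => e ∈ δ v)).card := by
    have h3 : ∀ v : B, (M ∩ δ v).card = ∑ e ∈ M, if e ∈ δ v then 1 else 0 := by
      intro v
      rw [← Finset.filter_mem_eq_inter, Finset.card_filter]
    simp only [h3]
    rw [Finset.sum_comm]
    refine Finset.sum_congr rfl ?_
    intro e _
    rw [Finset.card_filter]
  rw [h2] at h1
  simp only [hδ, Finset.sum_const, smul_eq_mul] at h1
  omega

theorem tp_M {δ : B → Finset L} (hδ : ∀ e, (univ.filter (fun v => e ∈ δ v)).card = 2)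
    (M : Finset L) (hM : ∀ v, (M ∩ δ v).card = 1) (e : L) :
    tp (fun v => M ∩ δ v) {e} = if e ∈ M then 2 else 0 := by
  classical
  unfold tp
  split_ifs with he
  · rw [← hδ e]
    congr 1
    ext v
    simp only [mem_filter, mem_univ, true_and]
    constructor
    · intro h
      have : e ∈ M ∩ δ v := by rw [h]; exact mem_singleton_self e
      exact (mem_inter.1 this).2
    · intro h
      obtain ⟨s, hs⟩ := Finset.card_eq_one.1 (hM v)
      have : e ∈ M ∩ δ v := mem_inter.2 ⟨he, h⟩
      rw [hs] at this ⊢
      rw [mem_singleton.1 this]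
  · rw [Finset.card_eq_zero, Finset.filter_eq_empty_iff]
    intro v _ h
    have h' : M ∩ δ v = {e} := h
    have : e ∈ M ∩ δ v := by rw [h']; exact mem_singleton_self e
    exact he (mem_inter.1 this).1

end E4_ns

open E4_ns

theorem E4 : S_E4 := by
  intro B L _ _ _ δ k hB hδ
  classical
  refine ⟨?_, ?_, ?_⟩
  · intro τ hτ
    obtain ⟨σ, hσ, rfl⟩ := mem_types.1 hτ
    constructor
    · have h1 : ((univ : Finset L).filter (fun e => tp σ {e} ≤ 1)).card +
          ((univ : Finset L).filter (fun e => ¬ tp σ {e} ≤ 1)).card = Fintype.card L := by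
        rw [Finset.card_filter_add_card_filter_not]
        rfl
      have h3 := sum_tp_le σ
      have h5 : ∑ e ∈ (univ : Finset L).filter (fun e => ¬ tp σ {e} ≤ 1), 2 ≤
          ∑ e ∈ (univ : Finset L).filter (fun e => ¬ tp σ {e} ≤ 1), tp σ {e} := by
        refine Finset.sum_le_sum ?_
        intro e he
        simp only [mem_filter, mem_univ, true_and] at he
        omega
      have h6 : ∑ e ∈ (univ : Finset L).filter (fun e => ¬ tp σ {e} ≤ 1), tp σ {e} ≤
          ∑ e : L, tp σ {e} := Finset.sum_le_sum_of_subset (Finset.filter_subset _ _)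
      rw [Finset.sum_const, smul_eq_mul] at h5
      omega
    · have h1 : 2 * k ≤ ∑ v : B, (σ v).card := by
        rw [← hB]
        calc Fintype.card B = ∑ _v : B, 1 := by simp
          _ ≤ ∑ v : B, (σ v).card := Finset.sum_le_sum fun v _ => (hσ v).1.card_pos
      have h2 : ∑ v : B, (σ v).card = ∑ e : L, (univ.filter (fun v => e ∈ σ v)).card := by
        have h3 : ∀ v : B, (σ v).card = ∑ e : L, if e ∈ σ v then 1 else 0 := by
          intro v
          rw [Finset.sum_ite_mem, Finset.univ_inter, Finset.card_eq_sum_ones]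
        simp only [h3]
        rw [Finset.sum_comm]
        refine Finset.sum_congr rfl ?_
        intro e _
        rw [Finset.card_filter]
      have h4 : ∑ e : L, (univ.filter (fun v => e ∈ σ v)).card ≤ ∑ _e : L, 2 := by
        refine Finset.sum_le_sum ?_
        intro e _
        rw [← hδ e]
        refine Finset.card_le_card ?_
        intro v hv
        simp only [mem_filter, mem_univ, true_and] at hv ⊢
        exact (hσ v).2 hv
      simp only [Finset.sum_const, smul_eq_mul, Finset.card_univ] at h4
      omega
  · intro τ hτ heq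
    obtain ⟨σ, hσ, rfl⟩ := mem_types.1 hτ
    obtain ⟨h1, h2, h3⟩ := eq_case hB σ heq
    have hk : ∀ e, kap (tp σ) e = tp σ {e} := by
      intro e
      rw [kap_tp]
      unfold tp
      congr 1
      ext v
      simp only [mem_filter, mem_univ, true_and]
      obtain ⟨s, hs⟩ := h1 v
      rw [hs]
      constructor
      · intro h; rw [mem_singleton.1 h]
      · intro h; rw [Finset.singleton_injective h]; exact mem_singleton_self e
    have h0 : ((univ : Finset L).filter (fun e => tp σ {e} = 0)).card = Fintype.card L - k := by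
      have h5 : (univ : Finset L).filter (fun e => tp σ {e} = 0) =
          (univ : Finset L).filter (fun e => tp σ {e} ≤ 1) := by
        ext e
        simp only [mem_filter, mem_univ, true_and]
        rcases h2 e with h | h <;> omega
      rw [h5]
      omega
    refine ⟨?_, h0⟩
    simp only [hk]
    exact h0
  · unfold PMs
    refine Finset.card_nbij' (fun τ => (univ : Finset L).filter (fun e => τ {e} = 2))
      (fun M => tp (fun v => M ∩ δ v)) ?_ ?_ ?_ ?_
    · intro τ hτ
      simp only [coe_filter, Set.mem_ofPred_eq] at hτ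
      obtain ⟨hτ, heq⟩ := hτ
      obtain ⟨σ, hσ, rfl⟩ := mem_types.1 hτ
      simp only [coe_filter, mem_univ, true_and, Set.mem_ofPred_eq]
      intro v
      rw [inter_eq hB hδ σ hσ heq v]
      obtain ⟨s, hs⟩ := (eq_case hB σ heq).1 v
      rw [hs, card_singleton]
    · intro M hM
      simp only [coe_filter, mem_univ, true_and, Set.mem_ofPred_eq] at hM
      simp only [coe_filter, Set.mem_ofPred_eq]
      refine ⟨mem_types.2 ⟨fun v => M ∩ δ v, fun v => ⟨?_, inter_subset_right⟩, rfl⟩, ?_⟩
      · rw [← Finset.card_pos, hM v]; exact Nat.one_pos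
      · have h1 : ((univ : Finset L).filter (fun e => tp (fun v => M ∩ δ v) {e} ≤ 1)) = Mᶜ := by
          ext e
          simp only [mem_filter, mem_univ, true_and, mem_compl]
          rw [tp_M hδ M hM e]
          split_ifs with he <;> simp [he]
        rw [h1, Finset.card_compl, card_M hB hδ M hM]
        have := Finset.card_le_univ M
        rw [card_M hB hδ M hM] at this
        omega
    · intro τ hτ
      simp only [coe_filter, Set.mem_ofPred_eq] at hτ
      obtain ⟨hτ, heq⟩ := hτ
      obtain ⟨σ, hσ, rfl⟩ := mem_types.1 hτ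
      show tp (fun v => (univ.filter (fun e => tp σ {e} = 2)) ∩ δ v) = tp σ
      have : (fun v => (univ.filter (fun e => tp σ {e} = 2)) ∩ δ v) = σ := by
        funext v
        exact inter_eq hB hδ σ hσ heq v
      rw [this]
    · intro M hM
      simp only [coe_filter, mem_univ, true_and, Set.mem_ofPred_eq] at hM
      show (univ : Finset L).filter (fun e => tp (fun v => M ∩ δ v) {e} = 2) = M
      ext e
      simp only [mem_filter, mem_univ, true_and]
      rw [tp_M hδ M hM e]
      split_ifs with he <;> simp [he]

end Pool.Agent.H695R3.SF
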