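import Pool.Agent.H695R3.SF.Defs2

/-!
# HF: hardness
-/

namespace Pool.Agent.H695R3.SF

open Pool.Agent.NPC Pool.Agent.NPC.Cnt Pool.Agent.NPC.H549NRed

theorem HF (h1 : S_SE) (h2 : S_SD) (h3 : S_SC) (h4 : S_SB) (h5 : S_SA) (h6 : S_S0) (h7 : S_SZ) :
    SharpPHard (strFn numSub) := by
  obtain ⟨r, hr⟩ := h7
  have i1 : DecidableEq (((LL × Un) × Un) × Un) := instDecidableEqProd
  have i2 : DecidableEq ((((LL × Un) × Un) × Un) × Un) := instDecidableEqProd
  have c1 := NRed.comp nred_sat h1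
  have c2 := NRed.comp c1 h2
  have c3 := NRed.comp c2 h3
  have c4 := NRed.comp c3 h4
  have c5 := NRed.comp c4 h5
  have c6 := NRed.comp c5 h6
  exact hard_of_nred c6 (fun _ _ => rfl) r hr

end Pool.Agent.H695R3.SF
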