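import Pool.Agent.H695R3.SF.Defs2

/-!
# M1: the isolation lemma, parity version
-/

set_option autoImplicit false

namespace Pool.Agent.H695R3.SF

open Finset

namespace M1_ns

open scoped Classical

/-- weight -/
def wt {p N : ℕ} (W : Fin p → Fin N) (w : Fin p → Bool) : ℕ :=
  ∑ i, (if w i = true then (W i).val else 0)

/-- the part of the weight outside `i` -/
def off {p N : ℕ} (i : Fin p) (W : Fin p → Fin N) (w : Fin p → Bool) : ℕ :=
  ∑ j ∈ univ.erase i, (if w j = true then (W j).val else 0)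

theorem wt_eq {p N : ℕ} (i : Fin p) (W : Fin p → Fin N) (w : Fin p → Bool) :
    wt W w = (if w i = true then (W i).val else 0) + off i W w := by
  unfold wt off
  exact (Finset.add_sum_erase univ (fun j => if w j = true then (W j).val else 0)
    (mem_univ i)).symm

theorem wt_le {p N : ℕ} (W : Fin p → Fin N) (w : Fin p → Bool) : wt W w ≤ p * N := by
  unfold wt
  calc ∑ i, (if w i = true then (W i).val else 0) ≤ ∑ _i : Fin p, N := by
        apply Finset.sum_le_sum
        intro i _
        split_ifs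
        · exact (W i).isLt.le
        · exact Nat.zero_le _
    _ = p * N := by simp

theorem off_congr {p N : ℕ} (i : Fin p) (W W' : Fin p → Fin N) (w : Fin p → Bool)
    (h : ∀ j, j ≠ i → W j = W' j) : off i W w = off i W' w := by
  unfold off
  apply Finset.sum_congr rfl
  intro j hj
  rw [h j (Finset.ne_of_mem_erase hj)]

/-- bad at `i` -/
def Bd {p N : ℕ} (X : Finset (Fin p → Bool)) (i : Fin p) (W : Fin p → Fin N) : Prop :=
  ∃ w₁ ∈ X, ∃ w₂ ∈ X, w₁ i = true ∧ w₂ i = false ∧ (∀ w ∈ X, wt W w₁ ≤ wt W w) ∧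
    wt W w₁ = wt W w₂

theorem bd_inj {p N : ℕ} (X : Finset (Fin p → Bool)) (i : Fin p) (W W' : Fin p → Fin N)
    (h1 : Bd X i W) (h2 : Bd X i W') (h : ∀ j, j ≠ i → W j = W' j) : W = W' := by
  obtain ⟨a, ha, b, hb, hai, hbi, hmin, heq⟩ := h1
  obtain ⟨a', ha', b', hb', hai', hbi', hmin', heq'⟩ := h2
  have e1 := hmin a' ha'
  have e2 := hmin b' hb'
  have e3 := hmin' a ha
  have e4 := hmin' b hb
  rw [wt_eq i, wt_eq i W b, if_pos hai, if_neg (by simp [hbi])] at heq
  rw [wt_eq i, wt_eq i W a', if_pos hai, if_pos hai'] at e1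
  rw [wt_eq i, wt_eq i W b', if_pos hai, if_neg (by simp [hbi'])] at e2
  rw [wt_eq i, wt_eq i W' b', if_pos hai', if_neg (by simp [hbi'])] at heq'
  rw [wt_eq i, wt_eq i W' a, if_pos hai, if_pos hai'] at e3
  rw [wt_eq i, wt_eq i W' b, if_pos hai', if_neg (by simp [hbi])] at e4
  rw [← off_congr i W W' a h] at e3
  rw [← off_congr i W W' a' h] at e3 e4 heq'
  rw [← off_congr i W W' b h] at e4
  rw [← off_congr i W W' b' h] at heq'
  have hi : (W i).val = (W' i).val := by omega
  funext j
  by_cases hj : j = i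
  · subst hj
    exact Fin.ext hi
  · exact h j hj

theorem card_bd {p N : ℕ} (X : Finset (Fin p → Bool)) (i : Fin p) :
    ((univ : Finset (Fin p → Fin N)).filter (fun W => Bd X i W)).card ≤ N ^ (p - 1) := by
  have h1 : ((univ : Finset (Fin p → Fin N)).filter (fun W => Bd X i W)).card ≤
      (univ : Finset ({j : Fin p // j ≠ i} → Fin N)).card := by
    apply Finset.card_le_card_of_injOn (fun W => fun j : {j : Fin p // j ≠ i} => W j.1)
    · intro W _
      exact mem_coe.2 (mem_univ _)
    · intro W hW W' hW' h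
      have hW1 := (mem_filter.1 (mem_coe.1 hW)).2
      have hW2 := (mem_filter.1 (mem_coe.1 hW')).2
      exact bd_inj X i W W' hW1 hW2 (fun j hj => congrFun h ⟨j, hj⟩)
  have h2 : (univ : Finset ({j : Fin p // j ≠ i} → Fin N)).card = N ^ (p - 1) := by
    rw [Finset.card_univ, Fintype.card_fun, Fintype.card_fin, Fintype.card_subtype_compl,
      Fintype.card_fin]
    simp
  rw [h2] at h1
  exact h1

theorem bad_sub {p N : ℕ} (X : Finset (Fin p → Bool)) (hX : X.Nonempty) (W : Fin p → Fin N)
    (h : ∀ t ≤ p * N, Even (X.filter (fun w => wt W w = t)).card) : ∃ i, Bd X i W := by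
  obtain ⟨a, ha, hmin⟩ := Finset.exists_min_image X (fun w => wt W w) hX
  have he := h (wt W a) (wt_le W a)
  have hmem : a ∈ X.filter (fun w => wt W w = wt W a) := mem_filter.2 ⟨ha, rfl⟩
  have hpos : 0 < (X.filter (fun w => wt W w = wt W a)).card := Finset.card_pos.2 ⟨a, hmem⟩
  have h2 : 1 < (X.filter (fun w => wt W w = wt W a)).card := by
    rcases he with ⟨k, hk⟩
    omega
  obtain ⟨b, hb, hba⟩ := Finset.exists_mem_ne h2 a
  have hb' := mem_filter.1 hb
  obtain ⟨i, hi⟩ := Function.ne_iff.1 hba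
  refine ⟨i, ?_⟩
  cases hai : a i with
  | true =>
    have hbi : b i = false := by
      rw [hai] at hi
      simpa using hi
    exact ⟨a, ha, b, hb'.1, hai, hbi, hmin, hb'.2.symm⟩
  | false =>
    have hbi : b i = true := by
      rw [hai] at hi
      simpa using hi
    exact ⟨b, hb'.1, a, ha, hbi, hai, fun w hw => by rw [hb'.2]; exact hmin w hw, hb'.2⟩

theorem main {p N : ℕ} (X : Finset (Fin p → Bool)) (hX : X.Nonempty) (hN : 2 * p ≤ N) :
    2 * ((univ : Finset (Fin p → Fin N)).filter (fun W => ∀ t ≤ p * N,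
      Even (X.filter (fun w => wt W w = t)).card)).card ≤ N ^ p := by
  have h1 : ((univ : Finset (Fin p → Fin N)).filter (fun W => ∀ t ≤ p * N,
      Even (X.filter (fun w => wt W w = t)).card)) ⊆
      (univ : Finset (Fin p)).biUnion (fun i => univ.filter (fun W => Bd X i W)) := by
    intro W hW
    obtain ⟨i, hi⟩ := bad_sub X hX W (mem_filter.1 hW).2
    exact mem_biUnion.2 ⟨i, mem_univ _, mem_filter.2 ⟨mem_univ _, hi⟩⟩
  have h2 := (Finset.card_le_card h1).trans Finset.card_biUnion_le
  have h3 : ∑ i : Fin p, ((univ : Finset (Fin p → Fin N)).filter (fun W => Bd X i W)).card ≤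
      p * N ^ (p - 1) := by
    calc _ ≤ ∑ _i : Fin p, N ^ (p - 1) := Finset.sum_le_sum (fun i _ => card_bd X i)
      _ = p * N ^ (p - 1) := by simp
  rcases Nat.eq_zero_or_pos p with h0 | h0
  · subst h0
    have h4 := h2.trans h3
    have h5 := Nat.le_zero.1 (h4.trans (le_of_eq (Nat.zero_mul (N ^ (0 - 1)))))
    rw [h5]
    exact Nat.zero_le _
  · calc _ ≤ 2 * (p * N ^ (p - 1)) := Nat.mul_le_mul_left _ (h2.trans h3)
      _ = (2 * p) * N ^ (p - 1) := by ring
      _ ≤ N * N ^ (p - 1) := Nat.mul_le_mul_right _ hN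
      _ = N ^ p := by
        rw [← pow_succ']
        congr 1
        omega

end M1_ns

/-- M1: the isolation lemma, parity version -/
theorem M1 : S_M1 := by
  classical
  intro p s X hX hp
  have h := M1_ns.main (N := 2 ^ s) X hX hp
  rw [Nat.card_eq_fintype_card, Fintype.card_subtype]
  refine le_trans (le_of_eq ?_) h
  congr 2

end Pool.Agent.H695R3.SF
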