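import Pool.Agent.H695R3.SF.Defs2

/-! Task M10 of helper695 (helper814): bit strings and pairs (graph, automorphism). -/

namespace Pool.Agent.H695R3.SF

open Finset

namespace M10_ns

/-- encoding of two matrices -/
def enc (n : ℕ) (f g : ℕ → ℕ → Bool) : List Bool :=
  (List.range (2 * n * n)).map (fun k => if k < n * n then f (k / n) (k % n)
    else g ((k - n * n) / n) ((k - n * n) % n))

lemma enc_length (n : ℕ) (f g : ℕ → ℕ → Bool) : (enc n f g).length = 2 * n * n := by simp [enc]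

lemma pos_lt {n i j : ℕ} (hi : i < n) (hj : j < n) : i * n + j < n * n := by nlinarith

lemma pos_div {n i j : ℕ} (hj : j < n) : (i * n + j) / n = i := by
  rw [add_comm, Nat.add_mul_div_right _ _ (by omega), Nat.div_eq_of_lt hj, zero_add]

lemma pos_mod {n i j : ℕ} (hj : j < n) : (i * n + j) % n = j := by
  rw [add_comm, Nat.add_mul_mod_self_right, Nat.mod_eq_of_lt hj]

lemma getD_enc {n : ℕ} (f g : ℕ → ℕ → Bool) {k : ℕ} (hk : k < 2 * n * n) :
    (enc n f g).getD k false = if k < n * n then f (k / n) (k % n)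
      else g ((k - n * n) / n) ((k - n * n) % n) := by
  rw [List.getD_eq_getElem _ _ (by rw [enc_length]; exact hk)]
  simp [enc]

lemma bt0 {n i j : ℕ} (f g : ℕ → ℕ → Bool) (hi : i < n) (hj : j < n) :
    bt n (enc n f g) 0 i j = f i j := by
  have h1 := pos_lt hi hj
  unfold bt
  rw [zero_mul, zero_mul, zero_add, getD_enc f g (by nlinarith), if_pos h1, pos_div hj, pos_mod hj]

lemma bt1 {n i j : ℕ} (f g : ℕ → ℕ → Bool) (hi : i < n) (hj : j < n) :
    bt n (enc n f g) 1 i j = g i j := by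
  have h1 := pos_lt hi hj
  unfold bt
  rw [one_mul, getD_enc f g (by nlinarith), if_neg (by omega)]
  have : n * n + i * n + j - n * n = i * n + j := by omega
  rw [this, pos_div hj, pos_mod hj]

lemma ext_bt {n : ℕ} {y y' : List Bool} (h : y.length = 2 * n * n) (h' : y'.length = 2 * n * n)
    (h0 : ∀ i j, i < n → j < n → bt n y 0 i j = bt n y' 0 i j)
    (h1 : ∀ i j, i < n → j < n → bt n y 1 i j = bt n y' 1 i j) : y = y' := by
  apply List.ext_getElem (by rw [h, h'])
  intro k hk hk'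
  rw [← List.getD_eq_getElem _ false hk, ← List.getD_eq_getElem _ false hk']
  have hn : 0 < n := by
    rcases Nat.eq_zero_or_pos n with rfl | hn
    · rw [h] at hk; omega
    · exact hn
  by_cases hkn : k < n * n
  · have e1 := h0 (k / n) (k % n) (Nat.div_lt_of_lt_mul hkn) (Nat.mod_lt _ hn)
    unfold bt at e1
    rw [zero_mul, zero_mul, zero_add, mul_comm (k / n) n, Nat.div_add_mod] at e1
    exact e1
  · have hk2 : k - n * n < n * n := by
      rw [h] at hk
      have : 2 * n * n = n * n + n * n := by ring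
      omega
    have e1 := h1 ((k - n * n) / n) ((k - n * n) % n) (Nat.div_lt_of_lt_mul hk2) (Nat.mod_lt _ hn)
    unfold bt at e1
    have e2 : 1 * n * n + (k - n * n) / n * n + (k - n * n) % n = k := by
      have := Nat.div_add_mod (k - n * n) n
      rw [mul_comm n] at this
      rw [one_mul]; omega
    rw [e2] at e1
    exact e1

/-- a function on `Fin n` as a function on `ℕ` -/
def lf {n : ℕ} (f : Fin n → Fin n → Bool) : ℕ → ℕ → Bool := fun i j =>
  if h : i < n ∧ j < n then f ⟨i, h.1⟩ ⟨j, h.2⟩ else false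

lemma lf_eq {n : ℕ} (f : Fin n → Fin n → Bool) (i j : Fin n) : lf f i j = f i j := by
  unfold lf; rw [dif_pos ⟨i.2, j.2⟩]

lemma filter_one (n : ℕ) (p : ℕ → Bool) :
    ((List.range n).filter p).length = 1 ↔ ∃ j : Fin n, ∀ j' : Fin n, p j' = true ↔ j = j' := by
  rw [List.length_eq_one_iff]
  constructor
  · rintro ⟨a, ha⟩
    have h1 : ∀ k, (k < n ∧ p k = true) ↔ k = a := by
      intro k
      rw [← List.mem_range, ← List.mem_filter, ha, List.mem_singleton]
    have h2 := (h1 a).2 rfl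
    refine ⟨⟨a, h2.1⟩, fun j' => ?_⟩
    constructor
    · intro h; exact Fin.ext ((h1 j').1 ⟨j'.2, h⟩).symm
    · rintro rfl; exact h2.2
  · rintro ⟨j, hj⟩
    refine ⟨j.val, ?_⟩
    have hnd : ((List.range n).filter p).Nodup := List.Nodup.filter _ List.nodup_range
    have hmem : ∀ k, k ∈ (List.range n).filter p ↔ k = j.val := by
      intro k
      rw [List.mem_filter, List.mem_range]
      constructor
      · rintro ⟨h1, h2⟩
        have := (hj ⟨k, h1⟩).1 h2
        rw [this]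
      · rintro rfl
        exact ⟨j.2, (hj j).2 rfl⟩
    apply List.Perm.eq_singleton
    rw [List.perm_ext_iff_of_nodup hnd (List.nodup_singleton _)]
    intro k
    rw [hmem, List.mem_singleton]

lemma isPM_iff (n : ℕ) (l : List Bool) (o : ℕ) : isPM n l o = true ↔
    ∃ σ : Equiv.Perm (Fin n), ∀ i j : Fin n, bt n l o i j = true ↔ σ i = j := by
  unfold isPM
  simp only [List.all_eq_true, List.mem_range, Bool.and_eq_true, decide_eq_true_eq, filter_one]
  constructor
  · intro h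
    have h1 : ∀ i : Fin n, ∃ j : Fin n, ∀ j' : Fin n, bt n l o i j' = true ↔ j = j' :=
      fun i => (h i i.2).1
    choose σ hσ using h1
    have hinj : Function.Injective σ := by
      intro i i' hii
      obtain ⟨k, hk⟩ := (h (σ i) (σ i).2).2
      have e1 := (hk i).1 ((hσ i (σ i)).2 rfl)
      have e2 := (hk i').1 ((hσ i' (σ i)).2 hii.symm)
      rw [← e1, ← e2]
    refine ⟨Equiv.ofBijective σ (Finite.injective_iff_bijective.1 hinj), fun i j => ?_⟩
    exact hσ i j
  · rintro ⟨σ, hσ⟩ i hi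
    refine ⟨⟨σ ⟨i, hi⟩, fun j' => hσ ⟨i, hi⟩ j'⟩, ⟨σ.symm ⟨i, hi⟩, fun j' => ?_⟩⟩
    rw [hσ j' ⟨i, hi⟩, Equiv.symm_apply_eq]
    exact eq_comm

lemma isGr_iff (n : ℕ) (l : List Bool) (o : ℕ) : isGr n l o = true ↔
    ∀ i : Fin n, bt n l o i i = false ∧ ∀ j : Fin n, bt n l o i j = bt n l o j i := by
  unfold isGr
  simp only [List.all_eq_true, List.mem_range, Bool.and_eq_true, Bool.not_eq_true', beq_iff_eq]
  constructor
  · intro h i
    exact ⟨(h i i.2).1, fun j => (h i i.2).2 j j.2⟩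
  · intro h i hi
    exact ⟨(h ⟨i, hi⟩).1, fun j hj => (h ⟨i, hi⟩).2 ⟨j, hj⟩⟩

lemma imp_bool (a b c : Bool) : (!(a && b) || c) = true ↔ (a = true → b = true → c = true) := by
  cases a <;> cases b <;> cases c <;> simp

lemma autI_iff (n : ℕ) (y : List Bool) : autI n y = true ↔
    ∀ i j i' j' : Fin n, bt n y 1 i i' = true → bt n y 1 j j' = true →
      bt n y 0 i j = bt n y 0 i' j' := by
  unfold autI
  simp only [List.all_eq_true, List.mem_range, imp_bool, beq_iff_eq]
  constructor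
  · intro h i j i' j'
    exact h i i.2 j j.2 i' i'.2 j' j'.2
  · intro h i hi j hj i' hi' j' hj'
    exact h ⟨i, hi⟩ ⟨j, hj⟩ ⟨i', hi'⟩ ⟨j', hj'⟩

lemma embI_iff (T : Inp) (n : ℕ) (y w : List Bool) : embI T n y w = true ↔
    ∀ i j i' j' : Fin n, bt n w 0 i i' = true → bt n w 0 j j' = true → bt n y 0 i j = true →
      adI T i' j' = true := by
  unfold embI
  have key : ∀ a b c d : Bool, (!(a && b && c) || d) = true ↔
      (a = true → b = true → c = true → d = true) := by
    intro a b c d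
    cases a <;> cases b <;> cases c <;> cases d <;> simp
  simp only [List.all_eq_true, List.mem_range, key]
  constructor
  · intro h i j i' j'
    exact h i i.2 j j.2 i' i'.2 j' j'.2
  · intro h i hi j hj i' hi' j' hj'
    exact h ⟨i, hi⟩ ⟨j, hj⟩ ⟨i', hi'⟩ ⟨j', hj'⟩

lemma tr2I_congr (T : Inp) (n : ℕ) (w w' : List Bool)
    (h : ∀ i j, i < n → j < n → bt n w 1 i j = bt n w' 1 i j) (hw : tr2I T n w = true) :
    tr2I T n w' = true := by
  unfold tr2I at hw ⊢
  simp only [List.all_eq_true, List.any_eq_true, List.mem_range, Bool.and_eq_true, Bool.or_eq_true,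
    decide_eq_true_eq] at hw ⊢
  obtain ⟨h1, h2⟩ := hw
  constructor
  · intro i hi
    rcases h1 i hi with h3 | ⟨j, hj, h4, a, ha, b, hb, h5, h6⟩
    · exact Or.inl h3
    · refine Or.inr ⟨j, hj, h4, a, ha, b, hb, ?_, ?_⟩
      · rw [← h i a hi ha]; exact h5
      · rw [← h j b hj (hb.trans ha)]; exact h6
  · intro i hi
    refine Eq.trans ?_ (h2 i hi)
    congr 1
    apply List.filter_congr
    intro a ha
    rw [List.mem_range] at ha
    exact (h i a hi ha).symm

end M10_ns

open M10_ns Classical in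
theorem M10 (h8 : S_M8) : S_M10 := by
  intro T hT
  obtain ⟨ht1, w0, hw0, htr⟩ := (h8 T).1 hT
  set n := T.1.length with hn
  -- the condition on y
  have hex : ∀ (y : List Bool) (F : SimpleGraph (Fin n)),
      (∀ i j : Fin n, bt n y 0 i j = true ↔ F.Adj i j) →
      ((∃ w : List Bool, w.length = 2 * n * n ∧ RelI (T, y, w) = true) ↔
        (isGr n y 0 = true ∧ isPM n y 1 = true ∧ autI n y = true ∧ Emb F (grP T))) := by
    intro y F hF
    have hrel : ∀ w, RelI (T, y, w) = true ↔ (tr2I T n w = true ∧ isGr n y 0 = true ∧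
        isPM n y 1 = true ∧ autI n y = true ∧ isPM n w 0 = true ∧ embI T n y w = true) := by
      intro w
      unfold RelI
      simp only [Bool.and_eq_true]
      constructor
      · rintro ⟨⟨⟨⟨⟨⟨_, a⟩, b⟩, c⟩, d⟩, e⟩, f⟩
        exact ⟨a, b, c, d, e, f⟩
      · rintro ⟨a, b, c, d, e, f⟩
        exact ⟨⟨⟨⟨⟨⟨ht1, a⟩, b⟩, c⟩, d⟩, e⟩, f⟩
    constructor
    · rintro ⟨w, _, hw⟩
      rw [hrel] at hw
      obtain ⟨_, b, c, d, e, f⟩ := hw
      refine ⟨b, c, d, ?_⟩
      obtain ⟨σ, hσ⟩ := (isPM_iff n w 0).1 e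
      refine ⟨σ, fun u v huv => ?_⟩
      show adI T (σ u) (σ v) = true
      exact (embI_iff T n y w).1 f u v (σ u) (σ v) ((hσ _ _).2 rfl) ((hσ _ _).2 rfl)
        ((hF _ _).2 huv)
    · rintro ⟨b, c, d, σ, hσ⟩
      set w := enc n (lf (fun i j : Fin n => decide (σ i = j))) (fun i j => bt n w0 1 i j) with hw
      refine ⟨w, enc_length _ _ _, (hrel w).2 ⟨?_, b, c, d, ?_, ?_⟩⟩
      · apply tr2I_congr T n w0 w _ htr
        intro i j hi hj
        rw [hw, bt1 _ _ hi hj]
      · rw [isPM_iff]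
        refine ⟨σ, fun i j => ?_⟩
        rw [hw, bt0 _ _ i.2 j.2, lf_eq, decide_eq_true_eq]
      · rw [embI_iff]
        intro i j i' j' h1 h2 h3
        rw [hw, bt0 _ _ i.2 i'.2, lf_eq, decide_eq_true_eq] at h1
        rw [hw, bt0 _ _ j.2 j'.2, lf_eq, decide_eq_true_eq] at h2
        have := hσ i j ((hF _ _).1 h3)
        rw [h1, h2] at this
        exact this
  -- the map
  let Ψ : SimpleGraph (Fin n) × Equiv.Perm (Fin n) → List Bool := fun p =>
    enc n (lf (fun i j => decide (p.1.Adj i j))) (lf (fun i j => decide (p.2 i = j)))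
  have hΨ0 : ∀ p (i j : Fin n), bt n (Ψ p) 0 i j = decide (p.1.Adj i j) := by
    intro p i j
    simp only [Ψ]
    rw [bt0 _ _ i.2 j.2, lf_eq]
  have hΨ1 : ∀ p (i j : Fin n), bt n (Ψ p) 1 i j = decide (p.2 i = j) := by
    intro p i j
    simp only [Ψ]
    rw [bt1 _ _ i.2 j.2, lf_eq]
  have hgr : ∀ p, isGr n (Ψ p) 0 = true := by
    intro p
    rw [isGr_iff]
    intro i
    refine ⟨?_, fun j => ?_⟩
    · rw [hΨ0]; simp
    · rw [hΨ0, hΨ0, p.1.adj_comm]
  have hpm : ∀ p, isPM n (Ψ p) 1 = true := by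
    intro p
    rw [isPM_iff]
    refine ⟨p.2, fun i j => ?_⟩
    rw [hΨ1, decide_eq_true_eq]
  have hau : ∀ p : SimpleGraph (Fin n) × Equiv.Perm (Fin n), autI n (Ψ p) = true ↔
      ∀ u v, p.1.Adj u v ↔ p.1.Adj (p.2 u) (p.2 v) := by
    intro p
    rw [autI_iff]
    simp only [hΨ0, hΨ1, decide_eq_true_eq, decide_eq_decide]
    constructor
    · intro h u v
      exact h u v _ _ rfl rfl
    · rintro h i j i' j' rfl rfl
      exact h i j
  have hmaps : ∀ p : SimpleGraph (Fin n) × Equiv.Perm (Fin n),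
      (Emb p.1 (grP T) ∧ ∀ u v, p.1.Adj u v ↔ p.1.Adj (p.2 u) (p.2 v)) →
      ((Ψ p).length = 2 * n * n ∧
        ∃ w : List Bool, w.length = 2 * n * n ∧ RelI (T, Ψ p, w) = true) := by
    intro p hp
    refine ⟨enc_length _ _ _, ?_⟩
    rw [hex (Ψ p) p.1 (fun i j => by rw [hΨ0, decide_eq_true_eq])]
    exact ⟨hgr p, hpm p, (hau p).2 hp.2, hp.1⟩
  symm
  apply Nat.card_congr
  refine Equiv.ofBijective (fun p => ⟨Ψ p.1, hmaps p.1 p.2⟩) ⟨?_, ?_⟩
  · rintro ⟨p, hp⟩ ⟨p', hp'⟩ heq
    have h1 : Ψ p = Ψ p' := congrArg Subtype.val heq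
    apply Subtype.ext
    show p = p'
    apply Prod.ext
    · ext i j
      have := hΨ0 p i j
      rw [h1, hΨ0, decide_eq_decide] at this
      exact this.symm
    · ext i
      have := hΨ1 p i (p.2 i)
      rw [h1, hΨ1, decide_eq_decide] at this
      have := this.2 rfl
      rw [this]
  · rintro ⟨y, hy, hw⟩
    have hgy : isGr n y 0 = true ∧ isPM n y 1 = true := by
      obtain ⟨w, _, hw⟩ := hw
      unfold RelI at hw
      simp only [Bool.and_eq_true] at hw
      obtain ⟨⟨⟨⟨⟨⟨_, a⟩, b⟩, c⟩, d⟩, e⟩, f⟩ := hw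
      exact ⟨b, c⟩
    have hg := (isGr_iff n y 0).1 hgy.1
    let F : SimpleGraph (Fin n) :=
      { Adj := fun i j => bt n y 0 i j = true
        symm := ⟨fun i j h => by rw [← (hg i).2 j]; exact h⟩
        loopless := ⟨fun i h => by rw [(hg i).1] at h; exact absurd h (by simp)⟩ }
    obtain ⟨σ, hσ⟩ := (isPM_iff n y 1).1 hgy.2
    have hΨy : Ψ (F, σ) = y := by
      apply ext_bt (enc_length _ _ _) hy
      · intro i j hi hj
        have := hΨ0 (F, σ) ⟨i, hi⟩ ⟨j, hj⟩
        rw [this]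
        apply Bool.eq_iff_iff.2
        exact @decide_eq_true_iff (F.Adj ⟨i, hi⟩ ⟨j, hj⟩) (Classical.propDecidable _)
      · intro i j hi hj
        have := hΨ1 (F, σ) ⟨i, hi⟩ ⟨j, hj⟩
        rw [this]
        have h2 := hσ ⟨i, hi⟩ ⟨j, hj⟩
        show decide (σ ⟨i, hi⟩ = ⟨j, hj⟩) = bt n y 1 i j
        have h3 : (bt n y 1 i j = true) ↔ σ ⟨i, hi⟩ = ⟨j, hj⟩ := h2
        by_cases h4 : σ ⟨i, hi⟩ = ⟨j, hj⟩
        · rw [h3.2 h4]; simp [h4]
        · have : bt n y 1 i j = false := by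
            by_contra h5
            exact h4 (h3.1 (by simpa using h5))
          rw [this]; simp [h4]
    have hF := (hex y F (fun i j => Iff.rfl)).1 hw
    have hp : Emb F (grP T) ∧ ∀ u v, F.Adj u v ↔ F.Adj (σ u) (σ v) := by
      refine ⟨hF.2.2.2, ?_⟩
      have := hF.2.2.1
      rw [← hΨy] at this
      exact (hau (F, σ)).1 this
    exact ⟨⟨(F, σ), hp⟩, Subtype.ext hΨy⟩

end Pool.Agent.H695R3.SF
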