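import Pool.Agent.H695R3.SF.Defs2

set_option autoImplicit false

namespace Pool.Agent.H695R3.SF

theorem M2 : S_M2 := by
  intro m c hm
  by_cases hc : Even c
  · rw [if_pos hc]
    have h2 : 2 ^ m ∣ c ^ m := pow_dvd_pow_of_dvd hc.two_dvd m
    have h3 : 1 + (2 ^ m - 1) * c ^ m ≡ 1 [MOD 2 ^ m] := by
      have h4 : (2 ^ m - 1) * c ^ m ≡ 0 [MOD 2 ^ m] :=
        (Nat.modEq_zero_iff_dvd).2 (Dvd.dvd.mul_left h2 _)
      simpa using Nat.ModEq.add_left 1 h4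
    simpa using h3.pow m
  · rw [if_neg hc]
    have ho : Odd c := Nat.not_even_iff_odd.1 hc
    have h1 : Odd (2 ^ m - 1) := by
      have h5 : Even (2 ^ m) := (Nat.even_pow).2 ⟨even_two, by omega⟩
      have h6 : 1 ≤ 2 ^ m := Nat.one_le_two_pow
      exact Nat.Even.sub_odd h6 h5 odd_one
    have h2 : Even (1 + (2 ^ m - 1) * c ^ m) := odd_one.add_odd (h1.mul ho.pow)
    exact (Nat.modEq_zero_iff_dvd).2 (pow_dvd_pow_of_dvd h2.two_dvd m)

end Pool.Agent.H695R3.SF
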