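import Pool.Agent.H695R3.SF.Defs2

/-!
# M3: the value of the counting function
-/

namespace Pool.Agent.H695R3.SF

open Finset

namespace M3_ns

theorem exists_ofFn {α : Type} {n : ℕ} (l : List α) (h : l.length = n) :
    ∃ f : Fin n → α, List.ofFn f = l := by
  subst h
  exact ⟨fun i => l[i], List.ofFn_getElem⟩

/-- the number of lists of length `T` with all entries in a set -/
theorem card_lists {α : Type} (T : ℕ) (Q : α → Prop) :
    Nat.card {l : List α // l.length = T ∧ ∀ x ∈ l, Q x} = Nat.card {x // Q x} ^ T := by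
  have h : Nat.card (Fin T → {x // Q x}) = Nat.card {l : List α // l.length = T ∧ ∀ x ∈ l, Q x} := by
    let f : (Fin T → {x // Q x}) → {l : List α // l.length = T ∧ ∀ x ∈ l, Q x} := fun g =>
      ⟨List.ofFn (fun i => (g i).1), by simp, by
        intro x hx
        rw [List.mem_ofFn] at hx
        obtain ⟨i, rfl⟩ := hx
        exact (g i).2⟩
    refine Nat.card_eq_of_bijective f ⟨?_, ?_⟩
    · intro g g' hg
      have h1 := List.ofFn_injective (congrArg Subtype.val hg)
      funext i
      exact Subtype.ext (congrFun h1 i)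
    · rintro ⟨l, hl, hQ⟩
      obtain ⟨g, rfl⟩ := exists_ofFn l hl
      refine ⟨fun i => ⟨g i, hQ _ ?_⟩, ?_⟩
      · rw [List.mem_ofFn]
        exact ⟨i, rfl⟩
      · rfl
  rw [← h, Nat.card_fun, Nat.card_fin]

theorem wsum_ofFn {p : ℕ} (W : Fin p → ℕ) (w : Fin p → Bool) :
    wsum (List.ofFn W) (List.ofFn w) = ∑ i, if w i = true then W i else 0 := by
  unfold wsum
  have : (List.ofFn W).zip (List.ofFn w) = List.ofFn (fun i => (W i, w i)) := by
    apply List.ext_getElem
    · simp
    · intro i h1 h2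
      simp
  rw [this, List.map_ofFn, List.sum_ofFn]
  rfl

open Classical in
theorem cnt_ofFn {p : ℕ} (P : List Bool → Bool) (W : Fin p → ℕ) (t : ℕ) :
    cnt p P (List.ofFn W) t =
      ((univ.filter (fun w : Fin p → Bool => P (List.ofFn w) = true)).filter
        (fun w => ∑ i, (if w i = true then W i else 0) = t)).card := by
  unfold cnt
  rw [filter_filter, ← Fintype.card_subtype, ← Nat.card_eq_fintype_card]
  symm
  let f : {w : Fin p → Bool // P (List.ofFn w) = true ∧
      ∑ i, (if w i = true then W i else 0) = t} →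
      {w : List Bool // w.length = p ∧ P w = true ∧ wsum (List.ofFn W) w = t} := fun w =>
    ⟨List.ofFn w.1, by simp, w.2.1, by rw [wsum_ofFn]; exact w.2.2⟩
  refine Nat.card_eq_of_bijective f ⟨?_, ?_⟩
  · intro g g' hg
    exact Subtype.ext (List.ofFn_injective (congrArg Subtype.val hg))
  · rintro ⟨l, hl, hP, hw⟩
    obtain ⟨g, rfl⟩ := exists_ofFn l hl
    rw [wsum_ofFn] at hw
    exact ⟨⟨g, hP, hw⟩, rfl⟩

/-- all the numbers of witnesses are even -/
def EE (p s : ℕ) (P : List Bool → Bool) (ρ : List ℕ) : Prop :=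
  ∀ t ≤ p * 2 ^ s, Even (cnt p P ρ t)

theorem card_W (p s : ℕ) : Nat.card {ρ // IsW p s ρ} = (2 ^ s) ^ p := by
  have h := card_lists p (fun x : ℕ => x < 2 ^ s)
  have h2 : Nat.card {x : ℕ // x < 2 ^ s} = 2 ^ s := by
    rw [Nat.card_congr Fin.equivSubtype.symm, Nat.card_fin]
  rw [h2] at h
  exact h

theorem card_good (p s : ℕ) (P : List Bool → Bool) (hp : 2 * p ≤ 2 ^ s) (h1 : S_M1)
    (hw : ∃ w : List Bool, w.length = p ∧ P w = true) :
    2 * Nat.card {ρ // IsW p s ρ ∧ EE p s P ρ} ≤ (2 ^ s) ^ p := by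
  classical
  obtain ⟨w0, hw0, hP0⟩ := hw
  obtain ⟨g0, rfl⟩ := exists_ofFn w0 hw0
  have key := h1 p s (univ.filter (fun w : Fin p → Bool => P (List.ofFn w) = true))
    ⟨g0, by simpa using hP0⟩ hp
  refine le_trans (Nat.mul_le_mul_left 2 (le_of_eq ?_)) key
  symm
  let f : {W : Fin p → Fin (2 ^ s) // ∀ t ≤ p * 2 ^ s,
      Even ((univ.filter (fun w : Fin p → Bool => P (List.ofFn w) = true)).filter
        (fun w => ∑ i, (if w i = true then (W i).val else 0) = t)).card} →
      {ρ // IsW p s ρ ∧ EE p s P ρ} := fun W =>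
    ⟨List.ofFn (fun i => (W.1 i).val), ⟨by simp, by
        intro x hx
        rw [List.mem_ofFn] at hx
        obtain ⟨i, rfl⟩ := hx
        exact (W.1 i).2⟩, by
        intro t ht
        rw [cnt_ofFn]
        exact W.2 t ht⟩
  refine Nat.card_eq_of_bijective f ⟨?_, ?_⟩
  · intro g g' hg
    have h2 := List.ofFn_injective (congrArg Subtype.val hg)
    refine Subtype.ext (funext fun i => Fin.ext (congrFun h2 i))
  · rintro ⟨l, ⟨hl, hlt⟩, hE⟩
    obtain ⟨g, rfl⟩ := exists_ofFn l hl
    refine ⟨⟨fun i => ⟨g i, hlt _ ?_⟩, ?_⟩, rfl⟩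
    · rw [List.mem_ofFn]
      exact ⟨i, rfl⟩
    · intro t ht
      have := hE t ht
      rw [cnt_ofFn] at this
      exact this

theorem modEq_list_prod {ι : Type} (m : ℕ) (l : List ι) (f g : ι → ℕ)
    (h : ∀ i ∈ l, f i ≡ g i [MOD m]) : (l.map f).prod ≡ (l.map g).prod [MOD m] := by
  induction l with
  | nil => exact Nat.ModEq.refl _
  | cons a l ih =>
    simp only [List.map_cons, List.prod_cons]
    exact (h a List.mem_cons_self).mul (ih fun i hi => h i (List.mem_cons_of_mem _ hi))

theorem list_prod_ind {ι : Type} (l : List ι) (Q : ι → Prop) [DecidablePred Q]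
    [Decidable (∀ i ∈ l, Q i)] :
    (l.map (fun i => if Q i then 1 else 0)).prod = if ∀ i ∈ l, Q i then 1 else 0 := by
  split_ifs with h
  · apply List.prod_eq_one
    intro x hx
    rw [List.mem_map] at hx
    obtain ⟨i, hi, rfl⟩ := hx
    rw [if_pos (h i hi)]
  · push Not at h
    obtain ⟨i, hi, hQ⟩ := h
    apply List.prod_eq_zero
    rw [List.mem_map]
    exact ⟨i, hi, if_neg hQ⟩

open Classical in
theorem term_mod (h2 : S_M2) (p s m : ℕ) (hm : 1 ≤ m) (P : List Bool → Bool)
    (r : List (List ℕ)) :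
    (r.map (fun ρ => ((List.range (p * 2 ^ s + 1)).map (fun t =>
      (1 + (2 ^ m - 1) * cnt p P ρ t ^ m) ^ m)).prod)).prod ≡
      (if ∀ ρ ∈ r, EE p s P ρ then 1 else 0) [MOD 2 ^ m] := by
  have e1 : (if ∀ ρ ∈ r, EE p s P ρ then 1 else 0) =
      (r.map (fun ρ => ((List.range (p * 2 ^ s + 1)).map (fun t =>
        if Even (cnt p P ρ t) then 1 else 0)).prod)).prod := by
    have h3 : ∀ ρ, ((List.range (p * 2 ^ s + 1)).map (fun t =>
        if Even (cnt p P ρ t) then 1 else 0)).prod = if EE p s P ρ then 1 else 0 := by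
      intro ρ
      rw [list_prod_ind]
      refine if_congr ?_ rfl rfl
      unfold EE
      simp
    simp_rw [h3]
    rw [list_prod_ind]
  rw [e1]
  refine modEq_list_prod _ _ _ _ fun ρ _ => modEq_list_prod _ _ _ _ fun t _ => ?_
  have := h2 m (cnt p P ρ t) hm
  convert this using 1

theorem finite_R (p s T : ℕ) : {r : List (List ℕ) | IsR p s T r}.Finite := by
  have h := card_lists T (IsW p s)
  rw [card_W] at h
  have h2 : Nat.card {l : List (List ℕ) // l.length = T ∧ ∀ x ∈ l, IsW p s x} ≠ 0 := by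
    rw [h]; positivity
  exact Nat.finite_of_card_ne_zero h2

theorem modEq_sum {ι : Type} (m : ℕ) (A : Finset ι) (f g : ι → ℕ)
    (h : ∀ i ∈ A, f i ≡ g i [MOD m]) : ∑ i ∈ A, f i ≡ ∑ i ∈ A, g i [MOD m] := by
  classical
  induction A using Finset.induction_on with
  | empty => exact Nat.ModEq.refl _
  | insert a A ha ih =>
    rw [sum_insert ha, sum_insert ha]
    exact (h a (mem_insert_self _ _)).add (ih fun i hi => h i (mem_insert_of_mem hi))

/-- the number of good lists of weights -/
noncomputable def nn (p s : ℕ) (P : List Bool → List Bool → Bool) (y : List Bool) : ℕ :=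
  Nat.card {ρ // IsW p s ρ ∧ EE p s (P y) ρ}

theorem GG_mod (h2 : S_M2) (q p s T m : ℕ) (hm : 1 ≤ m) (P : List Bool → List Bool → Bool) :
    GG q p s T m P ≡ ∑ y ∈ (List.finite_length_eq Bool q).toFinset, nn p s P y ^ T
      [MOD 2 ^ m] := by
  classical
  unfold GG
  have hS : {x : List Bool × List (List ℕ) | x.1.length = q ∧ IsR p s T x.2} =
      (((List.finite_length_eq Bool q).toFinset ×ˢ (finite_R p s T).toFinset : Finset _) :
        Set (List Bool × List (List ℕ))) := by
    ext x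
    simp
  rw [hS, finsum_mem_coe_finset, sum_product]
  refine modEq_sum _ _ _ _ fun y _ => ?_
  have h3 : nn p s P y ^ T = ∑ r ∈ (finite_R p s T).toFinset,
      if ∀ ρ ∈ r, EE p s (P y) ρ then 1 else 0 := by
    unfold nn
    rw [← card_lists, sum_boole]
    simp only [Nat.cast_id]
    refine Nat.subtype_card _ fun r => ?_
    simp only [mem_filter, Set.Finite.mem_toFinset, Set.mem_ofPred_eq]
    unfold IsR
    constructor
    · rintro ⟨⟨a, b⟩, c⟩
      exact ⟨a, fun x hx => ⟨b x hx, c x hx⟩⟩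
    · rintro ⟨a, b⟩
      exact ⟨⟨a, fun x hx => (b x hx).1⟩, fun x hx => (b x hx).2⟩
  rw [h3]
  exact modEq_sum _ _ _ _ fun r _ => term_mod h2 p s m hm (P y) r

end M3_ns

open M3_ns in
theorem M3 (h1 : S_M1) (h2 : S_M2) : S_M3 := by
  classical
  intro q p s P hp
  set T := q + 2 with hT
  set m := q + T * p * s + 1 with hm
  set Y := (List.finite_length_eq Bool q).toFinset with hY
  set b := (2 ^ s) ^ p with hb
  have hbT : b ^ T = 2 ^ (T * p * s) := by
    rw [hb, ← pow_mul, ← pow_mul]; congr 1; ring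
  have hb0 : 0 < b ^ T := by rw [hbT]; positivity
  let W : List Bool → Prop := fun y => ∃ w : List Bool, w.length = p ∧ P y w = true
  have hYc : Y.card = 2 ^ q := by
    have h3 := card_lists (α := Bool) q (fun _ => True)
    have h4 : Nat.card {l : List Bool // l.length = q ∧ ∀ x ∈ l, True} = Y.card :=
      Nat.subtype_card _ fun l => by simp [hY]
    have h5 : Nat.card {x : Bool // True} = 2 := by simp
    rw [h4, h5] at h3
    exact h3
  have hK : Nat.card {y : List Bool // y.length = q ∧ ∃ w : List Bool, w.length = p ∧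
      P y w = true} = (Y.filter W).card :=
    Nat.subtype_card _ fun l => by simp [hY, W]
  set K := (Y.filter W).card with hKdef
  have hKle : K ≤ 2 ^ q := by rw [← hYc]; exact card_filter_le _ _
  have hno : ∀ y, ¬ W y → nn p s P y = b := by
    intro y hy
    have hE : ∀ ρ, EE p s (P y) ρ := by
      intro ρ t _
      have : cnt p (P y) ρ t = 0 := by
        unfold cnt
        rw [Nat.card_eq_zero]
        left
        exact ⟨fun w => hy ⟨w.1, w.2.1, w.2.2.1⟩⟩
      rw [this]
      exact Even.zero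
    unfold nn
    rw [hb, ← card_W p s]
    exact Nat.card_congr (Equiv.subtypeEquivRight fun ρ => by simp [hE ρ])
  have hyes : ∀ y, W y → 2 ^ T * nn p s P y ^ T ≤ b ^ T := by
    intro y hy
    rw [← mul_pow]
    exact Nat.pow_le_pow_left (card_good p s (P y) hp h1 hy) T
  set E := ∑ y ∈ Y.filter W, nn p s P y ^ T with hE
  have hN : ∑ y ∈ Y, nn p s P y ^ T = b ^ T * (2 ^ q - K) + E := by
    rw [← sum_filter_add_sum_filter_not Y W, add_comm]
    congr 1
    have h3 : ∀ y ∈ Y.filter (fun y => ¬ W y), nn p s P y ^ T = b ^ T := by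
      intro y hy
      rw [hno y (mem_filter.1 hy).2]
    rw [sum_congr rfl h3, sum_const, smul_eq_mul, mul_comm]
    congr 1
    have h4 := card_filter_add_card_filter_not (s := Y) W
    rw [hYc] at h4
    omega
  have hElt : 4 * E ≤ b ^ T := by
    have h3 : 2 ^ T * E ≤ 2 ^ q * b ^ T := by
      rw [hE, mul_sum]
      calc ∑ y ∈ Y.filter W, 2 ^ T * nn p s P y ^ T ≤ ∑ y ∈ Y.filter W, b ^ T :=
            sum_le_sum fun y hy => hyes y (mem_filter.1 hy).2
        _ = K * b ^ T := by rw [sum_const, smul_eq_mul]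
        _ ≤ 2 ^ q * b ^ T := Nat.mul_le_mul_right _ hKle
    have h4 : 2 ^ T = 2 ^ q * 4 := by rw [hT, pow_add]; norm_num
    rw [h4, mul_assoc] at h3
    exact Nat.le_of_mul_le_mul_left h3 (by positivity)
  have hE' : E < b ^ T := by omega
  have hmod := GG_mod h2 q p s T m (by omega) P
  have hlt : b ^ T * (2 ^ q - K) + E < 2 ^ m := by
    have h3 : 2 ^ m = 2 * (2 ^ q * b ^ T) := by
      rw [hm, hbT, pow_succ, pow_add]; ring
    rw [h3]
    have h4 : b ^ T * (2 ^ q - K) ≤ 2 ^ q * b ^ T := by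
      rw [mul_comm]
      exact Nat.mul_le_mul_right _ (Nat.sub_le _ _)
    have h5 : b ^ T ≤ 2 ^ q * b ^ T := Nat.le_mul_of_pos_left _ (by positivity)
    omega
  have hval : GG q p s T m P % 2 ^ m = b ^ T * (2 ^ q - K) + E := by
    rw [hN] at hmod
    have h3 : GG q p s T m P % 2 ^ m = (b ^ T * (2 ^ q - K) + E) % 2 ^ m := hmod
    rw [h3, Nat.mod_eq_of_lt hlt]
  rw [hK]
  change GG q p s T m P % 2 ^ m / 2 ^ (T * p * s) + K = 2 ^ q
  rw [hval, ← hbT, Nat.mul_add_div hb0, Nat.div_eq_of_lt hE']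
  omega

end Pool.Agent.H695R3.SF
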