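import Pool.Agent.H695R3.SF.Defs2

/-!
M4: the number of correct certificates.
-/

namespace Pool.Agent.H695R3.SF

namespace M4_ns

theorem zipCount {α β : Type} (R : α → β → Bool) : ∀ l : List α,
    Nat.card {z : List β // z.length = l.length ∧ (l.zip z).all (fun x => R x.1 x.2) = true} =
      (l.map (fun a => Nat.card {b : β // R a b = true})).prod
  | [] => by
      have : Unique {z : List β // z.length = ([] : List α).length ∧
          (([] : List α).zip z).all (fun x => R x.1 x.2) = true} :=
        { default := ⟨[], rfl, by simp⟩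
          uniq := by
            rintro ⟨z, h1, h2⟩
            apply Subtype.ext
            exact List.eq_nil_of_length_eq_zero h1 }
      rw [Nat.card_unique]
      simp
  | a :: l => by
      rw [List.map_cons, List.prod_cons, ← zipCount R l, ← Nat.card_prod]
      symm
      let f : {b : β // R a b = true} ×
          {z : List β // z.length = l.length ∧ (l.zip z).all (fun x => R x.1 x.2) = true} →
          {z : List β // z.length = (a :: l).length ∧
            ((a :: l).zip z).all (fun x => R x.1 x.2) = true} :=
        fun x => ⟨x.1.1 :: x.2.1, by simp [x.2.2.1], by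
          rw [List.zip_cons_cons, List.all_cons, Bool.and_eq_true]
          exact ⟨x.1.2, x.2.2.2⟩⟩
      apply Nat.card_congr (Equiv.ofBijective f _)
      constructor
      · rintro ⟨⟨b, hb⟩, ⟨z, hz⟩⟩ ⟨⟨b', hb'⟩, ⟨z', hz'⟩⟩ h
        have h' : b :: z = b' :: z' := congrArg Subtype.val h
        rw [List.cons.injEq] at h'
        obtain ⟨rfl, rfl⟩ := h'
        rfl
      · rintro ⟨z, h1, h2⟩
        cases z with
        | nil => simp at h1
        | cons b z =>
          rw [List.zip_cons_cons, List.all_cons, Bool.and_eq_true] at h2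
          refine ⟨⟨⟨b, h2.1⟩, ⟨z, ?_, h2.2⟩⟩, rfl⟩
          simpa using h1

theorem powCount {β : Type} (S : β → Bool) : ∀ n : ℕ,
    Nat.card {z : List β // z.length = n ∧ z.all S = true} =
      Nat.card {b : β // S b = true} ^ n
  | 0 => by
      have : Unique {z : List β // z.length = 0 ∧ z.all S = true} :=
        { default := ⟨[], rfl, by simp⟩
          uniq := by
            rintro ⟨z, h1, h2⟩
            apply Subtype.ext
            exact List.eq_nil_of_length_eq_zero h1 }
      rw [Nat.card_unique]
      simp
  | n + 1 => by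
      rw [pow_succ', ← powCount S n, ← Nat.card_prod]
      symm
      let f : {b : β // S b = true} ×
          {z : List β // z.length = n ∧ z.all S = true} →
          {z : List β // z.length = n + 1 ∧ z.all S = true} :=
        fun x => ⟨x.1.1 :: x.2.1, by simp [x.2.2.1], by
          rw [List.all_cons, Bool.and_eq_true]
          exact ⟨x.1.2, x.2.2.2⟩⟩
      apply Nat.card_congr (Equiv.ofBijective f _)
      constructor
      · rintro ⟨⟨b, hb⟩, ⟨z, hz⟩⟩ ⟨⟨b', hb'⟩, ⟨z', hz'⟩⟩ h
        have h' : b :: z = b' :: z' := congrArg Subtype.val h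
        rw [List.cons.injEq] at h'
        obtain ⟨rfl, rfl⟩ := h'
        rfl
      · rintro ⟨z, h1, h2⟩
        cases z with
        | nil => simp at h1
        | cons b z =>
          rw [List.all_cons, Bool.and_eq_true] at h2
          refine ⟨⟨⟨b, h2.1⟩, ⟨z, ?_, h2.2⟩⟩, rfl⟩
          simpa using h1

theorem finLists {α : Type} (S : α → Prop) (hS : Set.Finite {a | S a}) (n : ℕ) :
    Set.Finite {l : List α | l.length = n ∧ ∀ a ∈ l, S a} := by
  haveI : Finite {a // S a} := hS
  refine ((List.finite_length_eq {a // S a} n).image (List.map Subtype.val)).subset ?_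
  rintro l ⟨h1, h2⟩
  refine ⟨l.pmap Subtype.mk h2, ?_, ?_⟩
  · simp [h1]
  · rw [List.map_pmap]
    simp

theorem finBool (p : ℕ) : Set.Finite {w : List Bool | w.length = p} :=
  List.finite_length_eq Bool p

/-- the number of pairs -/
theorem pairCount (p m : ℕ) (P : List Bool → Bool) (ρ : List ℕ) (t : ℕ) :
    Nat.card {uw : ℕ × List (List Bool) // (decide (uw.1 < 2 ^ m) && decide (uw.2.length = m) &&
        uw.2.all (fun w => decide (w.length = p) &&
          (if uw.1 = 0 then w.all (fun b => !b)
            else P w && decide (wsum ρ w = t)))) = true} =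
      1 + (2 ^ m - 1) * cnt p P ρ t ^ m := by
  set S : ℕ → List Bool → Bool := fun u w => decide (w.length = p) &&
          (if u = 0 then w.all (fun b => !b)
            else P w && decide (wsum ρ w = t)) with hS
  have hfin : ∀ u : ℕ, Finite {ws : List (List Bool) // ws.length = m ∧ ws.all (S u) = true} := by
    intro u
    refine Set.Finite.subset (finLists (fun w : List Bool => w.length = p) (finBool p) m) ?_
    rintro ws ⟨h1, h2⟩
    refine ⟨h1, fun w hw => ?_⟩
    have := List.all_eq_true.1 h2 w hw
    simp only [hS, Bool.and_eq_true, decide_eq_true_eq] at this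
    exact this.1
  obtain ⟨k, hk⟩ : ∃ k, 2 ^ m = k + 1 := ⟨2 ^ m - 1, by have := Nat.one_le_two_pow (n := m); omega⟩
  have e1 : Nat.card {uw : ℕ × List (List Bool) //
        (decide (uw.1 < 2 ^ m) && decide (uw.2.length = m) && uw.2.all (S uw.1)) = true} =
      Nat.card (Σ u : Fin (k + 1), {ws : List (List Bool) // ws.length = m ∧
        ws.all (S u.1) = true}) := by
    apply Nat.card_congr
    exact
      { toFun := fun x => ⟨⟨x.1.1, by
            have := x.2
            simp only [Bool.and_eq_true, decide_eq_true_eq] at this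
            rw [← hk]; exact this.1.1⟩, ⟨x.1.2, by
            have := x.2
            simp only [Bool.and_eq_true, decide_eq_true_eq] at this
            exact ⟨this.1.2, this.2⟩⟩⟩
        invFun := fun x => ⟨(x.1.1, x.2.1), by
            have h1 : x.1.1 < 2 ^ m := lt_of_lt_of_eq x.1.2 hk.symm
            have h2 := x.2.2
            simp only [Bool.and_eq_true, decide_eq_true_eq]
            exact ⟨⟨h1, h2.1⟩, h2.2⟩⟩
        left_inv := fun x => rfl
        right_inv := fun x => rfl }
  have e2 : ∀ u : Fin (k + 1), Nat.card {ws : List (List Bool) // ws.length = m ∧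
        ws.all (S u.1) = true} = if u = 0 then 1 else cnt p P ρ t ^ m := by
    intro u
    rw [powCount]
    by_cases hu : u = 0
    · rw [if_pos hu]
      have : Unique {b : List Bool // S u.1 b = true} :=
        { default := ⟨List.replicate p false, by simp [hS, hu]⟩
          uniq := by
            rintro ⟨b, hb⟩
            apply Subtype.ext
            simp only [hS, hu, Fin.val_zero, if_true, Bool.and_eq_true, decide_eq_true_eq,
              List.all_eq_true, Bool.not_eq_true'] at hb
            exact List.eq_replicate_iff.2 hb }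
      rw [Nat.card_unique, one_pow]
    · rw [if_neg hu]
      have hu' : u.1 ≠ 0 := fun h => hu (Fin.ext h)
      congr 1
      unfold cnt
      apply Nat.card_congr
      apply Equiv.subtypeEquivRight
      intro w
      simp only [hS, hu', if_false, Bool.and_eq_true, decide_eq_true_eq]
  show Nat.card {uw : ℕ × List (List Bool) //
        (decide (uw.1 < 2 ^ m) && decide (uw.2.length = m) && uw.2.all (S uw.1)) = true} = _
  rw [e1, Nat.card_sigma, Finset.sum_congr rfl (fun u _ => e2 u), Fin.sum_univ_succ, hk]
  simp

theorem finX (q p s T : ℕ) :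
    Set.Finite {x : List Bool × List (List ℕ) | x.1.length = q ∧ IsR p s T x.2} := by
  have h1 : Set.Finite {ρ : List ℕ | IsW p s ρ} :=
    finLists (fun x : ℕ => x < 2 ^ s) (Set.finite_lt_nat (2 ^ s)) p
  have h2 : Set.Finite {r : List (List ℕ) | IsR p s T r} := finLists (IsW p s) h1 T
  exact (finBool q).prod h2

end M4_ns

open M4_ns in
theorem M4 : S_M4 := by
  intro q p s T m P _
  unfold GG
  rw [← finsum_set_coe_eq_finsum_mem]
  haveI : Finite {x : List Bool × List (List ℕ) | x.1.length = q ∧ IsR p s T x.2} :=
    finX q p s T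
  haveI : Fintype {x : List Bool × List (List ℕ) | x.1.length = q ∧ IsR p s T x.2} :=
    Fintype.ofFinite _
  rw [finsum_eq_sum_of_fintype]
  -- the relation of the last part
  set Q3 : List Bool → List ℕ → ℕ → List (ℕ × List (List Bool)) → Bool := fun y ρ t z =>
    decide (z.length = m) && z.all (fun uw => decide (uw.1 < 2 ^ m) && decide (uw.2.length = m) &&
        uw.2.all (fun w => decide (w.length = p) &&
          (if uw.1 = 0 then w.all (fun b => !b)
            else P y w && decide (wsum ρ w = t)))) with hQ3
  set Q2 : List Bool → List ℕ → List (List (ℕ × List (List Bool))) → Bool := fun y ρ z =>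
    decide (z.length = p * 2 ^ s + 1) &&
      ((List.range (p * 2 ^ s + 1)).zip z).all (fun tz => Q3 y ρ tz.1 tz.2) with hQ2
  have c3 : ∀ y ρ t, Nat.card {z // Q3 y ρ t z = true} =
      (1 + (2 ^ m - 1) * cnt p (P y) ρ t ^ m) ^ m := by
    intro y ρ t
    rw [← pairCount, ← powCount]
    apply Nat.card_congr
    apply Equiv.subtypeEquivRight
    intro z
    simp only [hQ3]
    rw [Bool.and_eq_true, decide_eq_true_eq]
  have c2 : ∀ y ρ, Nat.card {z // Q2 y ρ z = true} =
      ((List.range (p * 2 ^ s + 1)).map (fun t =>
        (1 + (2 ^ m - 1) * cnt p (P y) ρ t ^ m) ^ m)).prod := by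
    intro y ρ
    rw [show (fun t => (1 + (2 ^ m - 1) * cnt p (P y) ρ t ^ m) ^ m) =
      (fun t => Nat.card {z // Q3 y ρ t z = true}) from funext fun t => (c3 y ρ t).symm,
      ← zipCount]
    apply Nat.card_congr
    apply Equiv.subtypeEquivRight
    intro z
    simp only [hQ2]
    rw [Bool.and_eq_true, decide_eq_true_eq, List.length_range]
  have c1 : ∀ (y : List Bool) (r : List (List ℕ)),
      Nat.card {z : List (List (List (ℕ × List (List Bool)))) // z.length = r.length ∧
        (r.zip z).all (fun x => Q2 y x.1 x.2) = true} =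
      (r.map (fun ρ => ((List.range (p * 2 ^ s + 1)).map (fun t =>
        (1 + (2 ^ m - 1) * cnt p (P y) ρ t ^ m) ^ m)).prod)).prod := by
    intro y r
    rw [zipCount]
    congr 1
    apply List.map_congr_left
    intro ρ _
    exact c2 y ρ
  have hfin : ∀ (y : List Bool) (r : List (List ℕ)),
      Finite {z : List (List (List (ℕ × List (List Bool)))) // z.length = r.length ∧
        (r.zip z).all (fun x => Q2 y x.1 x.2) = true} := by
    intro y r
    apply Nat.finite_of_card_ne_zero
    rw [c1]
    apply Nat.pos_iff_ne_zero.1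
    apply List.prod_pos
    intro x hx
    rw [List.mem_map] at hx
    obtain ⟨ρ, _, rfl⟩ := hx
    apply List.prod_pos
    intro x hx
    rw [List.mem_map] at hx
    obtain ⟨t, _, rfl⟩ := hx
    positivity
  have e : Nat.card {c : Cert // okC q p s T m P c = true} =
      Nat.card (Σ x : {x : List Bool × List (List ℕ) | x.1.length = q ∧ IsR p s T x.2},
        {z : List (List (List (ℕ × List (List Bool)))) // z.length = x.1.2.length ∧
        (x.1.2.zip z).all (fun w => Q2 x.1.1 w.1 w.2) = true}) := by
    have key : ∀ c : Cert, okC q p s T m P c = true ↔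
        ((c.1.1.length = q ∧ IsR p s T c.1.2) ∧ (c.2.length = c.1.2.length ∧
          (c.1.2.zip c.2).all (fun w => Q2 c.1.1 w.1 w.2) = true)) := by
      intro c
      have : okC q p s T m P c = (decide (c.1.1.length = q) && decide (c.1.2.length = T) &&
        c.1.2.all (fun ρ => decide (ρ.length = p) && ρ.all (fun x => decide (x < 2 ^ s))) &&
        decide (c.2.length = T) && (c.1.2.zip c.2).all (fun w => Q2 c.1.1 w.1 w.2)) := rfl
      rw [this]
      simp only [Bool.and_eq_true, decide_eq_true_eq, List.all_eq_true, IsR, IsW]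
      constructor
      · rintro ⟨⟨⟨⟨h1, h2⟩, h3⟩, h4⟩, h5⟩
        exact ⟨⟨h1, h2, h3⟩, by rw [h2, h4], h5⟩
      · rintro ⟨⟨h1, h2, h3⟩, h4, h5⟩
        exact ⟨⟨⟨⟨h1, h2⟩, h3⟩, by rw [h4, h2]⟩, h5⟩
    apply Nat.card_congr
    exact
      { toFun := fun c => ⟨⟨c.1.1, ((key c.1).1 c.2).1⟩, ⟨c.1.2, ((key c.1).1 c.2).2⟩⟩
        invFun := fun x => ⟨(x.1.1, x.2.1), (key _).2 ⟨x.1.2, x.2.2⟩⟩
        left_inv := fun x => rfl
        right_inv := fun x => rfl }
  rw [e]
  haveI := fun x : {x : List Bool × List (List ℕ) | x.1.length = q ∧ IsR p s T x.2} =>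
    hfin x.1.1 x.1.2
  rw [Nat.card_sigma]
  apply Finset.sum_congr rfl
  intro x _
  exact c1 x.1.1 x.1.2

end Pool.Agent.H695R3.SF
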