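import Pool.Agent.H695R3.SF.Defs2
import Pool.Agent.H527R3.Toda.Main

/-!
# M5: `#·NP` is contained in `FP^#P` (helper527)
-/

namespace Pool.Agent.H695R3.SF

open Pool.Agent.NPC Pool.Agent.NPC.Cnt

theorem M5 : S_M5 := fun _ _ _ R q p post f hR hq hp hpost hf =>
  inFPSharpP_of_sharpNP R q p post f hR hq hp hpost hf

end Pool.Agent.H695R3.SF
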