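import Pool.Agent.H695R3.SF.Defs2
import Mathlib

namespace Pool.Agent.H695R3.SF

namespace M6_ns

/-- relabelling of a graph -/
def rel {V : Type} (σ : Equiv.Perm V) (F : SimpleGraph V) : SimpleGraph V :=
  F.comap σ.symm

theorem rel_adj {V : Type} (σ : Equiv.Perm V) (F : SimpleGraph V) (u v : V) :
    (rel σ F).Adj u v ↔ F.Adj (σ.symm u) (σ.symm v) := Iff.rfl

theorem emb_rel {V : Type} (σ : Equiv.Perm V) (F G : SimpleGraph V) (h : Emb F G) :
    Emb (rel σ F) G := by
  obtain ⟨π, hπ⟩ := h
  refine ⟨σ.symm.trans π, fun u v huv => ?_⟩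
  simp only [Equiv.trans_apply]
  exact hπ _ _ huv

@[reducible] def act {V : Type} (G : SimpleGraph V) :
    MulAction (Equiv.Perm V) {F : SimpleGraph V // Emb F G} where
  smul σ F := ⟨rel σ F.1, emb_rel σ F.1 G F.2⟩
  one_smul := fun F => by
    apply Subtype.ext
    ext u v
    exact Iff.rfl
  mul_smul := fun σ τ F => by
    apply Subtype.ext
    ext u v
    exact Iff.rfl

end M6_ns

open M6_ns in
theorem M6 : S_M6 := by
  classical
  intro n G
  let _ := act G
  have hsm : ∀ (σ : Equiv.Perm (Fin n)) (F : {F : SimpleGraph (Fin n) // Emb F G}),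
      (σ • F).1 = rel σ F.1 := fun σ F => rfl
  have hB := MulAction.sum_card_fixedBy_eq_card_orbits_mul_card_group
    (Equiv.Perm (Fin n)) {F : SimpleGraph (Fin n) // Emb F G}
  have hcard : Fintype.card (Equiv.Perm (Fin n)) = n.factorial := by
    rw [Fintype.card_perm, Fintype.card_fin]
  -- orbits
  have horb : Nat.card (Quotient (isoSetoid G)) =
      Fintype.card (MulAction.orbitRel.Quotient (Equiv.Perm (Fin n))
        {F : SimpleGraph (Fin n) // Emb F G}) := by
    rw [← Nat.card_eq_fintype_card]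
    let φ : {H : SimpleGraph (Fin n) // H ≤ G} → {F : SimpleGraph (Fin n) // Emb F G} :=
      fun H => ⟨H.1, 1, fun u v h => H.2 h⟩
    have hrel : ∀ H H' : {H : SimpleGraph (Fin n) // H ≤ G},
        (isoSetoid G).r H H' ↔ (MulAction.orbitRel (Equiv.Perm (Fin n))
          {F : SimpleGraph (Fin n) // Emb F G}).r (φ H) (φ H') := by
      intro H H'
      constructor
      · rintro ⟨e⟩
        refine ⟨e.toEquiv.symm, ?_⟩
        apply Subtype.ext
        ext u v
        change H'.1.Adj (e u) (e v) ↔ H.1.Adj u v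
        exact e.map_rel_iff
      · rintro ⟨σ, hσ⟩
        have h2 : rel σ H'.1 = H.1 := congrArg Subtype.val hσ
        refine ⟨⟨σ.symm, ?_⟩⟩
        intro u v
        rw [← h2]
        exact Iff.rfl
    refine Nat.card_congr (Equiv.ofBijective
      (Quotient.map' φ (fun H H' h => (hrel H H').1 h)) ⟨?_, ?_⟩)
    · intro a b
      induction a using Quotient.inductionOn' with | _ H => ?_
      induction b using Quotient.inductionOn' with | _ H' => ?_
      intro h
      have h' := Quotient.exact' h
      exact Quotient.sound' ((hrel H H').2 h')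
    · intro b
      induction b using Quotient.inductionOn' with | _ F => ?_
      obtain ⟨F, π, hπ⟩ := F
      refine ⟨Quotient.mk'' ⟨rel π F, fun u v h => ?_⟩, ?_⟩
      · have := hπ _ _ h
        simpa using this
      · refine Quotient.sound' ⟨π, ?_⟩
        apply Subtype.ext
        rfl
  have hfix : ∀ σ : Equiv.Perm (Fin n),
      Fintype.card (MulAction.fixedBy {F : SimpleGraph (Fin n) // Emb F G} σ) =
        Nat.card {F : SimpleGraph (Fin n) // Emb F G ∧
          ∀ u v, F.Adj u v ↔ F.Adj (σ u) (σ v)} := by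
    intro σ
    rw [← Nat.card_eq_fintype_card]
    refine Nat.card_congr
      { toFun := fun F => ⟨F.1.1, F.1.2, fun u v => ?_⟩
        invFun := fun F => ⟨⟨F.1, F.2.1⟩, ?_⟩
        left_inv := fun F => rfl
        right_inv := fun F => rfl }
    · have h1 : rel σ F.1.1 = F.1.1 := congrArg Subtype.val F.2
      have h2 : (rel σ F.1.1).Adj (σ u) (σ v) ↔ F.1.1.Adj (σ u) (σ v) := by rw [h1]
      rw [← h2, rel_adj]
      simp
    · apply Subtype.ext
      ext u v
      change F.1.Adj (σ.symm u) (σ.symm v) ↔ F.1.Adj u v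
      rw [F.2.2]
      simp
  have hsum : Nat.card {p : SimpleGraph (Fin n) × Equiv.Perm (Fin n) // Emb p.1 G ∧
      ∀ u v, p.1.Adj u v ↔ p.1.Adj (p.2 u) (p.2 v)} =
      ∑ σ : Equiv.Perm (Fin n), Nat.card {F : SimpleGraph (Fin n) // Emb F G ∧
          ∀ u v, F.Adj u v ↔ F.Adj (σ u) (σ v)} := by
    rw [← Nat.card_sigma]
    exact Nat.card_congr
      { toFun := fun p => ⟨p.1.2, p.1.1, p.2⟩
        invFun := fun s => ⟨(s.2.1, s.1), s.2.2⟩
        left_inv := fun p => rfl
        right_inv := fun s => rfl }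
  rw [hsum, ← Finset.sum_congr rfl (fun σ _ => hfix σ), hB, hcard]
  unfold cls
  rw [horb]

end Pool.Agent.H695R3.SF
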