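import Pool.Agent.H695R3.SF.Defs2
import Pool.Agent.H671R2.PolyAuto

/-!
# M7: the relation is polynomial
-/

namespace Pool.Agent.H695R3.SF

open Pool.Agent.NPC

namespace M7_ns

variable {α γ : Type} [TEnc α] [TEnc γ]

theorem bt_poly {n o i j : α → ℕ} {l : α → List Bool} (hn : Poly n) (hl : Poly l) (ho : Poly o)
    (hi : Poly i) (hj : Poly j) : Poly (fun a => bt (n a) (l a) (o a) (i a) (j a)) := by
  unfold bt
  fun_prop

attribute [local fun_prop] bt_poly

theorem adI_poly {T : α → Inp} {i j : α → ℕ} (hT : Poly T) (hi : Poly i) (hj : Poly j) :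
    Poly (fun a => adI (T a) (i a) (j a)) := by
  unfold adI
  fun_prop

attribute [local fun_prop] adI_poly

theorem rg {k : α → List γ} (hk : Poly k) : Poly (fun a => List.range (k a).length) :=
  Poly.range_length hk

theorem isPM_poly {k : α → List γ} {l : α → List Bool} (hk : Poly k) (hl : Poly l) (o : ℕ) :
    Poly (fun a => isPM (k a).length (l a) o) := by
  unfold isPM
  refine Poly.all (rg hk) ?_
  refine Poly.and (Poly.decide_eq (Poly.length (Poly.filter (rg (k := fun q : α × ℕ => k q.1)
    (by fun_prop)) ?_)) (NPC.Poly.const 1)) (Poly.decide_eq (Poly.length (Poly.filter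
    (rg (k := fun q : α × ℕ => k q.1) (by fun_prop)) ?_)) (NPC.Poly.const 1))
  · fun_prop
  · fun_prop

theorem isGr_poly {k : α → List γ} {l : α → List Bool} (hk : Poly k) (hl : Poly l) (o : ℕ) :
    Poly (fun a => isGr (k a).length (l a) o) := by
  unfold isGr
  refine Poly.all (rg hk) (Poly.and ?_ ?_)
  · fun_prop
  · refine Poly.all (rg (k := fun q : α × ℕ => k q.1) (by fun_prop)) ?_
    simp only [Bool.beq_eq_decide_eq]
    fun_prop

theorem autI_poly {k : α → List γ} {l : α → List Bool} (hk : Poly k) (hl : Poly l) :
    Poly (fun a => autI (k a).length (l a)) := by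
  unfold autI
  refine Poly.all (rg hk) ?_
  refine Poly.all (rg (k := fun q : α × ℕ => k q.1) (by fun_prop)) ?_
  refine Poly.all (rg (k := fun q : (α × ℕ) × ℕ => k q.1.1) (by fun_prop)) ?_
  refine Poly.all (rg (k := fun q : ((α × ℕ) × ℕ) × ℕ => k q.1.1.1) (by fun_prop)) ?_
  simp only [Bool.beq_eq_decide_eq]
  fun_prop

theorem embI_poly {T : α → Inp} {k : α → List γ} {y w : α → List Bool} (hT : Poly T)
    (hk : Poly k) (hy : Poly y) (hw : Poly w) :
    Poly (fun a => embI (T a) (k a).length (y a) (w a)) := by
  unfold embI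
  refine Poly.all (rg hk) ?_
  refine Poly.all (rg (k := fun q : α × ℕ => k q.1) (by fun_prop)) ?_
  refine Poly.all (rg (k := fun q : (α × ℕ) × ℕ => k q.1.1) (by fun_prop)) ?_
  refine Poly.all (rg (k := fun q : ((α × ℕ) × ℕ) × ℕ => k q.1.1.1) (by fun_prop)) ?_
  fun_prop

theorem filter_range (p : ℕ → Bool) (i n : ℕ) (h : i ≤ n) :
    (List.range i).filter p = (List.range n).filter (fun j => decide (j < i) && p j) := by
  induction n, h using Nat.le_induction with
  | base =>
    apply List.filter_congr
    intro j hj
    rw [List.mem_range] at hj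
    simp [hj]
  | succ n hn ih =>
    rw [List.range_succ, List.filter_append, ← ih]
    have : ¬ n < i := by omega
    simp [this]

theorem any_range (p : ℕ → Bool) (i n : ℕ) (h : i ≤ n) :
    (List.range i).any p = (List.range n).any (fun j => decide (j < i) && p j) := by
  rw [Bool.eq_iff_iff]
  simp only [List.any_eq_true, List.mem_range, Bool.and_eq_true, decide_eq_true_eq]
  constructor
  · rintro ⟨j, hj, hp⟩
    exact ⟨j, by omega, hj, hp⟩
  · rintro ⟨j, _, hj, hp⟩
    exact ⟨j, hj, hp⟩

theorem any_congr_range (n : ℕ) (p q : ℕ → Bool) (h : ∀ a < n, p a = q a) :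
    (List.range n).any p = (List.range n).any q := by
  rw [Bool.eq_iff_iff]
  simp only [List.any_eq_true, List.mem_range]
  constructor
  · rintro ⟨j, hj, hp⟩
    exact ⟨j, hj, by rw [← h j hj]; exact hp⟩
  · rintro ⟨j, hj, hp⟩
    exact ⟨j, hj, by rw [h j hj]; exact hp⟩

theorem tr1I_poly {T : α → Inp} (hT : Poly T) : Poly (fun a => tr1I (T a)) := by
  have hk : Poly (fun a => (T a).1) := by fun_prop
  have h1 : Poly (fun a => decide (1 ≤ (T a).1.length)) := by fun_prop
  have h2 : Poly (fun a => (List.range (T a).1.length).all (fun i =>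
      (List.range (T a).1.length).all (fun j =>
      decide (i = j) || !decide ((T a).1.getD i 0 = (T a).1.getD j 0)))) := by
    refine Poly.all (rg hk) ?_
    refine Poly.all (rg (k := fun q : α × ℕ => (T q.1).1) (by fun_prop)) ?_
    fun_prop
  have h3 : Poly (fun a => (T a).2.all (fun p => decide (p.1 ∈ (T a).1) && decide (p.2 ∈ (T a).1) &&
      !decide (p.1 = p.2))) := by fun_prop
  have h4 : Poly (fun a => decide (((List.range (T a).1.length).flatMap (fun i =>
      (List.range (T a).1.length).filter (fun j => decide (j < i) && adI (T a) i j))).length + 1 =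
        (T a).1.length)) := by
    refine Poly.decide_eq (Poly.add (Poly.length (Poly.flatMap (rg hk) ?_)) (NPC.Poly.const 1))
      (Poly.length hk)
    refine Poly.filter (rg (k := fun q : α × ℕ => (T q.1).1) (by fun_prop)) ?_
    fun_prop
  refine (Poly.and (Poly.and (Poly.and h1 h2) h3) h4).congr fun a => ?_
  unfold tr1I
  congr 2
  have h5 : (List.range (T a).1.length).flatMap (fun i =>
      (List.range (T a).1.length).filter (fun j => decide (j < i) && adI (T a) i j)) =
      (List.range (T a).1.length).flatMap (fun i =>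
        (List.range i).filter (fun j => adI (T a) i j)) := by
    apply List.flatMap_congr
    intro i hi
    rw [List.mem_range] at hi
    exact (filter_range _ i _ hi.le).symm
  rw [h5]

theorem tr2I_poly {T : α → Inp} {k : α → List γ} {w : α → List Bool} (hT : Poly T)
    (hk : Poly k) (hw : Poly w) : Poly (fun a => tr2I (T a) (k a).length (w a)) := by
  have h1 : Poly (fun a => (List.range (k a).length).all (fun i => decide (i = 0) ||
      (List.range (k a).length).any (fun j => adI (T a) i j &&
      (List.range (k a).length).any (fun u => (List.range (k a).length).any (fun v =>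
        decide (v < u) && (bt (k a).length (w a) 1 i u && bt (k a).length (w a) 1 j v)))))) := by
    refine Poly.all (rg hk) (Poly.or (by fun_prop) ?_)
    refine Poly.any (rg (k := fun q : α × ℕ => k q.1) (by fun_prop)) (Poly.and (by fun_prop) ?_)
    refine Poly.any (rg (k := fun q : (α × ℕ) × ℕ => k q.1.1) (by fun_prop)) ?_
    refine Poly.any (rg (k := fun q : ((α × ℕ) × ℕ) × ℕ => k q.1.1.1) (by fun_prop)) ?_
    fun_prop
  have h2 : Poly (fun a => (List.range (k a).length).all (fun i =>
      decide (((List.range (k a).length).filter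
        (fun u => bt (k a).length (w a) 1 i u)).length = 1))) := by
    refine Poly.all (rg hk) (Poly.decide_eq (Poly.length (Poly.filter
      (rg (k := fun q : α × ℕ => k q.1) (by fun_prop)) ?_)) (NPC.Poly.const 1))
    fun_prop
  refine (Poly.and h1 h2).congr fun a => ?_
  unfold tr2I
  congr 2
  funext i
  congr 2
  funext j
  congr 1
  apply any_congr_range
  intro u hu
  exact (any_range _ u _ hu.le).symm

end M7_ns

open M7_ns in
theorem M7 : S_M7 := by
  unfold S_M7 RelI
  have hT : Poly (fun x : Inp × List Bool × List Bool => x.1) := by fun_prop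
  have hk : Poly (fun x : Inp × List Bool × List Bool => x.1.1) := by fun_prop
  have hy : Poly (fun x : Inp × List Bool × List Bool => x.2.1) := by fun_prop
  have hw : Poly (fun x : Inp × List Bool × List Bool => x.2.2) := by fun_prop
  exact Poly.and (Poly.and (Poly.and (Poly.and (Poly.and (Poly.and (tr1I_poly hT)
    (tr2I_poly hT hk hw)) (isGr_poly hk hy 0)) (isPM_poly hk hy 1)) (autI_poly hk hy))
    (isPM_poly hk hw 0)) (embI_poly hT hk hy hw)

end Pool.Agent.H695R3.SF
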