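import Pool.Agent.H695R3.SF.Defs2

/-!
# Counting unlabelled subforests: task M8, the tree test
-/

set_option autoImplicit false

namespace Pool.Agent.H695R3.SF

open Finset

namespace M8_ns

theorem getD_lt (l : List ℕ) (i : ℕ) (h : i < l.length) : l.getD i 0 = l[i] := by
  rw [List.getD_eq_getElem?_getD, List.getElem?_eq_getElem h]; rfl

theorem grP_adj (T : Inp) (i j : Fin T.1.length) : (grP T).Adj i j ↔ adI T i j = true := Iff.rfl

/-- the graph on the positions -/
theorem iso (T : Inp) (h : T.1.Nodup) : Nonempty (grP T ≃g grI T) := by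
  refine ⟨⟨List.Nodup.getEquiv T.1 h, ?_⟩⟩
  intro i j
  have hi : T.1.getD i 0 = T.1[i] := getD_lt _ _ i.2
  have hj : T.1.getD j 0 = T.1[j] := getD_lt _ _ j.2
  have e : ∀ k : Fin T.1.length, (List.Nodup.getEquiv T.1 h k).1 = T.1[k] := fun k => rfl
  rw [grP_adj]
  unfold grI adI
  simp only [Bool.and_eq_true, Bool.or_eq_true, Bool.not_eq_true', decide_eq_false_iff_not,
    decide_eq_true_eq, hi, hj, e, ne_eq, EmbeddingLike.apply_eq_iff_eq]
  rw [Fin.ext_iff]

theorem count_edges (T : Inp) :
    ((List.range T.1.length).flatMap (fun i => (List.range i).filter (fun j =>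
      adI T i j))).length = Nat.card (grP T).edgeSet := by
  classical
  have h1 : ((List.range T.1.length).flatMap (fun i => (List.range i).filter (fun j =>
      adI T i j))).length = ((Finset.range T.1.length).sigma
        (fun i => (Finset.range i).filter (fun j => adI T i j = true))).card := by
    rw [List.length_flatMap, Finset.card_sigma]
    have h2 : ∀ a, (List.filter (fun j => adI T a j) (List.range a)).length =
        ((Finset.range a).filter (fun j => adI T a j = true)).card := by
      intro a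
      rw [Finset.card_def, Finset.filter_val, Finset.range_val, Multiset.range,
        Multiset.filter_coe, Multiset.coe_card]
      simp
    simp only [h2]
    rfl
  rw [h1, Nat.card_eq_fintype_card, ← SimpleGraph.edgeFinset_card]
  refine Finset.card_bij (fun (p : (_ : ℕ) × ℕ) hp => s(⟨p.1, ?_⟩, ⟨p.2, ?_⟩)) ?_ ?_ ?_
  · exact Finset.mem_range.1 (Finset.mem_sigma.1 hp).1
  · have h1 := Finset.mem_range.1 (Finset.mem_sigma.1 hp).1
    have h2 := Finset.mem_range.1 (Finset.mem_filter.1 (Finset.mem_sigma.1 hp).2).1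
    omega
  · intro p hp
    rw [SimpleGraph.mem_edgeFinset, SimpleGraph.mem_edgeSet]
    exact (Finset.mem_filter.1 (Finset.mem_sigma.1 hp).2).2
  · intro p hp p' hp' h
    have h1 := Finset.mem_range.1 (Finset.mem_filter.1 (Finset.mem_sigma.1 hp).2).1
    have h2 := Finset.mem_range.1 (Finset.mem_filter.1 (Finset.mem_sigma.1 hp').2).1
    rw [Sym2.eq_iff] at h
    obtain ⟨a, b⟩ := p
    obtain ⟨c, d⟩ := p'
    simp only [Fin.mk.injEq] at h h1 h2
    rcases h with ⟨e1, e2⟩ | ⟨e1, e2⟩
    · subst e1; subst e2; rfl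
    · omega
  · intro e he
    rw [SimpleGraph.mem_edgeFinset] at he
    induction e using Sym2.ind with
    | _ u v =>
      rw [SimpleGraph.mem_edgeSet] at he
      have hne : u ≠ v := he.ne
      have hne' : u.val ≠ v.val := fun h => hne (Fin.ext h)
      rcases lt_or_gt_of_ne hne' with h | h
      · refine ⟨⟨v, u⟩, ?_, ?_⟩
        · rw [Finset.mem_sigma, Finset.mem_filter, Finset.mem_range, Finset.mem_range]
          exact ⟨v.2, h, he.symm⟩
        · exact Sym2.eq_swap
      · refine ⟨⟨u, v⟩, ?_, rfl⟩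
        rw [Finset.mem_sigma, Finset.mem_filter, Finset.mem_range, Finset.mem_range]
        exact ⟨u.2, h, he⟩

/-- the rank certificate -/
theorem conn_of_tr2 (T : Inp) (hn : 1 ≤ T.1.length) (w : List Bool)
    (h : tr2I T T.1.length w = true) : (grP T).Connected := by
  unfold tr2I at h
  simp only [Bool.and_eq_true, List.all_eq_true, List.mem_range, Bool.or_eq_true,
    decide_eq_true_eq, List.any_eq_true] at h
  obtain ⟨h1, h2⟩ := h
  -- the rank
  have hex : ∀ i : Fin T.1.length, ∃ a, a < T.1.length ∧ ∀ b, b < T.1.length →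
      (bt T.1.length w 1 i b = true ↔ b = a) := by
    intro i
    have := h2 i i.2
    obtain ⟨a, ha⟩ := List.length_eq_one_iff.1 this
    have hmem : ∀ b, (b < T.1.length ∧ bt T.1.length w 1 i b = true) ↔ b = a := by
      intro b
      have : b ∈ (List.range T.1.length).filter (fun a => bt T.1.length w 1 i a) ↔ b ∈ [a] := by
        rw [ha]
      simpa using this
    refine ⟨a, ((hmem a).2 rfl).1, fun b hb => ?_⟩
    rw [← hmem b]
    exact ⟨fun h => ⟨hb, h⟩, fun h => h.2⟩
  choose rk hrk hrk' using hex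
  have hstep : ∀ i : Fin T.1.length, i.val ≠ 0 → ∃ j : Fin T.1.length, (grP T).Adj i j ∧
      rk j < rk i := by
    intro i hi
    rcases h1 i i.2 with h0 | ⟨j, hj, hij, a, ha, b, hb, hia, hjb⟩
    · exact absurd h0 hi
    · refine ⟨⟨j, hj⟩, hij, ?_⟩
      have e1 := (hrk' i a ha).1 hia
      have e2 := (hrk' ⟨j, hj⟩ b (by omega)).1 hjb
      omega
  have hreach : ∀ m : ℕ, ∀ i : Fin T.1.length, rk i = m → (grP T).Reachable i ⟨0, by omega⟩ := by
    intro m
    induction m using Nat.strong_induction_on with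
    | _ m ih =>
      intro i hi
      by_cases h0 : i.val = 0
      · have : i = ⟨0, by omega⟩ := Fin.ext h0
        rw [this]
      · obtain ⟨j, hj, hlt⟩ := hstep i h0
        exact hj.reachable.trans (ih (rk j) (by omega) j rfl)
  haveI : Nonempty (Fin T.1.length) := ⟨⟨0, by omega⟩⟩
  refine ⟨fun i j => ?_⟩
  exact (hreach _ i rfl).trans (hreach _ j rfl).symm

theorem tr2_of_conn (T : Inp) (hn : 1 ≤ T.1.length) (hc : (grP T).Connected) :
    ∃ w : List Bool, w.length = 2 * T.1.length * T.1.length ∧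
      tr2I T T.1.length w = true := by
  classical
  set n := T.1.length with hndef
  let o : Fin n := ⟨0, by omega⟩
  -- the rank
  obtain ⟨rk, hr0, hr1, hr2⟩ : ∃ rk : Fin n → ℕ, (∀ i, rk i < n) ∧ rk o = 0 ∧
      ∀ i, i ≠ o → ∃ j, (grP T).Adj i j ∧ rk j < rk i := by
    refine ⟨fun i => (grP T).dist i o, ?_, ?_, ?_⟩
    · intro i
      obtain ⟨p, hp, hlen⟩ := (hc.preconnected i o).exists_path_of_dist
      have := hp.length_lt
      rw [Fintype.card_fin] at this
      beta_reduce
      omega
    · exact SimpleGraph.dist_self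
    · intro i hi
      obtain ⟨p, hp, hlen⟩ := (hc.preconnected i o).exists_path_of_dist
      cases p with
      | nil => exact absurd rfl hi
      | cons hadj q =>
        refine ⟨_, hadj, ?_⟩
        have h1 := SimpleGraph.dist_le q
        rw [SimpleGraph.Walk.length_cons] at hlen
        beta_reduce
        omega
  let w : List Bool := List.ofFn (fun k : Fin (2 * n * n) =>
    decide (∃ i : Fin n, k.val = 1 * n * n + i.val * n + rk i))
  have hw : ∀ i : Fin n, ∀ a, a < n → (bt n w 1 i a = true ↔ a = rk i) := by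
    intro i a ha
    have hk : 1 * n * n + i.val * n + a < 2 * n * n := by
      have : i.val * n + n ≤ n * n := by
        have : (i.val + 1) * n ≤ n * n := Nat.mul_le_mul_right _ i.2
        linarith
      nlinarith
    unfold bt
    rw [List.getD_eq_getElem?_getD, List.getElem?_ofFn, dif_pos hk]
    simp only [Option.getD_some, decide_eq_true_eq]
    constructor
    · rintro ⟨j, hj⟩
      have e : i.val * n + a = j.val * n + rk j := by omega
      have e1 : (i.val * n + a) / n = i.val := by
        rw [mul_comm, Nat.mul_add_div (by omega), Nat.div_eq_of_lt ha, add_zero]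
      have e2 : (j.val * n + rk j) / n = j.val := by
        rw [mul_comm, Nat.mul_add_div (by omega), Nat.div_eq_of_lt (hr0 j), add_zero]
      have e3 : i = j := Fin.ext (by rw [← e1, e, e2])
      subst e3
      omega
    · intro h
      exact ⟨i, by rw [h]⟩
  refine ⟨w, by simp [w], ?_⟩
  unfold tr2I
  simp only [Bool.and_eq_true, List.all_eq_true, List.mem_range, Bool.or_eq_true,
    decide_eq_true_eq, List.any_eq_true]
  refine ⟨?_, ?_⟩
  · intro i hi
    by_cases h0 : i = 0
    · exact Or.inl h0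
    · right
      obtain ⟨j, hj, hlt⟩ := hr2 ⟨i, hi⟩ (fun h => h0 (Fin.ext_iff.1 h))
      refine ⟨j, j.2, hj, rk ⟨i, hi⟩, hr0 _, rk j, hlt, ?_, ?_⟩
      · exact (hw ⟨i, hi⟩ _ (hr0 _)).2 rfl
      · exact (hw j _ (hr0 _)).2 rfl
  · intro i hi
    have : (List.range n).filter (fun a => bt n w 1 i a) =
        (List.range n).filter (fun a => decide (a = rk ⟨i, hi⟩)) := by
      apply List.filter_congr
      intro a ha
      rw [List.mem_range] at ha
      have := hw ⟨i, hi⟩ a ha
      rw [Bool.eq_iff_iff, decide_eq_true_eq]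
      exact this
    rw [this, ← List.countP_eq_length_filter]
    have h2 : List.countP (fun a => decide (a = rk ⟨i, hi⟩)) (List.range n) =
        List.count (rk ⟨i, hi⟩) (List.range n) := by
      rw [List.count]
      congr 1
    rw [h2]
    exact List.count_eq_one_of_mem List.nodup_range (List.mem_range.2 (hr0 _))

end M8_ns

open M8_ns

theorem M8 : S_M8 := by
  intro T
  have hA : TreeI T ↔ T.1.Nodup ∧ (∀ p ∈ T.2, p.1 ∈ T.1 ∧ p.2 ∈ T.1 ∧ p.1 ≠ p.2) ∧
      (grP T).Connected ∧ Nat.card (grP T).edgeSet + 1 = T.1.length := by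
    unfold TreeI
    constructor
    · rintro ⟨h1, h2, h3⟩
      refine ⟨h1, h2, ?_⟩
      obtain ⟨e⟩ := iso T h1
      rw [← e.isTree_iff, SimpleGraph.isTree_iff_connected_and_card, Nat.card_fin] at h3
      exact h3
    · rintro ⟨h1, h2, h3⟩
      refine ⟨h1, h2, ?_⟩
      obtain ⟨e⟩ := iso T h1
      rw [← e.isTree_iff, SimpleGraph.isTree_iff_connected_and_card, Nat.card_fin]
      exact h3
  have hB : tr1I T = true ↔ 1 ≤ T.1.length ∧ T.1.Nodup ∧
      (∀ p ∈ T.2, p.1 ∈ T.1 ∧ p.2 ∈ T.1 ∧ p.1 ≠ p.2) ∧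
      Nat.card (grP T).edgeSet + 1 = T.1.length := by
    unfold tr1I
    rw [count_edges]
    simp only [Bool.and_eq_true, decide_eq_true_eq, List.all_eq_true, List.mem_range,
      Bool.or_eq_true, Bool.not_eq_true', decide_eq_false_iff_not]
    have hnd : (∀ x < T.1.length, ∀ x_1 < T.1.length, x = x_1 ∨ ¬ T.1.getD x 0 = T.1.getD x_1 0) ↔
        T.1.Nodup := by
      rw [List.nodup_iff_injective_get]
      constructor
      · intro h i j hij
        rcases h i i.2 j j.2 with h1 | h1
        · exact Fin.ext h1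
        · rw [getD_lt _ _ i.2, getD_lt _ _ j.2] at h1
          exact absurd hij h1
      · intro h i hi j hj
        by_cases hij : i = j
        · exact Or.inl hij
        · right
          rw [getD_lt _ _ hi, getD_lt _ _ hj]
          intro h1
          exact hij (Fin.ext_iff.1 (h (a₁ := ⟨i, hi⟩) (a₂ := ⟨j, hj⟩) h1))
    rw [hnd]
    constructor
    · rintro ⟨⟨⟨h1, h2⟩, h3⟩, h4⟩
      exact ⟨h1, h2, fun p hp => ⟨(h3 p hp).1.1, (h3 p hp).1.2, (h3 p hp).2⟩, h4⟩
    · rintro ⟨h1, h2, h3, h4⟩
      exact ⟨⟨⟨h1, h2⟩, fun p hp => ⟨⟨(h3 p hp).1, (h3 p hp).2.1⟩, (h3 p hp).2.2⟩⟩, h4⟩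
  rw [hA, hB]
  constructor
  · rintro ⟨h1, h2, h3, h4⟩
    have hn : 1 ≤ T.1.length := by omega
    exact ⟨⟨hn, h1, h2, h4⟩, tr2_of_conn T hn h3⟩
  · rintro ⟨⟨hn, h1, h2, h4⟩, w, -, hw⟩
    exact ⟨h1, h2, conn_of_tr2 T hn w hw, h4⟩

end Pool.Agent.H695R3.SF
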