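import Pool.Agent.H695R3.SF.Defs2

/-!
# M9: the graph on the positions
-/

set_option autoImplicit false

namespace Pool.Agent.H695R3.SF

theorem M9 : S_M9 := by
  intro T hT
  classical
  refine ⟨RelIso.symm ⟨hT.getEquiv T.1, ?_⟩⟩
  intro i j
  have hi : T.1.getD i.val 0 = T.1.get i := by
    rw [List.getD_eq_getElem _ _ i.isLt]
    rfl
  have hj : T.1.getD j.val 0 = T.1.get j := by
    rw [List.getD_eq_getElem _ _ j.isLt]
    rfl
  have hne : (hT.getEquiv T.1 i ≠ hT.getEquiv T.1 j) ↔ ¬ (i.val = j.val) := by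
    rw [Ne, (hT.getEquiv T.1).injective.eq_iff, Fin.ext_iff]
  show (hT.getEquiv T.1 i ≠ hT.getEquiv T.1 j ∧
    ((T.1.get i, T.1.get j) ∈ T.2 ∨ (T.1.get j, T.1.get i) ∈ T.2)) ↔ adI T i j = true
  rw [hne]
  simp only [adI, Bool.and_eq_true, Bool.or_eq_true, Bool.not_eq_true', decide_eq_false_iff_not,
    decide_eq_true_eq, hi, hj]

end Pool.Agent.H695R3.SF
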