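import Pool.Agent.H695R3.SF.Defs2
import Pool.Agent.H527R2.UniP

/-!
# MF: `#SUBFORESTS` is in `FP^#P` (helper527)
-/

namespace Pool.Agent.H695R3.SF

open Pool.Agent.NPC Pool.Agent.NPC.Cnt

theorem MF (h5 : S_M5) (h6 : S_M6) (h7 : S_M7) (h8 : S_M8) (h9 : S_M9) (h10 : S_M10)
    (t6 : S_T6) : InFPSharpP (strFn numSub) := by
  have hn : UPoly (fun T : Inp => T.1.length) := UPoly.length (Poly.fst Poly.id)
  have hq : UPoly (fun T : Inp => 2 * T.1.length * T.1.length) :=
    UPoly.mul (UPoly.mul (UPoly.const 2) hn) hn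
  refine h5 Inp RelI (fun T => 2 * T.1.length * T.1.length) (fun T => 2 * T.1.length * T.1.length)
    (fun x => x.2 / x.1.1.length.factorial) numSub h7 hq hq ?_ fun T => ?_
  · exact Poly.div (Poly.snd Poly.id) (Uc.poly_ufact (hn.comp (Poly.fst Poly.id)))
  · by_cases hT : TreeI T
    · have e1 : numSub T = cls (grP T) := by
        unfold numSub
        rw [if_pos hT]
        exact t6 _ _ _ _ (h9 T hT.1)
      beta_reduce
      rw [h10 T hT, e1, ← h6 T.1.length (grP T)]
      exact (Nat.mul_div_cancel _ (Nat.factorial_pos _)).symm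
    · have e1 : numSub T = 0 := by
        unfold numSub
        rw [if_neg hT]
      have e2 : Nat.card {y : List Bool // y.length = 2 * T.1.length * T.1.length ∧
          ∃ w : List Bool, w.length = 2 * T.1.length * T.1.length ∧ RelI (T, y, w) = true} = 0 := by
        rw [Nat.card_eq_zero]
        left
        refine ⟨fun y => ?_⟩
        obtain ⟨y, _, w, hw, h⟩ := y
        apply hT
        rw [h8 T]
        simp only [RelI, Bool.and_eq_true] at h
        exact ⟨h.1.1.1.1.1.1, w, hw, h.1.1.1.1.1.2⟩
      beta_reduce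
      rw [e1, e2]
      simp

end Pool.Agent.H695R3.SF
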