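import Pool.Agent.H695R3.SF.Defs
import Mathlib

namespace Pool.Agent.H695R3.SF

theorem MN : S_MN := by
  classical
  intro Z X _ _ c hc
  have e : Z ≃ Σ x, Fin (c x) := Fintype.equivOfCardEq (by simp [hc])
  let f0 : Z → X := fun z => (e z).1
  have h0 : ∀ x, Nat.card {z // f0 z = x} = c x := by
    intro x
    have e1 : {z // f0 z = x} ≃ {s : Σ x, Fin (c x) // s.1 = x} :=
      e.subtypeEquiv (fun z => Iff.rfl)
    rw [Nat.card_congr e1, Nat.card_congr (Equiv.sigmaSubtype x)]
    simp
  have key : ∀ f : {f : Z → X // ∀ x, Nat.card {z : Z // f z = x} = c x},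
      Nat.card {π : Equiv.Perm Z // f0 ∘ π = f.1} = ∏ x, (c x).factorial := by
    intro f
    -- a permutation carrying `f` to `f0`
    have hE : ∀ x, Nonempty ({z : Z // f.1 z = x} ≃ {z : Z // f0 z = x}) := by
      intro x
      have : Nat.card {z : Z // f.1 z = x} = Nat.card {z : Z // f0 z = x} := by
        rw [f.2 x, h0 x]
      exact Finite.card_eq.mp this
    let E : ∀ x, ({z : Z // f.1 z = x} ≃ {z : Z // f0 z = x}) := fun x => (hE x).some
    let π0 : Equiv.Perm Z := (Equiv.sigmaFiberEquiv f.1).symm.trans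
      ((Equiv.sigmaCongrRight E).trans (Equiv.sigmaFiberEquiv f0))
    have hπ0 : ∀ z, f0 (π0 z) = f.1 z := by
      intro z
      have : π0 z = ((E (f.1 z)) ⟨z, rfl⟩).1 := rfl
      rw [this]
      exact ((E (f.1 z)) ⟨z, rfl⟩).2
    have e2 : {π : Equiv.Perm Z // f0 ∘ π = f.1} ≃ {g : Equiv.Perm Z // f0 ∘ g = f0} :=
      { toFun := fun π => ⟨π0.symm.trans π.1, by
          funext z
          have := congrFun π.2 (π0.symm z)
          simp only [Function.comp_apply] at this ⊢
          simp only [Equiv.trans_apply]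
          rw [this, ← hπ0]; simp⟩
        invFun := fun g => ⟨π0.trans g.1, by
          funext z
          have := congrFun g.2 (π0 z)
          simp only [Function.comp_apply] at this ⊢
          simp only [Equiv.trans_apply]
          rw [this, hπ0]⟩
        left_inv := fun π => by ext z; simp
        right_inv := fun g => by ext z; simp }
    rw [Nat.card_congr e2, Nat.card_eq_fintype_card, DomMulAct.stabilizer_card]
    refine Finset.prod_congr rfl fun x _ => ?_
    rw [← Nat.card_eq_fintype_card, h0 x]
  have e3 : Equiv.Perm Z ≃ Σ f : {f : Z → X // ∀ x, Nat.card {z : Z // f z = x} = c x},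
      {π : Equiv.Perm Z // f0 ∘ π = f.1} :=
    { toFun := fun π => ⟨⟨f0 ∘ π, fun x => by
          rw [← h0 x]
          exact Nat.card_congr (π.subtypeEquiv (fun z => Iff.rfl))⟩, ⟨π, rfl⟩⟩
      invFun := fun s => s.2.1
      left_inv := fun π => rfl
      right_inv := by
        rintro ⟨⟨f, hf⟩, ⟨π, hπ⟩⟩
        dsimp only at hπ
        subst hπ
        rfl }
  have h1 : Nat.card (Equiv.Perm Z) = (Fintype.card Z).factorial := by
    rw [Nat.card_eq_fintype_card, Fintype.card_perm]
  rw [← h1, Nat.card_congr e3, Nat.card_sigma, Finset.sum_congr rfl (fun f _ => key f)]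
  rw [Finset.sum_const, Finset.card_univ, smul_eq_mul, Nat.card_eq_fintype_card]

end Pool.Agent.H695R3.SF
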