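import Pool.Agent.H695R3.SF.Defs

/-! # N0: isolated vertices do not matter -/

namespace Pool.Agent.H695R3.SF

/-- N0: isolated vertices do not matter -/
theorem N0 : S_N0 := by
  classical
  intro V _ H H'
  constructor
  · rintro ⟨e⟩
    have hs : ∀ (K : SimpleGraph V) {u v : V}, K.Adj u v → u ∈ supp K := fun K u v h => ⟨v, h⟩
    have hadj : ∀ (u v : V) (hu : u ∈ supp H) (hv : v ∈ supp H),
        H.Adj u v ↔ H'.Adj (e ⟨u, hu⟩ : V) (e ⟨v, hv⟩ : V) := by
      intro u v hu hv
      have h := e.map_adj_iff (v := ⟨u, hu⟩) (w := ⟨v, hv⟩)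
      simp only [core, SimpleGraph.comap_adj, Function.Embedding.subtype_apply] at h
      exact h.symm
    let E : {x // x ∈ supp H} ≃ {x // x ∈ supp H'} := e.toEquiv
    let π : Equiv.Perm V := E.extendSubtype
    have hπ : ∀ (u : V) (hu : u ∈ supp H), π u = (e ⟨u, hu⟩ : V) := fun u hu =>
      Equiv.extendSubtype_apply_of_mem E u hu
    have hπ' : ∀ u : V, π u ∈ supp H' → u ∈ supp H := by
      intro u h
      by_contra hn
      exact Equiv.extendSubtype_not_mem E u hn h
    refine ⟨⟨π, ?_⟩⟩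
    intro u v
    constructor
    · intro h
      have hu := hπ' u (hs _ h)
      have hv := hπ' v (hs _ h.symm)
      rw [hπ u hu, hπ v hv] at h
      exact (hadj u v hu hv).2 h
    · intro h
      rw [hπ u (hs _ h), hπ v (hs _ h.symm)]
      exact (hadj u v _ _).1 h
  · rintro ⟨f⟩
    have hf : ∀ a : V, a ∈ supp H ↔ f a ∈ supp H' := by
      intro a
      constructor
      · rintro ⟨b, hb⟩
        exact ⟨f b, f.map_adj_iff.2 hb⟩
      · rintro ⟨b, hb⟩
        refine ⟨f.symm b, ?_⟩
        rw [← f.map_adj_iff, RelIso.apply_symm_apply]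
        exact hb
    refine ⟨⟨Equiv.subtypeEquiv f.toEquiv hf, ?_⟩⟩
    rintro ⟨u, hu⟩ ⟨v, hv⟩
    exact f.map_adj_iff

end Pool.Agent.H695R3.SF
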