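import Mathlib
import Pool.Agent.H695R3.SF.Defs

/-!
# N1: isomorphism of normal forms
-/

namespace Pool.Agent.H695R3.SF

namespace N1_ns

/-- at least two neighbours -/
def D2 {X : Type} (H : SimpleGraph X) (x : X) : Prop := ∃ y z, y ≠ z ∧ H.Adj x y ∧ H.Adj x z

theorem D2_iso {X Y : Type} {H : SimpleGraph X} {H' : SimpleGraph Y} (e : H ≃g H') (x : X)
    (h : D2 H x) : D2 H' (e x) := by
  obtain ⟨y, z, h1, h2, h3⟩ := h
  exact ⟨e y, e z, fun h => h1 (e.injective h), e.map_adj_iff.2 h2, e.map_adj_iff.2 h3⟩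

theorem D2_core {X : Type} {H : SimpleGraph X} (x : supp H) : D2 (core H) x ↔ D2 H x.1 := by
  constructor
  · rintro ⟨y, z, h1, h2, h3⟩
    exact ⟨y.1, z.1, fun h => h1 (Subtype.ext h), h2, h3⟩
  · rintro ⟨y, z, h1, h2, h3⟩
    exact ⟨⟨y, ⟨x.1, H.adj_symm h2⟩⟩, ⟨z, ⟨x.1, H.adj_symm h3⟩⟩,
      fun h => h1 (congrArg Subtype.val h), h2, h3⟩

theorem D2_e {X Y : Type} {H : SimpleGraph X} {H' : SimpleGraph Y} (e : core H ≃g core H')
    (x : supp H) : D2 H x.1 ↔ D2 H' (e x).1 := by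
  rw [← D2_core, ← D2_core]
  constructor
  · exact D2_iso e x
  · intro h
    have h1 := D2_iso e.symm _ h
    rwa [RelIso.symm_apply_apply] at h1

variable {V : Type}

theorem L1 (F : SimpleGraph V) (a : V → ℕ) (p : V × ℕ) : ¬ D2 (tg F a) (Sum.inr p) := by
  rintro ⟨y, z, h1, h2, h3⟩
  rcases y with y | y
  · rcases z with z | z
    · apply h1
      have h4 : p.1 = y := h2.1
      have h5 : p.1 = z := h3.1
      rw [← h4, ← h5]
    · exact h3
  · exact h2

theorem L2 {F : SimpleGraph V} {a : V → ℕ} (hN : Nrm F a) (u : V) :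
    D2 (tg F a) (Sum.inl u) ↔ (∃ v, F.Adj u v) ∨ 2 ≤ a u := by
  constructor
  · rintro ⟨y, z, h1, h2, h3⟩
    rcases y with y | ⟨y, n⟩
    · exact Or.inl ⟨y, h2⟩
    · rcases z with z | ⟨z, m⟩
      · exact Or.inl ⟨z, h3⟩
      · right
        obtain ⟨h4, h5⟩ := h2
        obtain ⟨h6, h7⟩ := h3
        simp only at h4 h5 h6 h7
        by_contra h8
        apply h1
        have h9 : n = m := by omega
        rw [h4, h6, h9]
  · rintro (⟨v, hv⟩ | h)
    · rcases hN u v hv with h | ⟨k, hk, h⟩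
      · exact ⟨Sum.inl v, Sum.inr (u, 0), Sum.inl_ne_inr, hv, rfl, Nat.pos_of_ne_zero h⟩
      · refine ⟨Sum.inl v, Sum.inl k, fun h => hk ?_, hv, h⟩
        exact (Sum.inl_injective h).symm
    · refine ⟨Sum.inr (u, 0), Sum.inr (u, 1), fun h => ?_, ⟨rfl, ?_⟩, ⟨rfl, ?_⟩⟩
      · have := congrArg Prod.snd (Sum.inr_injective h)
        simp at this
      · change 0 < a u
        omega
      · change 1 < a u
        omega

/-- the number of pendant vertices -/
theorem L3 {F : SimpleGraph V} {a : V → ℕ} (hN : Nrm F a) (u : V) :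
    Nat.card {y // (tg F a).Adj (Sum.inl u) y ∧ ¬ D2 (tg F a) y} = a u := by
  have e : Fin (a u) ≃ {y // (tg F a).Adj (Sum.inl u) y ∧ ¬ D2 (tg F a) y} := by
    refine Equiv.ofBijective (fun n => ⟨Sum.inr (u, n.val), ⟨rfl, n.2⟩, L1 F a _⟩) ⟨?_, ?_⟩
    · intro n m h
      have h1 := congrArg Prod.snd (Sum.inr_injective (congrArg Subtype.val h))
      exact Fin.ext h1
    · rintro ⟨y, h1, h2⟩
      rcases y with v | ⟨v, n⟩
      · exact absurd ((L2 hN v).2 (Or.inl ⟨u, F.adj_symm h1⟩)) h2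
      · obtain ⟨h3, h4⟩ := h1
        simp only at h3 h4
        subst h3
        exact ⟨⟨n, h4⟩, rfl⟩
  rw [← Nat.card_congr e, Nat.card_eq_fintype_card, Fintype.card_fin]

theorem L4 {X Y : Type} {H : SimpleGraph X} {H' : SimpleGraph Y} (e : core H ≃g core H')
    (x : supp H) : Nat.card {y // H.Adj x.1 y ∧ ¬ D2 H y} =
      Nat.card {y // H'.Adj (e x).1 y ∧ ¬ D2 H' y} := by
  refine Nat.card_congr (Equiv.ofBijective (fun y =>
    ⟨(e ⟨y.1, ⟨x.1, H.adj_symm y.2.1⟩⟩).1, ?_, ?_⟩) ⟨?_, ?_⟩)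
  · exact (e.map_adj_iff (v := x) (w := ⟨y.1, ⟨x.1, H.adj_symm y.2.1⟩⟩)).2 y.2.1
  · intro h
    exact y.2.2 ((D2_e e ⟨y.1, ⟨x.1, H.adj_symm y.2.1⟩⟩).2 h)
  · intro y z h
    have h0 := congrArg Subtype.val h
    simp only at h0
    have h1 := congrArg Subtype.val (e.injective (Subtype.ext h0))
    simp only at h1
    exact Subtype.ext h1
  · rintro ⟨y, h1, h2⟩
    have hy : y ∈ supp H' := ⟨(e x).1, H'.adj_symm h1⟩
    obtain ⟨z, hz⟩ := e.surjective ⟨y, hy⟩
    have h3 : H.Adj x.1 z.1 := by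
      have h4 : (core H').Adj (e x) (e z) := by
        rw [hz]
        exact h1
      exact e.map_adj_iff.1 h4
    have h5 : ¬ D2 H z.1 := by
      rw [D2_e e z, hz]
      exact h2
    refine ⟨⟨z.1, h3, h5⟩, Subtype.ext ?_⟩
    change (e z).1 = y
    rw [hz]

section

variable {F F' : SimpleGraph V} {a a' : V → ℕ}

theorem mem_supp_of (u : V) (h : (∃ v, F.Adj u v) ∨ a u ≠ 0) :
    (Sum.inl u : V ⊕ V × ℕ) ∈ supp (tg F a) := by
  rcases h with ⟨v, hv⟩ | h
  · exact ⟨Sum.inl v, hv⟩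
  · exact ⟨Sum.inr (u, 0), rfl, Nat.pos_of_ne_zero h⟩

theorem of_mem_supp {u : V} (h : (Sum.inl u : V ⊕ V × ℕ) ∈ supp (tg F a)) :
    (∃ v, F.Adj u v) ∨ a u ≠ 0 := by
  obtain ⟨y, hy⟩ := h
  rcases y with v | ⟨v, n⟩
  · exact Or.inl ⟨v, hy⟩
  · right
    obtain ⟨-, h2⟩ := hy
    simp only at h2
    omega

/-- the relation of the centres -/
def Rel (e : core (tg F a) ≃g core (tg F' a')) (u : {u : V // Sum.inl u ∈ supp (tg F a)})
    (w : V) : Prop :=
  (e ⟨Sum.inl u.1, u.2⟩).1 = Sum.inl w ∨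
    ((∃ n, (e ⟨Sum.inl u.1, u.2⟩).1 = Sum.inr (w, n)) ∧ a' w = 1 ∧ (∀ v, ¬ F'.Adj w v) ∧
      ∀ v, ¬ F.Adj u.1 v)

theorem key (hN : Nrm F a) (hN' : Nrm F' a') (e : core (tg F a) ≃g core (tg F' a'))
    (u : {u : V // Sum.inl u ∈ supp (tg F a)}) :
    ∃ w, Sum.inl w ∈ supp (tg F' a') ∧ a' w = a u.1 ∧ Rel e u w := by
  obtain ⟨u, hu⟩ := u
  rcases hy : (e ⟨Sum.inl u, hu⟩).1 with w | ⟨w, n⟩
  · refine ⟨w, ?_, ?_, Or.inl hy⟩
    · rw [← hy]
      exact (e ⟨Sum.inl u, hu⟩).2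
    · have h := L4 e ⟨Sum.inl u, hu⟩
      rw [hy, L3 hN u, L3 hN' w] at h
      exact h.symm
  · have h1 : ¬ D2 (tg F a) (Sum.inl u) := by
      have h2 := D2_e e ⟨Sum.inl u, hu⟩
      rw [hy] at h2
      exact fun h => L1 F' a' _ (h2.1 h)
    rw [L2 hN u, not_or, not_exists, not_le] at h1
    obtain ⟨h2, h3⟩ := h1
    have h4 : a u = 1 := by
      rcases of_mem_supp hu with ⟨v, hv⟩ | h
      · exact absurd hv (h2 v)
      · omega
    have hmem : (Sum.inr (u, 0) : V ⊕ V × ℕ) ∈ supp (tg F a) := by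
      refine ⟨Sum.inl u, rfl, ?_⟩
      change 0 < a u
      omega
    have hadj : (core (tg F a)).Adj ⟨Sum.inl u, hu⟩ ⟨Sum.inr (u, 0), hmem⟩ := by
      refine ⟨rfl, ?_⟩
      change 0 < a u
      omega
    have hadj' := e.map_adj_iff.2 hadj
    have hadj2 : (tg F' a').Adj (Sum.inr (w, n)) (e ⟨Sum.inr (u, 0), hmem⟩).1 := by
      rw [← hy]
      exact hadj'
    rcases hz : (e ⟨Sum.inr (u, 0), hmem⟩).1 with z | z
    · rw [hz] at hadj2
      obtain ⟨h5, h6⟩ := hadj2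
      simp only at h5 h6
      subst h5
      have h7 : ¬ D2 (tg F' a') (Sum.inl w) := by
        have h8 := D2_e e ⟨Sum.inr (u, 0), hmem⟩
        rw [hz] at h8
        exact fun h => L1 F a _ (h8.2 h)
      rw [L2 hN' w, not_or, not_exists, not_le] at h7
      have h9 : a' w = 1 := by omega
      refine ⟨w, ?_, h9.trans h4.symm, Or.inr ⟨⟨n, hy⟩, h9, h7.1, h2⟩⟩
      exact mem_supp_of w (Or.inr (by omega))
    · rw [hz] at hadj2
      exact absurd hadj2 (fun h => h)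

theorem rel_inj (e : core (tg F a) ≃g core (tg F' a'))
    (u v : {u : V // Sum.inl u ∈ supp (tg F a)}) (w : V) (h1 : Rel e u w) (h2 : Rel e v w) :
    u = v := by
  have hinj : (e ⟨Sum.inl u.1, u.2⟩).1 = (e ⟨Sum.inl v.1, v.2⟩).1 → u = v := by
    intro h
    have h3 := e.injective (Subtype.ext h)
    exact Subtype.ext (Sum.inl_injective (congrArg Subtype.val h3))
  have hlt : ∀ (x : {u : V // Sum.inl u ∈ supp (tg F a)}) (n : ℕ),
      (e ⟨Sum.inl x.1, x.2⟩).1 = Sum.inr (w, n) → n < a' w := by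
    intro x n hx
    obtain ⟨y, hy⟩ := (e ⟨Sum.inl x.1, x.2⟩).2
    rw [hx] at hy
    rcases y with y | y
    · obtain ⟨h4, h5⟩ := hy
      simp only at h4 h5
      rw [h4]
      exact h5
    · exact absurd hy (fun h => h)
  have hno : ∀ (x y : {u : V // Sum.inl u ∈ supp (tg F a)}) (n : ℕ),
      (e ⟨Sum.inl x.1, x.2⟩).1 = Sum.inl w → (e ⟨Sum.inl y.1, y.2⟩).1 = Sum.inr (w, n) →
        F.Adj x.1 y.1 := by
    intro x y n hx hy
    have h3 : (core (tg F' a')).Adj (e ⟨Sum.inl x.1, x.2⟩) (e ⟨Sum.inl y.1, y.2⟩) := by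
      change (tg F' a').Adj (e ⟨Sum.inl x.1, x.2⟩).1 (e ⟨Sum.inl y.1, y.2⟩).1
      rw [hx, hy]
      exact ⟨rfl, hlt y n hy⟩
    exact e.map_adj_iff.1 h3
  rcases h1 with h1 | ⟨⟨n, h1⟩, h3, h4, h5⟩
  · rcases h2 with h2 | ⟨⟨m, h2⟩, h6, h7, h8⟩
    · exact hinj (h1.trans h2.symm)
    · exact absurd (F.adj_symm (hno u v m h1 h2)) (h8 _)
  · rcases h2 with h2 | ⟨⟨m, h2⟩, h6, h7, h8⟩
    · exact absurd (F.adj_symm (hno v u n h2 h1)) (h5 _)
    · have h9 := hlt u n h1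
      have h10 := hlt v m h2
      have h11 : n = m := by omega
      exact hinj (h1.trans (h11 ▸ h2.symm))

theorem exists_map (hN : Nrm F a) (hN' : Nrm F' a') (e : core (tg F a) ≃g core (tg F' a')) :
    ∃ f : {u : V // Sum.inl u ∈ supp (tg F a)} → {u : V // Sum.inl u ∈ supp (tg F' a')},
      Function.Injective f ∧ (∀ u, a' (f u).1 = a u.1) ∧
        ∀ u v, F.Adj u.1 v.1 ↔ F'.Adj (f u).1 (f v).1 := by
  choose w hw1 hw2 hw3 using key hN hN' e
  refine ⟨fun u => ⟨w u, hw1 u⟩, ?_, hw2, ?_⟩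
  · intro u v h
    have h1 : w u = w v := congrArg Subtype.val h
    exact rel_inj e u v (w u) (hw3 u) (h1 ▸ hw3 v)
  · intro u v
    constructor
    · intro h
      have h1 : (e ⟨Sum.inl u.1, u.2⟩).1 = Sum.inl (w u) := by
        rcases hw3 u with h1 | ⟨-, -, -, h2⟩
        · exact h1
        · exact absurd h (h2 _)
      have h2 : (e ⟨Sum.inl v.1, v.2⟩).1 = Sum.inl (w v) := by
        rcases hw3 v with h1 | ⟨-, -, -, h2⟩
        · exact h1
        · exact absurd (F.adj_symm h) (h2 _)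
      have h3 : (core (tg F a)).Adj ⟨Sum.inl u.1, u.2⟩ ⟨Sum.inl v.1, v.2⟩ := h
      have h4 : (tg F' a').Adj (e ⟨Sum.inl u.1, u.2⟩).1 (e ⟨Sum.inl v.1, v.2⟩).1 :=
        e.map_adj_iff.2 h3
      rw [h1, h2] at h4
      exact h4
    · intro h
      have h1 : (e ⟨Sum.inl u.1, u.2⟩).1 = Sum.inl (w u) := by
        rcases hw3 u with h1 | ⟨-, -, h2, -⟩
        · exact h1
        · exact absurd h (h2 _)
      have h2 : (e ⟨Sum.inl v.1, v.2⟩).1 = Sum.inl (w v) := by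
        rcases hw3 v with h1 | ⟨-, -, h2, -⟩
        · exact h1
        · exact absurd (F'.adj_symm h) (h2 _)
      have h4 : (core (tg F' a')).Adj (e ⟨Sum.inl u.1, u.2⟩) (e ⟨Sum.inl v.1, v.2⟩) := by
        change (tg F' a').Adj (e ⟨Sum.inl u.1, u.2⟩).1 (e ⟨Sum.inl v.1, v.2⟩).1
        rw [h1, h2]
        exact h
      exact e.map_adj_iff.1 h4

end

theorem core_iso {X Y : Type} {H : SimpleGraph X} {H' : SimpleGraph Y} (e : H ≃g H') :
    Nonempty (core H ≃g core H') := by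
  refine ⟨⟨e.toEquiv.subtypeEquiv fun v => ?_, ?_⟩⟩
  · constructor
    · rintro ⟨u, hu⟩
      exact ⟨e u, e.map_adj_iff.2 hu⟩
    · rintro ⟨u, hu⟩
      obtain ⟨x, rfl⟩ := e.surjective u
      exact ⟨x, e.map_adj_iff.1 hu⟩
  · intro x y
    exact e.map_adj_iff

theorem forward [Fintype V] {F F' : SimpleGraph V} {a a' : V → ℕ} (hN : Nrm F a)
    (hN' : Nrm F' a') (e : core (tg F a) ≃g core (tg F' a')) : EqvC (F, a) (F', a') := by
  classical
  obtain ⟨f, hf1, hf2, hf3⟩ := exists_map hN hN' e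
  obtain ⟨g, hg1, -, -⟩ := exists_map hN' hN e.symm
  have hcard : Fintype.card {u : V // Sum.inl u ∈ supp (tg F a)} =
      Fintype.card {u : V // Sum.inl u ∈ supp (tg F' a')} :=
    le_antisymm (Fintype.card_le_of_injective f hf1) (Fintype.card_le_of_injective g hg1)
  have hbij : Function.Bijective f := (Fintype.bijective_iff_injective_and_card f).2 ⟨hf1, hcard⟩
  set E := Equiv.ofBijective f hbij with hE
  have hin : ∀ (u : V) (hu : Sum.inl u ∈ supp (tg F a)), E.extendSubtype u = (f ⟨u, hu⟩).1 := by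
    intro u hu
    exact Equiv.extendSubtype_apply_of_mem E u hu
  have hout : ∀ u : V, Sum.inl u ∉ supp (tg F a) →
      Sum.inl (E.extendSubtype u) ∉ supp (tg F' a') := by
    intro u hu
    exact Equiv.extendSubtype_not_mem E u hu
  refine ⟨E.extendSubtype, fun u v => ?_, fun u => ?_⟩
  · constructor
    · intro h
      have hu : Sum.inl u ∈ supp (tg F a) := mem_supp_of u (Or.inl ⟨v, h⟩)
      have hv : Sum.inl v ∈ supp (tg F a) := mem_supp_of v (Or.inl ⟨u, F.adj_symm h⟩)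
      change F'.Adj (E.extendSubtype u) (E.extendSubtype v)
      rw [hin u hu, hin v hv]
      exact (hf3 ⟨u, hu⟩ ⟨v, hv⟩).1 h
    · intro h
      change F'.Adj (E.extendSubtype u) (E.extendSubtype v) at h
      have hu : Sum.inl u ∈ supp (tg F a) := by
        by_contra hu
        exact hout u hu (mem_supp_of _ (Or.inl ⟨_, h⟩))
      have hv : Sum.inl v ∈ supp (tg F a) := by
        by_contra hv
        exact hout v hv (mem_supp_of _ (Or.inl ⟨_, F'.adj_symm h⟩))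
      rw [hin u hu, hin v hv] at h
      exact (hf3 ⟨u, hu⟩ ⟨v, hv⟩).2 h
  · change a' (E.extendSubtype u) = a u
    by_cases hu : Sum.inl u ∈ supp (tg F a)
    · rw [hin u hu]
      exact hf2 ⟨u, hu⟩
    · have h1 : a u = 0 := by
        by_contra h
        exact hu (mem_supp_of u (Or.inr h))
      have h2 : a' (E.extendSubtype u) = 0 := by
        by_contra h
        exact hout u hu (mem_supp_of _ (Or.inr h))
      rw [h1, h2]

theorem backward {F F' : SimpleGraph V} {a a' : V → ℕ} (h : EqvC (F, a) (F', a')) :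
    Nonempty (core (tg F a) ≃g core (tg F' a')) := by
  obtain ⟨π, h1, h2⟩ := h
  refine core_iso ⟨Equiv.sumCongr π (Equiv.prodCongr π (Equiv.refl ℕ)), ?_⟩
  intro x y
  rcases x with u | ⟨u, n⟩
  · rcases y with v | ⟨v, m⟩
    · exact (h1 u v).symm
    · change (π v = π u ∧ m < a' (π u)) ↔ (v = u ∧ m < a u)
      rw [show a' (π u) = a u from h2 u, π.injective.eq_iff]
  · rcases y with v | ⟨v, m⟩
    · change (π u = π v ∧ n < a' (π v)) ↔ (u = v ∧ n < a v)
      rw [show a' (π v) = a v from h2 v, π.injective.eq_iff]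
    · exact Iff.rfl

end N1_ns

theorem N1 : S_N1 := by
  intro V _ F F' a a' hN hN'
  exact ⟨fun ⟨e⟩ => N1_ns.forward hN hN' e, N1_ns.backward⟩

end Pool.Agent.H695R3.SF
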