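import Pool.Agent.H695R3.SF.Defs

/-! Task N2 of helper695 (helper814): normal form of a subgraph of `leafy G x`. -/

namespace Pool.Agent.H695R3.SF

namespace N2_ns

open Classical

variable {V : Type} {G : SimpleGraph V} {x : ℕ} (H : SimpleGraph (V ⊕ V × Fin x)) (r : V → ℕ)

/-- `b` is treated as a pendant vertex of `i` -/
def Tgt (b i : V) : Prop :=
  H.Adj (Sum.inl b) (Sum.inl i) ∧ (∀ w, H.Adj (Sum.inl b) w → w = Sum.inl i) ∧
    ((∃ w, w ≠ Sum.inl b ∧ H.Adj (Sum.inl i) w) ∨ r i < r b)

variable {H r}

lemma Tgt.uniq {b i j : V} (h : Tgt H r b i) (h' : Tgt H r b j) : i = j :=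
  (Sum.inl_injective (h.2.1 _ h'.1)).symm

lemma Tgt.not {b i j : V} (h : Tgt H r b i) : ¬ Tgt H r i j := by
  intro h'
  have e : b = j := Sum.inl_injective (h'.2.1 _ h.1.symm)
  subst e
  rcases h.2.2 with ⟨w, hw, hiw⟩ | h1
  · exact hw (h'.2.1 w hiw)
  · rcases h'.2.2 with ⟨w, hw, hiw⟩ | h2
    · exact hw (h.2.1 w hiw)
    · omega

variable (H r)

noncomputable def hh (b : V) : Option V := if hb : ∃ i, Tgt H r b i then some hb.choose else none

variable {H r}

lemma hh_iff {b i : V} : hh H r b = some i ↔ Tgt H r b i := by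
  unfold hh
  constructor
  · intro h
    split_ifs at h with hb
    rw [← Option.some_injective _ h]
    exact hb.choose_spec
  · intro h
    have hb : ∃ i, Tgt H r b i := ⟨i, h⟩
    rw [dif_pos hb]
    exact congrArg some (hb.choose_spec.uniq h)

lemma hh_none {b : V} (h : ¬ ∃ i, Tgt H r b i) : hh H r b = none := by
  unfold hh; rw [dif_neg h]

variable (H r)

/-- the vertex to which `w` is attached (or the vertex itself) -/
noncomputable def owner : V ⊕ V × Fin x → V
  | Sum.inl b => (hh H r b).getD b
  | Sum.inr p => p.1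

/-- pendant vertices -/
def Pend : V ⊕ V × Fin x → Prop
  | Sum.inl b => ∃ i, Tgt H r b i
  | Sum.inr p => H.Adj (Sum.inl p.1) (Sum.inr p)

/-- pendant vertices at `i` -/
def PS (i : V) : Set (V ⊕ V × Fin x) := {w | Pend H r w ∧ owner H r w = i}

/-- the number of pendant vertices -/
noncomputable def aa (i : V) : ℕ := (PS H r i).ncard

/-- the graph on the other vertices -/
def FF : SimpleGraph V where
  Adj u v := H.Adj (Sum.inl u) (Sum.inl v) ∧ (¬ ∃ i, Tgt H r u i) ∧ ¬ ∃ i, Tgt H r v i
  symm := ⟨fun _ _ h => ⟨h.1.symm, h.2.2, h.2.1⟩⟩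
  loopless := ⟨fun _ h => h.1.ne rfl⟩

variable {H r}

lemma owner_tgt {b i : V} (h : Tgt H r b i) : owner H r (Sum.inl b) = i := by
  rw [owner, hh_iff.2 h]; rfl

lemma owner_not {b : V} (h : ¬ ∃ i, Tgt H r b i) : owner H r (Sum.inl b) = b := by
  rw [owner, hh_none h]; rfl

lemma adj_inr (hH : H ≤ leafy G x) {u : V} {p : V × Fin x} (h : H.Adj (Sum.inl u) (Sum.inr p)) :
    p.1 = u := hH h

lemma adj_inr_inr (hH : H ≤ leafy G x) {q p : V × Fin x} (h : H.Adj (Sum.inr q) (Sum.inr p)) :
    False := hH h

/-- non-isolated `inr` are pendant -/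
lemma supp_inr (hH : H ≤ leafy G x) {p : V × Fin x} (h : Sum.inr p ∈ supp H) :
    Pend H r (Sum.inr p) := by
  obtain ⟨u, hu⟩ := h
  rcases u with u | q
  · have := adj_inr hH hu.symm
    show H.Adj (Sum.inl p.1) (Sum.inr p)
    rw [this]; exact hu.symm
  · exact (adj_inr_inr hH hu).elim

lemma pend_supp {w : V ⊕ V × Fin x} (h : Pend H r w) : w ∈ supp H := by
  rcases w with b | p
  · obtain ⟨i, hi⟩ := h
    exact ⟨_, hi.1⟩
  · exact ⟨_, SimpleGraph.Adj.symm h⟩

/-- adjacency in `H` -/
lemma adj_iff (hH : H ≤ leafy G x) {u v : V ⊕ V × Fin x} (hu : u ∈ supp H) (hv : v ∈ supp H) :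
    H.Adj u v ↔ (¬ Pend H r u ∧ ¬ Pend H r v ∧ (FF H r).Adj (owner H r u) (owner H r v)) ∨
      (Pend H r u ∧ ¬ Pend H r v ∧ owner H r u = owner H r v) ∨
      (¬ Pend H r u ∧ Pend H r v ∧ owner H r u = owner H r v) := by
  rcases u with p | p
  · rcases v with q | q
    · by_cases hp : ∃ i, Tgt H r p i
      · have hp' : Pend H r (Sum.inl p : V ⊕ V × Fin x) := hp
        obtain ⟨i, hi⟩ := hp
        by_cases hq : ∃ i, Tgt H r q i
        · have hq' : Pend H r (Sum.inl q : V ⊕ V × Fin x) := hq
          simp only [hp', hq', not_true_eq_false, false_and, and_false, or_false, iff_false]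
          intro h
          have e : q = i := Sum.inl_injective (hi.2.1 _ h)
          subst e
          obtain ⟨j, hj⟩ := hq
          exact hi.not hj
        · have hq' : ¬ Pend H r (Sum.inl q : V ⊕ V × Fin x) := hq
          simp only [hp', hq', not_true_eq_false, not_false_eq_true, false_and, true_and, false_or,
            or_false]
          rw [owner_tgt hi, owner_not hq]
          constructor
          · intro h; exact (Sum.inl_injective (hi.2.1 _ h)).symm
          · rintro rfl; exact hi.1
      · have hp' : ¬ Pend H r (Sum.inl p : V ⊕ V × Fin x) := hp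
        by_cases hq : ∃ i, Tgt H r q i
        · have hq' : Pend H r (Sum.inl q : V ⊕ V × Fin x) := hq
          obtain ⟨i, hi⟩ := hq
          simp only [hp', hq', not_true_eq_false, not_false_eq_true, false_and, true_and, false_or,
            and_false]
          rw [owner_tgt hi, owner_not hp]
          constructor
          · intro h; exact Sum.inl_injective (hi.2.1 _ h.symm)
          · rintro rfl; exact hi.1.symm
        · have hq' : ¬ Pend H r (Sum.inl q : V ⊕ V × Fin x) := hq
          simp only [hp', hq', not_false_eq_true, false_and, true_and, or_false]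
          rw [owner_not hp, owner_not hq]
          constructor
          · intro h; exact ⟨h, hp, hq⟩
          · intro h; exact h.1
    · have hq' : Pend H r (Sum.inr q : V ⊕ V × Fin x) := supp_inr hH hv
      have hq2 : H.Adj (Sum.inl q.1) (Sum.inr q) := hq'
      by_cases hp : ∃ i, Tgt H r p i
      · have hp' : Pend H r (Sum.inl p : V ⊕ V × Fin x) := hp
        simp only [hp', hq', not_true_eq_false, false_and, and_false, or_false, iff_false]
        intro h
        obtain ⟨i, hi⟩ := hp
        have := hi.2.1 _ h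
        exact absurd this (by simp)
      · have hp' : ¬ Pend H r (Sum.inl p : V ⊕ V × Fin x) := hp
        simp only [hp', hq', not_true_eq_false, not_false_eq_true, false_and, true_and, false_or,
            and_false]
        rw [owner_not hp]
        show _ ↔ p = q.1
        constructor
        · intro h; exact (adj_inr hH h).symm
        · intro h; rw [h]; exact hq2
  · have hp' : Pend H r (Sum.inr p : V ⊕ V × Fin x) := supp_inr hH hu
    have hp2 : H.Adj (Sum.inl p.1) (Sum.inr p) := hp'
    rcases v with q | q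
    · by_cases hq : ∃ i, Tgt H r q i
      · have hq' : Pend H r (Sum.inl q : V ⊕ V × Fin x) := hq
        simp only [hp', hq', not_true_eq_false, false_and, and_false, or_false, iff_false]
        intro h
        obtain ⟨i, hi⟩ := hq
        have := hi.2.1 _ h.symm
        exact absurd this (by simp)
      · have hq' : ¬ Pend H r (Sum.inl q : V ⊕ V × Fin x) := hq
        simp only [hp', hq', not_true_eq_false, not_false_eq_true, false_and, true_and, false_or,
            or_false]
        rw [owner_not hq]
        show _ ↔ p.1 = q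
        constructor
        · intro h; exact adj_inr hH h.symm
        · intro h; rw [← h]; exact hp2.symm
    · have hq' : Pend H r (Sum.inr q : V ⊕ V × Fin x) := supp_inr hH hv
      simp only [hp', hq', not_true_eq_false, false_and, and_false, or_false, iff_false]
      intro h
      exact adj_inr_inr hH h

/-- members of `PS` -/
lemma PS_cases {i : V} {w : V ⊕ V × Fin x} (h : w ∈ PS H r i) :
    (∃ b, w = Sum.inl b ∧ Tgt H r b i) ∨ (∃ n, w = Sum.inr (i, n) ∧ H.Adj (Sum.inl i) w) := by
  obtain ⟨h1, h2⟩ := h
  rcases w with b | ⟨j, n⟩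
  · left
    obtain ⟨j, hj⟩ := h1
    rw [owner_tgt hj] at h2
    subst h2
    exact ⟨b, rfl, hj⟩
  · right
    have h2' : j = i := h2
    subst h2'
    exact ⟨n, rfl, h1⟩

lemma PS_empty {b i : V} (h : Tgt H r b i) : PS H r b = ∅ := by
  rw [Set.eq_empty_iff_forall_notMem]
  intro w hw
  rcases PS_cases hw with ⟨c, rfl, hc⟩ | ⟨n, rfl, hn⟩
  · exact hc.not h
  · exact absurd (h.2.1 _ hn) (by simp)

/-- if something is attached to `i`, then `i` is not pendant and not isolated -/
lemma PS_owner {i : V} {w : V ⊕ V × Fin x} (h : w ∈ PS H r i) :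
    (¬ ∃ j, Tgt H r i j) ∧ (Sum.inl i : V ⊕ V × Fin x) ∈ supp H := by
  constructor
  · rintro ⟨j, hj⟩
    rw [PS_empty hj] at h
    exact h
  · rcases PS_cases h with ⟨b, rfl, hb⟩ | ⟨n, rfl, hn⟩
    · exact ⟨_, hb.1.symm⟩
    · exact ⟨_, hn⟩

end N2_ns

open N2_ns Classical in
theorem N2 : S_N2 := by
  intro V _ G x H hH
  -- numbering of the vertices
  obtain ⟨r, hr⟩ : ∃ r : V → ℕ, Function.Injective r :=
    ⟨fun v => (Fintype.equivFin V v).val, fun u v h =>
      (Fintype.equivFin V).injective (Fin.ext h)⟩
  -- numbering of the pendant vertices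
  have hcard : ∀ i, Nat.card (PS H r i) = aa H r i := fun i => Nat.card_coe_set_eq _
  let e : ∀ i, (PS H r i) ≃ Fin (aa H r i) := fun i => Finite.equivFinOfCardEq (hcard i)
  let ν : V ⊕ V × Fin x → ℕ := fun w =>
    if hw : w ∈ PS H r (owner H r w) then (e (owner H r w) ⟨w, hw⟩).val else 0
  have hν : ∀ i w (hw : w ∈ PS H r i), ν w = (e i ⟨w, hw⟩).val := by
    intro i w hw
    have ho : owner H r w = i := hw.2
    subst ho
    exact dif_pos hw
  let φ : V ⊕ V × Fin x → V ⊕ V × ℕ := fun w =>
    if Pend H r w then Sum.inr (owner H r w, ν w) else Sum.inl (owner H r w)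
  have hφp : ∀ w, Pend H r w → φ w = Sum.inr (owner H r w, ν w) := fun w h => if_pos h
  have hφn : ∀ w, ¬ Pend H r w → φ w = Sum.inl (owner H r w) := fun w h => if_neg h
  have hνlt : ∀ w, Pend H r w → ν w < aa H r (owner H r w) := by
    intro w hw
    rw [hν (owner H r w) w ⟨hw, rfl⟩]
    exact (e _ _).isLt
  -- adjacency
  have hadj : ∀ u ∈ supp H, ∀ v ∈ supp H,
      (H.Adj u v ↔ (tg (FF H r) (aa H r)).Adj (φ u) (φ v)) := by
    intro u hu v hv
    rw [adj_iff (r := r) hH hu hv]
    by_cases hpu : Pend H r u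
    · by_cases hpv : Pend H r v
      · rw [hφp u hpu, hφp v hpv]
        simp only [hpu, hpv, not_true_eq_false, false_and, and_false, or_false, false_iff]
        exact fun h => h
      · rw [hφp u hpu, hφn v hpv]
        simp only [hpu, hpv, not_true_eq_false, not_false_eq_true, false_and, true_and, false_or,
          or_false]
        show _ ↔ (owner H r u = owner H r v ∧ ν u < aa H r (owner H r v))
        constructor
        · intro h; exact ⟨h, h ▸ hνlt u hpu⟩
        · exact fun h => h.1
    · by_cases hpv : Pend H r v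
      · rw [hφn u hpu, hφp v hpv]
        simp only [hpu, hpv, not_true_eq_false, not_false_eq_true, false_and, true_and, false_or,
          and_false]
        show _ ↔ (owner H r v = owner H r u ∧ ν v < aa H r (owner H r u))
        constructor
        · intro h; exact ⟨h.symm, h ▸ hνlt v hpv⟩
        · exact fun h => h.1.symm
      · rw [hφn u hpu, hφn v hpv]
        simp only [hpu, hpv, not_false_eq_true, false_and, true_and, or_false]
        rfl
  refine ⟨FF H r, aa H r, ?_, ?_, ?_⟩
  · -- normal form
    intro i j hij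
    by_contra hcon
    push Not at hcon
    obtain ⟨ha, hk⟩ := hcon
    have hPS : PS H r i = ∅ := (Set.ncard_eq_zero (Set.toFinite _)).1 ha
    have hnb : ∀ w, H.Adj (Sum.inl i) w → w = Sum.inl j := by
      intro w hw
      rcases w with k | p
      · by_contra hne
        have hkj : k ≠ j := fun h => hne (by rw [h])
        by_cases hkB : ∃ l, Tgt H r k l
        · obtain ⟨l, hl⟩ := hkB
          have : i = l := Sum.inl_injective (hl.2.1 _ hw.symm)
          subst this
          have h2 : (Sum.inl k : V ⊕ V × Fin x) ∈ PS H r i := ⟨⟨i, hl⟩, owner_tgt hl⟩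
          rw [hPS] at h2
          exact h2
        · exact hk k hkj ⟨hw, hij.2.1, hkB⟩
      · have h1 := adj_inr hH hw
        have h2 : (Sum.inr p : V ⊕ V × Fin x) ∈ PS H r i := by
          refine ⟨?_, h1⟩
          show H.Adj (Sum.inl p.1) (Sum.inr p)
          rw [h1]; exact hw
        rw [hPS] at h2
        exact h2.elim
    have hiB := hij.2.1
    have hjB := hij.2.2
    have hne : i ≠ j := hij.ne
    apply hiB
    refine ⟨j, hij.1, hnb, ?_⟩
    by_contra h3
    push Not at h3
    obtain ⟨h4, h5⟩ := h3
    apply hjB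
    refine ⟨i, hij.1.symm, ?_, Or.inr (lt_of_le_of_ne h5 (fun h => hne (hr h)))⟩
    intro w hw
    by_contra hw'
    exact h4 w hw' hw
  · -- realised
    refine ⟨1, hh H r, ?_, ?_, ?_⟩
    · intro i j hij
      exact hH hij.1
    · intro b i hb
      rw [hh_iff] at hb
      refine ⟨fun j hj => hj.2.1 ⟨i, hb⟩, ?_, hH hb.1⟩
      rw [aa, PS_empty hb, Set.ncard_empty]
    · intro i
      have hsub : PS H r i ⊆ (Sum.inl '' {b : V | hh H r b = some i}) ∪
          (Set.range (fun n : Fin x => (Sum.inr (i, n) : V ⊕ V × Fin x))) := by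
        intro w hw
        rcases PS_cases hw with ⟨b, rfl, hb⟩ | ⟨n, rfl, hn⟩
        · exact Or.inl ⟨b, hh_iff.2 hb, rfl⟩
        · exact Or.inr ⟨n, rfl⟩
      have h1 := Set.ncard_le_ncard hsub (Set.toFinite _)
      have h2 : (Sum.inl '' {b : V | hh H r b = some i} : Set (V ⊕ V × Fin x)).ncard =
          Nat.card {b : V // hh H r b = some i} := by
        rw [Set.ncard_image_of_injective _ Sum.inl_injective]
        rfl
      have h3 : (Set.range (fun n : Fin x => (Sum.inr (i, n) : V ⊕ V × Fin x))).ncard ≤ x := by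
        rw [← Set.image_univ]
        refine (Set.ncard_image_le (Set.toFinite _)).trans ?_
        rw [Set.ncard_univ, Nat.card_fin]
      have h4 := Set.ncard_union_le (Sum.inl '' {b : V | hh H r b = some i})
        (Set.range (fun n : Fin x => (Sum.inr (i, n) : V ⊕ V × Fin x)))
      show aa H r i ≤ _
      unfold aa
      omega
  · -- isomorphism
    have hmaps : ∀ w ∈ supp H, φ w ∈ supp (tg (FF H r) (aa H r)) := by
      rintro w ⟨u, hu⟩
      exact ⟨φ u, (hadj w ⟨u, hu⟩ u ⟨w, hu.symm⟩).1 hu⟩
    have hnp : ∀ w ∈ supp H, ¬ Pend H r w → w = Sum.inl (owner H r w) := by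
      intro w hw hp
      rcases w with v | p
      · rw [owner_not hp]
      · exact absurd (supp_inr hH hw) hp
    let Φ : supp H → supp (tg (FF H r) (aa H r)) := fun w => ⟨φ w.1, hmaps w.1 w.2⟩
    have hbij : Function.Bijective Φ := by
      constructor
      · rintro ⟨w, hw⟩ ⟨w', hw'⟩ heq
        have h1 : φ w = φ w' := congrArg Subtype.val heq
        apply Subtype.ext
        show w = w'
        by_cases hp : Pend H r w
        · by_cases hp' : Pend H r w'
          · rw [hφp w hp, hφp w' hp'] at h1
            have h2 := Sum.inr_injective h1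
            rw [Prod.mk.injEq] at h2
            have m1 : w ∈ PS H r (owner H r w) := ⟨hp, rfl⟩
            have m2 : w' ∈ PS H r (owner H r w) := ⟨hp', h2.1.symm⟩
            have h3 := h2.2
            rw [hν _ w m1, hν _ w' m2] at h3
            have h4 := (e (owner H r w)).injective (Fin.ext h3)
            exact congrArg Subtype.val h4
          · rw [hφp w hp, hφn w' hp'] at h1
            exact absurd h1 (by simp)
        · by_cases hp' : Pend H r w'
          · rw [hφn w hp, hφp w' hp'] at h1
            exact absurd h1 (by simp)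
          · rw [hφn w hp, hφn w' hp'] at h1
            rw [hnp w hw hp, hnp w' hw' hp', Sum.inl_injective h1]
      · rintro ⟨t, ht⟩
        have key : ∀ (i : V) (m : ℕ), m < aa H r i → ∃ w, w ∈ PS H r i ∧ ν w = m := by
          intro i m hm
          refine ⟨((e i).symm ⟨m, hm⟩).1, ((e i).symm ⟨m, hm⟩).2, ?_⟩
          rw [hν i _ ((e i).symm ⟨m, hm⟩).2]
          simp
        obtain ⟨s, hs⟩ := ht
        rcases t with i | ⟨i, m⟩
        · have hi : (¬ ∃ j, Tgt H r i j) ∧ (Sum.inl i : V ⊕ V × Fin x) ∈ supp H := by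
            rcases s with j | ⟨j, m⟩
            · have hs' : (FF H r).Adj i j := hs
              exact ⟨hs'.2.1, ⟨_, hs'.1⟩⟩
            · have hs' : j = i ∧ m < aa H r i := hs
              obtain ⟨w, hw, _⟩ := key i m hs'.2
              exact PS_owner hw
          refine ⟨⟨Sum.inl i, hi.2⟩, Subtype.ext ?_⟩
          show φ (Sum.inl i) = Sum.inl i
          rw [hφn (Sum.inl i) hi.1, owner_not hi.1]
        · rcases s with j | ⟨j, m'⟩
          · have hs' : i = j ∧ m < aa H r j := hs
            obtain ⟨rfl, hm⟩ := hs'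
            obtain ⟨w, hw, hwm⟩ := key i m hm
            refine ⟨⟨w, pend_supp hw.1⟩, Subtype.ext ?_⟩
            show φ w = Sum.inr (i, m)
            rw [hφp w hw.1, hwm, hw.2]
          · exact (hs : False).elim
    refine ⟨⟨Equiv.ofBijective Φ hbij, ?_⟩⟩
    intro u v
    show (tg (FF H r) (aa H r)).Adj (φ u.1) (φ v.1) ↔ H.Adj u.1 v.1
    exact (hadj u.1 u.2 v.1 v.2).symm

end Pool.Agent.H695R3.SF
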