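import Pool.Agent.H695R3.SF.Defs

/-!
# N3: every realised configuration is a spanning subgraph
-/

set_option autoImplicit false

namespace Pool.Agent.H695R3.SF

open Finset

namespace N3_ns

/-- a graph without isolated vertices is the core of its image under an embedding -/
theorem core_map {W X : Type} (C : SimpleGraph W) (hC : ∀ w, ∃ u, C.Adj w u) (φ : W ↪ X) :
    Nonempty (core (C.map φ) ≃g C) := by
  have hs : ∀ w : W, φ w ∈ supp (C.map φ) := by
    intro w
    obtain ⟨u, hu⟩ := hC w
    exact ⟨φ u, (SimpleGraph.map_adj_apply).mpr hu⟩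
  let g : W → supp (C.map φ) := fun w => ⟨φ w, hs w⟩
  have hg : Function.Bijective g := by
    constructor
    · intro w w' hww
      exact φ.injective (congrArg Subtype.val hww)
    · rintro ⟨y, z, hyz⟩
      rw [SimpleGraph.map_adj] at hyz
      obtain ⟨u, v, huv, hu, hv⟩ := hyz
      exact ⟨u, Subtype.ext hu⟩
  refine ⟨SimpleGraph.Iso.symm ⟨Equiv.ofBijective g hg, ?_⟩⟩
  intro u v
  show (C.map φ).Adj (φ u) (φ v) ↔ C.Adj u v
  exact SimpleGraph.map_adj_apply

theorem core_noniso {V : Type} (H : SimpleGraph V) (w : supp H) : ∃ u, (core H).Adj w u := by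
  obtain ⟨v, u, hu⟩ := w
  exact ⟨⟨u, v, hu.symm⟩, hu⟩

open Classical in
/-- the embedding of the non-isolated vertices -/
noncomputable def emb {V : Type} [Fintype V] (x : ℕ) (π : Equiv.Perm V) (h : V → Option V) :
    V ⊕ V × ℕ → V ⊕ V × Fin x
  | Sum.inl i => Sum.inl (π i)
  | Sum.inr (i, n) => if hn : n < x then Sum.inr (π i, ⟨n, hn⟩) else
      if hc : n - x < Nat.card {b : V // h b = some i} then
        Sum.inl (π ((Finite.equivFin {b : V // h b = some i}).symm ⟨n - x, hc⟩).1)
      else Sum.inl (π i)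

theorem emb_inr {V : Type} [Fintype V] (x : ℕ) (π : Equiv.Perm V) (h : V → Option V)
    (a : V → ℕ) (ha : ∀ i, a i ≤ x + Nat.card {b : V // h b = some i}) (i : V) (n : ℕ)
    (hn : n < a i) :
    (∃ hx : n < x, emb x π h (Sum.inr (i, n)) = Sum.inr (π i, ⟨n, hx⟩)) ∨
    (x ≤ n ∧ ∃ b : {b : V // h b = some i}, emb x π h (Sum.inr (i, n)) = Sum.inl (π b.1) ∧
      ((Finite.equivFin {b : V // h b = some i}) b).val = n - x) := by
  classical
  have hdef : emb x π h (Sum.inr (i, n)) = if hn : n < x then Sum.inr (π i, ⟨n, hn⟩) else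
      if hc : n - x < Nat.card {b : V // h b = some i} then
        Sum.inl (π ((Finite.equivFin {b : V // h b = some i}).symm ⟨n - x, hc⟩).1)
      else Sum.inl (π i) := by
    rw [emb]
  by_cases hx : n < x
  · left
    refine ⟨hx, ?_⟩
    rw [hdef, dif_pos hx]
  · right
    refine ⟨Nat.le_of_not_lt hx, ?_⟩
    have hc : n - x < Nat.card {b : V // h b = some i} := by
      have := ha i
      omega
    refine ⟨(Finite.equivFin {b : V // h b = some i}).symm ⟨n - x, hc⟩, ?_, ?_⟩
    · rw [hdef, dif_neg hx, dif_pos hc]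
    · rw [Equiv.apply_symm_apply]

end N3_ns

open N3_ns in
theorem N3 : S_N3 := by
  intro V _ G x F a hR
  obtain ⟨π, h, h1, h2, h3⟩ := hR
  -- membership in the support
  have hsl : ∀ i : V, (Sum.inl i : V ⊕ V × ℕ) ∈ supp (tg F a) → (∃ j, F.Adj i j) ∨ a i ≠ 0 := by
    rintro i ⟨(j | ⟨j, n⟩), hj⟩
    · left; exact ⟨j, hj⟩
    · right
      obtain ⟨h4, h5⟩ := hj
      exact Nat.ne_of_gt (lt_of_le_of_lt (Nat.zero_le _) h5)
  have hsr : ∀ (i : V) (n : ℕ), (Sum.inr (i, n) : V ⊕ V × ℕ) ∈ supp (tg F a) → n < a i := by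
    rintro i n ⟨(j | ⟨j, n'⟩), hj⟩
    · obtain ⟨h4, h5⟩ := hj
      have h6 : i = j := h4
      subst h6
      exact h5
    · exact hj.elim
  -- a centre is not one of the additional pendant vertices
  have hne : ∀ (i : V), (Sum.inl i : V ⊕ V × ℕ) ∈ supp (tg F a) → ∀ b j, h b = some j → i ≠ b := by
    rintro i hi b j hb rfl
    obtain ⟨h4, h5, -⟩ := h2 i j hb
    rcases hsl i hi with ⟨j', hj'⟩ | h6
    · exact h4 j' hj'
    · exact h6 h5
  have hinj : Set.InjOn (emb x π h) (supp (tg F a)) := by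
    rintro (i | ⟨i, n⟩) hi (j | ⟨j, m⟩) hj hij
    · have h4 : (Sum.inl (π i) : V ⊕ V × Fin x) = Sum.inl (π j) := hij
      rw [π.injective (Sum.inl_injective h4)]
    · exfalso
      rcases emb_inr x π h a h3 j m (hsr j m hj) with ⟨hx, he⟩ | ⟨hx, b, he, -⟩
      · rw [he] at hij
        exact Sum.inl_ne_inr hij
      · rw [he] at hij
        have h4 : (Sum.inl (π i) : V ⊕ V × Fin x) = Sum.inl (π b.1) := hij
        exact hne i hi b.1 j b.2 (π.injective (Sum.inl_injective h4))
    · exfalso
      rcases emb_inr x π h a h3 i n (hsr i n hi) with ⟨hx, he⟩ | ⟨hx, b, he, -⟩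
      · rw [he] at hij
        exact Sum.inr_ne_inl hij
      · rw [he] at hij
        have h4 : (Sum.inl (π b.1) : V ⊕ V × Fin x) = Sum.inl (π j) := hij
        exact hne j hj b.1 i b.2 (π.injective (Sum.inl_injective h4)).symm
    · rcases emb_inr x π h a h3 i n (hsr i n hi) with ⟨hx, he⟩ | ⟨hx, b, he, hb⟩
      · rcases emb_inr x π h a h3 j m (hsr j m hj) with ⟨hx', he'⟩ | ⟨hx', b', he', hb'⟩
        · rw [he, he'] at hij
          have h4 := Sum.inr_injective hij
          have h5 : π i = π j := congrArg Prod.fst h4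
          have h6 : n = m := congrArg (fun p : V × Fin x => p.2.val) h4
          rw [π.injective h5, h6]
        · rw [he, he'] at hij
          exact (Sum.inr_ne_inl hij).elim
      · rcases emb_inr x π h a h3 j m (hsr j m hj) with ⟨hx', he'⟩ | ⟨hx', b', he', hb'⟩
        · rw [he, he'] at hij
          exact (Sum.inl_ne_inr hij).elim
        · rw [he, he'] at hij
          have h4 : b.1 = b'.1 := π.injective (Sum.inl_injective hij)
          have h5 : i = j := by
            have h6 := b.2
            rw [h4, b'.2] at h6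
            exact (Option.some_injective _ h6).symm
          subst h5
          have h7 : b = b' := Subtype.ext h4
          subst h7
          have h8 : n = m := by omega
          rw [h8]
  let φ : supp (tg F a) ↪ V ⊕ V × Fin x :=
    ⟨fun w => emb x π h w.1, fun w w' hw => Subtype.ext (hinj w.2 w'.2 hw)⟩
  -- adjacency of a centre and a pendant vertex
  have hpend : ∀ (u : V) (n : ℕ), n < a u →
      (leafy G x).Adj (emb x π h (Sum.inl u)) (emb x π h (Sum.inr (u, n))) := by
    intro u n hn
    rcases emb_inr x π h a h3 u n hn with ⟨hx, he⟩ | ⟨hx, b, he, -⟩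
    · rw [he]
      show π u = π u
      rfl
    · rw [he]
      show G.Adj (π u) (π b.1)
      exact (h2 b.1 u b.2).2.2.symm
  refine ⟨(core (tg F a)).map φ, ?_, core_map _ (core_noniso _) φ⟩
  intro p q hpq
  rw [SimpleGraph.map_adj] at hpq
  obtain ⟨⟨w, hw⟩, ⟨w', hw'⟩, hadj, rfl, rfl⟩ := hpq
  show (leafy G x).Adj (emb x π h w) (emb x π h w')
  have hadj' : (tg F a).Adj w w' := hadj
  rcases w with (u | ⟨u, n⟩) <;> rcases w' with (v | ⟨v, m⟩)
  · exact h1 u v hadj'
  · obtain ⟨h4, h5⟩ := hadj'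
    have h6 : v = u := h4
    subst h6
    exact hpend v m h5
  · obtain ⟨h4, h5⟩ := hadj'
    have h6 : u = v := h4
    subst h6
    exact (hpend u n h5).symm
  · exact hadj'.elim

end Pool.Agent.H695R3.SF
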