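import Pool.Agent.H695R3.SF.Defs

/-!
# P1: the number of orbits is a polynomial in the number of free colours; its top difference
(helper204)
-/

set_option autoImplicit false

namespace Pool.Agent.H695R3.SF

open Finset fwdDiff

namespace P1_ns

theorem choose_top (m k y : ℕ) (hk : k < m) :
    (fwdDiff 1)^[m] (fun x ↦ x.choose k : ℕ → ℤ) y = 0 := by
  obtain ⟨j, rfl⟩ := Nat.exists_eq_add_of_lt hk
  have h1 : (fwdDiff 1)^[k] (fun x ↦ x.choose k : ℕ → ℤ) = fun x ↦ x.choose 0 :=
    fwdDiff_iter_choose 0 k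
  have h2 : k + j + 1 = j + (1 + k) := by omega
  rw [h2, Function.iterate_add_apply, Function.iterate_add_apply, h1]
  simp only [Nat.choose_zero_right, Nat.cast_one, Function.iterate_one, fwdDiff_const]
  rw [fwdDiff_iter_eq_sum_shift]
  simp

theorem choose_eq (m y : ℕ) : (fwdDiff 1)^[m] (fun x ↦ x.choose m : ℕ → ℤ) y = 1 := by
  have h1 : (fwdDiff 1)^[m] (fun x ↦ x.choose m : ℕ → ℤ) = fun x ↦ x.choose 0 :=
    fwdDiff_iter_choose 0 m
  rw [h1]
  simp

theorem top (m : ℕ) (O : ℕ → ℤ) (y : ℕ) :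
    ∑ t ∈ range (m + 1), (-1 : ℤ) ^ t * (m.choose t : ℤ) *
      (∑ k ∈ range (m + 1), ((y + (m - t)).choose k : ℤ) * O k) = O m := by
  have h1 : (fwdDiff 1)^[m] (∑ k ∈ range (m + 1), O k • (fun x ↦ x.choose k : ℕ → ℤ)) y = O m := by
    rw [fwdDiff_iter_finsetSum, Finset.sum_apply, Finset.sum_eq_single m]
    · rw [fwdDiff_iter_const_smul, Pi.smul_apply, choose_eq]
      simp
    · intro k hk hkm
      rw [mem_range] at hk
      rw [fwdDiff_iter_const_smul, Pi.smul_apply, choose_top m k y (by omega)]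
      simp
    · intro h
      simp at h
  rw [fwdDiff_iter_eq_sum_shift] at h1
  rw [← h1, ← Finset.sum_range_reflect]
  refine Finset.sum_congr rfl fun t ht => ?_
  rw [mem_range] at ht
  have h2 : m + 1 - 1 - t = m - t := by omega
  have h3 : m - (m - t) = t := by omega
  rw [h2, h3, Nat.choose_symm (by omega)]
  simp only [Finset.sum_apply, Pi.smul_apply, smul_eq_mul, mul_one]
  congr 1
  exact Finset.sum_congr rfl fun k _ => mul_comm _ _

end P1_ns

/-- P1 -/
theorem P1 (h : S_P1a) : S_P1 := by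
  intro V _ Cc _ Good hGood y
  obtain ⟨O, hO, hO2⟩ := h V Cc Good hGood
  rw [← hO, ← P1_ns.top (Fintype.card V) (fun k => (O k : ℤ)) y]
  refine Finset.sum_congr rfl fun t _ => ?_
  rw [hO2]
  push_cast
  rfl

end Pool.Agent.H695R3.SF
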