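import Pool.Agent.H695R3.SF.Defs

/-!
Task P1a (helper793): the number of orbits by the set of occurring free colours.
-/

set_option linter.unusedSectionVars false

namespace Pool.Agent.H695R3.SF

open Finset

namespace P1a_ns

variable {V : Type} [Fintype V] {Cc : Type} [Fintype Cc]

/-- the free colours which occur -/
def img {y : ℕ} (a : V → Cc ⊕ Fin y) : Set (Fin y) := {j | ∃ v, a v = Sum.inr j}

theorem img_eqv {y : ℕ} {c c' : SimpleGraph V × (V → Cc ⊕ Fin y)} (h : EqvC c c') :
    img c.2 = img c'.2 := by
  obtain ⟨π, h1, h2⟩ := h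
  ext j
  constructor
  · rintro ⟨v, hv⟩
    exact ⟨π v, by rw [h2, hv]⟩
  · rintro ⟨v, hv⟩
    refine ⟨π.symm v, ?_⟩
    rw [← h2, Equiv.apply_symm_apply, hv]

theorem coll_map {y k : ℕ} (ι : Fin k → Fin y) (s : Cc ⊕ Fin k) :
    coll (Sum.map id ι s) = coll s := by
  cases s <;> rfl

/-- the configurations for which all free colours occur -/
def Full (Good : SimpleGraph V → (V → Option Cc) → Prop) (k : ℕ)
    (c : SimpleGraph V × (V → Cc ⊕ Fin k)) : Prop :=
  Good c.1 (fun v => coll (c.2 v)) ∧ ∀ j, ∃ v, c.2 v = Sum.inr j

/-- all configurations -/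
def All (Good : SimpleGraph V → (V → Option Cc) → Prop) (y : ℕ)
    (c : SimpleGraph V × (V → Cc ⊕ Fin y)) : Prop :=
  Good c.1 (fun v => coll (c.2 v))

/-- the free colours which occur, on orbits -/
def qimg (Good : SimpleGraph V → (V → Option Cc) → Prop) (y : ℕ) :
    Quotient (cSetoid (All (V := V) (Cc := Cc) Good y)) → Set (Fin y) :=
  Quotient.lift (fun c => img c.1.2) (fun _ _ h => img_eqv h)

theorem fibre (Good : SimpleGraph V → (V → Option Cc) → Prop) {y k : ℕ}
    (ι : Fin k → Fin y) (hι : Function.Injective ι) :
    Nat.card {q : Quotient (cSetoid (All (V := V) (Cc := Cc) Good y)) //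
      qimg Good y q = Set.range ι} = orb (Full (V := V) (Cc := Cc) Good k) := by
  have hmap : ∀ c : {c // Full (V := V) (Cc := Cc) Good k c},
      All Good y (c.1.1, fun v => Sum.map id ι (c.1.2 v)) := by
    intro c
    show Good c.1.1 (fun v => coll (Sum.map id ι (c.1.2 v)))
    have : (fun v => coll (Sum.map id ι (c.1.2 v))) = fun v => coll (c.1.2 v) :=
      funext fun v => coll_map ι _
    rw [this]
    exact c.2.1
  have hwd : ∀ c c' : {c // Full (V := V) (Cc := Cc) Good k c}, EqvC c.1 c'.1 →
      EqvC (c.1.1, fun v => Sum.map id ι (c.1.2 v)) (c'.1.1, fun v => Sum.map id ι (c'.1.2 v)) := by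
    rintro c c' ⟨π, h1, h2⟩
    refine ⟨π, h1, fun u => ?_⟩
    show Sum.map id ι (c'.1.2 (π u)) = Sum.map id ι (c.1.2 u)
    rw [h2]
  have hrange : ∀ c : {c // Full (V := V) (Cc := Cc) Good k c},
      img (fun v => Sum.map id ι (c.1.2 v)) = Set.range ι := by
    intro c
    ext j
    constructor
    · rintro ⟨v, hv⟩
      rcases hcv : c.1.2 v with s | s
      · simp only [hcv] at hv
        cases hv
      · simp only [hcv] at hv
        exact ⟨s, Sum.inr.inj hv⟩
    · rintro ⟨i, rfl⟩
      obtain ⟨v, hv⟩ := c.2.2 i
      refine ⟨v, ?_⟩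
      simp only [hv]
      rfl
  symm
  unfold orb
  let f0 : {c // Full (V := V) (Cc := Cc) Good k c} →
      {q : Quotient (cSetoid (All (V := V) (Cc := Cc) Good y)) //
        qimg Good y q = Set.range ι} := fun c =>
    ⟨Quotient.mk (cSetoid (All Good y)) ⟨(c.1.1, fun v => Sum.map id ι (c.1.2 v)), hmap c⟩, by
      show img (fun v => Sum.map id ι (c.1.2 v)) = Set.range ι
      exact hrange c⟩
  have hf0 : ∀ c c' : {c // Full (V := V) (Cc := Cc) Good k c}, EqvC c.1 c'.1 →
      f0 c = f0 c' := by
    intro c c' h
    apply Subtype.ext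
    apply Quotient.sound
    exact hwd c c' h
  let f : Quotient (cSetoid (Full (V := V) (Cc := Cc) Good k)) →
      {q : Quotient (cSetoid (All (V := V) (Cc := Cc) Good y)) //
        qimg Good y q = Set.range ι} := Quotient.lift f0 hf0
  apply Nat.card_eq_of_bijective f
  constructor
  · intro q q' hqq
    induction q using Quotient.inductionOn with
    | _ c =>
      induction q' using Quotient.inductionOn with
      | _ c' =>
        apply Quotient.sound
        have h1 := Quotient.exact (congrArg Subtype.val hqq)
        obtain ⟨π, h2, h3⟩ := h1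
        refine ⟨π, h2, fun u => ?_⟩
        have h4 : Sum.map id ι (c'.1.2 (π u)) = Sum.map id ι (c.1.2 u) := h3 u
        exact Sum.map_injective.2 ⟨Function.injective_id, hι⟩ h4
  · rintro ⟨q, hq⟩
    induction q using Quotient.inductionOn with
    | _ c =>
      have hq' : img c.1.2 = Set.range ι := hq
      have hex : ∀ v, ∃ s : Cc ⊕ Fin k, Sum.map id ι s = c.1.2 v := by
        intro v
        rcases hcv : c.1.2 v with s | s
        · exact ⟨Sum.inl s, rfl⟩
        · have : s ∈ img c.1.2 := ⟨v, hcv⟩
          rw [hq'] at this
          obtain ⟨i, hi⟩ := this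
          exact ⟨Sum.inr i, by rw [← hi]; rfl⟩
      choose a ha using hex
      have hF : Full Good k (c.1.1, a) := by
        refine ⟨?_, ?_⟩
        · show Good c.1.1 (fun v => coll (a v))
          have : (fun v => coll (a v)) = fun v => coll (c.1.2 v) := by
            funext v
            rw [← ha v, coll_map]
          rw [this]
          exact c.2
        · intro j
          have : ι j ∈ img c.1.2 := by
            rw [hq']
            exact ⟨j, rfl⟩
          obtain ⟨v, hv⟩ := this
          refine ⟨v, ?_⟩
          rw [← ha v] at hv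
          show a v = Sum.inr j
          rcases hav : a v with s | s
          · rw [hav] at hv
            cases hv
          · rw [hav] at hv
            exact congrArg Sum.inr (hι (Sum.inr.inj hv))
      refine ⟨Quotient.mk _ ⟨(c.1.1, a), hF⟩, ?_⟩
      apply Subtype.ext
      show Quotient.mk _ _ = Quotient.mk _ _
      congr 1
      apply Subtype.ext
      show (c.1.1, fun v => Sum.map id ι (a v)) = c.1
      have : (fun v => Sum.map id ι (a v)) = c.1.2 := funext ha
      rw [this]

theorem orb_zero (Good : SimpleGraph V → (V → Option Cc) → Prop) {k : ℕ}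
    (hk : Fintype.card V < k) : orb (Full (V := V) (Cc := Cc) Good k) = 0 := by
  unfold orb
  have : IsEmpty (Quotient (cSetoid (Full (V := V) (Cc := Cc) Good k))) := by
    refine ⟨fun q => ?_⟩
    induction q using Quotient.inductionOn with
    | _ c =>
      choose g hg using c.2.2
      have hinj : Function.Injective g := by
        intro i j hij
        have h1 := hg i
        rw [hij, hg j] at h1
        exact (Sum.inr.inj h1).symm
      have := Fintype.card_le_of_injective g hinj
      rw [Fintype.card_fin] at this
      omega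
  exact Nat.card_of_isEmpty

theorem orb_top (Good : SimpleGraph V → (V → Option Cc) → Prop)
    (hinv : ∀ (F F' : SimpleGraph V) (v v' : V → Option Cc) (π : Equiv.Perm V),
      (∀ i j, F.Adj i j ↔ F'.Adj (π i) (π j)) → (∀ i, v' (π i) = v i) → Good F v → Good F' v') :
    orb (Full (V := V) (Cc := Cc) Good (Fintype.card V)) =
      Nat.card {F : SimpleGraph V // Good F (fun _ => none)} := by
  symm
  unfold orb
  set m := Fintype.card V with hm
  let e : V ≃ Fin m := Fintype.equivFin V
  have hF : ∀ F : {F : SimpleGraph V // Good F (fun _ => none)},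
      Full Good m (F.1, fun v => (Sum.inr (e v) : Cc ⊕ Fin m)) := by
    intro F
    exact ⟨F.2, fun j => ⟨e.symm j, by simp⟩⟩
  apply Nat.card_eq_of_bijective (fun F => Quotient.mk (cSetoid (Full Good m)) ⟨_, hF F⟩)
  constructor
  · intro F F' h
    obtain ⟨π, h1, h2⟩ := Quotient.exact h
    have h3 : ∀ u, π u = u := by
      intro u
      have h4 : (Sum.inr (e (π u)) : Cc ⊕ Fin m) = Sum.inr (e u) := h2 u
      exact e.injective (Sum.inr.inj h4)
    apply Subtype.ext
    ext u v
    have h5 : F.1.Adj u v ↔ F'.1.Adj (π u) (π v) := h1 u v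
    rw [h5, h3, h3]
  · intro q
    induction q using Quotient.inductionOn with
    | _ c =>
      choose g hg using c.2.2
      have hinj : Function.Injective g := by
        intro i j hij
        have h1 := hg i
        rw [hij, hg j] at h1
        exact (Sum.inr.inj h1).symm
      have hbij : Function.Bijective g := by
        rw [Fintype.bijective_iff_injective_and_card]
        exact ⟨hinj, by rw [Fintype.card_fin]⟩
      let G : Fin m ≃ V := Equiv.ofBijective g hbij
      have hG : ∀ v, c.1.2 v = Sum.inr (G.symm v) := by
        intro v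
        have h1 := hg (G.symm v)
        have h2 : g (G.symm v) = v := Equiv.apply_symm_apply G v
        rw [h2] at h1
        exact h1
      let π : Equiv.Perm V := G.symm.trans e.symm
      let F' : SimpleGraph V := c.1.1.comap π.symm
      have hadj : ∀ i j, c.1.1.Adj i j ↔ F'.Adj (π i) (π j) := by
        intro i j
        show c.1.1.Adj i j ↔ c.1.1.Adj (π.symm (π i)) (π.symm (π j))
        rw [Equiv.symm_apply_apply, Equiv.symm_apply_apply]
      have hgood : Good F' (fun _ => none) := by
        refine hinv c.1.1 F' (fun v => coll (c.1.2 v)) (fun _ => none) π hadj ?_ c.2.1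
        intro i
        rw [hG]
        rfl
      refine ⟨⟨F', hgood⟩, ?_⟩
      apply Quotient.sound
      refine (cSetoid (Full Good m)).symm ?_
      refine ⟨π, hadj, fun u => ?_⟩
      show (Sum.inr (e (π u)) : Cc ⊕ Fin m) = c.1.2 u
      rw [hG]
      show Sum.inr (e (e.symm (G.symm u))) = Sum.inr (G.symm u)
      rw [Equiv.apply_symm_apply]

end P1a_ns

open P1a_ns in
theorem P1a : S_P1a := by
  intro V _ Cc _ Good hinv
  classical
  refine ⟨fun k => orb (Full (V := V) (Cc := Cc) Good k), orb_top Good hinv, ?_⟩
  intro y
  have : Finite (SimpleGraph V) := inferInstance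
  have : Finite {c : SimpleGraph V × (V → Cc ⊕ Fin y) // All Good y c} := inferInstance
  have : Finite (Quotient (cSetoid (All (V := V) (Cc := Cc) Good y))) := inferInstance
  have hfib : ∀ I : Finset (Fin y),
      Nat.card {q : Quotient (cSetoid (All (V := V) (Cc := Cc) Good y)) //
        qimg Good y q = (I : Set (Fin y))} = orb (Full (V := V) (Cc := Cc) Good I.card) := by
    intro I
    have h := fibre (V := V) (Cc := Cc) Good (fun i => (I.orderEmbOfFin rfl i : Fin y))
      (I.orderEmbOfFin rfl).injective
    have h2 : Set.range (fun i => (I.orderEmbOfFin rfl i : Fin y)) = (I : Set (Fin y)) :=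
      Finset.range_orderEmbOfFin I rfl
    rw [h2] at h
    exact h
  have hsum : orb (All (V := V) (Cc := Cc) Good y) =
      ∑ I : Finset (Fin y), orb (Full (V := V) (Cc := Cc) Good I.card) := by
    unfold orb
    have e1 : Quotient (cSetoid (All (V := V) (Cc := Cc) Good y)) ≃
        Σ I : Finset (Fin y), {q : Quotient (cSetoid (All (V := V) (Cc := Cc) Good y)) //
          qimg Good y q = (I : Set (Fin y))} := by
      refine (Equiv.sigmaFiberEquiv (fun q => (qimg Good y q).toFinset)).symm.trans ?_
      refine Equiv.sigmaCongrRight fun I => Equiv.subtypeEquivRight fun q => ?_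
      constructor
      · rintro rfl
        simp
      · intro h
        ext j
        simp [h]
    rw [Nat.card_congr e1, Nat.card_sigma]
    exact Finset.sum_congr rfl fun I _ => hfib I
  show orb (All (V := V) (Cc := Cc) Good y) = _
  rw [hsum]
  have h3 : ∑ I : Finset (Fin y), orb (Full (V := V) (Cc := Cc) Good I.card) =
      ∑ k ∈ range (y + 1), y.choose k * orb (Full (V := V) (Cc := Cc) Good k) := by
    have h := Finset.sum_powerset_apply_card (x := (univ : Finset (Fin y)))
      (fun k => orb (Full (V := V) (Cc := Cc) Good k))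
    rw [Finset.powerset_univ, Finset.card_univ, Fintype.card_fin] at h
    rw [h]
    rfl
  rw [h3]
  have h4 : ∑ k ∈ range (y + 1), y.choose k * orb (Full (V := V) (Cc := Cc) Good k) =
      ∑ k ∈ range (y + Fintype.card V + 1), y.choose k *
        orb (Full (V := V) (Cc := Cc) Good k) := by
    apply Finset.sum_subset
    · intro k hk
      rw [Finset.mem_range] at hk ⊢
      omega
    · intro k _ hk
      rw [Finset.mem_range] at hk
      rw [Nat.choose_eq_zero_of_lt (by omega), zero_mul]
  have h5 : ∑ k ∈ range (Fintype.card V + 1), y.choose k *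
      orb (Full (V := V) (Cc := Cc) Good k) =
      ∑ k ∈ range (y + Fintype.card V + 1), y.choose k *
        orb (Full (V := V) (Cc := Cc) Good k) := by
    apply Finset.sum_subset
    · intro k hk
      rw [Finset.mem_range] at hk ⊢
      omega
    · intro k _ hk
      rw [Finset.mem_range] at hk
      rw [orb_zero Good (by omega), mul_zero]
  rw [h4, h5]

end Pool.Agent.H695R3.SF
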