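import Pool.Agent.H695R3.SF.Defs2

/-!
# S0: the graph of the instance is the graph of the list
-/

namespace Pool.Agent.H695R3.SF

open Finset
open Pool.Agent.H549R2.Convex (F ent)
open Pool.Agent.NPC Pool.Agent.NPC.Cnt Pool.Agent.NPC.H549NRed

namespace S0_ns

/-- the level of a vertex in the graph with the reservoir -/
def rkO (a : ((LL × Un) × Un) × Un) : Option (WA a.1 ⊕ Fin a.2.length) → ℕ
  | none => 0
  | some (Sum.inr _) => 1
  | some (Sum.inl (Sum.inl (Sum.inl _))) => 1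
  | some (Sum.inl (Sum.inl (Sum.inr _))) => 2
  | some (Sum.inl (Sum.inr _)) => 3

/-- the level of a vertex in the tree -/
def rkT (a : (((LL × Un) × Un) × Un) × Un) : VT a → ℕ
  | Sum.inl v => rkO a.1 v
  | Sum.inr p => 4 + rkO a.1 p.1

theorem parO_rk (a : ((LL × Un) × Un) × Un) (v : Option (WA a.1 ⊕ Fin a.2.length))
    (hv : v ≠ none) : ∃ u, parO a v = some u ∧ rkO a u < rkO a v := by
  rcases v with _ | ((q | q) | w)
  · exact absurd rfl hv
  · rcases q with z | p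
    · exact ⟨none, rfl, by simp [rkO]⟩
    · exact ⟨some (Sum.inl (Sum.inl (Sum.inl p.1))), rfl, by simp [rkO]⟩
  · refine ⟨some (Sum.inl (Sum.inl q.1)), rfl, ?_⟩
    rcases q with ⟨q | q, i⟩ <;> simp [rkO]
  · exact ⟨none, rfl, by simp [rkO]⟩

theorem grT_isTree (h4 : S_T4) (h5 : S_T5) (a : (((LL × Un) × Un) × Un) × Un) :
    (grT a).IsTree := by
  have h0 : Fintype (WA a.1.1) := inferInstance
  have h1 : Fintype (VT a) := by
    unfold VT
    infer_instance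
  refine h5 (VT a) (grT a) (parT a) (rkT a) (Sum.inl none) rfl ?_ (h4 a)
  rintro (v | p) hv
  · obtain ⟨u, hu, hlt⟩ := parO_rk a.1 v (fun h => hv (by rw [h]))
    refine ⟨Sum.inl u, ?_, hlt⟩
    simp [parT, hu]
  · refine ⟨Sum.inl p.1, rfl, ?_⟩
    simp [rkT]

theorem mem_edges (h2 : S_T2) (h3 : S_T3) (a : (((LL × Un) × Un) × Un) × Un) (u v : VT a) :
    (cT a u, cT a v) ∈ (treeL a).2 ↔ parT a u = some v := by
  rw [h3]
  constructor
  · rintro ⟨u', v', h, h'⟩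
    rw [Prod.mk.injEq] at h'
    rw [(h2 a).1 h'.1, (h2 a).1 h'.2]
    exact h
  · intro h
    exact ⟨u, v, h, rfl⟩

/-- the names -/
noncomputable def eT (h2 : S_T2) (a : (((LL × Un) × Un) × Un) × Un) :
    VT a ≃ {v : ℕ // v ∈ (treeL a).1} :=
  Equiv.ofBijective (fun v => ⟨cT a v, ((h2 a).2.2 _).2 ⟨v, rfl⟩⟩)
    ⟨fun u v h => (h2 a).1 (Subtype.mk.inj h), fun ⟨n, hn⟩ => by
      obtain ⟨v, hv⟩ := ((h2 a).2.2 n).1 hn
      exact ⟨v, Subtype.ext hv⟩⟩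

theorem eT_coe (h2 : S_T2) (a : (((LL × Un) × Un) × Un) × Un) (v : VT a) :
    ((eT h2 a v : {v : ℕ // v ∈ (treeL a).1}) : ℕ) = cT a v := rfl

/-- the isomorphism -/
noncomputable def isoT (h2 : S_T2) (h3 : S_T3) (h4 : S_T4) (a : (((LL × Un) × Un) × Un) × Un) :
    grT a ≃g grI (treeL a) where
  toEquiv := eT h2 a
  map_rel_iff' := by
    intro u v
    constructor
    · rintro ⟨_, h⟩
      rw [eT_coe, eT_coe, mem_edges h2 h3, mem_edges h2 h3] at h
      exact (h4 a u v).2 h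
    · intro h
      refine ⟨fun h' => h.ne ((eT h2 a).injective h'), ?_⟩
      rw [eT_coe, eT_coe, mem_edges h2 h3, mem_edges h2 h3]
      exact (h4 a u v).1 h

theorem numSub_treeL (h2 : S_T2) (h3 : S_T3) (h4 : S_T4) (h5 : S_T5) (h6 : S_T6)
    (a : (((LL × Un) × Un) × Un) × Un) : numSub (treeL a) = fU a := by
  have h : TreeI (treeL a) := by
    refine ⟨(h2 a).2.1, fun p hp => ?_, (isoT h2 h3 h4 a).isTree_iff.1 (grT_isTree h4 h5 a)⟩
    obtain ⟨u, v, huv, rfl⟩ := (h3 a p).1 hp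
    refine ⟨((h2 a).2.2 _).2 ⟨u, rfl⟩, ((h2 a).2.2 _).2 ⟨v, rfl⟩, fun h => ?_⟩
    exact ((h4 a u v).2 (Or.inl huv)).ne ((h2 a).1 h)
  unfold numSub
  rw [if_pos h]
  exact (h6 _ _ _ _ ⟨isoT h2 h3 h4 a⟩).symm

end S0_ns

open S0_ns in
theorem S0 (_h0 : S_CARD) (h1 : S_T1) (h2 : S_T2) (h3 : S_T3) (h4 : S_T4) (h5 : S_T5)
    (h6 : S_T6) : S_S0 := by
  refine ⟨fun a => [treeL a], fun p => p.2.getD 0 0, Poly.cons h1 (NPC.Poly.const []),
    Poly.getD (Poly.snd Poly.id) (NPC.Poly.const 0) (NPC.Poly.const 0), fun a _ => ?_⟩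
  refine ⟨fun _ _ => trivial, ?_⟩
  exact numSub_treeL h2 h3 h4 h5 h6 a

end Pool.Agent.H695R3.SF
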