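import Pool.Agent.H695R3.SF.SD

/-!
# SA: the reduction from `fL` to `fU`
-/

namespace Pool.Agent.H695R3.SF

open Finset
open Pool.Agent.H549R2.Convex (F ent)
open Pool.Agent.NPC Pool.Agent.NPC.Cnt Pool.Agent.NPC.H549NRed
open Pool.Agent.NPC.H549Convex (upoly_choose ent_poly)

namespace SA_ns

open SD_ns

/-- the sum of labels is computed in polynomial time -/
theorem sumLab_poly : NPC.Poly sumLab := by
  have h2 : NPC.Poly (fun p : LL × ℕ =>
      (List.range p.1.length).filter (fun j => ent p.1 p.2 j)) :=
    NPC.Poly.filter (p := fun (p : LL × ℕ) j => ent p.1 p.2 j)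
      (NPC.Poly.range_length (NPC.Poly.fst NPC.Poly.id))
      (ent_poly.comp (NPC.Poly.pair (NPC.Poly.fst (NPC.Poly.fst NPC.Poly.id)) (NPC.Poly.pair
        (NPC.Poly.snd (NPC.Poly.fst NPC.Poly.id)) (NPC.Poly.snd NPC.Poly.id))))
  have h1 : NPC.Poly (fun q : (LL × ℕ) × ℕ => 3 + (q.1.2 * q.1.1.length + q.2)) :=
    NPC.Poly.add (NPC.Poly.const 3) (NPC.Poly.add (NPC.Poly.mul
      (NPC.Poly.snd (NPC.Poly.fst NPC.Poly.id))
      (NPC.Poly.length (NPC.Poly.fst (NPC.Poly.fst NPC.Poly.id)))) (NPC.Poly.snd NPC.Poly.id))
  have h3 : NPC.Poly (fun p : LL × ℕ =>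
      ((List.range p.1.length).filter (fun j => ent p.1 p.2 j)).map
        (fun j => 3 + (p.2 * p.1.length + j))) :=
    NPC.Poly.map (F := fun (p : LL × ℕ) j => 3 + (p.2 * p.1.length + j)) h2 h1
  have h4 : NPC.Poly (fun A : LL => (List.range A.length).flatMap
      (fun i => ((List.range A.length).filter (fun j => ent A i j)).map
        (fun j => 3 + (i * A.length + j)))) :=
    NPC.Poly.flatMap (F := fun (A : LL) i => ((List.range A.length).filter
      (fun j => ent A i j)).map (fun j => 3 + (i * A.length + j)))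
      (NPC.Poly.range_length NPC.Poly.id) h3
  exact NPC.Poly.sum h4

theorem sumLab_le (A : LL) :
    sumLab A ≤ A.length * A.length * (3 + (A.length * A.length + A.length)) := by
  rw [sumLab]
  set M := 3 + (A.length * A.length + A.length) with hM
  have h1 : ∀ i ∈ List.range A.length, (((List.range A.length).filter (fun j => ent A i j)).map
      (fun j => 3 + (i * A.length + j))).sum ≤ A.length * M := by
    intro i hi
    rw [List.mem_range] at hi
    have h2 := List.sum_le_card_nsmul (((List.range A.length).filter (fun j => ent A i j)).map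
      (fun j => 3 + (i * A.length + j))) M ?_
    · rw [List.length_map, smul_eq_mul] at h2
      refine h2.trans (Nat.mul_le_mul_right _ ?_)
      have := List.length_filter_le (fun j => ent A i j) (List.range A.length)
      simpa using this
    · intro x hx
      rw [List.mem_map] at hx
      obtain ⟨j, hj, rfl⟩ := hx
      have hj' : j < A.length := by simpa using List.mem_of_mem_filter hj
      have : i * A.length ≤ A.length * A.length := Nat.mul_le_mul_right _ hi.le
      omega
  have key : ∀ l : List ℕ, (∀ i ∈ l, (((List.range A.length).filter (fun j => ent A i j)).map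
      (fun j => 3 + (i * A.length + j))).sum ≤ A.length * M) →
      (l.flatMap (fun i => ((List.range A.length).filter (fun j => ent A i j)).map
        (fun j => 3 + (i * A.length + j)))).sum ≤ l.length * (A.length * M) := by
    intro l
    induction l with
    | nil => intro _; simp
    | cons i l ih =>
      intro h
      rw [List.flatMap_cons, List.sum_append, List.length_cons, Nat.add_mul, one_mul, add_comm]
      exact Nat.add_le_add (ih fun i hi => h i (List.mem_cons_of_mem _ hi))
        (h i List.mem_cons_self)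
  have := key _ h1
  rw [List.length_range, ← mul_assoc] at this
  exact this

theorem sumLab_upoly : UPoly sumLab := by
  have hl : UPoly (fun A : LL => A.length) := UPoly.length NPC.Poly.id
  refine UPoly.of_le sumLab_poly (UPoly.mul (UPoly.mul hl hl) (UPoly.add (UPoly.const 3)
    (UPoly.add (UPoly.mul hl hl) hl))) sumLab_le

theorem zN_upoly : UPoly zN :=
  UPoly.add (UPoly.add (UPoly.mul (UPoly.const 2) (UPoly.length (NPC.Poly.fst
    (NPC.Poly.fst NPC.Poly.id))))
    (UPoly.mul (UPoly.comp onesN_upoly (NPC.Poly.fst (NPC.Poly.fst NPC.Poly.id)))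
      (UPoly.length (NPC.Poly.snd (NPC.Poly.fst NPC.Poly.id)))))
    (UPoly.add (UPoly.length (NPC.Poly.snd NPC.Poly.id)) (UPoly.const 1))

theorem wN_upoly : UPoly wN := by
  have hg : UPoly (fun a : (LL × Un) × Un => a.1.2.length + 2) :=
    UPoly.add (UPoly.length (NPC.Poly.snd (NPC.Poly.fst NPC.Poly.id))) (UPoly.const 2)
  exact UPoly.add (UPoly.add (UPoly.mul (UPoly.const 3) zN_upoly)
    (UPoly.mul (UPoly.comp onesN_upoly (NPC.Poly.fst (NPC.Poly.fst NPC.Poly.id))) hg))
    (UPoly.mul hg (UPoly.comp sumLab_upoly (NPC.Poly.fst (NPC.Poly.fst NPC.Poly.id))))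

/-- the number of vertices of the graph with the reservoir -/
def rN (a : ((LL × Un) × Un) × Un) : ℕ := wN a.1 + a.2.length + 1

theorem rN_upoly : UPoly rN :=
  UPoly.add (UPoly.add (UPoly.comp wN_upoly (NPC.Poly.fst NPC.Poly.id))
    (UPoly.length (NPC.Poly.snd NPC.Poly.id))) (UPoly.const 1)

end SA_ns

open SD_ns SA_ns in
/-- SA -/
theorem SA (h1 : S_A) (h3 : S_CARD) (h4 : S_TOOL) : S_SA := by
  refine alt_red h4 fL fU rN rN_upoly 1
    (fun a n => cls (leafy (res (coreA a.1) a.2.length) n)) ?_ ?_
  · intro a n
    have key : ∀ l : Un, fU (a, l) = cls (leafy (res (coreA a.1) a.2.length) l.length) :=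
      fun l => rfl
    rw [key, List.length_replicate]
  · intro a
    have hc : Fintype.card (Option (WA a.1 ⊕ Fin a.2.length)) = rN a := by
      rw [Fintype.card_option, Fintype.card_sum, Fintype.card_fin, h3.2.2.2.2.1, rN]
    have h := h1 _ (res (coreA a.1) a.2.length) 1 le_rfl
    rw [hc] at h
    exact h

end Pool.Agent.H695R3.SF
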