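import Pool.Agent.H695R3.SF.Defs2

/-!
# Task SB: the reduction from `fN` to `fL`
-/

namespace Pool.Agent.H695R3.SF.SB_ns

open Finset
open Pool.Agent.H549R2.Convex (F ent)
open Pool.Agent.NPC Pool.Agent.NPC.Cnt Pool.Agent.NPC.H549NRed
open Pool.Agent.NPC.H549Convex (ent_poly upoly_choose)
open Pool.Agent.NPC.H549PM (upoly_min upoly_pow2)

theorem row_poly : Poly (fun p : SF.LL × ℕ =>
    (List.range p.1.length).filter (fun j => ent p.1 p.2 j)) :=
  NPC.Poly.filter (p := fun (p : SF.LL × ℕ) j => ent p.1 p.2 j) (NPC.Poly.range_length (NPC.Poly.fst NPC.Poly.id))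
    (ent_poly.comp (NPC.Poly.pair (NPC.Poly.fst (NPC.Poly.fst NPC.Poly.id)) (NPC.Poly.pair
      (NPC.Poly.snd (NPC.Poly.fst NPC.Poly.id)) (NPC.Poly.snd NPC.Poly.id))))

theorem onesN_upoly : UPoly onesN := by
  have h1 : Poly (fun A : SF.LL => (List.range A.length).flatMap
      (fun i => (List.range A.length).filter (fun j => ent A i j))) :=
    NPC.Poly.flatMap (F := fun (A : SF.LL) i => (List.range A.length).filter (fun j => ent A i j))
      (NPC.Poly.range_length NPC.Poly.id) row_poly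
  exact UPoly.length h1

theorem sumLab_poly : Poly sumLab := by
  have h2 : Poly (fun p : SF.LL × ℕ => ((List.range p.1.length).filter
      (fun j => ent p.1 p.2 j)).map (fun j => 3 + (p.2 * p.1.length + j))) := by
    refine NPC.Poly.map (F := fun (p : SF.LL × ℕ) j => 3 + (p.2 * p.1.length + j)) row_poly ?_
    exact NPC.Poly.add (NPC.Poly.const 3) (NPC.Poly.add (NPC.Poly.mul (NPC.Poly.snd (NPC.Poly.fst NPC.Poly.id))
      (NPC.Poly.length (NPC.Poly.fst (NPC.Poly.fst NPC.Poly.id)))) (NPC.Poly.snd NPC.Poly.id))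
  exact NPC.Poly.sum (NPC.Poly.flatMap (F := fun (A : SF.LL) i => ((List.range A.length).filter
      (fun j => ent A i j)).map (fun j => 3 + (i * A.length + j))) (NPC.Poly.range_length NPC.Poly.id) h2)

theorem sum_le_of_le (l : List ℕ) (c : ℕ) (h : ∀ x ∈ l, x ≤ c) : l.sum ≤ l.length * c := by
  have := List.sum_le_card_nsmul l c h
  rwa [smul_eq_mul] at this

theorem sumLab_le (A : SF.LL) :
    sumLab A ≤ A.length * (A.length * (3 + (A.length * A.length + A.length))) := by
  unfold sumLab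
  rw [List.flatMap_def, List.sum_flatten, List.map_map]
  refine (sum_le_of_le _ (A.length * (3 + (A.length * A.length + A.length))) ?_).trans ?_
  · intro x hx
    rw [List.mem_map] at hx
    obtain ⟨i, hi, rfl⟩ := hx
    rw [List.mem_range] at hi
    refine (sum_le_of_le _ (3 + (A.length * A.length + A.length)) ?_).trans ?_
    · intro y hy
      rw [List.mem_map] at hy
      obtain ⟨j, hj, rfl⟩ := hy
      have hj' := (List.mem_filter.1 hj).1
      rw [List.mem_range] at hj'
      have := Nat.mul_le_mul_right A.length hi.le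
      omega
    · rw [List.length_map]
      refine Nat.mul_le_mul_right _ ?_
      refine (List.length_filter_le _ _).trans ?_
      rw [List.length_range]
  · rw [List.length_map, List.length_range]

theorem sumLab_upoly : UPoly sumLab := by
  refine UPoly.of_le (n := fun A : SF.LL =>
    A.length * (A.length * (3 + (A.length * A.length + A.length)))) sumLab_poly ?_ sumLab_le
  have hl : UPoly (fun A : SF.LL => A.length) := UPoly.length NPC.Poly.id
  exact UPoly.mul hl (UPoly.mul hl (UPoly.add (UPoly.const 3) (UPoly.add (UPoly.mul hl hl) hl)))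

theorem zN_upoly : UPoly zN := by
  have h1 : UPoly (fun a : (SF.LL × Un) × Un => a.1.1.length) :=
    UPoly.length (NPC.Poly.fst (NPC.Poly.fst NPC.Poly.id))
  have h2 : UPoly (fun a : (SF.LL × Un) × Un => onesN a.1.1) :=
    onesN_upoly.comp (NPC.Poly.fst (NPC.Poly.fst NPC.Poly.id))
  have h3 : UPoly (fun a : (SF.LL × Un) × Un => a.1.2.length) :=
    UPoly.length (NPC.Poly.snd (NPC.Poly.fst NPC.Poly.id))
  have h4 : UPoly (fun a : (SF.LL × Un) × Un => a.2.length) :=
    UPoly.length (NPC.Poly.snd NPC.Poly.id)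
  exact UPoly.add (UPoly.add (UPoly.mul (UPoly.const 2) h1) (UPoly.mul h2 h3))
    (UPoly.add h4 (UPoly.const 1))

theorem wN_upoly : UPoly wN := by
  have h2 : UPoly (fun a : (SF.LL × Un) × Un => onesN a.1.1) :=
    onesN_upoly.comp (NPC.Poly.fst (NPC.Poly.fst NPC.Poly.id))
  have h3 : UPoly (fun a : (SF.LL × Un) × Un => a.1.2.length + 2) :=
    UPoly.add (UPoly.length (NPC.Poly.snd (NPC.Poly.fst NPC.Poly.id))) (UPoly.const 2)
  have h4 : UPoly (fun a : (SF.LL × Un) × Un => sumLab a.1.1) :=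
    sumLab_upoly.comp (NPC.Poly.fst (NPC.Poly.fst NPC.Poly.id))
  exact UPoly.add (UPoly.add (UPoly.mul (UPoly.const 3) zN_upoly) (UPoly.mul h2 h3))
    (UPoly.mul h3 h4)

/-- one term -/
def term (a : (SF.LL × Un) × Un) (k j : ℕ) :
    (Bool × ℕ × ℕ × ℕ) × (((SF.LL × Un) × Un) × Un) :=
  ((decide ((k + j) % 2 = 0),
    (wN a + 1).choose (min k (wN a + 1)) * 2 ^ (min k (wN a + 1)) *
      (2 * wN a + 2).choose (min j (2 * wN a + 2)), 1, 1),
    (a, List.replicate (wN a + (wN a + 1 - min k (wN a + 1)) +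
      (2 * wN a + 2 - min j (2 * wN a + 2))) ()))

/-- the terms of the sum -/
def tm (a : (SF.LL × Un) × Un) : List ((Bool × ℕ × ℕ × ℕ) × (((SF.LL × Un) × Un) × Un)) :=
  (List.range (wN a + 2)).flatMap (fun k => (List.range (2 * wN a + 3)).map (fun j => term a k j))

theorem term_poly : Poly (fun p : (((SF.LL × Un) × Un) × ℕ) × ℕ => term p.1.1 p.1.2 p.2) := by
  have hw : UPoly (fun p : (((SF.LL × Un) × Un) × ℕ) × ℕ => wN p.1.1) :=
    wN_upoly.comp (NPC.Poly.fst (NPC.Poly.fst NPC.Poly.id))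
  have ha : Poly (fun p : (((SF.LL × Un) × Un) × ℕ) × ℕ => p.1.1) := NPC.Poly.fst (NPC.Poly.fst NPC.Poly.id)
  have hk : Poly (fun p : (((SF.LL × Un) × Un) × ℕ) × ℕ => p.1.2) := NPC.Poly.snd (NPC.Poly.fst NPC.Poly.id)
  have hj : Poly (fun p : (((SF.LL × Un) × Un) × ℕ) × ℕ => p.2) := NPC.Poly.snd NPC.Poly.id
  have hw1 : UPoly (fun p : (((SF.LL × Un) × Un) × ℕ) × ℕ => wN p.1.1 + 1) :=
    UPoly.add hw (UPoly.const 1)
  have hw2 : UPoly (fun p : (((SF.LL × Un) × Un) × ℕ) × ℕ => 2 * wN p.1.1 + 2) :=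
    UPoly.add (UPoly.mul (UPoly.const 2) hw) (UPoly.const 2)
  have hmk := upoly_min hk hw1
  have hmj := upoly_min hj hw2
  have hb : Poly (fun p : (((SF.LL × Un) × Un) × ℕ) × ℕ => decide ((p.1.2 + p.2) % 2 = 0)) :=
    NPC.Poly.decide_eq (NPC.Poly.mod (NPC.Poly.add hk hj) (NPC.Poly.const 2)) (NPC.Poly.const 0)
  have hm := NPC.Poly.mul (NPC.Poly.mul (upoly_choose hw1 hmk (fun _ => Nat.min_le_right _ _))
    (upoly_pow2 hmk)) (upoly_choose hw2 hmj (fun _ => Nat.min_le_right _ _))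
  have hs1 : UPoly (fun p : (((SF.LL × Un) × Un) × ℕ) × ℕ =>
      wN p.1.1 + 1 - min p.1.2 (wN p.1.1 + 1)) :=
    UPoly.of_le (NPC.Poly.sub hw1.toPoly hmk.toPoly) hw1 (fun _ => Nat.sub_le _ _)
  have hs2 : UPoly (fun p : (((SF.LL × Un) × Un) × ℕ) × ℕ =>
      2 * wN p.1.1 + 2 - min p.2 (2 * wN p.1.1 + 2)) :=
    UPoly.of_le (NPC.Poly.sub hw2.toPoly hmj.toPoly) hw2 (fun _ => Nat.sub_le _ _)
  have hq : UPoly (fun p : (((SF.LL × Un) × Un) × ℕ) × ℕ =>
      wN p.1.1 + (wN p.1.1 + 1 - min p.1.2 (wN p.1.1 + 1)) +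
        (2 * wN p.1.1 + 2 - min p.2 (2 * wN p.1.1 + 2))) := UPoly.add (UPoly.add hw hs1) hs2
  exact NPC.Poly.pair (NPC.Poly.pair hb (NPC.Poly.pair hm (NPC.Poly.pair (NPC.Poly.const 1) (NPC.Poly.const 1))))
    (NPC.Poly.pair ha hq)

theorem tm_poly : Poly tm := by
  have hw : UPoly (fun p : ((SF.LL × Un) × Un) × ℕ => wN p.1) := wN_upoly.comp (NPC.Poly.fst NPC.Poly.id)
  have h2 : Poly (fun p : ((SF.LL × Un) × Un) × ℕ =>
      (List.range (2 * wN p.1 + 3)).map (fun j => term p.1 p.2 j)) :=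
    NPC.Poly.map (F := fun (p : ((SF.LL × Un) × Un) × ℕ) j => term p.1 p.2 j)
      (UPoly.add (UPoly.mul (UPoly.const 2) hw) (UPoly.const 3)).range term_poly
  exact NPC.Poly.flatMap (F := fun (a : (SF.LL × Un) × Un) k =>
    (List.range (2 * wN a + 3)).map (fun j => term a k j))
    (UPoly.add wN_upoly (UPoly.const 2)).range h2

/-- the denominator -/
def den (a : (SF.LL × Un) × Un) : ℕ := 2 ^ (wN a + (wN a + 1)) * (wN a + 1)

theorem den_poly : Poly den :=
  NPC.Poly.mul (upoly_pow2 (UPoly.add wN_upoly (UPoly.add wN_upoly (UPoly.const 1))))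
    (UPoly.add wN_upoly (UPoly.const 1)).toPoly

theorem sum_range_list (g : ℕ → ℤ) (n : ℕ) :
    ((List.range n).map g).sum = ∑ i ∈ Finset.range n, g i := by
  induction n with
  | zero => simp
  | succ n ih => rw [List.range_succ, List.map_append, List.sum_append, ih,
      Finset.sum_range_succ]; simp

theorem neg_one_decide (n : ℕ) :
    (if decide (n % 2 = 0) = true then (1 : ℤ) else -1) = (-1) ^ n := by
  rcases Nat.even_or_odd n with h | h
  · rw [h.neg_one_pow, if_pos (by simpa using Nat.even_iff.1 h)]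
  · rw [h.neg_one_pow, if_neg (by have := Nat.odd_iff.1 h; simp [this])]

theorem tm_sum (a : (SF.LL × Un) × Un) : ((tm a).map (tval fL)).sum =
    ∑ k ∈ Finset.range (wN a + 2), (-1 : ℤ) ^ k * ((wN a + 1).choose k) * 2 ^ k *
      ∑ j ∈ Finset.range (2 * wN a + 3), (-1 : ℤ) ^ j * ((2 * wN a + 2).choose j) *
        (lam (res (coreA a) (wN a + (wN a + 1 - k) + (2 * wN a + 2 - j))) : ℤ) := by
  have h1 : ((tm a).map (tval fL)).sum = ∑ k ∈ Finset.range (wN a + 2),
      ∑ j ∈ Finset.range (2 * wN a + 3), tval fL (term a k j) := by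
    rw [← sum_range_list, tm, List.flatMap_def, List.map_flatten, List.sum_flatten, List.map_map,
      List.map_map]
    congr 1
    refine List.map_congr_left fun k _ => ?_
    rw [Function.comp_apply, Function.comp_apply, ← sum_range_list, List.map_map]
    rfl
  rw [h1]
  refine Finset.sum_congr rfl fun k hk => ?_
  rw [Finset.mem_range] at hk
  rw [Finset.mul_sum]
  refine Finset.sum_congr rfl fun j hj => ?_
  rw [Finset.mem_range] at hj
  have e1 : min k (wN a + 1) = k := Nat.min_eq_left (by omega)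
  have e2 : min j (2 * wN a + 2) = j := Nat.min_eq_left (by omega)
  have e3 : fL (a, List.replicate (wN a + (wN a + 1 - k) + (2 * wN a + 2 - j)) ()) =
      lam (res (coreA a) (wN a + (wN a + 1 - k) + (2 * wN a + 2 - j))) := by
    unfold fL
    have : ∀ n : ℕ, n = wN a + (wN a + 1 - k) + (2 * wN a + 2 - j) →
        lam (res (coreA a) n) =
          lam (res (coreA a) (wN a + (wN a + 1 - k) + (2 * wN a + 2 - j))) := by
      intro n hn
      rw [hn]
    exact this _ (List.length_replicate)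
  unfold tval term
  simp only
  rw [e1, e2, e3, neg_one_decide, one_mul, Nat.div_one, pow_add]
  push_cast
  ring

theorem SB' (h1 : S_B) (h3 : S_CARD) (h4 : S_TOOL) : S_SB := by
  obtain ⟨-, -, -, -, hW, -, -, -⟩ := h3
  refine h4 _ _ _ _ _ _ tm den tm_poly den_poly (fun _ _ _ _ => trivial) (fun a _ => ?_)
    (fun a _ => ?_)
  · unfold den
    positivity
  · have hne : Nonempty (WA a) := ⟨Sum.inl (Sum.inl (Sum.inr 0))⟩
    have h := h1 (WA a) (coreA a) (wN a) (by rw [hW a])
    rw [hW a] at h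
    rw [tm_sum, h]
    unfold den fN
    push_cast
    ring

end Pool.Agent.H695R3.SF.SB_ns

namespace Pool.Agent.H695R3.SF

theorem SB (h1 : S_B) (h3 : S_CARD) (h4 : S_TOOL) : S_SB := SB_ns.SB' h1 h3 h4

end Pool.Agent.H695R3.SF
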