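import Pool.Agent.H695R3.SF.Defs2

/-!
# SC: from the families to the trees
-/

namespace Pool.Agent.H695R3.SF

open Finset
open Pool.Agent.H549R2.Convex (F ent)
open Pool.Agent.NPC Pool.Agent.NPC.Cnt Pool.Agent.NPC.H549NRed Pool.Agent.NPC.H549Convex
  Pool.Agent.NPC.H549PM

namespace SC_ns

/-- the factorials `(3 + lab e)!`, as a list -/
def facL (A : LL) : List ℕ :=
  (List.range A.length).flatMap (fun i => ((List.range A.length).filter (fun j => ent A i j)).map
    (fun j => (min (3 + (i * A.length + j)) (3 + A.length * A.length)).factorial))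

theorem list_prod_filter {M : Type} [CommMonoid M] (l : List ℕ) (p : ℕ → Bool) (g : ℕ → M) :
    ((l.filter p).map g).prod = (l.map (fun j => if p j = true then g j else 1)).prod := by
  induction l with
  | nil => rfl
  | cons a l ih =>
    rw [List.filter_cons]
    cases h : p a <;> simp [h, ih]

theorem list_prod_flatMap {M : Type} [CommMonoid M] (l : List ℕ) (g : ℕ → List M) :
    (l.flatMap g).prod = (l.map (fun i => (g i).prod)).prod := by
  induction l with
  | nil => rfl
  | cons a l ih => simp [List.flatMap_cons, ih]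

theorem list_range_prod {M : Type} [CommMonoid M] (n : ℕ) (g : ℕ → M) :
    ((List.range n).map g).prod = ∏ i : Fin n, g i := by
  rw [← Finset.prod_range]
  rfl

/-- products over the ones as products of lists -/
theorem prod_Lb {M : Type} [CommMonoid M] (A : LL) (g : ℕ → ℕ → M) :
    ∏ e : Lb A, g e.1.1.val e.1.2.val = ((List.range A.length).flatMap (fun i =>
      ((List.range A.length).filter (fun j => ent A i j)).map (g i))).prod := by
  rw [list_prod_flatMap, list_range_prod]
  have h1 : ∀ i : Fin A.length, (((List.range A.length).filter (fun j => ent A i j)).map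
      (g i)).prod = ∏ j : Fin A.length, if ent A i j = true then g i j else 1 := by
    intro i
    rw [list_prod_filter, list_range_prod]
  simp_rw [h1]
  rw [← Fintype.prod_prod_type'
    (f := fun (i : Fin A.length) (j : Fin A.length) => if ent A i j = true then g i j else 1)]
  rw [← Finset.prod_filter]
  exact (Finset.prod_subtype (univ.filter (fun p : Fin A.length × Fin A.length =>
    ent A p.1 p.2 = true)) (by simp) (fun p => g p.1.val p.2.val)).symm

theorem facL_prod (A : LL) : ∏ e : Lb A, (3 + labA A e).factorial = (facL A).prod := by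
  have h1 := prod_Lb A (fun i j =>
    (min (3 + (i * A.length + j)) (3 + A.length * A.length)).factorial)
  unfold facL
  rw [← h1]
  refine prod_congr rfl fun e _ => ?_
  congr 1
  unfold labA
  rw [Nat.min_eq_left]
  have h2 := e.1.1.2
  have h3 := e.1.2.2
  have h4 : (e.1.1.val + 1) * A.length ≤ A.length * A.length := Nat.mul_le_mul_right _ h2
  rw [add_mul] at h4
  omega

theorem len_upoly : UPoly (fun A : LL => A.length) := UPoly.length Poly.id

theorem facL_poly : Poly facL := by
  have h2 : Poly (fun p : LL × ℕ => (List.range p.1.length).filter (fun j => ent p.1 p.2 j)) :=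
    Poly.filter (p := fun (p : LL × ℕ) j => ent p.1 p.2 j) (Poly.range_length (Poly.fst Poly.id))
      (ent_poly.comp (Poly.pair (Poly.fst (Poly.fst Poly.id)) (Poly.pair
        (Poly.snd (Poly.fst Poly.id)) (Poly.snd Poly.id))))
  have hl : Poly (fun p : (LL × ℕ) × ℕ => p.1.1.length) :=
    Poly.length (Poly.fst (Poly.fst Poly.id))
  have hu : UPoly (fun p : (LL × ℕ) × ℕ => p.1.1.length) :=
    UPoly.length (Poly.fst (Poly.fst Poly.id))
  have h4 : UPoly (fun p : (LL × ℕ) × ℕ =>
      min (3 + (p.1.2 * p.1.1.length + p.2)) (3 + p.1.1.length * p.1.1.length)) := by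
    refine UPoly.of_le (Poly.min ?_ ?_) (UPoly.add (UPoly.const 3) (UPoly.mul hu hu))
      (fun p => min_le_right _ _)
    · exact Poly.add (NPC.Poly.const 3) (Poly.add (Poly.mul (Poly.snd (Poly.fst Poly.id)) hl)
        (Poly.snd Poly.id))
    · exact Poly.add (NPC.Poly.const 3) (Poly.mul hl hl)
  have h3 : Poly (fun p : LL × ℕ => ((List.range p.1.length).filter (fun j => ent p.1 p.2 j)).map
      (fun j => (min (3 + (p.2 * p.1.length + j)) (3 + p.1.length * p.1.length)).factorial)) :=
    NPC.Poly.map (F := fun (p : LL × ℕ) j =>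
      (min (3 + (p.2 * p.1.length + j)) (3 + p.1.length * p.1.length)).factorial) h2
      (upoly_fact h4)
  exact Poly.flatMap (F := fun (A : LL) i => ((List.range A.length).filter
    (fun j => ent A i j)).map (fun j =>
      (min (3 + (i * A.length + j)) (3 + A.length * A.length)).factorial))
    (Poly.range_length Poly.id) h3

theorem ones_upoly : UPoly onesN := by
  have h2 : Poly (fun p : LL × ℕ => (List.range p.1.length).filter (fun j => ent p.1 p.2 j)) :=
    Poly.filter (p := fun (p : LL × ℕ) j => ent p.1 p.2 j) (Poly.range_length (Poly.fst Poly.id))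
      (ent_poly.comp (Poly.pair (Poly.fst (Poly.fst Poly.id)) (Poly.pair
        (Poly.snd (Poly.fst Poly.id)) (Poly.snd Poly.id))))
  exact UPoly.length (Poly.flatMap (F := fun (A : LL) i => (List.range A.length).filter
    (fun j => ent A i j)) (Poly.range_length Poly.id) h2)

theorem sumLab_poly : Poly sumLab := by
  have h2 : Poly (fun p : LL × ℕ => (List.range p.1.length).filter (fun j => ent p.1 p.2 j)) :=
    Poly.filter (p := fun (p : LL × ℕ) j => ent p.1 p.2 j) (Poly.range_length (Poly.fst Poly.id))
      (ent_poly.comp (Poly.pair (Poly.fst (Poly.fst Poly.id)) (Poly.pair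
        (Poly.snd (Poly.fst Poly.id)) (Poly.snd Poly.id))))
  have hl : Poly (fun p : (LL × ℕ) × ℕ => p.1.1.length) :=
    Poly.length (Poly.fst (Poly.fst Poly.id))
  have h3 : Poly (fun p : LL × ℕ => ((List.range p.1.length).filter (fun j => ent p.1 p.2 j)).map
      (fun j => 3 + (p.2 * p.1.length + j))) :=
    NPC.Poly.map (F := fun (p : LL × ℕ) j => 3 + (p.2 * p.1.length + j)) h2
      (Poly.add (NPC.Poly.const 3) (Poly.add (Poly.mul (Poly.snd (Poly.fst Poly.id)) hl)
        (Poly.snd Poly.id)))
  exact Poly.sum (Poly.flatMap (F := fun (A : LL) i => ((List.range A.length).filter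
    (fun j => ent A i j)).map (fun j => 3 + (i * A.length + j)))
    (Poly.range_length Poly.id) h3)

theorem sumLab_upoly (h3 : S_CARD) : UPoly sumLab := by
  obtain ⟨c1, c2, -⟩ := h3
  refine UPoly.of_le sumLab_poly (UPoly.mul ones_upoly (UPoly.add (UPoly.const 3)
    (UPoly.mul len_upoly len_upoly))) fun A => ?_
  rw [← c1, ← c2]
  calc ∑ e : Lb A, (3 + labA A e) ≤ ∑ e : Lb A, (3 + A.length * A.length) := by
        refine sum_le_sum fun e _ => ?_
        unfold labA
        have h2 := e.1.1.2
        have h3 := e.1.2.2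
        have h4 : (e.1.1.val + 1) * A.length ≤ A.length * A.length := Nat.mul_le_mul_right _ h2
        rw [add_mul] at h4
        omega
    _ = _ := by rw [sum_const, card_univ, smul_eq_mul]

/-- powers -/
theorem upoly_pow {α : Type} [TEnc α] {b n : α → ℕ} (hb : Poly b) (hn : UPoly n) :
    Poly (fun a => b a ^ n a) := by
  have h1 : Poly (fun a => (List.range (n a)).map (fun _ => b a)) :=
    NPC.Poly.map (F := fun a _ => b a) hn.range (hb.comp (Poly.fst Poly.id))
  refine (poly_prod h1).congr fun a => ?_
  simp

end SC_ns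

open SC_ns in
theorem SC (h1 : S_C4) (h3 : S_CARD) (h4 : S_TOOL) : S_SC := by
  have hz : UPoly zN := by
    unfold zN
    have l1 : UPoly (fun a : (LL × Un) × Un => a.1.1.length) :=
      UPoly.length (Poly.fst (Poly.fst Poly.id))
    have l2 : UPoly (fun a : (LL × Un) × Un => a.1.2.length) :=
      UPoly.length (Poly.snd (Poly.fst Poly.id))
    have l3 : UPoly (fun a : (LL × Un) × Un => a.2.length) := UPoly.length (Poly.snd Poly.id)
    exact UPoly.add (UPoly.add (UPoly.mul (UPoly.const 2) l1)
      (UPoly.mul (ones_upoly.comp (Poly.fst (Poly.fst Poly.id))) l2))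
      (UPoly.add l3 (UPoly.const 1))
  have ho : UPoly (fun a : (LL × Un) × Un => onesN a.1.1) :=
    ones_upoly.comp (Poly.fst (Poly.fst Poly.id))
  have hn : UPoly (fun a : (LL × Un) × Un => a.1.2.length + 2) :=
    UPoly.add (UPoly.length (Poly.snd (Poly.fst Poly.id))) (UPoly.const 2)
  have hs : UPoly (fun a : (LL × Un) × Un => sumLab a.1.1) :=
    (sumLab_upoly h3).comp (Poly.fst (Poly.fst Poly.id))
  have hf : Poly (fun a : (LL × Un) × Un => (facL a.1.1).prod) :=
    poly_prod (facL_poly.comp (Poly.fst (Poly.fst Poly.id)))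
  let den : (LL × Un) × Un → ℕ := fun a =>
    (3 * zN a + onesN a.1.1 * (a.1.2.length + 2) + (a.1.2.length + 2) * sumLab a.1.1).factorial *
      2 ^ zN a
  let pre : (LL × Un) × Un → ℕ := fun a =>
    2 ^ zN a * ((facL a.1.1).prod) ^ (a.1.2.length + 2) * (zN a).factorial *
      (a.1.2.length + 2).factorial ^ onesN a.1.1
  have hden : Poly den := Poly.mul (upoly_fact (UPoly.add (UPoly.add
    (UPoly.mul (UPoly.const 3) hz) (UPoly.mul ho hn)) (UPoly.mul hn hs))) (upoly_pow2 hz)
  have hpre : Poly pre := Poly.mul (Poly.mul (Poly.mul (upoly_pow2 hz) (upoly_pow hf hn))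
    (upoly_fact hz)) (upoly_pow (upoly_fact hn) ho)
  refine h4 _ _ _ _ _ _ (fun a => [((true, 1, pre a, 1), a)]) den ?_ hden ?_ ?_ ?_
  · exact Poly.cons (Poly.pair (Poly.pair (NPC.Poly.const true) (Poly.pair (NPC.Poly.const 1)
      (Poly.pair hpre (NPC.Poly.const 1)))) Poly.id) (NPC.Poly.const [])
  · intro a _ t _
    trivial
  · intro a _
    exact Nat.mul_pos (Nat.factorial_pos _) (by positivity)
  · intro a _
    obtain ⟨c1, c2, c3, c4, -, -, -, c8⟩ := h3
    have key := h1 (ZA a) (Lb a.1.1) (famA a) (labA a.1.1) (a.1.2.length + 2) (c3 a.1.1) (c8 a)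
    rw [c4, c1, c2, facL_prod] at key
    have key' : fN a * pre a = den a * fJ a := key
    simp only [List.map_cons, List.map_nil, List.sum_cons, List.sum_nil, add_zero]
    unfold tval
    simp only [if_true, one_mul, Nat.div_one]
    rw [mul_comm (pre a), key']
    push_cast
    ring

end Pool.Agent.H695R3.SF
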