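import Pool.Agent.H695R3.SF.Defs2

/-!
# SD: the reduction from `fK` to `fJ`
-/

namespace Pool.Agent.H695R3.SF

open Finset
open Pool.Agent.H549R2.Convex (F ent)
open Pool.Agent.NPC Pool.Agent.NPC.Cnt Pool.Agent.NPC.H549NRed
open Pool.Agent.NPC.H549Convex (upoly_choose ent_poly)

namespace SD_ns

/-- the number of ones is computed in polynomial time, in unary -/
theorem onesN_upoly : UPoly onesN := by
  have h2 : Poly (fun p : LL × ℕ => (List.range p.1.length).filter (fun j => ent p.1 p.2 j)) :=
    Poly.filter (p := fun (p : LL × ℕ) j => ent p.1 p.2 j) (Poly.range_length (Poly.fst Poly.id))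
      (ent_poly.comp (Poly.pair (Poly.fst (Poly.fst Poly.id)) (Poly.pair
        (Poly.snd (Poly.fst Poly.id)) (Poly.snd Poly.id))))
  have h3 : Poly (fun A : LL => (List.range A.length).flatMap
      (fun i => (List.range A.length).filter (fun j => ent A i j))) :=
    Poly.flatMap (F := fun (A : LL) i => (List.range A.length).filter (fun j => ent A i j))
      (Poly.range_length Poly.id) h2
  exact UPoly.length h3

/-- signs -/
theorem sign_poly {α : Type} [TEnc α] {t : α → ℕ} (ht : Poly t) :
    Poly (fun a => decide (t a % 2 = 0)) :=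
  Poly.decide_eq (Poly.mod ht (NPC.Poly.const 2)) (NPC.Poly.const 0)

theorem sign_eq (t : ℕ) : (if decide (t % 2 = 0) = true then (1 : ℤ) else -1) = (-1) ^ t := by
  by_cases h : t % 2 = 0
  · rw [if_pos (by simpa using h), Even.neg_one_pow (Nat.even_iff.2 h)]
  · rw [if_neg (by simpa using h), Odd.neg_one_pow (Nat.odd_iff.2 (by omega))]

/-- the terms of an alternating sum -/
def terms {α : Type} (N : α → ℕ) (e : ℕ) (a : α) : List ((Bool × ℕ × ℕ × ℕ) × (α × Un)) :=
  (List.range (N a + 1)).map (fun t =>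
    ((decide (t % 2 = 0), (N a).choose t, 1, 1), (a, List.replicate (e + (N a - t)) ())))

/-- the terms are computed in polynomial time -/
theorem terms_poly {α : Type} [TEnc α] {N : α → ℕ} (hN : UPoly N) (e : ℕ) :
    Poly (terms N e) := by
  have hr : Poly (fun a => List.range (N a + 1)) := (UPoly.add hN (UPoly.const 1)).range
  have hNz : UPoly (fun p : α × ℕ => N p.1) := UPoly.comp hN (Poly.fst Poly.id)
  -- `min t (N a)` in unary
  have hmin : UPoly (fun p : α × ℕ => min p.2 (N p.1)) :=
    UPoly.of_le (Poly.min (Poly.snd Poly.id) hNz.toPoly) hNz (fun a => Nat.min_le_right _ _)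
  have hch : Poly (fun p : α × ℕ => (N p.1).choose (min p.2 (N p.1))) :=
    upoly_choose hNz hmin (fun a => Nat.min_le_right _ _)
  have hsub : UPoly (fun p : α × ℕ => N p.1 - p.2) :=
    UPoly.of_le (Poly.sub hNz.toPoly (Poly.snd Poly.id)) hNz (fun a => Nat.sub_le _ _)
  have hrep : Poly (fun p : α × ℕ => List.replicate (e + (N p.1 - p.2)) ()) :=
    UPoly.add (UPoly.const e) hsub
  have h1 : Poly (fun p : α × ℕ => ((decide (p.2 % 2 = 0), (N p.1).choose (min p.2 (N p.1)), 1, 1),
      (p.1, List.replicate (e + (N p.1 - p.2)) ()))) :=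
    Poly.pair (Poly.pair (sign_poly (Poly.snd Poly.id)) (Poly.pair hch (NPC.Poly.pair (NPC.Poly.const 1)
      (NPC.Poly.const 1)))) (Poly.pair (Poly.fst Poly.id) hrep)
  have h2 := NPC.Poly.map (F := fun (a : α) t => ((decide (t % 2 = 0), (N a).choose (min t (N a)),
    1, 1), (a, List.replicate (e + (N a - t)) ()))) hr h1
  refine h2.congr fun a => ?_
  rw [terms]
  refine List.map_congr_left fun t ht => ?_
  have : min t (N a) = t := Nat.min_eq_left (by rw [List.mem_range] at ht; omega)
  simp only [this]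

theorem sum_map_range (g : ℕ → ℤ) (n : ℕ) :
    ((List.range n).map g).sum = ∑ t ∈ range n, g t := by
  induction n with
  | zero => simp
  | succ n ih => rw [List.range_succ, List.map_append, List.sum_append, ih, Finset.sum_range_succ]; simp

theorem terms_sum {α : Type} (N : α → ℕ) (e : ℕ) (a : α) (f : α × Un → ℕ) (G : ℕ → ℕ)
    (hf : ∀ n, f (a, List.replicate n ()) = G n) :
    ((terms N e a).map (tval f)).sum =
      ∑ t ∈ range (N a + 1), (-1 : ℤ) ^ t * ((N a).choose t) * (G (e + (N a - t)) : ℤ) := by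
  rw [terms, List.map_map, sum_map_range]
  refine Finset.sum_congr rfl fun t _ => ?_
  simp only [Function.comp, tval, hf]
  rw [sign_eq, one_mul, Nat.div_one, Nat.cast_mul, mul_assoc]

/-- a reduction by an alternating sum over the second argument -/
theorem alt_red {α : Type} [TEnc α] (h4 : S_TOOL) (h : α → ℕ) (f : α × Un → ℕ) (N : α → ℕ)
    (hN : UPoly N) (e : ℕ) (G : α → ℕ → ℕ) (hf : ∀ a n, f (a, List.replicate n ()) = G a n)
    (hG : ∀ a, ∑ t ∈ range (N a + 1), (-1 : ℤ) ^ t * ((N a).choose t) *
      (G a (e + (N a - t)) : ℤ) = (h a : ℤ)) :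
    NRed (fun _ : α => True) h (fun _ : α × Un => True) f := by
  refine h4 α (α × Un) _ h _ f (terms N e) (fun _ => 1) (terms_poly hN e) (NPC.Poly.const 1)
    (fun _ _ _ _ => trivial) (fun _ _ => Nat.one_pos) ?_
  intro a _
  rw [terms_sum N e a f (G a) (hf a), hG a]
  simp

/-- the number of blocks without the empty ones -/
def zN' (a : LL × Un) : ℕ := 2 * a.1.length + onesN a.1 * a.2.length

theorem zN'_upoly : UPoly zN' :=
  UPoly.add (UPoly.mul (UPoly.const 2) (UPoly.length (Poly.fst Poly.id)))
    (UPoly.mul (UPoly.comp onesN_upoly (Poly.fst Poly.id)) (UPoly.length (Poly.snd Poly.id)))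

end SD_ns

open SD_ns in
/-- SD -/
theorem SD (h1 : S_D) (h3 : S_CARD) (h4 : S_TOOL) : S_SD := by
  refine alt_red h4 fK fJ zN' zN'_upoly 0
    (fun a n => JJ (extA (dumA (blk a.1) a.2.length) (n + 1))) ?_ ?_
  · intro a n
    have key : ∀ l : Un, fJ (a, l) = JJ (extA (dumA (blk a.1) a.2.length) (l.length + 1)) :=
      fun l => rfl
    rw [key, List.length_replicate]
  · intro a
    have hc : Fintype.card ((Fin a.1.length ⊕ Fin a.1.length) ⊕ (Lb a.1 × Fin a.2.length)) =
        zN' a := by
      rw [Fintype.card_sum, Fintype.card_sum, Fintype.card_prod, Fintype.card_fin,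
        Fintype.card_fin, h3.1, zN', two_mul]
    have h := h1 _ _ (dumA (blk a.1) a.2.length) 1
    rw [hc] at h
    have h5 : ∀ n : ℕ, JJ (extA (dumA (blk a.1) a.2.length) (1 + n)) =
        JJ (extA (dumA (blk a.1) a.2.length) (0 + n + 1)) := by
      intro n
      rw [show 0 + n + 1 = 1 + n by omega]
    simp only [h5] at h
    exact h

end Pool.Agent.H695R3.SF
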