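import Pool.Agent.H695R3.SF.Defs2

/-!
# SE: the permanent reduces to the numbers `fK (A, g)`
-/

set_option autoImplicit false

namespace Pool.Agent.H695R3.SF

open Finset
open Pool.Agent.H549R2.Convex (F ent)
open Pool.Agent.NPC Pool.Agent.NPC.Cnt Pool.Agent.NPC.H549NRed
open Pool.Agent.NPC.H549PM (upoly_min upoly_pow2)
open Pool.Agent.NPC.H549Convex (poly_prod upoly_fact upoly_choose ent_poly)

namespace SE_ns

theorem upoly_pow {α : Type} [TEnc α] {b n : α → ℕ} (hb : Poly b) (hn : UPoly n) :
    Poly (fun a => b a ^ n a) := by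
  have h1 : Poly (fun a => (List.range (n a)).map (fun _ => b a)) :=
    NPC.Poly.map (F := fun a _ => b a) hn.range (hb.comp (NPC.Poly.fst NPC.Poly.id))
  refine (poly_prod h1).congr fun a => ?_
  rw [List.map_const', List.prod_replicate, List.length_range]

theorem list_range_sum (f : ℕ → ℤ) (n : ℕ) :
    ((List.range n).map f).sum = ∑ i ∈ Finset.range n, f i := by
  induction n with
  | zero => rfl
  | succ n ih =>
    rw [List.range_succ, List.map_append, List.sum_append, ih, Finset.sum_range_succ]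
    simp

/-- the matrix is square -/
def sq (A : LL) : Bool := A.all (fun r => decide (r.length = A.length))

theorem sq_iff (A : LL) : sq A = true ↔ ∀ r ∈ A, r.length = A.length := by
  simp [sq]

theorem sq_poly : Poly sq := by
  refine NPC.Poly.all (l := fun A : LL => A) (p := fun A r => decide (r.length = A.length))
    NPC.Poly.id ?_
  exact NPC.Poly.decide_eq (NPC.Poly.length (NPC.Poly.snd NPC.Poly.id))
    (NPC.Poly.length (NPC.Poly.fst NPC.Poly.id))

theorem ones_upoly : UPoly onesN := by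
  have h2 : Poly (fun p : LL × ℕ => (List.range p.1.length).filter (fun j => ent p.1 p.2 j)) :=
    NPC.Poly.filter (p := fun (p : LL × ℕ) j => ent p.1 p.2 j) (NPC.Poly.range_length (NPC.Poly.fst NPC.Poly.id))
      (ent_poly.comp (NPC.Poly.pair (NPC.Poly.fst (NPC.Poly.fst NPC.Poly.id)) (NPC.Poly.pair
        (NPC.Poly.snd (NPC.Poly.fst NPC.Poly.id)) (NPC.Poly.snd NPC.Poly.id))))
  exact UPoly.length (NPC.Poly.flatMap (F := fun (A : LL) i => (List.range A.length).filter
    (fun j => ent A i j)) (NPC.Poly.range_length NPC.Poly.id) h2)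

/-- the cut of the index -/
def jj (p : LL × ℕ) : ℕ := min p.2 (2 * onesN p.1 + p.1.length)

theorem jj_upoly : UPoly jj :=
  upoly_min (NPC.Poly.snd NPC.Poly.id) (UPoly.add (UPoly.mul (UPoly.const 2)
    (ones_upoly.comp (NPC.Poly.fst NPC.Poly.id))) (UPoly.length (NPC.Poly.fst NPC.Poly.id)))

/-- the term -/
def term (p : LL × ℕ) : (Bool × ℕ × ℕ × ℕ) × (LL × Un) :=
  ((decide (p.2 % 2 = 0),
    ((2 * onesN p.1 + p.1.length + 2).choose (jj p + 2)) *
      (jj p + 1) ^ (onesN p.1 - p.1.length + 1),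
    2 ^ onesN p.1,
    (2 * p.1.length + onesN p.1 * jj p).factorial * (jj p + 2) ^ (onesN p.1 - p.1.length)),
   (p.1, List.replicate (jj p) ()))

theorem term_poly : Poly term := by
  have hL : UPoly (fun p : LL × ℕ => onesN p.1) := ones_upoly.comp (NPC.Poly.fst NPC.Poly.id)
  have hk : UPoly (fun p : LL × ℕ => p.1.length) := UPoly.length (NPC.Poly.fst NPC.Poly.id)
  have hS : UPoly (fun p : LL × ℕ => 2 * onesN p.1 + p.1.length + 2) :=
    UPoly.add (UPoly.add (UPoly.mul (UPoly.const 2) hL) hk) (UPoly.const 2)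
  have hsub : UPoly (fun p : LL × ℕ => onesN p.1 - p.1.length) :=
    UPoly.of_le (NPC.Poly.sub hL.toPoly hk.toPoly) hL (fun _ => Nat.sub_le _ _)
  have hj2 : UPoly (fun p : LL × ℕ => jj p + 2) := UPoly.add jj_upoly (UPoly.const 2)
  have h1 : Poly (fun p : LL × ℕ => decide (p.2 % 2 = 0)) :=
    NPC.Poly.decide_eq (NPC.Poly.mod (NPC.Poly.snd NPC.Poly.id) (NPC.Poly.const 2)) (NPC.Poly.const 0)
  have h2 : Poly (fun p : LL × ℕ => (2 * onesN p.1 + p.1.length + 2).choose (jj p + 2)) :=
    upoly_choose hS hj2 (fun p => by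
      have := Nat.min_le_right p.2 (2 * onesN p.1 + p.1.length)
      unfold jj
      omega)
  have h3 : Poly (fun p : LL × ℕ => (jj p + 1) ^ (onesN p.1 - p.1.length + 1)) :=
    upoly_pow (NPC.Poly.succ jj_upoly.toPoly) (UPoly.add hsub (UPoly.const 1))
  have h4 : Poly (fun p : LL × ℕ => 2 ^ onesN p.1) := upoly_pow2 hL
  have h5 : Poly (fun p : LL × ℕ => (2 * p.1.length + onesN p.1 * jj p).factorial) :=
    upoly_fact (UPoly.add (UPoly.mul (UPoly.const 2) hk) (UPoly.mul hL jj_upoly))
  have h6 : Poly (fun p : LL × ℕ => (jj p + 2) ^ (onesN p.1 - p.1.length)) :=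
    upoly_pow hj2.toPoly hsub
  exact NPC.Poly.pair (NPC.Poly.pair h1 (NPC.Poly.pair (NPC.Poly.mul h2 h3) (NPC.Poly.pair h4 (NPC.Poly.mul h5 h6))))
    (NPC.Poly.pair (NPC.Poly.fst NPC.Poly.id) jj_upoly)

/-- the terms -/
def tms (A : LL) : List ((Bool × ℕ × ℕ × ℕ) × (LL × Un)) :=
  bif sq A then (List.range (2 * onesN A + A.length + 1)).map (fun i => term (A, i)) else []

theorem tms_poly : Poly tms := by
  have h1 : UPoly (fun A : LL => 2 * onesN A + A.length + 1) :=
    UPoly.add (UPoly.add (UPoly.mul (UPoly.const 2) ones_upoly) (UPoly.length NPC.Poly.id))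
      (UPoly.const 1)
  exact NPC.Poly.cond sq_poly (NPC.Poly.map (F := fun (A : LL) i => term (A, i)) h1.range term_poly)
    (NPC.Poly.const [])

theorem neg_pow (i : ℕ) : (-1 : ℤ) ^ i = if decide (i % 2 = 0) = true then 1 else -1 := by
  simp only [decide_eq_true_eq]
  rcases Nat.even_or_odd i with h | h
  · rw [if_pos (Nat.even_iff.1 h), h.neg_one_pow]
  · rw [if_neg (by have := Nat.odd_iff.1 h; omega), h.neg_one_pow]

theorem fK_rep (A : LL) (j : ℕ) :
    fK (A, List.replicate j ()) = KK (dumA (blk A) j) := by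
  have h : ∀ m : ℕ, m = j → KK (dumA (blk A) m) = KK (dumA (blk A) j) := by
    rintro _ rfl
    rfl
  exact h _ List.length_replicate

end SE_ns

open SE_ns in
theorem SE (h1 : S_E) (h2 : S_E3) (h3 : S_CARD) (h4 : S_TOOL) : S_SE := by
  refine h4 LL (LL × Un) (fun _ => True) F (fun _ => True) fK tms (fun A => 2 ^ A.length)
    tms_poly (upoly_pow2 (UPoly.length NPC.Poly.id)) (fun _ _ _ _ => trivial)
    (fun _ _ => by positivity) ?_
  intro A _
  by_cases hA : ∀ r ∈ A, r.length = A.length
  · have hsq : sq A = true := (sq_iff A).2 hA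
    have hE := h1 (Fin A.length ⊕ Fin A.length) (Lb A) (blk A) A.length (by simp; ring)
      (h3.2.2.2.2.2.1 A) (h3.2.2.2.2.2.2.1 A)
    rw [h3.1 A] at hE
    rw [h2 A hA]
    push_cast
    rw [hE]
    have ht : tms A = (List.range (2 * onesN A + A.length + 1)).map (fun i => term (A, i)) := by
      unfold tms
      rw [hsq, cond_true]
    rw [ht, List.map_map, list_range_sum, Finset.sum_range_succ', Finset.sum_range_succ']
    simp only [zero_add, Nat.ofNat_pos, if_true, Nat.one_lt_ofNat, Nat.cast_zero, mul_zero,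
      add_zero]
    refine Finset.sum_congr rfl fun i hi => ?_
    rw [Finset.mem_range] at hi
    have hj : jj (A, i) = i := by
      unfold jj
      exact Nat.min_eq_left (by
        show i ≤ 2 * onesN A + A.length
        omega)
    simp only [Function.comp_apply, tval, term, hj, fK_rep]
    rw [show i + 1 + 1 = i + 2 from rfl, if_neg (by omega : ¬ i + 2 < 2), pow_add, neg_pow i,
      show i + 2 - 2 = i by omega, show i + 2 - 1 = i + 1 by omega]
    push_cast
    ring
  · have hsq : sq A = false := by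
      rw [← Bool.not_eq_true, sq_iff]
      exact hA
    have hF : F A = 0 := by
      unfold Pool.Agent.H549R2.Convex.F
      rw [if_neg hA]
    unfold tms
    rw [hsq, cond_false, hF]
    simp

end Pool.Agent.H695R3.SF
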