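import Pool.Agent.H695R3.SF.Defs2

namespace Pool.Agent.H695R3.SF

open Finset
open Pool.Agent.NPC Pool.Agent.NPC.Cnt Pool.Agent.NPC.H549NRed

namespace SZ_ns

theorem length_sz (l : List (ℕ × ℕ)) : l.length + 1 ≤ sz l := by
  induction l with
  | nil => simp
  | cons a l ih =>
    rw [sz_list_cons, List.length_cons]
    have := sz_pos a
    omega

/-- the code of a subgraph -/
def code (T : Inp) (H : {H : SimpleGraph {v : ℕ // v ∈ T.1} // H ≤ grI T}) :
    Fin T.2.length → Prop :=
  fun i => ∃ u v, H.1.Adj u v ∧ (u.1, v.1) = T.2[i]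

theorem code_le (T : Inp) (H H' : {H : SimpleGraph {v : ℕ // v ∈ T.1} // H ≤ grI T})
    (h : code T H = code T H') : H.1 ≤ H'.1 := by
  have key : ∀ u v, H.1.Adj u v → (u.1, v.1) ∈ T.2 → H'.1.Adj u v := by
    intro u v huv hm
    obtain ⟨i, hi, he⟩ := List.getElem_of_mem hm
    have h1 : code T H ⟨i, hi⟩ := ⟨u, v, huv, he.symm⟩
    rw [h] at h1
    obtain ⟨u', v', h2, h3⟩ := h1
    have h4 : (u'.1, v'.1) = (u.1, v.1) := h3.trans he
    rw [Prod.mk.injEq] at h4
    have e1 : u' = u := Subtype.ext h4.1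
    have e2 : v' = v := Subtype.ext h4.2
    rw [e1, e2] at h2
    exact h2
  intro u v huv
  rcases (H.2 huv).2 with hm | hm
  · exact key u v huv hm
  · exact (key v u huv.symm hm).symm

theorem code_inj (T : Inp) : Function.Injective (code T) := by
  intro H H' h
  exact Subtype.ext (le_antisymm (code_le T H H' h) (code_le T H' H h.symm))

theorem cls_le (T : Inp) : cls (grI T) ≤ 2 ^ T.2.length := by
  haveI : Finite {H : SimpleGraph {v : ℕ // v ∈ T.1} // H ≤ grI T} :=
    Finite.of_injective _ (code_inj T)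
  have h1 : cls (grI T) ≤ Nat.card {H : SimpleGraph {v : ℕ // v ∈ T.1} // H ≤ grI T} :=
    Nat.card_le_card_of_surjective (Quotient.mk (isoSetoid (grI T))) Quotient.mk_surjective
  have h2 := Nat.card_le_card_of_injective _ (code_inj T)
  have h3 : Nat.card (Fin T.2.length → Prop) = 2 ^ T.2.length := by
    rw [Nat.card_eq_fintype_card]; simp
  exact h1.trans (h2.trans h3.le)

end SZ_ns

theorem SZ : S_SZ := by
  refine ⟨Polynomial.X, fun T => ?_⟩
  rw [Polynomial.eval_X, Nat.size_le]
  have h1 : numSub T ≤ 2 ^ T.2.length := by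
    unfold numSub
    split_ifs
    · exact SZ_ns.cls_le T
    · exact Nat.zero_le _
  refine lt_of_le_of_lt h1 (Nat.pow_lt_pow_right (by norm_num) ?_)
  have h2 := SZ_ns.length_sz T.2
  have h3 : sz T = sz T.1 + sz T.2 + 1 := sz_pair T.1 T.2
  omega

end Pool.Agent.H695R3.SF
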