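import Pool.Agent.H695R3.SF.Defs2

/-!
# T1: the tree of the reduction is computed in polynomial time
-/

namespace Pool.Agent.NPC.H459T1

open Pool.Agent.NPC Pool.Agent.NPC.Cnt Pool.Agent.H695R3.SF
open Pool.Agent.H549R2.Convex (ent)

theorem ppair {α : Type} [TEnc α] {m n : α → ℕ} (hm : Poly m) (hn : Poly n) :
    Poly (fun a => Nat.pair (m a) (n a)) := by
  refine (Poly.ite (p := fun a => m a < n a) (Poly.decide_lt hm hn)
    (Poly.add (Poly.mul hn hn) hm) (Poly.add (Poly.add (Poly.mul hm hm) hm) hn)).congr fun a => ?_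
  simp only [Nat.pair]

theorem entP : Poly (fun p : LL × ℕ × ℕ => ent p.1 p.2.1 p.2.2) :=
  Poly.getD (Poly.getD (Poly.fst Poly.id) (Poly.fst (Poly.snd Poly.id)) (Poly.const []))
    (Poly.snd (Poly.snd Poly.id)) (Poly.const false)

theorem onesP : Poly onesL := by
  have h2 : Poly (fun p : LL × ℕ => (List.range p.1.length).filter (fun j => ent p.1 p.2 j)) :=
    Poly.filter (p := fun (p : LL × ℕ) j => ent p.1 p.2 j) (Poly.range_length (Poly.fst Poly.id))
      (entP.comp (Poly.pair (Poly.fst (Poly.fst Poly.id)) (Poly.pair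
        (Poly.snd (Poly.fst Poly.id)) (Poly.snd Poly.id))))
  have h3 : Poly (fun p : LL × ℕ => ((List.range p.1.length).filter (fun j => ent p.1 p.2 j)).map
      (fun j => (p.2, j))) :=
    Poly.map (F := fun (p : LL × ℕ) j => (p.2, j)) h2
      (Poly.pair (Poly.snd (Poly.fst Poly.id)) (Poly.snd Poly.id))
  exact Poly.flatMap (F := fun (A : LL) i => ((List.range A.length).filter
    (fun j => ent A i j)).map (fun j => (i, j)))
    (Poly.range_length Poly.id) h3

abbrev A1 : Type := (LL × Un) × Un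

theorem matP : Poly (fun a : A1 => a.1.1) := Poly.fst (Poly.fst Poly.id)

theorem lenP : Poly (fun a : A1 => a.1.1.length) := Poly.length matP

/-- rows -/
theorem z1P : Poly (fun a : A1 => (List.range a.1.1.length).map (fun i => (Nat.pair 0 (Nat.pair 0 i),
    ((onesL a.1.1).filter (fun e => decide (e.1 = i))).map
      (fun e => e.1 * a.1.1.length + e.2)))) := by
  refine Poly.map (F := fun (a : A1) i => (Nat.pair 0 (Nat.pair 0 i),
    ((onesL a.1.1).filter (fun e => decide (e.1 = i))).map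
      (fun e => e.1 * a.1.1.length + e.2))) (Poly.range_length matP) ?_
  refine Poly.pair (ppair (Poly.const 0) (ppair (Poly.const 0) (Poly.snd Poly.id))) ?_
  refine Poly.map (F := fun (p : A1 × ℕ) (e : ℕ × ℕ) => e.1 * p.1.1.1.length + e.2) ?_ ?_
  · refine Poly.filter (p := fun (p : A1 × ℕ) (e : ℕ × ℕ) => decide (e.1 = p.2))
      (onesP.comp (matP.comp (Poly.fst Poly.id))) ?_
    exact Poly.decide_eq (Poly.fst (Poly.snd Poly.id)) (Poly.snd (Poly.fst Poly.id))
  · exact Poly.add (Poly.mul (Poly.fst (Poly.snd Poly.id)) (lenP.comp (Poly.fst (Poly.fst Poly.id))))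
      (Poly.snd (Poly.snd Poly.id))

/-- columns -/
theorem z2P : Poly (fun a : A1 => (List.range a.1.1.length).map (fun j => (Nat.pair 0 (Nat.pair 1 j),
    ((onesL a.1.1).filter (fun e => decide (e.2 = j))).map
      (fun e => e.1 * a.1.1.length + e.2)))) := by
  refine Poly.map (F := fun (a : A1) i => (Nat.pair 0 (Nat.pair 1 i),
    ((onesL a.1.1).filter (fun e => decide (e.2 = i))).map
      (fun e => e.1 * a.1.1.length + e.2))) (Poly.range_length matP) ?_
  refine Poly.pair (ppair (Poly.const 0) (ppair (Poly.const 1) (Poly.snd Poly.id))) ?_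
  refine Poly.map (F := fun (p : A1 × ℕ) (e : ℕ × ℕ) => e.1 * p.1.1.1.length + e.2) ?_ ?_
  · refine Poly.filter (p := fun (p : A1 × ℕ) (e : ℕ × ℕ) => decide (e.2 = p.2))
      (onesP.comp (matP.comp (Poly.fst Poly.id))) ?_
    exact Poly.decide_eq (Poly.snd (Poly.snd Poly.id)) (Poly.snd (Poly.fst Poly.id))
  · exact Poly.add (Poly.mul (Poly.fst (Poly.snd Poly.id)) (lenP.comp (Poly.fst (Poly.fst Poly.id))))
      (Poly.snd (Poly.snd Poly.id))

/-- dummies -/
theorem z3P : Poly (fun a : A1 => (onesL a.1.1).flatMap (fun e => (List.range a.1.2.length).map (fun t =>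
    (Nat.pair 1 (Nat.pair (e.1 * a.1.1.length + e.2) t), [e.1 * a.1.1.length + e.2])))) := by
  refine Poly.flatMap (F := fun (a : A1) (e : ℕ × ℕ) => (List.range a.1.2.length).map (fun t =>
    (Nat.pair 1 (Nat.pair (e.1 * a.1.1.length + e.2) t), [e.1 * a.1.1.length + e.2])))
    (onesP.comp matP) ?_
  refine Poly.map (F := fun (p : A1 × (ℕ × ℕ)) (t : ℕ) =>
    (Nat.pair 1 (Nat.pair (p.2.1 * p.1.1.1.length + p.2.2) t), [p.2.1 * p.1.1.1.length + p.2.2]))
    (Poly.range_length (Poly.snd (Poly.fst (Poly.fst Poly.id)))) ?_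
  have h : Poly (fun q : (A1 × (ℕ × ℕ)) × ℕ => q.1.2.1 * q.1.1.1.1.length + q.1.2.2) :=
    Poly.add (Poly.mul (Poly.fst (Poly.snd (Poly.fst Poly.id)))
      (lenP.comp (Poly.fst (Poly.fst Poly.id)))) (Poly.snd (Poly.snd (Poly.fst Poly.id)))
  exact Poly.pair (ppair (Poly.const 1) (ppair h (Poly.snd Poly.id))) (Poly.cons h (Poly.const []))

/-- empty blocks -/
theorem z4P : Poly (fun a : A1 => (List.range (a.2.length + 1)).map
    (fun s => (Nat.pair 2 s, ([] : List ℕ)))) := by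
  refine Poly.map (F := fun (_ : A1) s => (Nat.pair 2 s, ([] : List ℕ)))
    (UPoly.range (UPoly.add (UPoly.length (Poly.snd Poly.id)) (UPoly.const 1))) ?_
  exact Poly.pair (ppair (Poly.const 2) (Poly.snd Poly.id)) (Poly.const [])

theorem zP : Poly zL := Poly.append (Poly.append (Poly.append z1P z2P) z3P) z4P

theorem qP : Poly qL := by
  refine Poly.append ?_ ?_
  · exact Poly.map (F := fun (_ : A1) (z : ℕ × List ℕ) => (Nat.pair 0 z.1, 0, 2)) zP
      (Poly.pair (ppair (Poly.const 0) (Poly.fst (Poly.snd Poly.id))) (Poly.const (0, 2)))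
  · refine Poly.flatMap (F := fun (_ : A1) (z : ℕ × List ℕ) => z.2.map (fun l =>
      (Nat.pair 1 (Nat.pair z.1 l), Nat.pair 1 (Nat.pair 0 (Nat.pair 0 (Nat.pair 0 z.1))), 3 + l)))
      zP ?_
    refine Poly.map (F := fun (p : A1 × (ℕ × List ℕ)) (l : ℕ) =>
      (Nat.pair 1 (Nat.pair p.2.1 l), Nat.pair 1 (Nat.pair 0 (Nat.pair 0 (Nat.pair 0 p.2.1))), 3 + l))
      (Poly.snd (Poly.snd Poly.id)) ?_
    have h : Poly (fun q : (A1 × (ℕ × List ℕ)) × ℕ => q.1.2.1) :=
      Poly.fst (Poly.snd (Poly.fst Poly.id))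
    exact Poly.pair (ppair (Poly.const 1) (ppair h (Poly.snd Poly.id)))
      (Poly.pair (ppair (Poly.const 1) (ppair (Poly.const 0) (ppair (Poly.const 0)
        (ppair (Poly.const 0) h)))) (Poly.add (Poly.const 3) (Poly.snd Poly.id)))

theorem ones_lt (A : LL) (e : ℕ × ℕ) (he : e ∈ onesL A) :
    e.1 * A.length + e.2 < A.length * A.length := by
  simp only [onesL, List.mem_flatMap, List.mem_map, List.mem_filter, List.mem_range] at he
  obtain ⟨i, hi, j, ⟨hj, _⟩, rfl⟩ := he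
  show i * A.length + j < A.length * A.length
  nlinarith

theorem z_lt (a : A1) (z : ℕ × List ℕ) (hz : z ∈ zL a) (l : ℕ) (hl : l ∈ z.2) :
    l < a.1.1.length * a.1.1.length := by
  simp only [zL, List.mem_append, List.mem_flatMap, List.mem_map] at hz
  rcases hz with ((⟨i, _, rfl⟩ | ⟨i, _, rfl⟩) | ⟨e, he, t, _, rfl⟩) | ⟨s, _, rfl⟩
  · simp only [List.mem_map, List.mem_filter] at hl
    obtain ⟨e, ⟨he, _⟩, rfl⟩ := hl
    exact ones_lt _ e he
  · simp only [List.mem_map, List.mem_filter] at hl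
    obtain ⟨e, ⟨he, _⟩, rfl⟩ := hl
    exact ones_lt _ e he
  · simp only [List.mem_singleton] at hl
    subst hl
    exact ones_lt _ e he
  · simp at hl

theorem q_le (a : A1) (q : ℕ × ℕ × ℕ) (hq : q ∈ qL a) :
    q.2.2 ≤ 3 + a.1.1.length * a.1.1.length := by
  simp only [qL, List.mem_append, List.mem_flatMap, List.mem_map] at hq
  rcases hq with ⟨z, _, rfl⟩ | ⟨z, hz, l, hl, rfl⟩
  · show 2 ≤ _
    omega
  · have := z_lt a z hz l hl
    show 3 + l ≤ _
    omega

theorem wP : Poly wL := by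
  have hmin : UPoly (fun p : A1 × (ℕ × ℕ × ℕ) => min p.2.2.2 (3 + p.1.1.1.length * p.1.1.1.length)) := by
    have hb : UPoly (fun p : A1 × (ℕ × ℕ × ℕ) => 3 + p.1.1.1.length * p.1.1.1.length) :=
      UPoly.add (UPoly.const 3) (UPoly.mul (UPoly.length (matP.comp (Poly.fst Poly.id)))
        (UPoly.length (matP.comp (Poly.fst Poly.id))))
    exact UPoly.of_le (Poly.min (Poly.snd (Poly.snd (Poly.snd Poly.id))) hb.toPoly) hb
      (fun _ => Nat.min_le_right _ _)
  have h2 : Poly (fun a : A1 => (qL a).flatMap (fun q => (List.range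
      (min q.2.2 (3 + a.1.1.length * a.1.1.length))).map (fun i =>
      (Nat.pair 1 (Nat.pair 0 (Nat.pair 1 (Nat.pair q.1 i))),
      Nat.pair 1 (Nat.pair 0 (Nat.pair 0 q.1)))))) := by
    refine Poly.flatMap (F := fun (a : A1) (q : ℕ × ℕ × ℕ) => (List.range
      (min q.2.2 (3 + a.1.1.length * a.1.1.length))).map (fun i =>
      (Nat.pair 1 (Nat.pair 0 (Nat.pair 1 (Nat.pair q.1 i))),
      Nat.pair 1 (Nat.pair 0 (Nat.pair 0 q.1))))) qP ?_
    refine Poly.map (F := fun (p : A1 × (ℕ × ℕ × ℕ)) (i : ℕ) =>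
      (Nat.pair 1 (Nat.pair 0 (Nat.pair 1 (Nat.pair p.2.1 i))),
      Nat.pair 1 (Nat.pair 0 (Nat.pair 0 p.2.1)))) hmin.range ?_
    have h : Poly (fun q : (A1 × (ℕ × ℕ × ℕ)) × ℕ => q.1.2.1) :=
      Poly.fst (Poly.snd (Poly.fst Poly.id))
    exact Poly.pair (ppair (Poly.const 1) (ppair (Poly.const 0) (ppair (Poly.const 1)
      (ppair h (Poly.snd Poly.id))))) (ppair (Poly.const 1) (ppair (Poly.const 0)
        (ppair (Poly.const 0) h)))
  refine Poly.append ?_ (h2.congr fun a => ?_)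
  · exact Poly.map (F := fun (_ : A1) (q : ℕ × ℕ × ℕ) =>
      (Nat.pair 1 (Nat.pair 0 (Nat.pair 0 q.1)), q.2.1)) qP
      (Poly.pair (ppair (Poly.const 1) (ppair (Poly.const 0) (ppair (Poly.const 0)
        (Poly.fst (Poly.snd Poly.id))))) (Poly.fst (Poly.snd (Poly.snd Poly.id))))
  · refine List.flatMap_congr fun q hq => ?_
    rw [Nat.min_eq_left (q_le a q hq)]

theorem rP : Poly rL := by
  refine Poly.append (wP.comp (Poly.fst Poly.id)) ?_
  exact Poly.map (F := fun (_ : A1 × Un) (i : ℕ) => (Nat.pair 1 (Nat.pair 1 i), 0))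
    (Poly.range_length (Poly.snd Poly.id))
    (Poly.pair (ppair (Poly.const 1) (ppair (Poly.const 1) (Poly.snd Poly.id))) (Poly.const 0))

theorem vP : Poly vL := by
  refine Poly.cons (Poly.const 0) ?_
  exact Poly.map (F := fun (_ : A1 × Un) (p : ℕ × ℕ) => p.1) rP (Poly.fst (Poly.snd Poly.id))

theorem t1 : S_T1 := by
  have hr : Poly (fun a : (A1 × Un) × Un => rL a.1) := rP.comp (Poly.fst Poly.id)
  have hv : Poly (fun a : (A1 × Un) × Un => vL a.1) := vP.comp (Poly.fst Poly.id)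
  have hx : Poly (fun p : ((A1 × Un) × Un) × ℕ => List.range p.1.2.length) :=
    Poly.range_length (Poly.snd (Poly.fst Poly.id))
  refine Poly.pair (Poly.append ?_ ?_) (Poly.append ?_ ?_)
  · exact Poly.map (F := fun (_ : (A1 × Un) × Un) (v : ℕ) => Nat.pair 0 v) hv
      (ppair (Poly.const 0) (Poly.snd Poly.id))
  · refine Poly.flatMap (F := fun (a : (A1 × Un) × Un) (v : ℕ) =>
      (List.range a.2.length).map (fun i => Nat.pair 1 (Nat.pair v i))) hv ?_
    exact Poly.map (F := fun (p : ((A1 × Un) × Un) × ℕ) (i : ℕ) => Nat.pair 1 (Nat.pair p.2 i)) hx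
      (ppair (Poly.const 1) (ppair (Poly.snd (Poly.fst Poly.id)) (Poly.snd Poly.id)))
  · exact Poly.map (F := fun (_ : (A1 × Un) × Un) (p : ℕ × ℕ) => (Nat.pair 0 p.1, Nat.pair 0 p.2)) hr
      (Poly.pair (ppair (Poly.const 0) (Poly.fst (Poly.snd Poly.id)))
        (ppair (Poly.const 0) (Poly.snd (Poly.snd Poly.id))))
  · refine Poly.flatMap (F := fun (a : (A1 × Un) × Un) (v : ℕ) =>
      (List.range a.2.length).map (fun i => (Nat.pair 1 (Nat.pair v i), Nat.pair 0 v))) hv ?_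
    exact Poly.map (F := fun (p : ((A1 × Un) × Un) × ℕ) (i : ℕ) =>
      (Nat.pair 1 (Nat.pair p.2 i), Nat.pair 0 p.2)) hx
      (Poly.pair (ppair (Poly.const 1) (ppair (Poly.snd (Poly.fst Poly.id)) (Poly.snd Poly.id)))
        (ppair (Poly.const 0) (Poly.snd (Poly.fst Poly.id))))

end Pool.Agent.NPC.H459T1

namespace Pool.Agent.H695R3.SF

theorem T1 : S_T1 := Pool.Agent.NPC.H459T1.t1

end Pool.Agent.H695R3.SF
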