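import Pool.Agent.H695R3.SF.Defs2

set_option autoImplicit false

namespace Pool.Agent.H695R3.SF

open Finset
open Pool.Agent.H549R2.Convex (F ent)
open Pool.Agent.NPC Pool.Agent.NPC.Cnt Pool.Agent.NPC.H549NRed

namespace T2_ns

/-- the list `l` enumerates the values of `d` without repetition -/
structure En {V γ : Type} (d : V → γ) (l : List γ) : Prop where
  nd : l.Nodup
  mem : ∀ x, x ∈ l ↔ ∃ v, d v = x

theorem En.of_range {V V' γ : Type} {d : V → γ} {d' : V' → γ} {l : List γ} (h : En d l)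
    (h1 : ∀ v', ∃ v, d v = d' v') (h2 : ∀ v, ∃ v', d' v' = d v) : En d' l := by
  refine ⟨h.nd, fun x => ?_⟩
  rw [h.mem]
  constructor
  · rintro ⟨v, rfl⟩
    exact h2 v
  · rintro ⟨v', rfl⟩
    exact h1 v'

theorem En.append {V1 V2 γ : Type} {d1 : V1 → γ} {d2 : V2 → γ} {l1 l2 : List γ} (h1 : En d1 l1)
    (h2 : En d2 l2) (hd : ∀ v1 v2, d1 v1 ≠ d2 v2) : En (Sum.elim d1 d2) (l1 ++ l2) := by
  refine ⟨List.Nodup.append h1.nd h2.nd ?_, fun x => ?_⟩
  · intro x hx1 hx2
    obtain ⟨v1, rfl⟩ := (h1.mem x).1 hx1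
    obtain ⟨v2, h⟩ := (h2.mem _).1 hx2
    exact hd v1 v2 h.symm
  · rw [List.mem_append, h1.mem, h2.mem]
    constructor
    · rintro (⟨v, rfl⟩ | ⟨v, rfl⟩)
      · exact ⟨Sum.inl v, rfl⟩
      · exact ⟨Sum.inr v, rfl⟩
    · rintro ⟨v | v, rfl⟩
      · exact Or.inl ⟨v, rfl⟩
      · exact Or.inr ⟨v, rfl⟩

theorem En.map {V γ δ : Type} {d : V → γ} {l : List γ} (h : En d l) (f : γ → δ)
    (hf : ∀ v v', f (d v) = f (d v') → d v = d v') : En (fun v => f (d v)) (l.map f) := by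
  refine ⟨List.Nodup.map_on ?_ h.nd, fun x => ?_⟩
  · intro x hx y hy hxy
    obtain ⟨v, rfl⟩ := (h.mem x).1 hx
    obtain ⟨v', rfl⟩ := (h.mem y).1 hy
    exact hf v v' hxy
  · rw [List.mem_map]
    constructor
    · rintro ⟨y, hy, rfl⟩
      obtain ⟨v, rfl⟩ := (h.mem y).1 hy
      exact ⟨v, rfl⟩
    · rintro ⟨v, rfl⟩
      exact ⟨d v, (h.mem _).2 ⟨v, rfl⟩, rfl⟩

theorem En.sigma {V γ δ : Type} {W : V → Type} {d : V → γ} {l : List γ} (h : En d l)
    (g : γ → List δ) (e : ∀ v, W v → δ) (he : ∀ v, En (e v) (g (d v)))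
    (hdis : ∀ v v' w w', e v w = e v' w' → d v = d v') :
    En (fun p : Σ v, W v => e p.1 p.2) (l.flatMap g) := by
  refine ⟨?_, fun x => ?_⟩
  · rw [List.nodup_flatMap]
    refine ⟨fun x hx => ?_, ?_⟩
    · obtain ⟨v, rfl⟩ := (h.mem x).1 hx
      exact (he v).nd
    · refine List.Nodup.pairwise_of_forall_ne h.nd ?_
      intro x hx y hy hxy
      obtain ⟨v, rfl⟩ := (h.mem x).1 hx
      obtain ⟨v', rfl⟩ := (h.mem y).1 hy
      intro z hz1 hz2
      obtain ⟨w, rfl⟩ := ((he v).mem z).1 hz1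
      obtain ⟨w', hw'⟩ := ((he v').mem _).1 hz2
      exact hxy (hdis v v' w w' hw'.symm)
  · rw [List.mem_flatMap]
    constructor
    · rintro ⟨y, hy, hx⟩
      obtain ⟨v, rfl⟩ := (h.mem y).1 hy
      obtain ⟨w, rfl⟩ := ((he v).mem x).1 hx
      exact ⟨⟨v, w⟩, rfl⟩
    · rintro ⟨⟨v, w⟩, rfl⟩
      exact ⟨d v, (h.mem _).2 ⟨v, rfl⟩, ((he v).mem _).2 ⟨w, rfl⟩⟩

theorem En.rangeMap {γ : Type} (n : ℕ) (f : ℕ → γ) (hf : ∀ i j, f i = f j → i = j) :
    En (fun i : Fin n => f i.val) ((List.range n).map f) := by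
  refine ⟨List.Nodup.map (fun i j h => hf i j h) List.nodup_range, fun x => ?_⟩
  rw [List.mem_map]
  constructor
  · rintro ⟨y, hy, rfl⟩
    exact ⟨⟨y, List.mem_range.1 hy⟩, rfl⟩
  · rintro ⟨v, rfl⟩
    exact ⟨v.val, List.mem_range.2 v.isLt, rfl⟩

theorem En.opt {V γ : Type} {d : V → γ} {l : List γ} (h : En d l) (x0 : γ)
    (hx : ∀ v, d v ≠ x0) : En (fun o : Option V => o.elim x0 d) (x0 :: l) := by
  refine ⟨List.nodup_cons.2 ⟨?_, h.nd⟩, fun x => ?_⟩
  · intro hm
    obtain ⟨v, hv⟩ := (h.mem x0).1 hm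
    exact hx v hv
  · rw [List.mem_cons, h.mem]
    constructor
    · rintro (rfl | ⟨v, rfl⟩)
      · exact ⟨none, rfl⟩
      · exact ⟨some v, rfl⟩
    · rintro ⟨_ | v, rfl⟩
      · exact Or.inl rfl
      · exact Or.inr ⟨v, rfl⟩

theorem code_inj {n i j i' j' : ℕ} (hj : j < n) (hj' : j' < n) (h : i * n + j = i' * n + j') :
    i = i' ∧ j = j' := by
  rcases lt_trichotomy i i' with h1 | h1 | h1
  · exfalso
    have h2 : (i + 1) * n ≤ i' * n := Nat.mul_le_mul_right n h1
    have h3 : (i + 1) * n = i * n + n := by ring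
    omega
  · subst h1
    exact ⟨rfl, by omega⟩
  · exfalso
    have h2 : (i' + 1) * n ≤ i * n := Nat.mul_le_mul_right n h1
    have h3 : (i' + 1) * n = i' * n + n := by ring
    omega

theorem labA_inj (A : LL) : Function.Injective (labA A) := by
  intro e e' h
  obtain ⟨h1, h2⟩ := code_inj e.1.2.isLt e'.1.2.isLt h
  exact Subtype.ext (Prod.ext (Fin.ext h1) (Fin.ext h2))

theorem cZ_inj (a : (LL × Un) × Un) : Function.Injective (cZ a) := by
  rintro (((i | j) | ⟨e, t⟩) | s) (((i' | j') | ⟨e', t'⟩) | s') h <;>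
    simp only [cZ, Nat.pair_eq_pair] at h
  · rw [Fin.ext h.2.2]
  · omega
  · omega
  · omega
  · omega
  · rw [Fin.ext h.2.2]
  · omega
  · omega
  · omega
  · omega
  · rw [labA_inj _ h.2.1, Fin.ext h.2.2]
  · omega
  · omega
  · omega
  · omega
  · rw [Fin.ext h.2]

theorem cQ_inj (a : (LL × Un) × Un) : Function.Injective (cQ a) := by
  rintro (z | ⟨z, e⟩) (z' | ⟨z', e'⟩) h <;> simp only [cQ, Nat.pair_eq_pair] at h
  · rw [cZ_inj a h.2]
  · omega
  · omega
  · obtain ⟨-, h1, h2⟩ := h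
    have h1 := cZ_inj a h1
    subst h1
    have h2 := labA_inj _ h2
    have h3 : e = e' := Subtype.ext h2
    rw [h3]

theorem cW_inj (a : (LL × Un) × Un) : Function.Injective (cW a) := by
  rintro (q | ⟨q, i⟩) (q' | ⟨q', i'⟩) h <;> simp only [cW, Nat.pair_eq_pair] at h
  · rw [cQ_inj a h.2]
  · omega
  · omega
  · obtain ⟨-, h1, h2⟩ := h
    have h1 := cQ_inj a h1
    subst h1
    have h2 : i = i' := Fin.ext h2
    rw [h2]

theorem pair_pos (n : ℕ) : Nat.pair 1 n ≠ 0 := by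
  intro h
  have h1 := congrArg (fun m => (Nat.unpair m).1) h
  simp at h1

theorem cO_inj (a : ((LL × Un) × Un) × Un) : Function.Injective (cO a) := by
  rintro (_ | (w | i)) (_ | (w' | i')) h
  · rfl
  · exact absurd h.symm (pair_pos _)
  · exact absurd h.symm (pair_pos _)
  · exact absurd h (pair_pos _)
  · simp only [cO, Nat.pair_eq_pair] at h
    rw [cW_inj _ h.2.2]
  · simp only [cO, Nat.pair_eq_pair] at h
    omega
  · exact absurd h (pair_pos _)
  · simp only [cO, Nat.pair_eq_pair] at h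
    omega
  · simp only [cO, Nat.pair_eq_pair] at h
    rw [Fin.ext h.2.2]

theorem cT_inj (a : (((LL × Un) × Un) × Un) × Un) : Function.Injective (cT a) := by
  rintro (v | ⟨v, i⟩) (v' | ⟨v', i'⟩) h <;> simp only [cT, Nat.pair_eq_pair] at h
  · rw [cO_inj _ h.2]
  · omega
  · omega
  · rw [cO_inj _ h.2.1, Fin.ext h.2.2]

theorem onesL_En (A : LL) : En (fun e : Lb A => (e.1.1.val, e.1.2.val)) (onesL A) := by
  have hm : ∀ x : ℕ × ℕ, x ∈ onesL A ↔ x.1 < A.length ∧ x.2 < A.length ∧ ent A x.1 x.2 = true := by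
    rintro ⟨i, j⟩
    simp [onesL, List.mem_flatMap, List.mem_filter]
  refine ⟨?_, fun x => ?_⟩
  · unfold onesL
    rw [List.nodup_flatMap]
    refine ⟨fun i _ => ?_, ?_⟩
    · refine List.Nodup.map ?_ (List.Nodup.filter _ List.nodup_range)
      intro j j' h
      exact (Prod.ext_iff.1 h).2
    · refine List.Nodup.pairwise_of_forall_ne List.nodup_range ?_
      intro i _ i' _ hii' z hz1 hz2
      obtain ⟨j, -, rfl⟩ := List.mem_map.1 hz1
      obtain ⟨j', -, h⟩ := List.mem_map.1 hz2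
      exact hii' (Prod.ext_iff.1 h).1.symm
  · rw [hm]
    constructor
    · rintro ⟨h1, h2, h3⟩
      exact ⟨⟨(⟨x.1, h1⟩, ⟨x.2, h2⟩), h3⟩, rfl⟩
    · rintro ⟨e, rfl⟩
      exact ⟨e.1.1.isLt, e.1.2.isLt, e.2⟩

/-- the list of the labels of a block -/
def lz (a : (LL × Un) × Un) : ZA a → List ℕ
  | Sum.inl (Sum.inl (Sum.inl i)) => ((onesL a.1.1).filter (fun e => decide (e.1 = i.val))).map
      (fun e => e.1 * a.1.1.length + e.2)
  | Sum.inl (Sum.inl (Sum.inr j)) => ((onesL a.1.1).filter (fun e => decide (e.2 = j.val))).map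
      (fun e => e.1 * a.1.1.length + e.2)
  | Sum.inl (Sum.inr (e, _)) => [labA a.1.1 e]
  | Sum.inr _ => []

theorem filt_En (A : LL) (p : ℕ × ℕ → Bool) (S : Finset (Lb A))
    (hS : ∀ e : Lb A, e ∈ S ↔ p (e.1.1.val, e.1.2.val) = true) :
    En (fun e : {e : Lb A // e ∈ S} => labA A e.1)
      (((onesL A).filter p).map (fun e => e.1 * A.length + e.2)) := by
  have h1 : En (fun e : {e : Lb A // e ∈ S} => (e.1.1.1.val, e.1.1.2.val))
      ((onesL A).filter p) := by
    refine ⟨List.Nodup.filter _ (onesL_En A).nd, fun x => ?_⟩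
    rw [List.mem_filter, (onesL_En A).mem]
    constructor
    · rintro ⟨⟨e, rfl⟩, hp⟩
      exact ⟨⟨e, (hS e).2 hp⟩, rfl⟩
    · rintro ⟨e, rfl⟩
      exact ⟨⟨e.1, rfl⟩, (hS e.1).1 e.2⟩
  refine h1.map (fun e => e.1 * A.length + e.2) ?_
  intro v v' h
  obtain ⟨h2, h3⟩ := code_inj v.1.1.2.isLt v'.1.1.2.isLt h
  exact Prod.ext h2 h3

theorem lz_En (a : (LL × Un) × Un) (z : ZA a) :
    En (fun e : {e : Lb a.1.1 // e ∈ famA a z} => labA a.1.1 e.1) (lz a z) := by
  rcases z with ((i | j) | ⟨e, t⟩) | s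
  · refine filt_En a.1.1 _ _ (fun e => ?_)
    simp only [famA, extA, dumA, blk, Sum.elim_inl, Finset.mem_filter, Finset.mem_univ, true_and,
      decide_eq_true_eq]
    exact Fin.ext_iff
  · refine filt_En a.1.1 _ _ (fun e => ?_)
    simp only [famA, extA, dumA, blk, Sum.elim_inl, Sum.elim_inr, Finset.mem_filter,
      Finset.mem_univ, true_and, decide_eq_true_eq]
    exact Fin.ext_iff
  · refine ⟨List.nodup_singleton _, fun x => ?_⟩
    simp only [lz, List.mem_singleton]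
    constructor
    · rintro rfl
      exact ⟨⟨e, by simp [famA, extA, dumA]⟩, rfl⟩
    · rintro ⟨⟨e', he'⟩, rfl⟩
      have h : e' = e := by simpa [famA, extA, dumA] using he'
      exact congrArg (labA a.1.1) h
  · refine ⟨List.nodup_nil, fun x => ?_⟩
    simp only [lz, List.not_mem_nil, false_iff, not_exists]
    rintro ⟨e', he'⟩
    simp [famA, extA] at he'

theorem zL_En (a : (LL × Un) × Un) : En (fun z => (cZ a z, lz a z)) (zL a) := by
  have h1 : En (fun i : Fin a.1.1.length => (Nat.pair 0 (Nat.pair 0 i.val),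
      ((onesL a.1.1).filter (fun e => decide (e.1 = i.val))).map
        (fun e => e.1 * a.1.1.length + e.2)))
      ((List.range a.1.1.length).map (fun i => (Nat.pair 0 (Nat.pair 0 i),
      ((onesL a.1.1).filter (fun e => decide (e.1 = i))).map
      (fun e => e.1 * a.1.1.length + e.2)))) := by
    refine En.rangeMap a.1.1.length (fun i => (Nat.pair 0 (Nat.pair 0 i),
      ((onesL a.1.1).filter (fun e => decide (e.1 = i))).map
      (fun e => e.1 * a.1.1.length + e.2))) ?_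
    intro i j h
    have h := (Prod.ext_iff.1 h).1
    simp only [Nat.pair_eq_pair] at h
    omega
  have h2 : En (fun j : Fin a.1.1.length => (Nat.pair 0 (Nat.pair 1 j.val),
      ((onesL a.1.1).filter (fun e => decide (e.2 = j.val))).map
        (fun e => e.1 * a.1.1.length + e.2)))
      ((List.range a.1.1.length).map (fun j => (Nat.pair 0 (Nat.pair 1 j),
      ((onesL a.1.1).filter (fun e => decide (e.2 = j))).map
      (fun e => e.1 * a.1.1.length + e.2)))) := by
    refine En.rangeMap a.1.1.length (fun j => (Nat.pair 0 (Nat.pair 1 j),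
      ((onesL a.1.1).filter (fun e => decide (e.2 = j))).map
      (fun e => e.1 * a.1.1.length + e.2))) ?_
    intro i j h
    have h := (Prod.ext_iff.1 h).1
    simp only [Nat.pair_eq_pair] at h
    omega
  have h3 : En (fun p : Σ _ : Lb a.1.1, Fin a.1.2.length =>
      (Nat.pair 1 (Nat.pair (labA a.1.1 p.1) p.2.val), [labA a.1.1 p.1]))
      ((onesL a.1.1).flatMap (fun e => (List.range a.1.2.length).map (fun t =>
      (Nat.pair 1 (Nat.pair (e.1 * a.1.1.length + e.2) t), [e.1 * a.1.1.length + e.2])))) := by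
    refine (onesL_En a.1.1).sigma (fun e => (List.range a.1.2.length).map (fun t =>
      (Nat.pair 1 (Nat.pair (e.1 * a.1.1.length + e.2) t), [e.1 * a.1.1.length + e.2])))
      (fun (e : Lb a.1.1) (t : Fin a.1.2.length) =>
        (Nat.pair 1 (Nat.pair (labA a.1.1 e) t.val), [labA a.1.1 e])) (fun e => ?_) ?_
    · refine En.rangeMap a.1.2.length (fun t =>
        (Nat.pair 1 (Nat.pair (labA a.1.1 e) t), [labA a.1.1 e])) ?_
      intro i j h
      have h := (Prod.ext_iff.1 h).1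
      simp only [Nat.pair_eq_pair] at h
      omega
    · intro e e' t t' h
      have h := (Prod.ext_iff.1 h).1
      simp only [Nat.pair_eq_pair] at h
      rw [labA_inj _ h.2.1]
  have h4 : En (fun s : Fin (a.2.length + 1) => (Nat.pair 2 s.val, ([] : List ℕ)))
      ((List.range (a.2.length + 1)).map (fun s => (Nat.pair 2 s, []))) := by
    refine En.rangeMap (a.2.length + 1) (fun s => (Nat.pair 2 s, ([] : List ℕ))) ?_
    intro i j h
    have h := (Prod.ext_iff.1 h).1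
    simp only [Nat.pair_eq_pair] at h
    omega
  have h5 := ((h1.append h2 ?_).append h3 ?_).append h4 ?_
  · refine En.of_range h5 ?_ ?_
    · rintro (((i | j) | ⟨e, t⟩) | s)
      · exact ⟨Sum.inl (Sum.inl (Sum.inl i)), rfl⟩
      · exact ⟨Sum.inl (Sum.inl (Sum.inr j)), rfl⟩
      · exact ⟨Sum.inl (Sum.inr ⟨e, t⟩), rfl⟩
      · exact ⟨Sum.inr s, rfl⟩
    · rintro (((i | j) | ⟨e, t⟩) | s)
      · exact ⟨Sum.inl (Sum.inl (Sum.inl i)), rfl⟩
      · exact ⟨Sum.inl (Sum.inl (Sum.inr j)), rfl⟩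
      · exact ⟨Sum.inl (Sum.inr (e, t)), rfl⟩
      · exact ⟨Sum.inr s, rfl⟩
  · intro i j h
    have h := (Prod.ext_iff.1 h).1
    simp only [Nat.pair_eq_pair] at h
    omega
  · rintro (i | j) ⟨e, t⟩ h
    · have h := (Prod.ext_iff.1 h).1
      simp only [Sum.elim_inl, Nat.pair_eq_pair] at h
      omega
    · have h := (Prod.ext_iff.1 h).1
      simp only [Sum.elim_inr, Nat.pair_eq_pair] at h
      omega
  · rintro ((i | j) | ⟨e, t⟩) s h
    · have h := (Prod.ext_iff.1 h).1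
      simp only [Sum.elim_inl, Nat.pair_eq_pair] at h
      omega
    · have h := (Prod.ext_iff.1 h).1
      simp only [Sum.elim_inl, Sum.elim_inr, Nat.pair_eq_pair] at h
      omega
    · have h := (Prod.ext_iff.1 h).1
      simp only [Sum.elim_inr, Nat.pair_eq_pair] at h
      omega

/-- the data of an internal vertex -/
def dQ (a : (LL × Un) × Un) : QA a → ℕ × ℕ × ℕ
  | Sum.inl z => (Nat.pair 0 (cZ a z), 0, 2)
  | Sum.inr p => (Nat.pair 1 (Nat.pair (cZ a p.1) (labA a.1.1 p.2.1)),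
      Nat.pair 1 (Nat.pair 0 (Nat.pair 0 (Nat.pair 0 (cZ a p.1)))), 3 + labA a.1.1 p.2.1)

theorem qL_En (a : (LL × Un) × Un) : En (dQ a) (qL a) := by
  have h1 := (zL_En a).map (fun z => (Nat.pair 0 z.1, 0, 2)) (by
    intro v v' h
    have h := (Prod.ext_iff.1 h).1
    simp only [Nat.pair_eq_pair] at h
    rw [cZ_inj a h.2])
  have h2 := (zL_En a).sigma (W := fun z => {e : Lb a.1.1 // e ∈ famA a z})
    (fun z => z.2.map (fun l =>
    (Nat.pair 1 (Nat.pair z.1 l), Nat.pair 1 (Nat.pair 0 (Nat.pair 0 (Nat.pair 0 z.1))), 3 + l)))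
    (fun z e => (Nat.pair 1 (Nat.pair (cZ a z) (labA a.1.1 e.1)),
      Nat.pair 1 (Nat.pair 0 (Nat.pair 0 (Nat.pair 0 (cZ a z)))), 3 + labA a.1.1 e.1))
    (fun z => (lz_En a z).map (fun l => (Nat.pair 1 (Nat.pair (cZ a z) l),
      Nat.pair 1 (Nat.pair 0 (Nat.pair 0 (Nat.pair 0 (cZ a z)))), 3 + l)) (by
        intro v v' h
        have h := (Prod.ext_iff.1 h).1
        simp only [Nat.pair_eq_pair] at h
        exact h.2.2)) (by
      intro z z' e e' h
      have h := (Prod.ext_iff.1 h).1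
      simp only [Nat.pair_eq_pair] at h
      rw [cZ_inj a h.2.1])
  have h3 := h1.append h2 (by
    intro z p h
    have h := (Prod.ext_iff.1 h).1
    simp only [Nat.pair_eq_pair] at h
    omega)
  refine En.of_range h3 ?_ ?_
  · rintro (z | p)
    · exact ⟨Sum.inl z, rfl⟩
    · exact ⟨Sum.inr p, rfl⟩
  · rintro (z | p)
    · exact ⟨Sum.inl z, rfl⟩
    · exact ⟨Sum.inr p, rfl⟩

theorem dQ_fst (a : (LL × Un) × Un) (q : QA a) : (dQ a q).1 = cQ a q := by
  rcases q with z | p <;> rfl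

theorem dQ_snd (a : (LL × Un) × Un) (q : QA a) :
    (dQ a q).2.2 = lsD (famA a) (labA a.1.1) q := by
  rcases q with z | p <;> rfl

theorem dQ_congr (a : (LL × Un) × Un) {q q' : QA a} (h : (dQ a q).1 = (dQ a q').1) : q = q' := by
  rw [dQ_fst, dQ_fst] at h
  exact cQ_inj a h

theorem wL_En (a : (LL × Un) × Un) :
    En (fun w : WA a => Nat.pair 1 (Nat.pair 0 (cW a w))) ((wL a).map Prod.fst) := by
  have h1 := (qL_En a).map (fun q => (Nat.pair 1 (Nat.pair 0 (Nat.pair 0 q.1)))) (by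
    intro v v' h
    simp only [Nat.pair_eq_pair] at h
    rw [dQ_congr a h.2.2.2])
  have h2 := (qL_En a).sigma (W := fun q => Fin (dQ a q).2.2)
    (fun q => (List.range q.2.2).map (fun i =>
    (Nat.pair 1 (Nat.pair 0 (Nat.pair 1 (Nat.pair q.1 i))))))
    (fun q i => Nat.pair 1 (Nat.pair 0 (Nat.pair 1 (Nat.pair (dQ a q).1 i.val))))
    (fun q => En.rangeMap (dQ a q).2.2 (fun i =>
      Nat.pair 1 (Nat.pair 0 (Nat.pair 1 (Nat.pair (dQ a q).1 i)))) (by
        intro v v' h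
        simp only [Nat.pair_eq_pair] at h
        omega)) (by
      intro z z' e e' h
      simp only [Nat.pair_eq_pair] at h
      rw [dQ_congr a h.2.2.2.1])
  have h3 := h1.append h2 (by
    intro z p h
    simp only [Nat.pair_eq_pair] at h
    omega)
  have e1 : (wL a).map Prod.fst =
      (qL a).map (fun q => (Nat.pair 1 (Nat.pair 0 (Nat.pair 0 q.1)))) ++
      (qL a).flatMap (fun q => (List.range q.2.2).map (fun i =>
        (Nat.pair 1 (Nat.pair 0 (Nat.pair 1 (Nat.pair q.1 i)))))) := by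
    unfold wL
    rw [List.map_append, List.map_map, List.map_flatMap]
    simp only [List.map_map]
    rfl
  rw [e1]
  refine En.of_range h3 ?_ ?_
  · rintro (q | ⟨q, i⟩)
    · exact ⟨Sum.inl q, by simp [cW, dQ_fst]⟩
    · refine ⟨Sum.inr ⟨q, Fin.cast (dQ_snd a q).symm i⟩, by simp [cW, dQ_fst]⟩
  · rintro (q | ⟨q, i⟩)
    · exact ⟨Sum.inl q, by simp [cW, dQ_fst]⟩
    · refine ⟨Sum.inr ⟨q, Fin.cast (dQ_snd a q) i⟩, by simp [cW, dQ_fst]⟩

theorem vL_En (a : ((LL × Un) × Un) × Un) : En (cO a) (vL a) := by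
  have h1 := En.rangeMap a.2.length (fun i => Nat.pair 1 (Nat.pair 1 i)) (by
    intro v v' h
    simp only [Nat.pair_eq_pair] at h
    omega)
  have h2 := (wL_En a.1).append h1 (by
    intro z p h
    simp only [Nat.pair_eq_pair] at h
    omega)
  have h3 := h2.opt 0 (by
    rintro (w | i)
    · exact pair_pos _
    · exact pair_pos _)
  have e1 : vL a = 0 :: ((wL a.1).map Prod.fst ++
      (List.range a.2.length).map (fun i => Nat.pair 1 (Nat.pair 1 i))) := by
    unfold vL rL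
    rw [List.map_append, List.map_map]
    rfl
  rw [e1]
  refine En.of_range h3 ?_ ?_
  · rintro (_ | (w | i))
    · exact ⟨none, rfl⟩
    · exact ⟨some (Sum.inl w), rfl⟩
    · exact ⟨some (Sum.inr i), rfl⟩
  · rintro (_ | (w | i))
    · exact ⟨none, rfl⟩
    · exact ⟨some (Sum.inl w), rfl⟩
    · exact ⟨some (Sum.inr i), rfl⟩

theorem treeL_En (a : (((LL × Un) × Un) × Un) × Un) : En (cT a) (treeL a).1 := by
  have h1 := (vL_En a.1).map (fun v => Nat.pair 0 v) (by
    intro v v' h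
    simp only [Nat.pair_eq_pair] at h
    exact h.2)
  have h2 := (vL_En a.1).sigma (W := fun _ => Fin a.2.length)
    (fun v => (List.range a.2.length).map (fun i => Nat.pair 1 (Nat.pair v i)))
    (fun v i => Nat.pair 1 (Nat.pair (cO a.1 v) i.val))
    (fun v => En.rangeMap a.2.length (fun i => Nat.pair 1 (Nat.pair (cO a.1 v) i)) (by
        intro v v' h
        simp only [Nat.pair_eq_pair] at h
        omega)) (by
      intro z z' e e' h
      simp only [Nat.pair_eq_pair] at h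
      exact h.2.1)
  have h3 := h1.append h2 (by
    intro z p h
    simp only [Nat.pair_eq_pair] at h
    omega)
  refine En.of_range h3 ?_ ?_
  · rintro (v | ⟨v, i⟩)
    · exact ⟨Sum.inl v, rfl⟩
    · exact ⟨Sum.inr ⟨v, i⟩, rfl⟩
  · rintro (v | ⟨v, i⟩)
    · exact ⟨Sum.inl v, rfl⟩
    · exact ⟨Sum.inr (v, i), rfl⟩

end T2_ns

theorem T2 : S_T2 := fun a => ⟨T2_ns.cT_inj a, (T2_ns.treeL_En a).nd, (T2_ns.treeL_En a).mem⟩

end Pool.Agent.H695R3.SF
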