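import Pool.Agent.H695R3.SF.Defs2

/-!
# T3: the edges of the list
-/

set_option autoImplicit false

namespace Pool.Agent.H695R3.SF

open Finset
open Pool.Agent.H549R2.Convex (F ent)
open Pool.Agent.NPC Pool.Agent.NPC.Cnt Pool.Agent.NPC.H549NRed

namespace T3_ns

theorem mem_onesL (A : LL) (p : ℕ × ℕ) :
    p ∈ onesL A ↔ p.1 < A.length ∧ p.2 < A.length ∧ ent A p.1 p.2 = true := by
  obtain ⟨i, j⟩ := p
  simp only [onesL, List.mem_flatMap, List.mem_range, List.mem_map, List.mem_filter,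
    Prod.mk.injEq]
  constructor
  · rintro ⟨i', hi', j', ⟨hj', h⟩, rfl, rfl⟩
    exact ⟨hi', hj', h⟩
  · rintro ⟨hi, hj, h⟩
    exact ⟨i, hi, j, ⟨hj, h⟩, rfl, rfl⟩

/-- a one as a label -/
theorem exists_lb (A : LL) (p : ℕ × ℕ) :
    p ∈ onesL A ↔ ∃ e : Lb A, e.1.1.val = p.1 ∧ e.1.2.val = p.2 := by
  rw [mem_onesL]
  constructor
  · rintro ⟨h1, h2, h3⟩
    exact ⟨⟨(⟨p.1, h1⟩, ⟨p.2, h2⟩), h3⟩, rfl, rfl⟩
  · rintro ⟨e, h1, h2⟩
    rw [← h1, ← h2]
    exact ⟨e.1.1.2, e.1.2.2, e.2⟩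

/-- the list of labels of a block -/
def labs (a : (LL × Un) × Un) : ZA a → List ℕ
  | Sum.inl (Sum.inl (Sum.inl i)) => ((onesL a.1.1).filter (fun e => decide (e.1 = i.val))).map
      (fun e => e.1 * a.1.1.length + e.2)
  | Sum.inl (Sum.inl (Sum.inr j)) => ((onesL a.1.1).filter (fun e => decide (e.2 = j.val))).map
      (fun e => e.1 * a.1.1.length + e.2)
  | Sum.inl (Sum.inr (e, _)) => [labA a.1.1 e]
  | Sum.inr _ => []

theorem mem_labs (a : (LL × Un) × Un) (z : ZA a) (l : ℕ) :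
    l ∈ labs a z ↔ ∃ e : {e : Lb a.1.1 // e ∈ famA a z}, labA a.1.1 e.1 = l := by
  rcases z with ((i | j) | ⟨e, t⟩) | s
  · constructor
    · intro h
      simp only [labs, List.mem_map, List.mem_filter, decide_eq_true_eq] at h
      obtain ⟨p, ⟨hp, hpi⟩, rfl⟩ := h
      obtain ⟨e, he1, he2⟩ := (exists_lb _ _).1 hp
      refine ⟨⟨e, ?_⟩, ?_⟩
      · simp only [famA, extA, dumA, blk, Sum.elim_inl, mem_filter, mem_univ, true_and]
        exact Fin.ext (he1.trans hpi)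
      · simp only [labA, he1, he2]
    · rintro ⟨⟨e, he⟩, rfl⟩
      simp only [famA, extA, dumA, blk, Sum.elim_inl, mem_filter, mem_univ, true_and] at he
      simp only [labs, List.mem_map, List.mem_filter, decide_eq_true_eq]
      refine ⟨(e.1.1.val, e.1.2.val), ⟨(exists_lb _ _).2 ⟨e, rfl, rfl⟩, ?_⟩, rfl⟩
      rw [he]
  · constructor
    · intro h
      simp only [labs, List.mem_map, List.mem_filter, decide_eq_true_eq] at h
      obtain ⟨p, ⟨hp, hpj⟩, rfl⟩ := h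
      obtain ⟨e, he1, he2⟩ := (exists_lb _ _).1 hp
      refine ⟨⟨e, ?_⟩, ?_⟩
      · simp only [famA, extA, dumA, blk, Sum.elim_inl, Sum.elim_inr, mem_filter, mem_univ,
          true_and]
        exact Fin.ext (he2.trans hpj)
      · simp only [labA, he1, he2]
    · rintro ⟨⟨e, he⟩, rfl⟩
      simp only [famA, extA, dumA, blk, Sum.elim_inl, Sum.elim_inr, mem_filter, mem_univ,
        true_and] at he
      simp only [labs, List.mem_map, List.mem_filter, decide_eq_true_eq]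
      refine ⟨(e.1.1.val, e.1.2.val), ⟨(exists_lb _ _).2 ⟨e, rfl, rfl⟩, ?_⟩, rfl⟩
      rw [he]
  · constructor
    · intro h
      simp only [labs, List.mem_singleton] at h
      refine ⟨⟨e, ?_⟩, h.symm⟩
      simp only [famA, extA, dumA, Sum.elim_inl, Sum.elim_inr, mem_singleton]
    · rintro ⟨⟨e', he'⟩, rfl⟩
      simp only [famA, extA, dumA, Sum.elim_inl, Sum.elim_inr, mem_singleton] at he'
      simp only [labs, List.mem_singleton]
      rw [he']
  · constructor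
    · intro h
      simp [labs] at h
    · rintro ⟨⟨e', he'⟩, rfl⟩
      simp [famA, extA] at he'

theorem mem_zL (a : (LL × Un) × Un) (x : ℕ × List ℕ) :
    x ∈ zL a ↔ ∃ z : ZA a, x = (cZ a z, labs a z) := by
  constructor
  · intro h
    simp only [zL, List.mem_append, List.mem_map, List.mem_flatMap, List.mem_range] at h
    rcases h with ((⟨i, hi, rfl⟩ | ⟨j, hj, rfl⟩) | ⟨p, hp, t, ht, rfl⟩) | ⟨s, hs, rfl⟩
    · exact ⟨Sum.inl (Sum.inl (Sum.inl ⟨i, hi⟩)), rfl⟩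
    · exact ⟨Sum.inl (Sum.inl (Sum.inr ⟨j, hj⟩)), rfl⟩
    · obtain ⟨e, he1, he2⟩ := (exists_lb _ _).1 hp
      refine ⟨Sum.inl (Sum.inr (e, ⟨t, ht⟩)), ?_⟩
      simp only [cZ, labs, labA, he1, he2]
    · exact ⟨Sum.inr ⟨s, hs⟩, rfl⟩
  · rintro ⟨z, rfl⟩
    simp only [zL, List.mem_append, List.mem_map, List.mem_flatMap, List.mem_range]
    rcases z with ((i | j) | ⟨e, t⟩) | s
    · exact Or.inl (Or.inl (Or.inl ⟨i.val, i.2, rfl⟩))
    · exact Or.inl (Or.inl (Or.inr ⟨j.val, j.2, rfl⟩))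
    · exact Or.inl (Or.inr ⟨(e.1.1.val, e.1.2.val), (exists_lb _ _).2 ⟨e, rfl, rfl⟩,
        t.val, t.2, rfl⟩)
    · exact Or.inr ⟨s.val, s.2, rfl⟩

/-- the name of the parent (in `Option Q`) of an internal vertex -/
def pnQ (a : (LL × Un) × Un) : QA a → ℕ
  | Sum.inl _ => 0
  | Sum.inr p => Nat.pair 1 (Nat.pair 0 (Nat.pair 0 (Nat.pair 0 (cZ a p.1))))

theorem mem_qL (a : (LL × Un) × Un) (x : ℕ × ℕ × ℕ) :
    x ∈ qL a ↔ ∃ q : QA a, x = (cQ a q, pnQ a q, lsD (famA a) (labA a.1.1) q) := by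
  constructor
  · intro h
    simp only [qL, List.mem_append, List.mem_map, List.mem_flatMap] at h
    rcases h with ⟨y, hy, rfl⟩ | ⟨y, hy, l, hl, rfl⟩
    · obtain ⟨z, rfl⟩ := (mem_zL a y).1 hy
      exact ⟨Sum.inl z, rfl⟩
    · obtain ⟨z, rfl⟩ := (mem_zL a y).1 hy
      obtain ⟨e, rfl⟩ := (mem_labs a z l).1 hl
      exact ⟨Sum.inr ⟨z, e⟩, rfl⟩
  · rintro ⟨q, rfl⟩
    simp only [qL, List.mem_append, List.mem_map, List.mem_flatMap]
    rcases q with z | ⟨z, e⟩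
    · exact Or.inl ⟨_, (mem_zL a _).2 ⟨z, rfl⟩, rfl⟩
    · exact Or.inr ⟨_, (mem_zL a _).2 ⟨z, rfl⟩, _, (mem_labs a z _).2 ⟨e, rfl⟩, rfl⟩

/-- the name of the parent of a vertex of the core -/
def pnW (a : (LL × Un) × Un) : WA a → ℕ
  | Sum.inl q => pnQ a q
  | Sum.inr p => Nat.pair 1 (Nat.pair 0 (Nat.pair 0 (cQ a p.1)))

theorem mem_wL (a : (LL × Un) × Un) (x : ℕ × ℕ) :
    x ∈ wL a ↔ ∃ w : WA a, x = (Nat.pair 1 (Nat.pair 0 (cW a w)), pnW a w) := by
  constructor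
  · intro h
    simp only [wL, List.mem_append, List.mem_map, List.mem_flatMap, List.mem_range] at h
    rcases h with ⟨y, hy, rfl⟩ | ⟨y, hy, i, hi, rfl⟩
    · obtain ⟨q, rfl⟩ := (mem_qL a y).1 hy
      exact ⟨Sum.inl q, rfl⟩
    · obtain ⟨q, rfl⟩ := (mem_qL a y).1 hy
      exact ⟨Sum.inr ⟨q, ⟨i, hi⟩⟩, rfl⟩
  · rintro ⟨w, rfl⟩
    simp only [wL, List.mem_append, List.mem_map, List.mem_flatMap, List.mem_range]
    rcases w with q | ⟨q, i⟩
    · exact Or.inl ⟨_, (mem_qL a _).2 ⟨q, rfl⟩, rfl⟩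
    · exact Or.inr ⟨_, (mem_qL a _).2 ⟨q, rfl⟩, i.val, i.2, rfl⟩

/-- the name of the parent of a vertex of the core is correct -/
theorem parO_W (a : ((LL × Un) × Un) × Un) (w : WA a.1) :
    ∃ v, parO a (some (Sum.inl w)) = some v ∧ cO a v = pnW a.1 w := by
  rcases w with (z | p) | p
  · exact ⟨none, rfl, rfl⟩
  · exact ⟨some (Sum.inl (Sum.inl (Sum.inl p.1))), rfl, rfl⟩
  · exact ⟨some (Sum.inl (Sum.inl p.1)), rfl, rfl⟩

theorem mem_rL (a : ((LL × Un) × Un) × Un) (x : ℕ × ℕ) :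
    x ∈ rL a ↔ ∃ u v, parO a u = some v ∧ x = (cO a u, cO a v) := by
  constructor
  · intro h
    simp only [rL, List.mem_append, List.mem_map, List.mem_range] at h
    rcases h with h | ⟨i, hi, rfl⟩
    · obtain ⟨w, rfl⟩ := (mem_wL a.1 x).1 h
      obtain ⟨v, hv1, hv2⟩ := parO_W a w
      exact ⟨some (Sum.inl w), v, hv1, by rw [hv2]; rfl⟩
    · exact ⟨some (Sum.inr ⟨i, hi⟩), none, rfl, rfl⟩
  · rintro ⟨u, v, huv, rfl⟩
    simp only [rL, List.mem_append, List.mem_map, List.mem_range]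
    rcases u with _ | w | i
    · simp [parO] at huv
    · left
      rw [mem_wL]
      obtain ⟨v', hv1, hv2⟩ := parO_W a w
      rw [hv1] at huv
      obtain rfl := Option.some.inj huv
      exact ⟨w, by rw [hv2]; rfl⟩
    · right
      have hv : v = none := by
        have : parO a (some (Sum.inr i)) = some none := rfl
        rw [this] at huv
        exact (Option.some.inj huv).symm
      subst hv
      exact ⟨i.val, i.2, rfl⟩

theorem parO_some (a : ((LL × Un) × Un) × Un) (u : WA a.1 ⊕ Fin a.2.length) :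
    ∃ v, parO a (some u) = some v := by
  rcases u with w | i
  · obtain ⟨v, hv, -⟩ := parO_W a w
    exact ⟨v, hv⟩
  · exact ⟨none, rfl⟩

theorem mem_vL (a : ((LL × Un) × Un) × Un) (n : ℕ) : n ∈ vL a ↔ ∃ v, cO a v = n := by
  simp only [vL, List.mem_cons, List.mem_map]
  constructor
  · rintro (rfl | ⟨x, hx, rfl⟩)
    · exact ⟨none, rfl⟩
    · obtain ⟨u, v, -, rfl⟩ := (mem_rL a x).1 hx
      exact ⟨u, rfl⟩
  · rintro ⟨v, rfl⟩
    rcases v with _ | u
    · exact Or.inl rfl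
    · obtain ⟨v, hv⟩ := parO_some a u
      exact Or.inr ⟨_, (mem_rL a _).2 ⟨some u, v, hv, rfl⟩, rfl⟩

end T3_ns

open T3_ns in
/-- T3: edges -/
theorem T3 : S_T3 := by
  intro a p
  simp only [treeL, List.mem_append, List.mem_map, List.mem_flatMap, List.mem_range]
  constructor
  · rintro (⟨x, hx, rfl⟩ | ⟨n, hn, i, hi, rfl⟩)
    · obtain ⟨u, v, huv, rfl⟩ := (mem_rL a.1 x).1 hx
      exact ⟨Sum.inl u, Sum.inl v, by simp only [parT, huv, Option.map_some], rfl⟩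
    · obtain ⟨v, rfl⟩ := (mem_vL a.1 n).1 hn
      exact ⟨Sum.inr (v, ⟨i, hi⟩), Sum.inl v, rfl, rfl⟩
  · rintro ⟨u, v, huv, rfl⟩
    rcases u with u | ⟨u, i⟩
    · left
      simp only [parT, Option.map_eq_some_iff] at huv
      obtain ⟨v', hv', rfl⟩ := huv
      exact ⟨_, (mem_rL a.1 _).2 ⟨u, v', hv', rfl⟩, rfl⟩
    · right
      have hv : v = Sum.inl u := by
        have : parT a (Sum.inr (u, i)) = some (Sum.inl u) := rfl
        rw [this] at huv
        exact (Option.some.inj huv).symm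
      subst hv
      exact ⟨cO a.1 u, (mem_vL a.1 _).2 ⟨u, rfl⟩, i.val, i.2, rfl⟩

end Pool.Agent.H695R3.SF
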