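import Pool.Agent.H695R3.SF.Defs2

/-! T4 (helper541): adjacency by parents -/

namespace Pool.Agent.H695R3.SF

open Finset
open Pool.Agent.H549R2.Convex (F ent)
open Pool.Agent.NPC Pool.Agent.NPC.Cnt Pool.Agent.NPC.H549NRed

namespace T4_ns

/-- parents in `DD` -/
def p1 {Z L : Type} (A : Z → Finset L) : Option (QQ A) → Option (Option (QQ A))
  | none => none
  | some (Sum.inl _) => some none
  | some (Sum.inr p) => some (some (Sum.inl p.1))

theorem adj1 {Z L : Type} (A : Z → Finset L) (u v : Option (QQ A)) :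
    (DD A).Adj u v ↔ p1 A u = some v ∨ p1 A v = some u := by
  change DDAdj A u v ↔ _
  rcases u with _ | (z | p) <;> rcases v with _ | (z' | p') <;> simp [DDAdj, p1]

/-- parents in `star` -/
def p2 {Q : Type} (pD : Option Q → Option (Option Q)) (ls : Q → ℕ) :
    Option (Q ⊕ (Σ q : Q, Fin (ls q))) → Option (Option (Q ⊕ (Σ q : Q, Fin (ls q))))
  | none => none
  | some (Sum.inl w) => (pD (some w)).map (Option.map Sum.inl)
  | some (Sum.inr p) => some (some (Sum.inl p.1))

theorem adj2 {Q : Type} (D : SimpleGraph (Option Q)) (pD : Option Q → Option (Option Q))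
    (h0 : pD none = none) (hD : ∀ u v, D.Adj u v ↔ pD u = some v ∨ pD v = some u) (ls : Q → ℕ)
    (u v : Option (Q ⊕ (Σ q : Q, Fin (ls q)))) :
    (star D ls).Adj u v ↔ p2 pD ls u = some v ∨ p2 pD ls v = some u := by
  change starAdj D ls u v ↔ _
  rcases u with _ | (w | p) <;> rcases v with _ | (w' | p') <;> simp [starAdj, p2, hD, h0]

/-- parents in `res` -/
def p3 {W : Type} (pC : Option W → Option (Option W)) (R : ℕ) :
    Option (W ⊕ Fin R) → Option (Option (W ⊕ Fin R))
  | none => none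
  | some (Sum.inl w) => (pC (some w)).map (Option.map Sum.inl)
  | some (Sum.inr _) => some none

theorem adj3 {W : Type} (C : SimpleGraph (Option W)) (pC : Option W → Option (Option W))
    (h0 : pC none = none) (hC : ∀ u v, C.Adj u v ↔ pC u = some v ∨ pC v = some u) (R : ℕ)
    (u v : Option (W ⊕ Fin R)) :
    (res C R).Adj u v ↔ p3 pC R u = some v ∨ p3 pC R v = some u := by
  change resAdj C R u v ↔ _
  rcases u with _ | (w | p) <;> rcases v with _ | (w' | p') <;> simp [resAdj, p3, hC, h0]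

theorem parO_eq (a : ((LL × Un) × Un) × Un) (u : Option (WA a.1 ⊕ Fin a.2.length)) :
    parO a u = p3 (p2 (p1 (famA a.1)) (lsD (famA a.1) (labA a.1.1.1))) a.2.length u := by
  rcases u with _ | (((z | p) | q) | i) <;> rfl

theorem adjO (a : ((LL × Un) × Un) × Un) (u v : Option (WA a.1 ⊕ Fin a.2.length)) :
    (res (coreA a.1) a.2.length).Adj u v ↔ parO a u = some v ∨ parO a v = some u := by
  rw [parO_eq, parO_eq]
  exact adj3 (coreA a.1) _ rfl (adj2 (DD (famA a.1)) _ rfl (adj1 (famA a.1)) _) _ u v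

/-- parents in `leafy` -/
def p4 {V : Type} (pG : V → Option V) (x : ℕ) : V ⊕ V × Fin x → Option (V ⊕ V × Fin x)
  | Sum.inl v => (pG v).map Sum.inl
  | Sum.inr p => some (Sum.inl p.1)

theorem adj4 {V : Type} (G : SimpleGraph V) (pG : V → Option V)
    (hG : ∀ u v, G.Adj u v ↔ pG u = some v ∨ pG v = some u) (x : ℕ) (u v : V ⊕ V × Fin x) :
    (leafy G x).Adj u v ↔ p4 pG x u = some v ∨ p4 pG x v = some u := by
  change leafyAdj G x u v ↔ _
  rcases u with u | p <;> rcases v with v | q <;> simp [leafyAdj, p4, hG]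

theorem parT_eq (a : (((LL × Un) × Un) × Un) × Un) (u : VT a) :
    parT a u = p4 (parO a.1) a.2.length u := by
  rcases u with u | p <;> rfl

end T4_ns

theorem T4 : S_T4 := by
  intro a u v
  rw [T4_ns.parT_eq, T4_ns.parT_eq]
  exact T4_ns.adj4 (res (coreA a.1.1) a.1.2.length) (parO a.1) (T4_ns.adjO a.1) a.2.length u v

end Pool.Agent.H695R3.SF
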