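import Pool.Agent.H695R3.SF.Defs2

/-! Task T5 (helper51): graphs given by parents are trees. -/

namespace Pool.Agent.H695R3.SF

open Finset

theorem T5 : S_T5 := by
  classical
  intro V _ G par rk r hr hpar hadj
  choose p hp1 hp2 using hpar
  have hreach : ∀ (n : ℕ) (v : V), rk v ≤ n → G.Reachable v r := by
    intro n
    induction n with
    | zero =>
      intro v hv
      by_cases h : v = r
      · rw [h]
      · have := hp2 v h
        omega
    | succ n ih =>
      intro v hv
      by_cases h : v = r
      · rw [h]
      · have h1 := hp2 v h
        have h2 : G.Adj v (p v h) := (hadj _ _).2 (Or.inl (hp1 v h))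
        exact h2.reachable.trans (ih _ (by omega))
  have hconn : G.Connected := by
    haveI : Nonempty V := ⟨r⟩
    refine ⟨fun u v => (hreach _ u le_rfl).trans (hreach _ v le_rfl).symm⟩
  rw [SimpleGraph.isTree_iff_connected_and_card]
  refine ⟨hconn, ?_⟩
  have hbij : Function.Bijective (fun v : {v : V // v ≠ r} =>
      (⟨s(v.1, p v.1 v.2), by
        rw [SimpleGraph.mem_edgeSet]
        exact (hadj _ _).2 (Or.inl (hp1 v.1 v.2))⟩ : G.edgeSet)) := by
    constructor
    · rintro ⟨v, hv⟩ ⟨w, hw⟩ h
      simp only [Subtype.mk.injEq, Sym2.eq_iff] at h
      rcases h with ⟨h1, -⟩ | ⟨h1, h2⟩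
      · exact Subtype.ext h1
      · exfalso
        have h3 := hp2 v hv
        have h4 := hp2 w hw
        rw [h2] at h3
        rw [← h1] at h4
        omega
    · rintro ⟨e, he⟩
      induction e using Sym2.ind with
      | h u v =>
        rw [SimpleGraph.mem_edgeSet, hadj] at he
        rcases he with h | h
        · have hu : u ≠ r := by
            rintro rfl
            rw [hr] at h
            exact absurd h (by simp)
          refine ⟨⟨u, hu⟩, ?_⟩
          apply Subtype.ext
          have h1 := hp1 u hu
          rw [h, Option.some.injEq] at h1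
          simp only [← h1]
        · have hv : v ≠ r := by
            rintro rfl
            rw [hr] at h
            exact absurd h (by simp)
          refine ⟨⟨v, hv⟩, ?_⟩
          apply Subtype.ext
          have h1 := hp1 v hv
          rw [h, Option.some.injEq] at h1
          simp only [← h1]
          exact Sym2.eq_swap
  rw [← Nat.card_congr (Equiv.ofBijective _ hbij), Nat.card_eq_fintype_card,
    Nat.card_eq_fintype_card, Fintype.card_subtype_compl, Fintype.card_subtype_eq]
  have : 0 < Fintype.card V := Fintype.card_pos_iff.2 ⟨r⟩
  omega

end Pool.Agent.H695R3.SF
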