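import Pool.Agent.H695R3.SF.Defs2

/-!
# T6: the number of isomorphism classes of subgraphs is invariant under isomorphism
-/

namespace Pool.Agent.H695R3.SF

/-- transport of spanning subgraphs along an isomorphism -/
def T6_tr {V V' : Type} {G : SimpleGraph V} {G' : SimpleGraph V'} (e : G ≃g G')
    (H : {H : SimpleGraph V // H ≤ G}) : {H : SimpleGraph V' // H ≤ G'} :=
  ⟨H.1.comap e.symm, fun a b h => by
    have h1 : H.1.Adj (e.symm a) (e.symm b) := h
    have h2 := H.2 h1
    exact (e.symm.map_rel_iff).1 h2⟩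

/-- the transported graph is isomorphic to the original graph -/
theorem T6_iso {V V' : Type} {G : SimpleGraph V} {G' : SimpleGraph V'} (e : G ≃g G')
    (H : {H : SimpleGraph V // H ≤ G}) : Nonempty ((T6_tr e H).1 ≃g H.1) :=
  ⟨SimpleGraph.Iso.comap e.symm.toEquiv H.1⟩

/-- transport as an equivalence -/
def T6_eq {V V' : Type} {G : SimpleGraph V} {G' : SimpleGraph V'} (e : G ≃g G') :
    {H : SimpleGraph V // H ≤ G} ≃ {H : SimpleGraph V' // H ≤ G'} where
  toFun := T6_tr e
  invFun := T6_tr e.symm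
  left_inv := fun H => by
    apply Subtype.ext
    ext a b
    simp [T6_tr]
  right_inv := fun H => by
    apply Subtype.ext
    ext a b
    simp [T6_tr]

theorem T6 : S_T6 := by
  rintro V V' G G' ⟨e⟩
  refine Nat.card_congr (Quotient.congr (T6_eq e) (fun H H' => ?_))
  constructor
  · rintro ⟨f⟩
    obtain ⟨g⟩ := T6_iso e H
    obtain ⟨g'⟩ := T6_iso e H'
    exact ⟨(g.trans f).trans g'.symm⟩
  · rintro ⟨f⟩
    obtain ⟨g⟩ := T6_iso e H
    obtain ⟨g'⟩ := T6_iso e H'
    exact ⟨(g.symm.trans f).trans g'⟩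

end Pool.Agent.H695R3.SF
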