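import Pool.Agent.H695R3.SF.Defs2

/-!
# TOOL: reductions by signed sums
-/

namespace Pool.Agent.H695R3.SF

open Pool.Agent.NPC Pool.Agent.NPC.Cnt Pool.Agent.NPC.H549NRed

namespace TOOL_ns

variable {α β : Type}

/-- value of a term with its answer -/
def vl (p : ((Bool × ℕ × ℕ × ℕ) × β) × ℕ) : ℕ :=
  p.1.1.2.1 * ((p.1.1.2.2.1 * p.2) / p.1.1.2.2.2)

/-- the sum of the terms with a given sign -/
def part (b : Bool) (L : List (((Bool × ℕ × ℕ × ℕ) × β) × ℕ)) : ℕ :=
  ((L.filter (fun p => bif b then p.1.1.1 else !p.1.1.1)).map vl).sum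

theorem part_poly [TEnc α] [TEnc β] (b : Bool)
    {L : α → List (((Bool × ℕ × ℕ × ℕ) × β) × ℕ)} (hL : Poly L) :
    Poly (fun a => part b (L a)) := by
  have hs : Poly (fun z : α × (((Bool × ℕ × ℕ × ℕ) × β) × ℕ) => z.2.1.1.1) :=
    NPC.Poly.fst (NPC.Poly.fst (NPC.Poly.fst (NPC.Poly.snd NPC.Poly.id)))
  have h1 : Poly (fun a => (L a).filter (fun p => bif b then p.1.1.1 else !p.1.1.1)) :=
    NPC.Poly.filter (p := fun (_ : α) p => bif b then p.1.1.1 else !p.1.1.1) hL
      (NPC.Poly.cond (NPC.Poly.const b) hs (NPC.Poly.not hs))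
  have hp : Poly (fun z : α × (((Bool × ℕ × ℕ × ℕ) × β) × ℕ) => z.2) := NPC.Poly.snd NPC.Poly.id
  have hc : Poly (fun z : α × (((Bool × ℕ × ℕ × ℕ) × β) × ℕ) => z.2.1.1.2) :=
    NPC.Poly.snd (NPC.Poly.fst (NPC.Poly.fst hp))
  have h2 : Poly (fun z : α × (((Bool × ℕ × ℕ × ℕ) × β) × ℕ) => vl z.2) :=
    NPC.Poly.mul (NPC.Poly.fst hc) (NPC.Poly.div (NPC.Poly.mul (NPC.Poly.fst (NPC.Poly.snd hc)) (NPC.Poly.snd hp))
      (NPC.Poly.snd (NPC.Poly.snd hc)))
  exact NPC.Poly.sum (NPC.Poly.map (F := fun (_ : α) p => vl p) h1 h2)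

theorem part_eq (f : β → ℕ) (L : List ((Bool × ℕ × ℕ × ℕ) × β)) :
    ((part true (L.zip ((L.map Prod.snd).map f)) : ℕ) : ℤ) -
      (part false (L.zip ((L.map Prod.snd).map f)) : ℕ) = (L.map (tval f)).sum := by
  induction L with
  | nil => simp [part]
  | cons t L ih =>
    rw [List.map_cons, List.map_cons, List.zip_cons_cons, List.map_cons, List.sum_cons, ← ih]
    rcases t with ⟨⟨s, m, p, d⟩, q⟩
    cases s
    · have h1 : part true ((((false, m, p, d), q), f q) ::
          L.zip ((L.map Prod.snd).map f)) = part true (L.zip ((L.map Prod.snd).map f)) := by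
        simp [part]
      have h2 : part false ((((false, m, p, d), q), f q) ::
          L.zip ((L.map Prod.snd).map f)) =
          m * ((p * f q) / d) + part false (L.zip ((L.map Prod.snd).map f)) := by
        simp [part, vl]
      have h3 : tval f ((false, m, p, d), q) = -((m * ((p * f q) / d) : ℕ) : ℤ) := by
        simp [tval]
      rw [h1, h2, h3, Nat.cast_add]
      ring
    · have h1 : part false ((((true, m, p, d), q), f q) ::
          L.zip ((L.map Prod.snd).map f)) = part false (L.zip ((L.map Prod.snd).map f)) := by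
        simp [part]
      have h2 : part true ((((true, m, p, d), q), f q) ::
          L.zip ((L.map Prod.snd).map f)) =
          m * ((p * f q) / d) + part true (L.zip ((L.map Prod.snd).map f)) := by
        simp [part, vl]
      have h3 : tval f ((true, m, p, d), q) = ((m * ((p * f q) / d) : ℕ) : ℤ) := by
        simp [tval]
      rw [h1, h2, h3, Nat.cast_add]
      ring

end TOOL_ns

open TOOL_ns in
theorem TOOL : S_TOOL := by
  intro α β _ _ D h S f tm den htm hden hS hpos hsum
  refine ⟨fun a => (tm a).map Prod.snd, fun p => (part true ((tm p.1).zip p.2) -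
    part false ((tm p.1).zip p.2)) / den p.1, ?_, ?_, ?_⟩
  · exact NPC.Poly.map (F := fun (_ : α) (t : (Bool × ℕ × ℕ × ℕ) × β) => t.2) htm
      (NPC.Poly.snd (NPC.Poly.snd NPC.Poly.id))
  · have hz : Poly (fun p : α × List ℕ => (tm p.1).zip p.2) :=
      NPC.Poly.zip (htm.comp (NPC.Poly.fst NPC.Poly.id)) (NPC.Poly.snd NPC.Poly.id)
    exact NPC.Poly.div (NPC.Poly.sub (part_poly true hz) (part_poly false hz))
      (hden.comp (NPC.Poly.fst NPC.Poly.id))
  · intro a ha
    constructor
    · intro b hb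
      rw [List.mem_map] at hb
      obtain ⟨t, ht, rfl⟩ := hb
      exact hS a ha t ht
    · have h1 := part_eq f (tm a)
      have h2 := hsum a ha
      simp only
      have h3 : part true ((tm a).zip (((tm a).map Prod.snd).map f)) -
          part false ((tm a).zip (((tm a).map Prod.snd).map f)) = den a * h a := by
        rw [← h2] at h1
        have h4 : ((den a * h a : ℕ) : ℤ) = (den a : ℤ) * (h a : ℤ) := by push_cast; ring
        rw [← h4] at h1
        omega
      rw [h3, Nat.mul_div_cancel_left _ (hpos a ha)]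

end Pool.Agent.H695R3.SF
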